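import Pool.Agent.helper41.EX.Basics

/-! # EXS-Arch: few pairs of elements of `A_j` are close -/

namespace Pool.Agent.helper41.EX

open Finset

variable {P : Finset ℕ} {y0 y k Δ a0 : ℕ}

theorem Arch_lt (E : Env P y0 y k Δ a0) : y0 < y := by
  have hne : P.Nonempty := by
    rw [← Finset.card_pos]
    have h1 := E.two_k
    have h2 := E.k_pos
    omega
  obtain ⟨p, hp⟩ := hne
  exact lt_of_lt_of_le (E.gt p hp) (E.le p hp)

theorem Arch_two_B (E : Env P y0 y k Δ a0) {j i B : ℕ} (hi : i ≤ j)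
    (hB : 2 * B * y ^ (2 * i) ≤ y0 ^ j) : 2 * B ≤ y0 ^ (j - i) := by
  by_contra hcon
  have hcon' : y0 ^ (j - i) < 2 * B := not_le.1 hcon
  have h0 : 0 < y0 := E.y0_pos
  have hy : y0 ≤ y := (Arch_lt E).le
  have hy1 : 1 ≤ y := le_trans h0 hy
  have e : y0 ^ j = y0 ^ (j - i) * y0 ^ i := by
    rw [← pow_add, Nat.sub_add_cancel hi]
  have h1 : y0 ^ (j - i) * y0 ^ i < 2 * B * y0 ^ i :=
    Nat.mul_lt_mul_of_pos_right hcon' (pow_pos h0 i)
  have h2 : 2 * B * y0 ^ i ≤ 2 * B * y ^ (2 * i) := by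
    apply Nat.mul_le_mul_left
    calc y0 ^ i ≤ y ^ i := Nat.pow_le_pow_left hy i
      _ ≤ y ^ (2 * i) := Nat.pow_le_pow_right hy1 (by omega)
  rw [e] at hB
  exact absurd (lt_of_lt_of_le h1 (h2.trans hB)) (lt_irrefl _)

theorem arch (E : Env P y0 y k Δ a0) {j i B : ℕ} (hj : j ≤ k) (hi : i ≤ j)
    (hB : 2 * B * y ^ (2 * i) ≤ y0 ^ j) :
    (((A P j) ×ˢ (A P j)).filter (fun p => |p.1 - p.2| < (B : ℤ))).card * N P i ≤
      Δ ^ 2 * N P j ^ 2 := by
  classical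
  have hfac : ∀ u : ℤ, ∃ ab : ℤ × ℤ, u ∈ A P j →
      ab.1 ∈ A P i ∧ ab.2 ∈ A P (j - i) ∧ ab.1 * ab.2 = u := by
    intro u
    by_cases hu : u ∈ A P j
    · have hu' : u ∈ A P (i + (j - i)) := by rwa [Nat.add_sub_cancel' hi]
      obtain ⟨x, hx, v, hv, h⟩ := A_fact hu'
      exact ⟨(x, v), fun _ => ⟨hx, hv, h⟩⟩
    · exact ⟨(0, 0), fun h => absurd h hu⟩
  choose f hf using hfac
  have h2B := Arch_two_B E hi hB
  have hcard : (((A P j) ×ˢ (A P j)).filter (fun p => |p.1 - p.2| < (B : ℤ))).card ≤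
      ((A P i) ×ˢ ((A P (j - i)) ×ˢ (A P (j - i)))).card := by
    apply Finset.card_le_card_of_injOn (fun p => ((f p.1).1, ((f p.1).2, (f p.2).2)))
    · intro p hp
      have hp' := Finset.mem_filter.1 (Finset.mem_coe.1 hp)
      obtain ⟨hp1, hp2⟩ := Finset.mem_product.1 hp'.1
      obtain ⟨a1, a2, a3⟩ := hf p.1 hp1
      obtain ⟨b1, b2, b3⟩ := hf p.2 hp2
      exact Finset.mem_coe.2 (Finset.mem_product.2 ⟨a1, Finset.mem_product.2 ⟨a2, b2⟩⟩)
    · intro p hp q hq hpq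
      have hp' := Finset.mem_filter.1 (Finset.mem_coe.1 hp)
      have hq' := Finset.mem_filter.1 (Finset.mem_coe.1 hq)
      obtain ⟨hp1, hp2⟩ := Finset.mem_product.1 hp'.1
      obtain ⟨hq1, hq2⟩ := Finset.mem_product.1 hq'.1
      obtain ⟨a1, a2, a3⟩ := hf p.1 hp1
      obtain ⟨b1, b2, b3⟩ := hf p.2 hp2
      obtain ⟨c1, c2, c3⟩ := hf q.1 hq1
      obtain ⟨d1, d2, d3⟩ := hf q.2 hq2
      simp only [Prod.mk.injEq] at hpq
      obtain ⟨e1, e2, e3⟩ := hpq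
      have h1 : p.1 = q.1 := by rw [← a3, ← c3, e1, e2]
      have hge : (y0 : ℤ) ^ (j - i) ≤ (f p.2).2 := A_ge E.gt b2
      have h2B' : (2 * B : ℤ) ≤ (y0 : ℤ) ^ (j - i) := by exact_mod_cast h2B
      have hp3 := abs_lt.1 hp'.2
      have hq3 := abs_lt.1 hq'.2
      have hdvd : (f p.2).2 ∣ p.2 - q.2 := by
        refine ⟨(f p.2).1 - (f q.2).1, ?_⟩
        have hh : p.2 - q.2 = (f p.2).1 * (f p.2).2 - (f q.2).1 * (f q.2).2 := by rw [b3, d3]
        rw [hh, ← e3]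
        ring
      have hlt : |p.2 - q.2| < (f p.2).2 := by
        rw [abs_lt]
        rw [← h1] at hq3
        constructor <;> linarith [hp3.1, hp3.2, hq3.1, hq3.2]
      have hz : p.2 - q.2 = 0 := Int.eq_zero_of_abs_lt_dvd hdvd hlt
      exact Prod.ext h1 (sub_eq_zero.1 hz)
  rw [Finset.card_product, Finset.card_product, card_A E.prime, card_A E.prime] at hcard
  have hbin : N P i * N P (j - i) ≤ Δ * N P j := by
    have := E.bin i (j - i) (by omega)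
    rwa [Nat.add_sub_cancel' hi] at this
  calc _ ≤ (N P i * (N P (j - i) * N P (j - i))) * N P i := Nat.mul_le_mul_right _ hcard
    _ = (N P i * N P (j - i)) ^ 2 := by ring
    _ ≤ (Δ * N P j) ^ 2 := Nat.pow_le_pow_left hbin 2
    _ = Δ ^ 2 * N P j ^ 2 := by ring

end Pool.Agent.helper41.EX
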