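import Mathlib

/-! # EXS-Averaging: a dilate with a large sumset -/

namespace Pool.Agent.helper41.EX

open Finset
open scoped Pointwise

/-- Cauchy-Schwarz for the fibres of a map. -/
theorem Averaging_cs {α β : Type*} [DecidableEq α] [DecidableEq β] (s : Finset α) (f : α → β) :
    s.card ^ 2 ≤ (s.image f).card * ((s ×ˢ s).filter (fun q => f q.1 = f q.2)).card := by
  have h1 : s.card = ∑ v ∈ s.image f, (s.filter (fun x => f x = v)).card :=
    Finset.card_eq_sum_card_image f s
  have h2 : ((s ×ˢ s).filter (fun q => f q.1 = f q.2)).card =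
      ∑ v ∈ s.image f, (s.filter (fun x => f x = v)).card ^ 2 := by
    rw [Finset.card_eq_sum_card_fiberwise (f := fun q : α × α => f q.1) (t := s.image f)]
    · refine Finset.sum_congr rfl fun v _ => ?_
      rw [sq, ← Finset.card_product]
      congr 1
      ext ⟨x, y⟩
      simp only [Finset.mem_filter, Finset.mem_product]
      constructor
      · rintro ⟨⟨⟨h3, h4⟩, h5⟩, h6⟩
        exact ⟨⟨h3, h6⟩, h4, h5 ▸ h6⟩
      · rintro ⟨⟨h3, h4⟩, h5, h6⟩
        exact ⟨⟨⟨h3, h5⟩, h4.trans h6.symm⟩, h4⟩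
    · rintro ⟨x, y⟩ hq
      have h3 := (Finset.mem_filter.1 hq).1
      exact Finset.mem_image_of_mem f (Finset.mem_product.1 h3).1
  rw [h2]
  conv_lhs => rw [h1]
  exact sq_sum_le_card_mul_sum_sq

theorem averaging {r : ℕ} [Fact r.Prime] (S : Finset (ZMod r)) (hS : S.Nonempty) :
    ∃ ξ : ZMod r, min (S.card ^ 2) r ≤ 2 * (S + S.image (fun s => ξ * s)).card := by
  classical
  set s : Finset (ZMod r × ZMod r) := S ×ˢ S with hs
  let f : ZMod r → ZMod r × ZMod r → ZMod r := fun ξ q => q.1 + ξ * q.2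
  let E : ZMod r → ℕ := fun ξ => ((s ×ˢ s).filter (fun q => f ξ q.1 = f ξ q.2)).card
  have hcard : s.card = S.card ^ 2 := by rw [hs, Finset.card_product, sq]
  have himg : ∀ ξ, s.image (f ξ) = S + S.image (fun s => ξ * s) := by
    intro ξ
    ext v
    simp only [Finset.mem_image, Finset.mem_add, hs, Finset.mem_product]
    constructor
    · rintro ⟨⟨a, b⟩, ⟨ha, hb⟩, rfl⟩
      exact ⟨a, ha, ξ * b, ⟨b, hb, rfl⟩, rfl⟩
    · rintro ⟨a, ha, _, ⟨b, hb, rfl⟩, rfl⟩
      exact ⟨(a, b), ⟨ha, hb⟩, rfl⟩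
  have hsum : ∑ ξ, E ξ ≤ r * s.card + s.card ^ 2 := by
    have h1 : ∑ ξ, E ξ = ∑ q ∈ s ×ˢ s,
        (Finset.univ.filter (fun ξ : ZMod r => f ξ q.1 = f ξ q.2)).card := by
      simp only [E, Finset.card_filter]
      rw [Finset.sum_comm]
    have h2 : ∀ q ∈ s ×ˢ s, (Finset.univ.filter (fun ξ : ZMod r => f ξ q.1 = f ξ q.2)).card ≤
        (if q.1 = q.2 then r else 0) + 1 := by
      rintro ⟨⟨a, b⟩, ⟨c, d⟩⟩ _
      by_cases h3 : ((a, b) : ZMod r × ZMod r) = (c, d)
      · simp only
        rw [if_pos h3]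
        have h4 := Finset.card_le_univ (Finset.univ.filter
          (fun ξ : ZMod r => f ξ (a, b) = f ξ (c, d)))
        rw [ZMod.card] at h4
        omega
      · simp only
        rw [if_neg h3, zero_add, Finset.card_le_one]
        intro x hx y hy
        have h4 : a + x * b = c + x * d := (Finset.mem_filter.1 hx).2
        have h5 : a + y * b = c + y * d := (Finset.mem_filter.1 hy).2
        have h6 : (x - y) * (b - d) = 0 := by linear_combination h4 - h5
        rcases mul_eq_zero.1 h6 with h7 | h7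
        · exact sub_eq_zero.1 h7
        · exfalso
          have h8 : b = d := sub_eq_zero.1 h7
          rw [h8] at h4
          exact h3 (by rw [add_right_cancel h4, h8])
    rw [h1]
    refine (Finset.sum_le_sum h2).trans ?_
    rw [Finset.sum_add_distrib, Finset.sum_const, Finset.card_product, smul_eq_mul, mul_one, sq]
    refine Nat.add_le_add_right ?_ _
    rw [← Finset.sum_filter, Finset.sum_const, smul_eq_mul, mul_comm]
    refine Nat.mul_le_mul_left _ ?_
    refine Finset.card_le_card_of_injOn (fun q => q.1) ?_ ?_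
    · intro q hq
      exact (Finset.mem_product.1 (Finset.mem_filter.1 hq).1).1
    · rintro ⟨x, y⟩ hq ⟨x', y'⟩ hq' h
      have h3 : x = y := (Finset.mem_filter.1 hq).2
      have h4 : x' = y' := (Finset.mem_filter.1 hq').2
      have h5 : x = x' := h
      rw [← h3, ← h4, h5]
  obtain ⟨ξ, _, hξ⟩ := Finset.exists_min_image (Finset.univ : Finset (ZMod r)) E
    ⟨0, Finset.mem_univ _⟩
  refine ⟨ξ, ?_⟩
  have h1 : r * E ξ ≤ r * s.card + s.card ^ 2 := by
    have h2 : r * E ξ = ∑ _ξ' : ZMod r, E ξ := by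
      rw [Finset.sum_const, Finset.card_univ, ZMod.card, smul_eq_mul]
    rw [h2]
    exact (Finset.sum_le_sum fun ξ' _ => hξ ξ' (Finset.mem_univ _)).trans hsum
  have h2 := Averaging_cs s (f ξ)
  rw [himg ξ] at h2
  set T := (S + S.image (fun s => ξ * s)).card with hT
  have hpos : 0 < s.card := by
    rw [hcard]
    exact pow_pos hS.card_pos 2
  rw [← hcard]
  -- `n² ≤ T E`, `r E ≤ r n + n²`
  have h3 : r * s.card ≤ T * (r + s.card) := by
    have h4 : s.card * (r * s.card) ≤ s.card * (T * (r + s.card)) := by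
      calc s.card * (r * s.card) = r * s.card ^ 2 := by ring
        _ ≤ r * (T * E ξ) := Nat.mul_le_mul_left _ h2
        _ = T * (r * E ξ) := by ring
        _ ≤ T * (r * s.card + s.card ^ 2) := Nat.mul_le_mul_left _ h1
        _ = s.card * (T * (r + s.card)) := by ring
    exact Nat.le_of_mul_le_mul_left h4 hpos
  have hr : 0 < r := (Fact.out : r.Prime).pos
  rcases le_total s.card r with h5 | h5
  · rw [min_eq_left h5]
    have h6 : r * s.card ≤ r * (2 * T) := by
      calc r * s.card ≤ T * (r + s.card) := h3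
        _ ≤ T * (r + r) := Nat.mul_le_mul_left _ (Nat.add_le_add_left h5 _)
        _ = r * (2 * T) := by ring
    exact Nat.le_of_mul_le_mul_left h6 hr
  · rw [min_eq_right h5]
    have h6 : s.card * r ≤ s.card * (2 * T) := by
      calc s.card * r = r * s.card := by ring
        _ ≤ T * (r + s.card) := h3
        _ ≤ T * (s.card + s.card) := Nat.mul_le_mul_left _ (Nat.add_le_add_right h5 _)
        _ = s.card * (2 * T) := by ring
    exact Nat.le_of_mul_le_mul_left h6 hpos

end Pool.Agent.helper41.EX
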