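import Mathlib

/-! # EXS-Bsg: Balog-Szemeredi-Gowers -/

namespace Pool.Agent.helper41.EX

open Finset
open scoped Pointwise

/-- the neighbours of `b` -/
private def Bsg_N (A : Finset ℤ) (Γ : Finset (ℤ × ℤ)) (b : ℤ) : Finset ℤ :=
  A.filter (fun a => (a, b) ∈ Γ)

/-- the common neighbours of `a` and `a'` -/
private def Bsg_cn (B : Finset ℤ) (Γ : Finset (ℤ × ℤ)) (a a' : ℤ) : Finset ℤ :=
  B.filter (fun b => (a, b) ∈ Γ ∧ (a', b) ∈ Γ)

private theorem Bsg_card (A B : Finset ℤ) (Γ : Finset (ℤ × ℤ)) (hΓ : Γ ⊆ A ×ˢ B) :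
    Γ.card = ∑ b ∈ B, (Bsg_N A Γ b).card := by
  rw [card_eq_sum_card_fiberwise (f := Prod.snd) (t := B)
    (fun p hp => (mem_product.1 (hΓ hp)).2)]
  refine sum_congr rfl fun b _ => ?_
  refine card_bij' (fun p _ => p.1) (fun a _ => (a, b)) ?_ ?_ ?_ ?_
  · intro p hp
    rw [mem_filter] at hp
    refine mem_filter.2 ⟨(mem_product.1 (hΓ hp.1)).1, ?_⟩
    rw [← hp.2]
    exact hp.1
  · intro a ha
    exact mem_filter.2 ⟨(mem_filter.1 ha).2, rfl⟩
  · intro p hp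
    rw [mem_filter] at hp
    exact Prod.ext rfl hp.2.symm
  · intro a _
    rfl

open Classical in
/-- double counting of the bad pairs -/
private theorem Bsg_bad (A B : Finset ℤ) (Γ : Finset (ℤ × ℤ)) (bad : ℤ → ℤ → Prop) :
    ∑ b ∈ B, ((Bsg_N A Γ b ×ˢ Bsg_N A Γ b).filter (fun p => bad p.1 p.2)).card =
      ∑ p ∈ A ×ˢ A, if bad p.1 p.2 then (Bsg_cn B Γ p.1 p.2).card else 0 := by
  have h1 : ∀ b, ((Bsg_N A Γ b ×ˢ Bsg_N A Γ b).filter (fun p => bad p.1 p.2)) =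
      (A ×ˢ A).filter (fun p => ((p.1, b) ∈ Γ ∧ (p.2, b) ∈ Γ) ∧ bad p.1 p.2) := by
    intro b
    ext p
    simp only [Bsg_N, mem_filter, mem_product]
    tauto
  simp only [h1, card_filter]
  rw [sum_comm]
  refine sum_congr rfl fun p _ => ?_
  by_cases hb : bad p.1 p.2
  · simp only [hb, and_true, if_true]
    rw [← card_filter]
    rfl
  · simp only [hb, and_false, if_false, sum_const_zero]

open Classical in
/-- the number of quadruples with a given difference -/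
private theorem Bsg_quad (B C : Finset ℤ) (Γ : Finset (ℤ × ℤ))
    (hsum : ∀ e ∈ Γ, e.1 + e.2 ∈ C) (A1 : Finset ℤ) (a a' : ℤ) :
    ∑ c ∈ A1, (Bsg_cn B Γ a c).card * (Bsg_cn B Γ a' c).card ≤
      (((C ×ˢ C) ×ˢ (C ×ˢ C)).filter
        (fun q => (q.1.1 - q.1.2) - (q.2.1 - q.2.2) = a - a')).card := by
  have h1 : ∑ c ∈ A1, (Bsg_cn B Γ a c).card * (Bsg_cn B Γ a' c).card =
      (A1.sigma (fun c => Bsg_cn B Γ a c ×ˢ Bsg_cn B Γ a' c)).card := by
    rw [card_sigma]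
    exact sum_congr rfl fun c _ => (card_product _ _).symm
  rw [h1]
  refine card_le_card_of_injOn
    (fun x => ((a + x.2.1, x.1 + x.2.1), (a' + x.2.2, x.1 + x.2.2))) ?_ ?_
  · rintro ⟨c, b, b'⟩ hx
    rw [mem_coe, mem_sigma, mem_product] at hx
    simp only [Bsg_cn, mem_filter] at hx
    obtain ⟨_, ⟨_, h2, h3⟩, _, h4, h5⟩ := hx
    rw [mem_coe, mem_filter]
    simp only [mem_product]
    exact ⟨⟨⟨hsum _ h2, hsum _ h3⟩, hsum _ h4, hsum _ h5⟩, by ring⟩
  · rintro ⟨c, b, b'⟩ _ ⟨c1, b1, b1'⟩ _ h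
    simp only [Prod.mk.injEq] at h
    obtain ⟨⟨h2, h3⟩, h4, _⟩ := h
    have e1 : b = b1 := by linarith
    have e2 : b' = b1' := by linarith
    have e3 : c = c1 := by linarith
    subst e1 e2 e3
    rfl

theorem bsg (A B C : Finset ℤ) (Γ : Finset (ℤ × ℤ)) (M κ : ℝ) (hM : 0 < M) (hκ : 1 ≤ κ)
    (hA : (A.card : ℝ) ≤ M) (hB : (B.card : ℝ) ≤ M) (hC : (C.card : ℝ) ≤ M)
    (hΓ : Γ ⊆ A ×ˢ B) (hsum : ∀ e ∈ Γ, e.1 + e.2 ∈ C) (hbig : M ^ 2 / κ ≤ (Γ.card : ℝ)) :
    ∃ A' : Finset ℤ, A' ⊆ A ∧ M / (2 * κ) ≤ (A'.card : ℝ) ∧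
      ((A' - A').card : ℝ) ≤ 10 ^ 4 * κ ^ 5 * M := by
  classical
  have hκ0 : 0 < κ := by linarith
  set τ : ℝ := M / (32 * κ ^ 2) with hτ
  have hτ0 : 0 < τ := by positivity
  set bad : ℤ → ℤ → Prop := fun a a' => ((Bsg_cn B Γ a a').card : ℝ) < τ with hbad
  -- the degrees
  have hdeg : (Γ.card : ℝ) = ∑ b ∈ B, ((Bsg_N A Γ b).card : ℝ) := by
    rw [Bsg_card A B Γ hΓ]
    push_cast
    rfl
  have hcs : M ^ 3 / κ ^ 2 ≤ ∑ b ∈ B, ((Bsg_N A Γ b).card : ℝ) ^ 2 := by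
    have h1 := sq_sum_le_card_mul_sum_sq (s := B) (f := fun b => ((Bsg_N A Γ b).card : ℝ))
    rw [← hdeg] at h1
    have h2 : (M ^ 2 / κ) ^ 2 ≤ (Γ.card : ℝ) ^ 2 := by
      apply pow_le_pow_left₀ (by positivity) hbig
    have h3 : (B.card : ℝ) * ∑ b ∈ B, ((Bsg_N A Γ b).card : ℝ) ^ 2 ≤
        M * ∑ b ∈ B, ((Bsg_N A Γ b).card : ℝ) ^ 2 :=
      mul_le_mul_of_nonneg_right hB (sum_nonneg fun _ _ => by positivity)
    have h4 : M * (M ^ 3 / κ ^ 2) ≤ M * ∑ b ∈ B, ((Bsg_N A Γ b).card : ℝ) ^ 2 := by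
      calc M * (M ^ 3 / κ ^ 2) = (M ^ 2 / κ) ^ 2 := by field_simp
        _ ≤ _ := h2.trans (h1.trans h3)
    exact le_of_mul_le_mul_left h4 hM
  -- the bad pairs
  set bb : ℤ → ℕ := fun b =>
    ((Bsg_N A Γ b ×ˢ Bsg_N A Γ b).filter (fun p => bad p.1 p.2)).card with hbb
  have hbs : ∑ b ∈ B, (bb b : ℝ) ≤ M ^ 3 / (32 * κ ^ 2) := by
    have h1 := Bsg_bad A B Γ bad
    have h2 : ∑ b ∈ B, (bb b : ℝ) =
        ∑ p ∈ A ×ˢ A, if bad p.1 p.2 then ((Bsg_cn B Γ p.1 p.2).card : ℝ) else 0 := by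
      have h3 := congrArg (fun n : ℕ => (n : ℝ)) h1
      push_cast at h3
      exact h3
    rw [h2]
    calc _ ≤ ∑ _p ∈ A ×ˢ A, τ := by
          refine sum_le_sum fun p _ => ?_
          split_ifs with h
          · exact le_of_lt h
          · exact hτ0.le
      _ = (A.card : ℝ) * A.card * τ := by
          rw [sum_const, card_product, nsmul_eq_mul]
          push_cast
          ring
      _ ≤ M * M * τ := by gcongr
      _ = _ := by rw [hτ]; field_simp
  -- the good vertex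
  obtain ⟨b, hb, hb1⟩ : ∃ b ∈ B, M ^ 2 / (2 * κ ^ 2) ≤
      ((Bsg_N A Γ b).card : ℝ) ^ 2 - 16 * bb b := by
    have hne : B.Nonempty := by
      rw [nonempty_iff_ne_empty]
      rintro rfl
      rw [sum_empty] at hcs
      have : 0 < M ^ 3 / κ ^ 2 := by positivity
      linarith
    refine exists_le_of_sum_le hne ?_
    rw [sum_const, nsmul_eq_mul, sum_sub_distrib, ← mul_sum]
    have h1 : (B.card : ℝ) * (M ^ 2 / (2 * κ ^ 2)) ≤ M * (M ^ 2 / (2 * κ ^ 2)) :=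
      mul_le_mul_of_nonneg_right hB (by positivity)
    have h2 : M * (M ^ 2 / (2 * κ ^ 2)) = M ^ 3 / κ ^ 2 - 16 * (M ^ 3 / (32 * κ ^ 2)) := by
      field_simp
      ring
    linarith
  set A1 : Finset ℤ := Bsg_N A Γ b with hA1
  have hA1A : A1 ⊆ A := filter_subset _ _
  set n1 : ℝ := (A1.card : ℝ) with hn1
  have hbb0 : (0 : ℝ) ≤ bb b := Nat.cast_nonneg _
  have hn1sq : M ^ 2 / (2 * κ ^ 2) ≤ n1 ^ 2 := by linarith
  have hn10 : 0 < n1 := by
    have h1 : 0 < M ^ 2 / (2 * κ ^ 2) := by positivity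
    have h2 : 0 ≤ n1 := Nat.cast_nonneg _
    rcases h2.lt_or_eq with h | h
    · exact h
    · rw [← h] at hn1sq
      norm_num at hn1sq
      linarith
  have hn1low : M / κ ≤ 3 / 2 * n1 := by
    by_contra hcon
    have h1 : (3 / 2 * n1) ^ 2 < (M / κ) ^ 2 :=
      pow_lt_pow_left₀ (not_le.1 hcon) (by positivity) (by norm_num)
    have h2 : M ^ 2 / (2 * κ ^ 2) = (M / κ) ^ 2 / 2 := by field_simp
    rw [h2] at hn1sq
    nlinarith
  -- the set `A'`
  set badN : ℤ → Finset ℤ := fun a => A1.filter (fun c => bad a c) with hbadN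
  set A' : Finset ℤ := A1.filter (fun a => 4 * (badN a).card ≤ A1.card) with hA'
  have hA'A1 : A' ⊆ A1 := filter_subset _ _
  have hbadc : ∑ a ∈ A1, ((badN a).card : ℝ) = bb b := by
    have h1 : ∑ a ∈ A1, (badN a).card = bb b := by
      rw [hbb]
      simp only [← hA1]
      rw [card_filter, sum_product]
      refine sum_congr rfl fun a _ => ?_
      rw [hbadN]
      exact card_filter _ _
    have h3 := congrArg (fun n : ℕ => (n : ℝ)) h1
    push_cast at h3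
    exact h3
  have hout : ((A1 \ A').card : ℝ) * (n1 / 4) ≤ bb b := by
    rw [← hbadc]
    calc ((A1 \ A').card : ℝ) * (n1 / 4) = ∑ _a ∈ A1 \ A', n1 / 4 := by
          rw [sum_const, nsmul_eq_mul]
      _ ≤ ∑ a ∈ A1 \ A', ((badN a).card : ℝ) := by
          refine sum_le_sum fun a ha => ?_
          rw [mem_sdiff, hA', mem_filter] at ha
          have h1 : A1.card < 4 * (badN a).card := by
            by_contra h
            exact ha.2 ⟨ha.1, not_lt.1 h⟩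
          have h2 : n1 < 4 * ((badN a).card : ℝ) := by rw [hn1]; exact_mod_cast h1
          linarith
      _ ≤ _ := sum_le_sum_of_subset_of_nonneg sdiff_subset fun _ _ _ => Nat.cast_nonneg _
  have hA'card : 3 / 4 * n1 ≤ (A'.card : ℝ) := by
    have h1 : ((A1 \ A').card : ℝ) + A'.card = n1 := by
      rw [hn1]
      exact_mod_cast card_sdiff_add_card_eq_card hA'A1
    have h2 : 16 * (bb b : ℝ) ≤ n1 ^ 2 := by
      have : 0 < M ^ 2 / (2 * κ ^ 2) := by positivity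
      linarith
    have h3 : ((A1 \ A').card : ℝ) ≤ n1 / 4 := by
      have h4 : ((A1 \ A').card : ℝ) * (n1 / 4) ≤ (n1 / 4) * (n1 / 4) := by nlinarith
      exact le_of_mul_le_mul_right h4 (by positivity)
    linarith
  refine ⟨A', hA'A1.trans hA1A, ?_, ?_⟩
  · have h1 : M / (2 * κ) = (M / κ) / 2 := by field_simp
    rw [h1]
    linarith
  -- the differences
  set Q : Finset ((ℤ × ℤ) × (ℤ × ℤ)) := (C ×ˢ C) ×ˢ (C ×ˢ C) with hQ
  set f : (ℤ × ℤ) × (ℤ × ℤ) → ℤ := fun q => (q.1.1 - q.1.2) - (q.2.1 - q.2.2) with hf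
  have hfib : ∀ δ ∈ A' - A', n1 / 2 * τ ^ 2 ≤ ((Q.filter (fun q => f q = δ)).card : ℝ) := by
    intro δ hδ
    obtain ⟨a, ha, a', ha', rfl⟩ := mem_sub.1 hδ
    have h1 := Bsg_quad B C Γ hsum A1 a a'
    have h2 : (∑ c ∈ A1, ((Bsg_cn B Γ a c).card : ℝ) * (Bsg_cn B Γ a' c).card) ≤
        ((Q.filter (fun q => f q = a - a')).card : ℝ) := by exact_mod_cast h1
    refine le_trans ?_ h2
    set Gd : Finset ℤ := A1 \ (badN a ∪ badN a') with hGd
    have h3 : n1 / 2 ≤ (Gd.card : ℝ) := by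
      have h4 : n1 ≤ Gd.card + (badN a ∪ badN a').card := by
        rw [hn1]
        have h5 : A1.card ≤ Gd.card + (badN a ∪ badN a').card := by
          have h5' : A1.card - (badN a ∪ badN a').card ≤ Gd.card :=
            le_card_sdiff (badN a ∪ badN a') A1
          omega
        exact_mod_cast h5
      have h6 : ((badN a ∪ badN a').card : ℝ) ≤ (badN a).card + (badN a').card := by
        exact_mod_cast card_union_le _ _
      have h7 : 4 * ((badN a).card : ℝ) ≤ n1 := by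
        rw [hn1]
        exact_mod_cast (mem_filter.1 ha).2
      have h8 : 4 * ((badN a').card : ℝ) ≤ n1 := by
        rw [hn1]
        exact_mod_cast (mem_filter.1 ha').2
      linarith
    calc n1 / 2 * τ ^ 2 ≤ (Gd.card : ℝ) * τ ^ 2 := by gcongr
      _ = ∑ _c ∈ Gd, τ * τ := by rw [sum_const, nsmul_eq_mul, sq]
      _ ≤ ∑ c ∈ Gd, ((Bsg_cn B Γ a c).card : ℝ) * (Bsg_cn B Γ a' c).card := by
          refine sum_le_sum fun c hc => ?_
          rw [hGd, mem_sdiff, mem_union, hbadN] at hc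
          simp only [mem_filter, not_or, not_and] at hc
          have h4 := not_lt.1 (hc.2.1 hc.1)
          have h5 := not_lt.1 (hc.2.2 hc.1)
          exact mul_le_mul h4 h5 hτ0.le (hτ0.le.trans h4)
      _ ≤ _ := sum_le_sum_of_subset_of_nonneg sdiff_subset fun _ _ _ => by positivity
  have htot : ((A' - A').card : ℝ) * (n1 / 2 * τ ^ 2) ≤ M ^ 4 := by
    calc ((A' - A').card : ℝ) * (n1 / 2 * τ ^ 2) = ∑ _δ ∈ A' - A', n1 / 2 * τ ^ 2 := by
          rw [sum_const, nsmul_eq_mul]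
      _ ≤ ∑ δ ∈ A' - A', ((Q.filter (fun q => f q = δ)).card : ℝ) := sum_le_sum hfib
      _ ≤ (Q.card : ℝ) := by
          have h1 : ∑ δ ∈ A' - A', (Q.filter (fun q => f q = δ)).card ≤ Q.card := by
            rw [← card_biUnion]
            · exact card_le_card (biUnion_subset.2 fun _ _ => filter_subset _ _)
            · intro x _ y _ hxy
              refine disjoint_filter.2 fun q _ h1 h2 => hxy (h1.symm.trans h2)
          exact_mod_cast h1
      _ = (C.card : ℝ) ^ 4 := by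
          rw [hQ, card_product, card_product]
          push_cast
          ring
      _ ≤ M ^ 4 := pow_le_pow_left₀ (Nat.cast_nonneg _) hC 4
  -- arithmetic
  have h1 : M / κ * (2 / 3) ≤ n1 := by linarith
  have h2 : (M / κ * (2 / 3)) / 2 * τ ^ 2 ≤ n1 / 2 * τ ^ 2 := by gcongr
  have h3 : (M / κ * (2 / 3)) / 2 * τ ^ 2 = M ^ 3 / (3072 * κ ^ 5) := by
    rw [hτ]
    field_simp
    norm_num
  rw [h3] at h2
  have h4 : ((A' - A').card : ℝ) * (M ^ 3 / (3072 * κ ^ 5)) ≤ M ^ 4 :=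
    (mul_le_mul_of_nonneg_left h2 (Nat.cast_nonneg _)).trans htot
  have h5 : ((A' - A').card : ℝ) ≤ 3072 * κ ^ 5 * M := by
    have h6 : ((A' - A').card : ℝ) * (M ^ 3 / (3072 * κ ^ 5)) ≤
        (3072 * κ ^ 5 * M) * (M ^ 3 / (3072 * κ ^ 5)) := by
      refine h4.trans (le_of_eq ?_)
      field_simp
    exact le_of_mul_le_mul_right h6 (by positivity)
  refine h5.trans ?_
  have : 0 < κ ^ 5 * M := by positivity
  nlinarith

end Pool.Agent.helper41.EX
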