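import Pool.Agent.helper41.EX.Key
import Pool.Agent.helper41.EX.Bsg

/-! # EXS-Bal: the balanced triples with one small linear part -/

namespace Pool.Agent.helper41.EX

open Finset
open scoped Pointwise

/-- the numerical part: a graph with few sums whose left side is structured is small -/
theorem Bal_core (θ ρ σ K x a c d : ℝ) (hσ : 0 < σ) (hρ : ρ = 100 * σ) (hK : 1 ≤ K)
    (hx : 1 ≤ x) (hbig : 2430000 * K ^ 11 ≤ x ^ (73 * σ))
    (ha : K * x ^ (θ / 3 + 2 * σ) / (2 * (3 * K ^ 2 * x ^ (5 * σ))) ≤ a)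
    (hd : d ≤ 10 ^ 4 * (3 * K ^ 2 * x ^ (5 * σ)) ^ 5 * (K * x ^ (θ / 3 + 2 * σ)))
    (hc : c = θ) :
    x ^ (c / 3 - ρ) ≤ a ∧ d ≤ x ^ (c / 3 + ρ) := by
  have hx0 : 0 < x := by linarith
  have hK0 : 0 < K := by linarith
  subst hc
  subst hρ
  have hK11 : K ≤ K ^ 11 := by
    calc K = K ^ 1 := (pow_one K).symm
      _ ≤ K ^ 11 := pow_le_pow_right₀ hK (by norm_num)
  constructor
  · refine le_trans ?_ ha
    rw [le_div_iff₀ (by positivity)]
    have h1 : x ^ (c / 3 - 100 * σ) * (2 * (3 * K ^ 2 * x ^ (5 * σ)))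
        = K * (6 * K * (x ^ (c / 3 - 100 * σ) * x ^ (5 * σ))) := by ring
    rw [h1, ← Real.rpow_add hx0]
    refine mul_le_mul_of_nonneg_left ?_ hK0.le
    have h2 : x ^ (c / 3 + 2 * σ) = x ^ (73 * σ) * x ^ (c / 3 - 71 * σ) := by
      rw [← Real.rpow_add hx0]; congr 1; ring
    rw [h2]
    have h3 : x ^ (c / 3 - 100 * σ + 5 * σ) ≤ x ^ (c / 3 - 71 * σ) :=
      Real.rpow_le_rpow_of_exponent_le hx (by linarith)
    have h4 : 6 * K ≤ x ^ (73 * σ) := by
      have : 6 * K ≤ 2430000 * K ^ 11 := by nlinarith [hK11, hK0]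
      linarith
    exact mul_le_mul h4 h3 (by positivity) (by positivity)
  · refine le_trans hd ?_
    have e1 : (x ^ (5 * σ)) ^ 5 = x ^ (25 * σ) := by
      rw [← Real.rpow_natCast, ← Real.rpow_mul hx0.le]
      congr 1
      push_cast
      ring
    have e2 : 10 ^ 4 * (3 * K ^ 2 * x ^ (5 * σ)) ^ 5 * (K * x ^ (c / 3 + 2 * σ))
        = 2430000 * K ^ 11 * (x ^ (25 * σ) * x ^ (c / 3 + 2 * σ)) := by
      rw [mul_pow, e1]; ring
    rw [e2, ← Real.rpow_add hx0]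
    have e3 : x ^ (c / 3 + 100 * σ) = x ^ (73 * σ) * x ^ (25 * σ + (c / 3 + 2 * σ)) := by
      rw [← Real.rpow_add hx0]; congr 1; ring
    rw [e3]
    exact mul_le_mul_of_nonneg_right hbig (by positivity)

open Classical in
theorem balanced (θ : ℝ) (hθ : 0 < θ) (hθ1 : θ ≤ 2) : ∃ σ : ℝ, 0 < σ ∧
    ∃ X0 : ℕ, ∀ X : ℕ, X0 ≤ X → ∀ T : Finset (ℕ × ℕ),
      (∀ t ∈ T, 1 ≤ t.1 ∧ 1 ≤ t.2 ∧ t.1 + t.2 ≤ X ∧ (X : ℝ) ^ (-(θ / 3) - σ) ≤ G X t.1 ∧
        (X : ℝ) ^ (-(θ / 3) - σ) ≤ G X t.2 ∧ (X : ℝ) ^ (-(θ / 3) - σ) ≤ G X (t.1 + t.2) ∧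
        ((lin X t.1 : ℝ) ≤ (X : ℝ) ^ (4 * θ / 27) ∨ (lin X t.2 : ℝ) ≤ (X : ℝ) ^ (4 * θ / 27) ∨
          (lin X (t.1 + t.2) : ℝ) ≤ (X : ℝ) ^ (4 * θ / 27))) →
      (T.card : ℝ) ≤ (X : ℝ) ^ (2 * θ / 3 - σ) := by
  obtain ⟨ρ, hρ0, hρ1, X1, hKEY⟩ := KEY θ hθ hθ1
  have hσ0 : 0 < ρ / 100 := by positivity
  obtain ⟨K, hK1, hcount⟩ := count_G (ρ / 100) hσ0
  refine ⟨ρ / 100, hσ0, max (X1 + 1) (⌈(2430000 * K ^ 11) ^ (1 / (73 * (ρ / 100)))⌉₊ + 1), ?_⟩
  intro X hX T hT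
  generalize hσdef : ρ / 100 = σ at *
  have hρσ : ρ = 100 * σ := by rw [← hσdef]; ring
  have hX1 : X1 ≤ X := by have := le_of_max_le_left hX; omega
  have hXone : 1 ≤ X := by have := le_of_max_le_left hX; omega
  have hx : (1 : ℝ) ≤ (X : ℝ) := by exact_mod_cast hXone
  have hx0 : (0 : ℝ) < (X : ℝ) := by linarith
  have hK0 : 0 < K := by linarith
  have hbig : 2430000 * K ^ 11 ≤ (X : ℝ) ^ (73 * σ) := by
    have h1 : (2430000 * K ^ 11) ^ (1 / (73 * σ)) ≤ (X : ℝ) := by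
      have h2 : ⌈(2430000 * K ^ 11) ^ (1 / (73 * σ))⌉₊ ≤ X := by
        have := le_of_max_le_right hX; omega
      exact (Nat.le_ceil _).trans (by exact_mod_cast h2)
    have h3 : ((2430000 * K ^ 11) ^ (1 / (73 * σ))) ^ (73 * σ) ≤ (X : ℝ) ^ (73 * σ) :=
      Real.rpow_le_rpow (by positivity) h1 (by positivity)
    rwa [← Real.rpow_mul (by positivity), one_div_mul_cancel (by positivity), Real.rpow_one] at h3
  -- the integers with large G
  set S : Finset ℕ := (Icc 1 X).filter (fun n => (X : ℝ) ^ (-(θ / 3 + σ)) ≤ G X n) with hS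
  have hScard : (S.card : ℝ) ≤ K * (X : ℝ) ^ (θ / 3 + 2 * σ) := by
    have h := hcount X hXone (θ / 3 + σ)
    have h2 : θ / 3 + σ + σ = θ / 3 + 2 * σ := by ring
    rw [h2] at h
    exact h
  have hexp : -(θ / 3) - σ = -(θ / 3 + σ) := by ring
  set SL : Finset ℕ := S.filter (fun n => (lin X n : ℝ) ≤ (X : ℝ) ^ (4 * θ / 27)) with hSL
  set Mx : ℝ := K * (X : ℝ) ^ (θ / 3 + 2 * σ) with hMx
  set kap : ℝ := 3 * K ^ 2 * (X : ℝ) ^ (5 * σ) with hkap
  have hMpos : 0 < Mx := by positivity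
  have hX5 : (1 : ℝ) ≤ (X : ℝ) ^ (5 * σ) := Real.one_le_rpow hx (by positivity)
  have hkap1 : 1 ≤ kap := by
    have hK2 : 1 ≤ K ^ 2 := one_le_pow₀ hK1
    calc (1 : ℝ) ≤ 3 * 1 * 1 := by norm_num
      _ ≤ 3 * K ^ 2 * (X : ℝ) ^ (5 * σ) := by gcongr
  have hMk : Mx ^ 2 / kap = (X : ℝ) ^ (2 * θ / 3 - σ) / 3 := by
    rw [div_eq_div_iff (by positivity) (by norm_num), hMx, hkap, mul_pow]
    have h1 : ((X : ℝ) ^ (θ / 3 + 2 * σ)) ^ 2 = (X : ℝ) ^ (2 * θ / 3 - σ) * (X : ℝ) ^ (5 * σ) := by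
      rw [← Real.rpow_natCast, ← Real.rpow_mul hx0.le, ← Real.rpow_add hx0]
      congr 1
      push_cast
      ring
    rw [h1]; ring
  -- the core: a graph whose left side lies in SL is small
  have core : ∀ (A B C : Finset ℤ) (Γ : Finset (ℤ × ℤ)),
      (∀ u ∈ A, ∃ n ∈ SL, u = (n : ℤ)) → (A.card : ℝ) ≤ Mx → (B.card : ℝ) ≤ Mx →
      (C.card : ℝ) ≤ Mx → Γ ⊆ A ×ˢ B → (∀ e ∈ Γ, e.1 + e.2 ∈ C) →
      (Γ.card : ℝ) < (X : ℝ) ^ (2 * θ / 3 - σ) / 3 := by
    intro A B C Γ hAS hA hB hC hΓ hsum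
    by_contra hcon
    push Not at hcon
    rw [← hMk] at hcon
    obtain ⟨A', hA'A, hA'card, hA'diff⟩ := bsg A B C Γ Mx kap hMpos hkap1 hA hB hC hΓ hsum hcon
    obtain ⟨h1, h2⟩ := Bal_core θ ρ σ K (X : ℝ) (A'.card : ℝ) θ ((A' - A').card : ℝ) hσ0 hρσ hK1
      hx hbig hA'card hA'diff rfl
    have h3 := hKEY X hX1 A' (by
      intro u hu
      obtain ⟨n, hn, rfl⟩ := hAS u (hA'A hu)
      rw [hSL, mem_filter, hS, mem_filter, mem_Icc] at hn
      obtain ⟨⟨⟨hn1, hn2⟩, hn3⟩, hn4⟩ := hn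
      refine ⟨by exact_mod_cast hn1, by exact_mod_cast hn2, ?_, ?_⟩
      · rw [Int.toNat_natCast]
        refine le_trans ?_ hn3
        exact Real.rpow_le_rpow_of_exponent_le hx (by linarith)
      · rw [Int.toNat_natCast]; exact hn4) h1
    exact absurd h2 (not_le.mpr h3)
  -- casts
  have hcast : ∀ n : Finset ℕ, (n.image (fun m : ℕ => (m : ℤ))).card = n.card := fun n =>
    card_image_of_injective _ Nat.cast_injective
  have hSLS : (SL.card : ℝ) ≤ Mx := by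
    refine le_trans ?_ hScard
    exact_mod_cast card_le_card (filter_subset _ _)
  have memS : ∀ n : ℕ, 1 ≤ n → n ≤ X → (X : ℝ) ^ (-(θ / 3) - σ) ≤ G X n → n ∈ S := by
    intro n h1 h2 h3
    rw [hexp] at h3
    rw [hS, mem_filter, mem_Icc]
    exact ⟨⟨h1, h2⟩, h3⟩
  by_contra hcon
  push Not at hcon
  -- the three parts
  set T1 := T.filter (fun t => (lin X t.1 : ℝ) ≤ (X : ℝ) ^ (4 * θ / 27)) with hT1
  set T2 := T.filter (fun t => (lin X t.2 : ℝ) ≤ (X : ℝ) ^ (4 * θ / 27)) with hT2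
  set T3 := T.filter (fun t => (lin X (t.1 + t.2) : ℝ) ≤ (X : ℝ) ^ (4 * θ / 27)) with hT3
  have hcov : T ⊆ T1 ∪ (T2 ∪ T3) := by
    intro t ht
    obtain ⟨-, -, -, -, -, -, h⟩ := hT t ht
    rw [mem_union, mem_union, hT1, hT2, hT3, mem_filter, mem_filter, mem_filter]
    rcases h with h | h | h
    · exact Or.inl ⟨ht, h⟩
    · exact Or.inr (Or.inl ⟨ht, h⟩)
    · exact Or.inr (Or.inr ⟨ht, h⟩)
  have hcardle : (T.card : ℝ) ≤ T1.card + (T2.card + T3.card) := by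
    have h1 : T.card ≤ T1.card + (T2.card + T3.card) :=
      (card_le_card hcov).trans ((card_union_le _ _).trans
        (Nat.add_le_add_left (card_union_le _ _) _))
    exact_mod_cast h1
  have b1 : (T1.card : ℝ) < (X : ℝ) ^ (2 * θ / 3 - σ) / 3 := by
    have hinj : Function.Injective (fun t : ℕ × ℕ => ((t.1 : ℤ), (t.2 : ℤ))) := by
      intro s t hst
      simp only [Prod.mk.injEq, Nat.cast_inj] at hst
      exact Prod.ext hst.1 hst.2
    have h := core (SL.image (fun m : ℕ => (m : ℤ))) (S.image (fun m : ℕ => (m : ℤ)))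
      (S.image (fun m : ℕ => (m : ℤ))) (T1.image (fun t : ℕ × ℕ => ((t.1 : ℤ), (t.2 : ℤ))))
      (by
        intro u hu
        obtain ⟨n, hn, rfl⟩ := mem_image.mp hu
        exact ⟨n, hn, rfl⟩)
      (by rw [hcast]; exact hSLS) (by rw [hcast]; exact hScard) (by rw [hcast]; exact hScard)
      (by
        intro e he
        obtain ⟨t, ht, rfl⟩ := mem_image.mp he
        rw [hT1, mem_filter] at ht
        obtain ⟨h1, h2, h3, h4, h5, h6, -⟩ := hT t ht.1
        rw [mem_product]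
        refine ⟨mem_image_of_mem _ ?_, mem_image_of_mem _ (memS _ h2 (by omega) h5)⟩
        rw [hSL, mem_filter]
        exact ⟨memS _ h1 (by omega) h4, ht.2⟩)
      (by
        intro e he
        obtain ⟨t, ht, rfl⟩ := mem_image.mp he
        rw [hT1, mem_filter] at ht
        obtain ⟨h1, h2, h3, h4, h5, h6, -⟩ := hT t ht.1
        exact mem_image.mpr ⟨t.1 + t.2, memS _ (by omega) h3 h6, by push_cast; rfl⟩)
    rwa [card_image_of_injective _ hinj] at h
  have b2 : (T2.card : ℝ) < (X : ℝ) ^ (2 * θ / 3 - σ) / 3 := by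
    have hinj : Function.Injective (fun t : ℕ × ℕ => ((t.2 : ℤ), (t.1 : ℤ))) := by
      intro s t hst
      simp only [Prod.mk.injEq, Nat.cast_inj] at hst
      exact Prod.ext hst.2 hst.1
    have h := core (SL.image (fun m : ℕ => (m : ℤ))) (S.image (fun m : ℕ => (m : ℤ)))
      (S.image (fun m : ℕ => (m : ℤ))) (T2.image (fun t : ℕ × ℕ => ((t.2 : ℤ), (t.1 : ℤ))))
      (by
        intro u hu
        obtain ⟨n, hn, rfl⟩ := mem_image.mp hu
        exact ⟨n, hn, rfl⟩)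
      (by rw [hcast]; exact hSLS) (by rw [hcast]; exact hScard) (by rw [hcast]; exact hScard)
      (by
        intro e he
        obtain ⟨t, ht, rfl⟩ := mem_image.mp he
        rw [hT2, mem_filter] at ht
        obtain ⟨h1, h2, h3, h4, h5, h6, -⟩ := hT t ht.1
        rw [mem_product]
        refine ⟨mem_image_of_mem _ ?_, mem_image_of_mem _ (memS _ h1 (by omega) h4)⟩
        rw [hSL, mem_filter]
        exact ⟨memS _ h2 (by omega) h5, ht.2⟩)
      (by
        intro e he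
        obtain ⟨t, ht, rfl⟩ := mem_image.mp he
        rw [hT2, mem_filter] at ht
        obtain ⟨h1, h2, h3, h4, h5, h6, -⟩ := hT t ht.1
        exact mem_image.mpr ⟨t.1 + t.2, memS _ (by omega) h3 h6, by push_cast; ring⟩)
    rwa [card_image_of_injective _ hinj] at h
  have b3 : (T3.card : ℝ) < (X : ℝ) ^ (2 * θ / 3 - σ) / 3 := by
    have hinj : Function.Injective
        (fun t : ℕ × ℕ => ((((t.1 + t.2 : ℕ) : ℤ)), (-(t.2 : ℤ)))) := by
      intro s t hst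
      simp only [Prod.mk.injEq, Nat.cast_inj, neg_inj] at hst
      exact Prod.ext (by omega) hst.2
    have hneg : (S.image (fun m : ℕ => (-(m : ℤ)))).card = S.card := by
      refine card_image_of_injective _ ?_
      intro a b hab
      simp only [neg_inj, Nat.cast_inj] at hab
      exact hab
    have h := core (SL.image (fun m : ℕ => (m : ℤ))) (S.image (fun m : ℕ => (-(m : ℤ))))
      (S.image (fun m : ℕ => (m : ℤ)))
      (T3.image (fun t : ℕ × ℕ => ((((t.1 + t.2 : ℕ) : ℤ)), (-(t.2 : ℤ)))))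
      (by
        intro u hu
        obtain ⟨n, hn, rfl⟩ := mem_image.mp hu
        exact ⟨n, hn, rfl⟩)
      (by rw [hcast]; exact hSLS) (by rw [hneg]; exact hScard) (by rw [hcast]; exact hScard)
      (by
        intro e he
        obtain ⟨t, ht, rfl⟩ := mem_image.mp he
        rw [hT3, mem_filter] at ht
        obtain ⟨h1, h2, h3, h4, h5, h6, -⟩ := hT t ht.1
        rw [mem_product]
        refine ⟨mem_image.mpr ⟨t.1 + t.2, ?_, rfl⟩,
          mem_image.mpr ⟨t.2, memS _ h2 (by omega) h5, rfl⟩⟩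
        rw [hSL, mem_filter]
        exact ⟨memS _ (by omega) h3 h6, ht.2⟩)
      (by
        intro e he
        obtain ⟨t, ht, rfl⟩ := mem_image.mp he
        rw [hT3, mem_filter] at ht
        obtain ⟨h1, h2, h3, h4, h5, h6, -⟩ := hT t ht.1
        exact mem_image.mpr ⟨t.1, memS _ h1 (by omega) h4, by push_cast; ring⟩)
    rwa [card_image_of_injective _ hinj] at h
  linarith

end Pool.Agent.helper41.EX
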