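import Pool.Agent.helper41.EX.Defs

/-! # EXS-Basics: elementary facts on `A P m` and `N P m` -/

namespace Pool.Agent.helper41.EX

open Finset
open scoped Pointwise

variable {P : Finset ℕ} {y0 y k Δ a0 : ℕ}

theorem Basics_mem_A {m : ℕ} {x : ℤ} :
    x ∈ A P m ↔ ∃ F : Finset ℕ, F ⊆ P ∧ F.card = m ∧ x = ((∏ p ∈ F, p : ℕ) : ℤ) := by
  unfold A
  simp only [mem_image, mem_powersetCard]
  constructor
  · rintro ⟨F, ⟨h1, h2⟩, rfl⟩
    exact ⟨F, h1, h2, by push_cast; rfl⟩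
  · rintro ⟨F, h1, h2, rfl⟩
    exact ⟨F, ⟨h1, h2⟩, by push_cast; rfl⟩

theorem Basics_squarefree {F : Finset ℕ} (hF : ∀ p ∈ F, p.Prime) :
    Squarefree (∏ p ∈ F, p) := by
  induction F using Finset.induction_on with
  | empty => simp
  | insert a s ha ih =>
    rw [prod_insert ha, Nat.squarefree_mul_iff]
    refine ⟨?_, (hF a (mem_insert_self a s)).squarefree, ih (fun p hp => hF p (mem_insert_of_mem hp))⟩
    refine Nat.Coprime.prod_right (fun p hp => ?_)
    rw [Nat.coprime_primes (hF a (mem_insert_self a s)) (hF p (mem_insert_of_mem hp))]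
    rintro rfl
    exact ha hp

theorem card_A (hP : ∀ p ∈ P, p.Prime) (m : ℕ) : (A P m).card = N P m := by
  unfold A N
  rw [card_image_of_injOn, card_powersetCard]
  intro F hF G hG h
  have hF' := (mem_powersetCard.1 (mem_coe.1 hF)).1
  have hG' := (mem_powersetCard.1 (mem_coe.1 hG)).1
  have h' : ((∏ p ∈ F, p : ℕ) : ℤ) = ((∏ p ∈ G, p : ℕ) : ℤ) := by
    push_cast
    exact h
  have h'' : (∏ p ∈ F, p : ℕ) = ∏ p ∈ G, p := by exact_mod_cast h'
  have e1 := Nat.primeFactors_prod (fun p hp => hP p (hF' hp))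
  have e2 := Nat.primeFactors_prod (fun p hp => hP p (hG' hp))
  rw [← e1, ← e2, h'']

theorem A_pos (hP : ∀ p ∈ P, p.Prime) {m : ℕ} {x : ℤ} (hx : x ∈ A P m) : 0 < x := by
  obtain ⟨F, hF, -, rfl⟩ := Basics_mem_A.1 hx
  have : 0 < ∏ p ∈ F, p := prod_pos (fun p hp => (hP p (hF hp)).pos)
  exact_mod_cast this

theorem A_ge (hP : ∀ p ∈ P, y0 < p) {m : ℕ} {x : ℤ} (hx : x ∈ A P m) : (y0 : ℤ) ^ m ≤ x := by
  obtain ⟨F, hF, rfl, rfl⟩ := Basics_mem_A.1 hx
  have : y0 ^ F.card ≤ ∏ p ∈ F, p := by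
    rw [← prod_const]
    exact prod_le_prod' (fun p hp => (hP p (hF hp)).le)
  exact_mod_cast this

theorem A_le (hP : ∀ p ∈ P, p ≤ y) {m : ℕ} {x : ℤ} (hx : x ∈ A P m) : x ≤ (y : ℤ) ^ m := by
  obtain ⟨F, hF, rfl, rfl⟩ := Basics_mem_A.1 hx
  have : ∏ p ∈ F, p ≤ y ^ F.card := by
    rw [← prod_const]
    exact prod_le_prod' (fun p hp => hP p (hF hp))
  exact_mod_cast this

/-- every element of `A P (j+m)` has a factorisation -/
theorem A_fact {j m : ℕ} {a : ℤ} (ha : a ∈ A P (j + m)) :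
    ∃ x ∈ A P j, ∃ v ∈ A P m, x * v = a := by
  obtain ⟨F, hF, hc, rfl⟩ := Basics_mem_A.1 ha
  obtain ⟨G, hG, hGc⟩ := Finset.exists_subset_card_eq (s := F) (n := j) (by omega)
  refine ⟨_, Basics_mem_A.2 ⟨G, hG.trans hF, hGc, rfl⟩, _,
    Basics_mem_A.2 ⟨F \ G, sdiff_subset.trans hF, ?_, rfl⟩, ?_⟩
  · rw [card_sdiff_of_subset hG]
    omega
  · rw [mul_comm, ← prod_sdiff hG]
    push_cast
    rfl

/-- the factors of an element of `A P (j+m)` are coprime -/
theorem A_coprime (hP : ∀ p ∈ P, p.Prime) {j m : ℕ} {x v : ℤ} (hx : x ∈ A P j) (hv : v ∈ A P m)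
    (h : x * v ∈ A P (j + m)) : IsCoprime x v := by
  obtain ⟨F, hF, -, rfl⟩ := Basics_mem_A.1 hx
  obtain ⟨G, hG, -, rfl⟩ := Basics_mem_A.1 hv
  obtain ⟨H, hH, -, h3⟩ := Basics_mem_A.1 h
  have h4 : (∏ p ∈ F, p) * (∏ p ∈ G, p) = ∏ p ∈ H, p := by exact_mod_cast h3
  have h5 : Squarefree ((∏ p ∈ F, p) * (∏ p ∈ G, p)) := by
    rw [h4]
    exact Basics_squarefree (fun p hp => hP p (hH hp))
  exact Nat.isCoprime_iff_coprime.2 (Nat.squarefree_mul_iff.1 h5).1

/-- elements are prime to every integer without prime factor in `P` -/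
theorem A_coprime_of (hP : ∀ p ∈ P, p.Prime) {m : ℕ} {x : ℤ} (hx : x ∈ A P m) {w : ℕ}
    (hw : ∀ p ∈ P, ¬ p ∣ w) : IsCoprime x (w : ℤ) := by
  obtain ⟨F, hF, -, rfl⟩ := Basics_mem_A.1 hx
  rw [Nat.isCoprime_iff_coprime]
  exact Nat.Coprime.prod_left (fun p hp =>
    ((hP p (hF hp)).coprime_iff_not_dvd).2 (hw p (hF hp)))

/-- elements are prime to a prime `r > y` -/
theorem copTo_prime (hP : ∀ p ∈ P, p.Prime) (hle : ∀ p ∈ P, p ≤ y) {m r : ℕ} (hr : r.Prime)
    (hyr : y < r) {V : Finset ℤ} (hV : V ⊆ A P m) : CopTo V r := by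
  intro v hv
  refine A_coprime_of hP (hV hv) (fun p hp hpr => ?_)
  have h1 := (Nat.prime_dvd_prime_iff_eq (hP p hp) hr).1 hpr
  have h2 := hle p hp
  omega

theorem N_add_le (j m : ℕ) : N P (j + m) ≤ N P j * N P m := by
  unfold N
  rcases lt_or_ge P.card (j + m) with h | h
  · rw [Nat.choose_eq_zero_of_lt h]
    exact Nat.zero_le _
  · have h1 := Nat.choose_mul (n := P.card) (Nat.le_add_right j m)
    have h2 : 1 ≤ (j + m).choose j := Nat.choose_pos (Nat.le_add_right j m)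
    have h3 : (P.card - j).choose (j + m - j) ≤ P.card.choose m := by
      rw [Nat.add_sub_cancel_left]
      exact Nat.choose_le_choose m (Nat.sub_le _ _)
    calc P.card.choose (j + m) ≤ P.card.choose (j + m) * (j + m).choose j :=
          Nat.le_mul_of_pos_right _ h2
      _ = P.card.choose j * (P.card - j).choose (j + m - j) := h1
      _ ≤ P.card.choose j * P.card.choose m := Nat.mul_le_mul_left _ h3

theorem N_pos {m : ℕ} (h : m ≤ P.card) : 0 < N P m := Nat.choose_pos h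

theorem Basics_pow_le {n i : ℕ} (hin : i ≤ n) : n ^ i ≤ i ^ i * n.choose i := by
  have h1 : n ^ i * i.descFactorial i ≤ i ^ i * n.descFactorial i := by
    rw [Nat.descFactorial_eq_prod_range, Nat.descFactorial_eq_prod_range,
      ← Finset.card_range i, ← prod_const, ← prod_const, Finset.card_range,
      ← prod_mul_distrib, ← prod_mul_distrib]
    refine prod_le_prod' (fun t ht => ?_)
    have ht' : t < i := mem_range.1 ht
    obtain ⟨a, rfl⟩ : ∃ a, i = t + a := ⟨i - t, by omega⟩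
    obtain ⟨b, rfl⟩ : ∃ b, n = t + a + b := ⟨n - (t + a), by omega⟩
    rw [Nat.add_sub_cancel_left, show t + a + b - t = a + b by omega]
    nlinarith [Nat.zero_le (t * b)]
  rw [Nat.descFactorial_self, Nat.descFactorial_eq_factorial_mul_choose] at h1
  have h2 : 0 < i.factorial := Nat.factorial_pos i
  refine Nat.le_of_mul_le_mul_left ?_ h2
  calc i.factorial * n ^ i = n ^ i * i.factorial := mul_comm _ _
    _ ≤ i ^ i * (i.factorial * n.choose i) := h1
    _ = i.factorial * (i ^ i * n.choose i) := by ring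

/-- `n ^ i ≤ k ^ i (n choose i)` for `i ≤ k`, `i ≤ n` -/
theorem card_pow_le {i : ℕ} (hik : i ≤ k) (hin : i ≤ P.card) : P.card ^ i ≤ k ^ i * N P i :=
  (Basics_pow_le hin).trans (Nat.mul_le_mul_right _ (Nat.pow_le_pow_left hik i))

theorem Env.four_le (E : Env P y0 y k Δ a0) : 4 ≤ Δ :=
  calc 4 = 4 ^ 1 := rfl
    _ ≤ 4 ^ k := Nat.pow_le_pow_right (by norm_num) E.k_pos
    _ ≤ Δ := E.four_k

theorem Env.Npos (E : Env P y0 y k Δ a0) {m : ℕ} (hm : m ≤ k) : 0 < N P m :=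
  N_pos (by have := E.two_k; omega)

/-- `y ^ i ≤ (N_i) ^ a0` for `i ≤ k` -/
theorem Env.y_pow_le (E : Env P y0 y k Δ a0) {i : ℕ} (hi : i ≤ k) : y ^ i ≤ N P i ^ a0 := by
  have hk : 0 < k := E.k_pos
  have h1 : (P.card ^ i) ^ a0 ≤ (k ^ i * N P i) ^ a0 :=
    Nat.pow_le_pow_left (card_pow_le hi (by have := E.two_k; omega)) a0
  have h2 : (y * k ^ a0) ^ i ≤ (P.card ^ a0) ^ i := Nat.pow_le_pow_left E.ratio i
  have h3 : 0 < (k ^ a0) ^ i := by positivity
  refine Nat.le_of_mul_le_mul_right ?_ h3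
  calc y ^ i * (k ^ a0) ^ i = (y * k ^ a0) ^ i := (mul_pow _ _ _).symm
    _ ≤ (P.card ^ a0) ^ i := h2
    _ = (P.card ^ i) ^ a0 := by rw [← pow_mul, ← pow_mul, mul_comm]
    _ ≤ (k ^ i * N P i) ^ a0 := h1
    _ = N P i ^ a0 * (k ^ a0) ^ i := by
      rw [mul_pow, ← pow_mul, ← pow_mul, mul_comm i a0, mul_comm]

theorem Basics_lt (E : Env P y0 y k Δ a0) : y0 < y := by
  have h1 : 0 < P.card := by
    have h2 := E.two_k
    have h3 := E.k_pos
    omega
  obtain ⟨p, hp⟩ := card_pos.1 h1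
  exact lt_of_lt_of_le (E.gt p hp) (E.le p hp)

theorem Env.yy (E : Env P y0 y k Δ a0) {j : ℕ} (hj : j ≤ k) : y ^ j ≤ Δ * y0 ^ j := by
  have hlt := Basics_lt E
  obtain ⟨m, rfl⟩ : ∃ m, k = j + m := ⟨k - j, by omega⟩
  have h3 : 0 < y ^ m := Nat.pow_pos (by omega)
  refine Nat.le_of_mul_le_mul_right ?_ h3
  calc y ^ j * y ^ m = y ^ (j + m) := (pow_add _ _ _).symm
    _ ≤ Δ * y0 ^ (j + m) := E.yy0
    _ = Δ * y0 ^ j * y0 ^ m := by rw [pow_add]; ring
    _ ≤ Δ * y0 ^ j * y ^ m := Nat.mul_le_mul_left _ (Nat.pow_le_pow_left hlt.le m)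

theorem Env.N_le (E : Env P y0 y k Δ a0) (j : ℕ) : N P j ≤ y ^ j := by
  have h1 : P.card ≤ y := by
    have h2 : P ⊆ Ioc 0 y := fun p hp => mem_Ioc.2 ⟨(E.prime p hp).pos, E.le p hp⟩
    have h3 := card_le_card h2
    rwa [Nat.card_Ioc, Nat.sub_zero] at h3
  exact (Nat.choose_le_pow _ _).trans (Nat.pow_le_pow_left h1 j)

theorem VV.mono {m c c' : ℕ} (hΔ : 1 ≤ Δ) (hc : c ≤ c') {V : Finset ℤ} (hV : VV P Δ m c V) :
    VV P Δ m c' V := by
  have h := Nat.pow_le_pow_right hΔ hc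
  exact ⟨hV.sub, hV.dense.trans (Nat.mul_le_mul_right _ h), hV.dbl.trans (Nat.mul_le_mul_right _ h)⟩

theorem VV.nonempty {m c : ℕ} {V : Finset ℤ} (hN : 0 < N P m) (hV : VV P Δ m c V) :
    V.Nonempty := by
  rcases V.eq_empty_or_nonempty with rfl | h
  · have := hV.dense
    rw [card_empty, mul_zero] at this
    omega
  · exact h

theorem nc_mono {d : ℕ} {V W : Finset ℤ} (h : V ⊆ W) : nc d V ≤ nc d W :=
  card_le_card (image_subset_image h)

theorem nc_le_card {d : ℕ} {V : Finset ℤ} : nc d V ≤ V.card := card_image_le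

theorem nc_pos {d : ℕ} {V : Finset ℤ} (h : V.Nonempty) : 0 < nc d V :=
  card_pos.2 (h.image _)

/-- fewer classes modulo a divisor -/
theorem nc_dvd {d w : ℕ} (h : d ∣ w) (V : Finset ℤ) : nc d V ≤ nc w V := by
  unfold nc
  have h1 : V.image (fun v : ℤ => (v : ZMod d)) =
      (V.image (fun v : ℤ => (v : ZMod w))).image (ZMod.castHom h (ZMod d)) := by
    rw [image_image]
    refine image_congr (fun v _ => ?_)
    simp
  rw [h1]
  exact card_image_le

theorem Basics_isUnit {d : ℕ} {x : ℤ} (hx : IsCoprime x (d : ℤ)) : IsUnit (x : ZMod d) := by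
  obtain ⟨a, b, hab⟩ := hx
  have h1 : ((a * x + b * (d : ℤ) : ℤ) : ZMod d) = ((1 : ℤ) : ZMod d) := by rw [hab]
  push_cast at h1
  rw [ZMod.natCast_self, mul_zero, add_zero] at h1
  exact IsUnit.of_mul_eq_one (a : ZMod d) (by rw [mul_comm]; exact h1)

/-- multiplication by a unit does not change the number of classes -/
theorem nc_image_mul {d : ℕ} {x : ℤ} (hx : IsCoprime x (d : ℤ)) (V : Finset ℤ) :
    nc d (V.image (fun v => x * v)) = nc d V := by
  unfold nc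
  have h1 : (V.image (fun v => x * v)).image (fun v : ℤ => (v : ZMod d)) =
      (V.image (fun v : ℤ => (v : ZMod d))).image (fun z => (x : ZMod d) * z) := by
    rw [image_image, image_image]
    refine image_congr (fun v _ => ?_)
    simp
  rw [h1]
  exact card_image_of_injective _ (Basics_isUnit hx).mul_right_injective

end Pool.Agent.helper41.EX
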