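import Pool.Agent.helper41.EX.Defs

/-! # EXS-Bip: double counting in bipartite graphs -/

namespace Pool.Agent.helper41.EX

open Finset

variable {α β : Type*} [DecidableEq α] [DecidableEq β]

/-- few elements have a small fibre -/
theorem Bip_bad {δ γ : Type*} [DecidableEq δ] [DecidableEq γ] (E : Finset δ) (f : δ → γ)
    (Z : Finset γ) (hf : ∀ p ∈ E, f p ∈ Z) (hne : E.Nonempty) :
    4 * (E.filter (fun p => 4 * Z.card * (E.filter (fun q => f q = f p)).card < E.card)).card
      ≤ E.card := by
  set W := E.filter (fun p => 4 * Z.card * (E.filter (fun q => f q = f p)).card < E.card) with hW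
  have hZ : 0 < Z.card := by
    obtain ⟨p, hp⟩ := hne
    exact Finset.card_pos.2 ⟨f p, hf p hp⟩
  have hWE : W ⊆ E := Finset.filter_subset _ _
  have h1 : W.card = ∑ z ∈ Z, (W.filter (fun p => f p = z)).card :=
    Finset.card_eq_sum_card_fiberwise (fun p hp => hf p (hWE hp))
  have h2 : ∀ z ∈ Z, 4 * Z.card * (W.filter (fun p => f p = z)).card ≤ E.card := by
    intro z _
    rcases (W.filter (fun p => f p = z)).eq_empty_or_nonempty with h0 | ⟨p, hp⟩
    · rw [h0]; simp
    · rw [Finset.mem_filter] at hp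
      have h3 := (Finset.mem_filter.1 hp.1).2
      rw [hp.2] at h3
      have h4 : (W.filter (fun p => f p = z)).card ≤ (E.filter (fun q => f q = z)).card :=
        Finset.card_le_card (Finset.filter_subset_filter _ hWE)
      exact (Nat.mul_le_mul_left _ h4).trans h3.le
  have h5 : Z.card * (4 * W.card) ≤ Z.card * E.card := by
    calc Z.card * (4 * W.card) = ∑ z ∈ Z, 4 * Z.card * (W.filter (fun p => f p = z)).card := by
          rw [← Finset.mul_sum, ← h1]; ring
      _ ≤ ∑ _z ∈ Z, E.card := Finset.sum_le_sum h2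
      _ = Z.card * E.card := by rw [Finset.sum_const, smul_eq_mul]
  exact Nat.le_of_mul_le_mul_left h5 hZ

/-- a popular edge -/
theorem popular_edge (X : Finset α) (Y : Finset β) (E : Finset (α × β)) (hE : E ⊆ X ×ˢ Y)
    (hne : E.Nonempty) :
    ∃ e ∈ E, E.card ≤ 4 * X.card * (E.filter (fun p => p.1 = e.1)).card ∧
      E.card ≤ 4 * Y.card * (E.filter (fun p => p.2 = e.2)).card := by
  have h1 := Bip_bad E (fun p => p.1) X (fun p hp => (Finset.mem_product.1 (hE hp)).1) hne
  have h2 := Bip_bad E (fun p => p.2) Y (fun p hp => (Finset.mem_product.1 (hE hp)).2) hne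
  by_contra hcon
  push Not at hcon
  have h3 : E ⊆ E.filter (fun p => 4 * X.card * (E.filter (fun q => q.1 = p.1)).card < E.card) ∪
      E.filter (fun p => 4 * Y.card * (E.filter (fun q => q.2 = p.2)).card < E.card) := by
    intro e he
    rw [Finset.mem_union, Finset.mem_filter, Finset.mem_filter]
    by_cases h : 4 * X.card * (E.filter (fun q => q.1 = e.1)).card < E.card
    · exact Or.inl ⟨he, h⟩
    · exact Or.inr ⟨he, hcon e he (not_lt.1 h)⟩
  have h4 := (Finset.card_le_card h3).trans (Finset.card_union_le _ _)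
  have h5 : 0 < E.card := Finset.card_pos.2 hne
  omega

/-- a vertex of at least average degree -/
theorem exists_deg (X : Finset α) (Y : Finset β) (E : Finset (α × β)) (hE : E ⊆ X ×ˢ Y)
    (hne : E.Nonempty) :
    ∃ v ∈ Y, E.card ≤ Y.card * (E.filter (fun p => p.2 = v)).card ∧
      (E.filter (fun p => p.2 = v)).Nonempty := by
  have h1 : E.card = ∑ v ∈ Y, (E.filter (fun p => p.2 = v)).card :=
    Finset.card_eq_sum_card_fiberwise (fun p hp => (Finset.mem_product.1 (hE hp)).2)
  have hY : Y.Nonempty := by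
    obtain ⟨p, hp⟩ := hne
    exact ⟨p.2, (Finset.mem_product.1 (hE hp)).2⟩
  obtain ⟨v, hv, hmax⟩ := Finset.exists_max_image Y (fun v => (E.filter (fun p => p.2 = v)).card) hY
  have h2 : E.card ≤ Y.card * (E.filter (fun p => p.2 = v)).card := by
    rw [h1]
    calc ∑ w ∈ Y, (E.filter (fun p => p.2 = w)).card
        ≤ ∑ _w ∈ Y, (E.filter (fun p => p.2 = v)).card := Finset.sum_le_sum hmax
      _ = Y.card * (E.filter (fun p => p.2 = v)).card := by rw [Finset.sum_const, smul_eq_mul]
  refine ⟨v, hv, h2, ?_⟩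
  rw [← Finset.card_pos]
  by_contra h0
  have h3 : (E.filter (fun p => p.2 = v)).card = 0 := by omega
  rw [h3, Nat.mul_zero] at h2
  have h4 : 0 < E.card := Finset.card_pos.2 hne
  omega

/-- Cauchy-Schwarz for the degrees -/
theorem sq_card_le (X : Finset α) (Y : Finset β) (E : Finset (α × β)) (hE : E ⊆ X ×ˢ Y) :
    E.card ^ 2 ≤ Y.card * ∑ v ∈ Y, (E.filter (fun p => p.2 = v)).card ^ 2 := by
  have h1 : E.card = ∑ v ∈ Y, (E.filter (fun p => p.2 = v)).card :=
    Finset.card_eq_sum_card_fiberwise (fun p hp => (Finset.mem_product.1 (hE hp)).2)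
  rw [h1]
  exact sq_sum_le_card_mul_sum_sq

/-- colliding pairs: for a map into a set with `s` elements -/
theorem collisions {γ : Type*} [DecidableEq γ] (U : Finset α) (f : α → γ) (T : Finset γ)
    (hf : ∀ u ∈ U, f u ∈ T) :
    U.card ^ 2 ≤ T.card * ((U ×ˢ U).filter (fun p => f p.1 = f p.2)).card := by
  have h1 : U.card = ∑ t ∈ T, (U.filter (fun u => f u = t)).card :=
    Finset.card_eq_sum_card_fiberwise (fun u hu => hf u hu)
  have h2 : ((U ×ˢ U).filter (fun p => f p.1 = f p.2)).card =
      ∑ t ∈ T, (U.filter (fun u => f u = t)).card ^ 2 := by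
    rw [Finset.card_eq_sum_card_fiberwise (f := fun p : α × α => f p.1) (t := T)
      (fun p hp => hf p.1 (Finset.mem_product.1 (Finset.mem_filter.1 hp).1).1)]
    refine Finset.sum_congr rfl (fun t _ => ?_)
    rw [sq, ← Finset.card_product]
    congr 1
    ext p
    simp only [Finset.mem_filter, Finset.mem_product]
    constructor
    · rintro ⟨⟨⟨h1, h2⟩, h3⟩, h4⟩
      exact ⟨⟨h1, h4⟩, h2, h3 ▸ h4⟩
    · rintro ⟨⟨h1, h4⟩, h2, h3⟩
      exact ⟨⟨⟨h1, h2⟩, h4.trans h3.symm⟩, h4⟩
  rw [h2, h1]
  exact sq_sum_le_card_mul_sum_sq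

/-- a fibre of at least average size, and an image bound -/
theorem card_le_mul_fibre {γ : Type*} [DecidableEq γ] (U : Finset α) (f : α → γ) (M : ℕ)
    (hM : ∀ t ∈ U.image f, (U.filter (fun u => f u = t)).card ≤ M) :
    U.card ≤ M * (U.image f).card := by
  have h1 : U.card = ∑ t ∈ U.image f, (U.filter (fun u => f u = t)).card :=
    Finset.card_eq_sum_card_fiberwise (fun u hu => Finset.mem_image_of_mem f hu)
  rw [h1]
  calc ∑ t ∈ U.image f, (U.filter (fun u => f u = t)).card ≤ ∑ _t ∈ U.image f, M :=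
        Finset.sum_le_sum hM
    _ = M * (U.image f).card := by rw [Finset.sum_const, smul_eq_mul, mul_comm]

end Pool.Agent.helper41.EX
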