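import Mathlib

/-! # EXS-Blr: linearity testing -/

namespace Pool.Agent.helper41.EX

open Finset

/-- union bound: three sets, each at most a tenth of the whole, do not cover it -/
theorem Blr_avoid {α : Type*} [Fintype α] [DecidableEq α] {r : ℕ} (hr : Fintype.card α = r)
    (hr0 : 0 < r) (A B C : Finset α) (hA : 10 * A.card ≤ r) (hB : 10 * B.card ≤ r)
    (hC : 10 * C.card ≤ r) : ∃ y, y ∉ A ∧ y ∉ B ∧ y ∉ C := by
  by_contra h
  push Not at h
  have hsub : (univ : Finset α) ⊆ A ∪ B ∪ C := by
    intro y _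
    by_cases h1 : y ∈ A
    · simp [h1]
    by_cases h2 : y ∈ B
    · simp [h2]
    · simp [h y h1 h2]
  have h1 := card_le_card hsub
  have h2 := card_union_le (A ∪ B) C
  have h3 := card_union_le A B
  rw [card_univ, hr] at h1
  omega

/-- few pairs on which the difference function takes different values -/
theorem Blr_pairs {r q : ℕ} [Fact r.Prime] [Fact q.Prime] (f : ZMod r → ZMod q)
    (h2 : 20 * (univ.filter (fun p : ZMod r × ZMod r => f (p.1 + p.2) ≠ f p.1 + f p.2)).card ≤
      r ^ 2) (x : ZMod r) :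
    10 * (univ.filter (fun p : ZMod r × ZMod r =>
      f (x + p.1) - f p.1 ≠ f (x + p.2) - f p.2)).card ≤ r ^ 2 := by
  set B := univ.filter (fun p : ZMod r × ZMod r => f (p.1 + p.2) ≠ f p.1 + f p.2) with hB
  have hsub : univ.filter (fun p : ZMod r × ZMod r =>
      f (x + p.1) - f p.1 ≠ f (x + p.2) - f p.2) ⊆
      B.image (fun p : ZMod r × ZMod r => (p.1 - x, p.2)) ∪
        B.image (fun p : ZMod r × ZMod r => (p.2, p.1 - x)) := by
    intro p hp
    rw [mem_filter] at hp
    by_contra hc
    rw [mem_union, not_or] at hc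
    have a1 : f (x + p.1 + p.2) = f (x + p.1) + f p.2 := by
      by_contra hne
      apply hc.1
      refine mem_image.mpr ⟨(x + p.1, p.2), ?_, ?_⟩
      · rw [hB, mem_filter]
        exact ⟨mem_univ _, hne⟩
      · ext <;> simp
    have a2 : f (x + p.2 + p.1) = f (x + p.2) + f p.1 := by
      by_contra hne
      apply hc.2
      refine mem_image.mpr ⟨(x + p.2, p.1), ?_, ?_⟩
      · rw [hB, mem_filter]
        exact ⟨mem_univ _, hne⟩
      · ext <;> simp
    apply hp.2
    have a3 : x + p.1 + p.2 = x + p.2 + p.1 := by ring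
    rw [a3, a2] at a1
    linear_combination -a1
  have c1 := card_le_card hsub
  have c2 := card_union_le (B.image (fun p : ZMod r × ZMod r => (p.1 - x, p.2)))
    (B.image (fun p : ZMod r × ZMod r => (p.2, p.1 - x)))
  have c3 : (B.image (fun p : ZMod r × ZMod r => (p.1 - x, p.2))).card ≤ B.card :=
    card_image_le
  have c4 : (B.image (fun p : ZMod r × ZMod r => (p.2, p.1 - x))).card ≤ B.card :=
    card_image_le
  omega

/-- the most popular value of the difference function -/
theorem Blr_value {r q : ℕ} [Fact r.Prime] [Fact q.Prime] (g : ZMod r → ZMod q)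
    (h : 10 * (univ.filter (fun p : ZMod r × ZMod r => g p.1 ≠ g p.2)).card ≤ r ^ 2) :
    ∃ c : ZMod q, 10 * (univ.filter (fun y : ZMod r => g y ≠ c)).card ≤ r := by
  by_contra hc
  push Not at hc
  have hsum : (univ.filter (fun p : ZMod r × ZMod r => g p.1 ≠ g p.2)).card =
      ∑ y : ZMod r, (univ.filter (fun z : ZMod r => g z ≠ g y)).card := by
    rw [card_filter, Fintype.sum_prod_type]
    refine sum_congr rfl fun y _ => ?_
    rw [card_filter]
    refine sum_congr rfl fun z _ => ?_
    by_cases hgz : g y = g z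
    · simp [hgz]
    · simp [hgz, Ne.symm hgz]
  have hlow : ∑ _y : ZMod r, (r + 1) ≤
      ∑ y : ZMod r, 10 * (univ.filter (fun z : ZMod r => g z ≠ g y)).card :=
    sum_le_sum fun y _ => hc (g y)
  rw [← mul_sum, ← hsum, sum_const, card_univ, ZMod.card, smul_eq_mul] at hlow
  have hr0 : 0 < r := (Fact.out : r.Prime).pos
  nlinarith [hlow, h, hr0]

theorem blr {r q : ℕ} [Fact r.Prime] [Fact q.Prime] (hrq : r ≠ q) (f : ZMod r → ZMod q)
    (h1 : 20 * (univ.filter (fun x : ZMod r => f (x + 1) ≠ f x + 1)).card ≤ r)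
    (h2 : 20 * (univ.filter (fun p : ZMod r × ZMod r => f (p.1 + p.2) ≠ f p.1 + f p.2)).card ≤
      r ^ 2) : False := by
  have hr0 : 0 < r := (Fact.out : r.Prime).pos
  have hex : ∀ x : ZMod r, ∃ c : ZMod q,
      10 * (univ.filter (fun y : ZMod r => f (x + y) - f y ≠ c)).card ≤ r := fun x =>
    Blr_value (fun y => f (x + y) - f y) (Blr_pairs f h2 x)
  choose F hF using hex
  have hadd : ∀ x x' : ZMod r, F (x + x') = F x + F x' := by
    intro x x'
    obtain ⟨y, hy1, hy2, hy3⟩ := Blr_avoid (ZMod.card r) hr0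
      (univ.filter (fun y : ZMod r => f (x + x' + y) - f y ≠ F (x + x')))
      ((univ.filter (fun y : ZMod r => f (x + y) - f y ≠ F x)).image (fun y => y - x'))
      (univ.filter (fun y : ZMod r => f (x' + y) - f y ≠ F x'))
      (hF (x + x')) (le_trans (Nat.mul_le_mul_left 10 card_image_le) (hF x)) (hF x')
    have e1 : f (x + x' + y) - f y = F (x + x') := by
      by_contra hne
      exact hy1 (mem_filter.mpr ⟨mem_univ _, hne⟩)
    have e2 : f (x + (x' + y)) - f (x' + y) = F x := by
      by_contra hne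
      exact hy2 (mem_image.mpr ⟨x' + y, mem_filter.mpr ⟨mem_univ _, hne⟩, by ring⟩)
    have e3 : f (x' + y) - f y = F x' := by
      by_contra hne
      exact hy3 (mem_filter.mpr ⟨mem_univ _, hne⟩)
    have e4 : x + x' + y = x + (x' + y) := by ring
    rw [e4] at e1
    rw [← e1, ← e2, ← e3]
    ring
  have hF0 : F 0 = 0 := by
    have h := hadd 0 0
    rw [add_zero] at h
    linear_combination -h
  have hmul : ∀ n : ℕ, F (n : ZMod r) = (n : ZMod q) * F 1 := by
    intro n
    induction n with
    | zero => simp [hF0]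
    | succ n ih =>
      push_cast
      rw [hadd, ih]
      ring
  have hr1 : (r : ZMod q) * F 1 = 0 := by
    rw [← hmul r, ZMod.natCast_self, hF0]
  have hF1 : F 1 = 1 := by
    obtain ⟨y, hy1, hy2, _⟩ := Blr_avoid (ZMod.card r) hr0
      (univ.filter (fun y : ZMod r => f (1 + y) - f y ≠ F 1))
      (univ.filter (fun y : ZMod r => f (y + 1) ≠ f y + 1))
      ∅ (hF 1) (by omega) (by simp)
    have e1 : f (1 + y) - f y = F 1 := by
      by_contra hne
      exact hy1 (mem_filter.mpr ⟨mem_univ _, hne⟩)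
    have e2 : f (y + 1) = f y + 1 := by
      by_contra hne
      exact hy2 (mem_filter.mpr ⟨mem_univ _, hne⟩)
    rw [← e1, add_comm 1 y, e2]
    ring
  rw [hF1, mul_one] at hr1
  have hdvd : q ∣ r := (ZMod.natCast_eq_zero_iff r q).mp hr1
  exact hrq ((Nat.prime_dvd_prime_iff_eq (Fact.out : q.Prime) (Fact.out : r.Prime)).mp hdvd).symm

end Pool.Agent.helper41.EX
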