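import Pool.Agent.helper41.EX.Fibre

/-! # EXS-Descend: passing to a lower level -/

namespace Pool.Agent.helper41.EX

open Finset
open scoped Pointwise

variable {P : Finset ℕ} {y0 y k Δ a0 : ℕ}

theorem descend (E : Env P y0 y k Δ a0) {M k' c w : ℕ} (hM : M ≤ k') (hk' : k' ≤ k)
    {V : Finset ℤ} (hV : VV P Δ k' c V) (hcop : CopTo V w) :
    ∃ Y : Finset ℤ, VV P Δ M (7 * c + 5) Y ∧ CopTo Y w ∧ ∀ d : ℕ, d ∣ w → nc d Y ≤ nc d V := by
  obtain ⟨j, rfl⟩ : ∃ j, k' = j + M := ⟨k' - M, by omega⟩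
  obtain ⟨x, hx, hY, hne⟩ := fibre E hk' hV
  have hmem : ∀ v ∈ fib P M V x, x * v ∈ V := by
    intro v hv
    unfold fib at hv
    exact (Finset.mem_filter.1 hv).2
  have hxw : IsCoprime x (w : ℤ) := by
    obtain ⟨v, hv⟩ := hne
    exact (hcop _ (hmem v hv)).of_mul_left_left
  refine ⟨fib P M V x, hY, ?_, ?_⟩
  · intro v hv
    exact (hcop _ (hmem v hv)).of_mul_left_right
  · intro d hd
    have hxd : IsCoprime x (d : ℤ) :=
      hxw.of_isCoprime_of_dvd_right (Int.natCast_dvd_natCast.2 hd)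
    rw [← nc_image_mul hxd]
    apply nc_mono
    intro z hz
    obtain ⟨v, hv, rfl⟩ := Finset.mem_image.1 hz
    exact hmem v hv

end Pool.Agent.helper41.EX
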