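import Pool.Agent.helper41.EX.InnerG
import Pool.Agent.helper41.EX.Descend

/-! # EXS-ChainG: dense structured sets are nearly full modulo `r` -/

namespace Pool.Agent.helper41.EX

open Finset
open scoped Pointwise

variable {P : Finset ℕ} {y0 y k Δ a0 : ℕ}

/-- the losses at the levels `I, I - 1, ...` -/
def ChainG_C (c : ℕ) : ℕ → ℕ
  | 0 => c
  | s + 1 => 7 * ChainG_C c s + 7

theorem ChainG_C_le (c s : ℕ) : ChainG_C c s + 2 ≤ 7 ^ s * (c + 2) := by
  induction s with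
  | zero => simp [ChainG_C]
  | succ s ih =>
    have h : 7 ^ (s + 1) * (c + 2) = 7 * (7 ^ s * (c + 2)) := by ring
    rw [h]
    simp only [ChainG_C]
    omega

/-- the chain: some ratio of consecutive terms is at most the `I`-th root of `r` -/
theorem ChainG_step (a : ℕ → ℕ) (I r : ℕ) (hI : 1 ≤ I) (h0 : 1 ≤ a 0) (hI' : a I ≤ r) :
    ∃ i, i < I ∧ a (i + 1) ^ I ≤ r * a i ^ I := by
  by_contra hcon
  push Not at hcon
  have key : ∀ i, i ≤ I → r ^ i ≤ a i ^ I ∧ (1 ≤ i → r ^ i < a i ^ I) := by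
    intro i
    induction i with
    | zero =>
      intro _
      refine ⟨?_, fun h => absurd h (by omega)⟩
      simpa using Nat.one_le_pow I (a 0) h0
    | succ i ih =>
      intro hi
      have h1 := (ih (by omega)).1
      have h2 := hcon i (by omega)
      have h3 : r ^ (i + 1) < a (i + 1) ^ I := by
        calc r ^ (i + 1) = r * r ^ i := by ring
          _ ≤ r * a i ^ I := Nat.mul_le_mul_left _ h1
          _ < a (i + 1) ^ I := h2
      exact ⟨h3.le, fun _ => h3⟩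
  have h4 := (key I le_rfl).2 hI
  have h5 : a I ^ I ≤ r ^ I := Nat.pow_le_pow_left hI' I
  omega

/-- minimal number of classes -/
theorem ChainG_min (m c r : ℕ) (hne : ∃ V : Finset ℤ, VV P Δ m c V) :
    ∃ V : Finset ℤ, VV P Δ m c V ∧ ∀ W : Finset ℤ, VV P Δ m c W → nc r V ≤ nc r W := by
  classical
  have hex : ∃ n, ∃ V : Finset ℤ, VV P Δ m c V ∧ nc r V = n := by
    obtain ⟨V, hV⟩ := hne
    exact ⟨_, V, hV, rfl⟩
  obtain ⟨V, hV, hn⟩ := Nat.find_spec hex
  refine ⟨V, hV, fun W hW => ?_⟩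
  rw [hn]
  exact Nat.find_min' hex ⟨W, hW, rfl⟩

theorem ChainG_nc_le (r : ℕ) (hr : 1 ≤ r) (V : Finset ℤ) : nc r V ≤ r := by
  have : NeZero r := ⟨by omega⟩
  unfold nc
  calc (V.image (fun v : ℤ => (v : ZMod r))).card ≤ (Finset.univ : Finset (ZMod r)).card :=
        Finset.card_le_card (Finset.subset_univ _)
    _ = r := by rw [Finset.card_univ, ZMod.card]

theorem chainG (E : Env P y0 y k Δ a0) {j I c r t : ℕ} (hI : 1 ≤ I) (hj : 1 ≤ j)
    (hk : 2 ^ I * j ≤ k) (hrp : r.Prime) (hyr : y < r) (hr : r ≤ y ^ j)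
    (hne : ∃ V : Finset ℤ, VV P Δ (2 ^ I * j) c V) (ht : a0 ≤ 2 ^ t)
    (hbig : Δ ^ (2 * (a0 * (2 * (7 ^ I * (c + 2)) + 7) + 1) + a0) ≤ r) :
    ∃ K2 : ℕ, 1 ≤ K2 ∧
      K2 ^ I ≤ Δ ^ (I * (a0 * (40 * (7 ^ I * (c + 2)) + 50) * 16 ^ (t + 2))) *
        (2 ^ I * r) ^ (2 * a0 * 16 ^ (t + 2)) ∧
      ∀ V : Finset ℤ, VV P Δ (2 ^ I * j) c V → r ≤ K2 * nc r V := by
  classical
  have hΔ : 1 ≤ Δ := le_trans (by norm_num) E.four_le
  have hy : 1 ≤ y := by
    by_contra h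
    have : y = 0 := by omega
    subst this
    rw [zero_pow (by omega)] at hr
    exact absurd hrp.pos (by omega)
  have hmk : ∀ i, i ≤ I → 2 ^ i * j ≤ k := fun i hi =>
    le_trans (Nat.mul_le_mul_right _ (Nat.pow_le_pow_right (by norm_num) hi)) hk
  -- the descent
  have hdesc : ∀ i, i + 1 ≤ I → ∀ c' : ℕ, ∀ V : Finset ℤ, VV P Δ (2 ^ (i + 1) * j) c' V →
      ∃ Y : Finset ℤ, VV P Δ (2 ^ i * j) (7 * c' + 7) Y ∧ nc r Y ≤ nc r V := by
    intro i hi c' V hV
    have h1 : 2 ^ i * j ≤ 2 ^ (i + 1) * j :=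
      Nat.mul_le_mul_right _ (Nat.pow_le_pow_right (by norm_num) (by omega))
    obtain ⟨Y, hY, _, hYd⟩ := descend E h1 (hmk _ hi) hV
      (copTo_prime E.prime E.le hrp hyr hV.sub)
    exact ⟨Y, hY.mono hΔ (by omega), hYd r (dvd_refl r)⟩
  -- non-emptiness at all levels
  have hneall : ∀ s, s ≤ I → ∃ V : Finset ℤ, VV P Δ (2 ^ (I - s) * j) (ChainG_C c s) V := by
    intro s
    induction s with
    | zero => intro _; simpa [ChainG_C] using hne
    | succ s ih =>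
      intro hs
      obtain ⟨V, hV⟩ := ih (by omega)
      have he : I - s = (I - (s + 1)) + 1 := by omega
      rw [he] at hV
      obtain ⟨Y, hY, _⟩ := hdesc (I - (s + 1)) (by omega) _ V hV
      exact ⟨Y, hY⟩
  have hmin : ∀ i, ∃ V : Finset ℤ, i ≤ I → VV P Δ (2 ^ i * j) (ChainG_C c (I - i)) V ∧
      ∀ W : Finset ℤ, VV P Δ (2 ^ i * j) (ChainG_C c (I - i)) W → nc r V ≤ nc r W := by
    intro i
    by_cases hi : i ≤ I
    · have h := hneall (I - i) (by omega)
      rw [show I - (I - i) = i by omega] at h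
      obtain ⟨V, hV, hV'⟩ := ChainG_min (2 ^ i * j) (ChainG_C c (I - i)) r h
      exact ⟨V, fun _ => ⟨hV, hV'⟩⟩
    · exact ⟨∅, fun h => absurd h hi⟩
  choose V hVspec using hmin
  have hV1 : ∀ i, i ≤ I → VV P Δ (2 ^ i * j) (ChainG_C c (I - i)) (V i) := fun i hi =>
    (hVspec i hi).1
  have hV2 : ∀ i, i ≤ I → ∀ W : Finset ℤ, VV P Δ (2 ^ i * j) (ChainG_C c (I - i)) W →
      nc r (V i) ≤ nc r W := fun i hi => (hVspec i hi).2
  -- monotonicity
  have hmono : ∀ i, i + 1 ≤ I → nc r (V i) ≤ nc r (V (i + 1)) := by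
    intro i hi
    obtain ⟨Y, hY, hYn⟩ := hdesc i hi _ _ (hV1 (i + 1) hi)
    have he : I - i = (I - (i + 1)) + 1 := by omega
    have hY' : VV P Δ (2 ^ i * j) (ChainG_C c (I - i)) Y := by
      rw [he]; exact hY
    exact le_trans (hV2 i (by omega) Y hY') hYn
  have hmono' : ∀ d i, i + d ≤ I → nc r (V i) ≤ nc r (V (i + d)) := by
    intro d
    induction d with
    | zero => intro i _; exact le_rfl
    | succ d ih =>
      intro i hi
      exact le_trans (ih i (by omega)) (hmono (i + d) (by omega))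
  have hpos : ∀ i, i ≤ I → 1 ≤ nc r (V i) := fun i hi =>
    nc_pos ((hV1 i hi).nonempty (E.Npos (hmk i hi)))
  obtain ⟨i, hi, hstep⟩ := ChainG_step (fun i => nc r (V i)) I r hI (hpos 0 (Nat.zero_le _))
    (ChainG_nc_le r hrp.pos _)
  set a := nc r (V i) with ha
  set b := nc r (V (i + 1)) with hb
  have hab : a ≤ b := hmono i hi
  have ha1 : 1 ≤ a := hpos i hi.le
  -- the least `K0`
  obtain ⟨K0, hK01, hK0b, hK02⟩ : ∃ K0 : ℕ, 1 ≤ K0 ∧ b ≤ K0 * a ∧ K0 * a ≤ 2 * b := by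
    refine ⟨b / a + 1, Nat.succ_le_succ (Nat.zero_le _), ?_, ?_⟩
    · have h1 := Nat.div_add_mod b a
      have h2 := Nat.mod_lt b (show 0 < a by omega)
      have h3 : (b / a + 1) * a = a * (b / a) + a := by ring
      rw [h3]
      omega
    · have h1 := Nat.div_mul_le_self b a
      have h3 : (b / a + 1) * a = b / a * a + a := by ring
      rw [h3]
      omega
  have hK0I : K0 ^ I ≤ 2 ^ I * r := by
    have h1 : K0 ^ I * a ^ I ≤ (2 ^ I * r) * a ^ I := by
      calc K0 ^ I * a ^ I = (K0 * a) ^ I := by rw [mul_pow]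
        _ ≤ (2 * b) ^ I := Nat.pow_le_pow_left hK02 I
        _ = 2 ^ I * b ^ I := by rw [mul_pow]
        _ ≤ 2 ^ I * (r * a ^ I) := Nat.mul_le_mul_left _ hstep
        _ = (2 ^ I * r) * a ^ I := by ring
    exact Nat.le_of_mul_le_mul_right h1 (Nat.pow_pos (by omega))
  -- the losses
  have hCle : ChainG_C c (I - (i + 1)) ≤ 7 ^ I * (c + 2) := by
    have h1 := ChainG_C_le c (I - (i + 1))
    have h2 : 7 ^ (I - (i + 1)) * (c + 2) ≤ 7 ^ I * (c + 2) :=
      Nat.mul_le_mul_right _ (Nat.pow_le_pow_right (by norm_num) (by omega))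
    omega
  set c1 := ChainG_C c (I - (i + 1)) with hc1
  have hVi1 : VV P Δ (2 * (2 ^ i * j)) c1 (V (i + 1)) := by
    have h := hV1 (i + 1) hi
    rwa [show 2 ^ (i + 1) * j = 2 * (2 ^ i * j) by ring] at h
  have hinner := innerG E (m := 2 ^ i * j) (c := c1) (r := r)
    (by
      have h := hmk (i + 1) hi
      rwa [show 2 ^ (i + 1) * j = 2 * (2 ^ i * j) by ring] at h)
    hrp hyr
    (le_trans hr (Nat.pow_le_pow_right hy (by
      calc j = 1 * j := (one_mul j).symm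
        _ ≤ 2 ^ i * j := Nat.mul_le_mul_right _ (Nat.one_le_two_pow))))
    hVi1 K0 hK01
    (by
      intro Y hY
      have he : I - i = (I - (i + 1)) + 1 := by omega
      have hY' : VV P Δ (2 ^ i * j) (ChainG_C c (I - i)) Y := by
        rw [he]; exact hY
      exact le_trans hK0b (Nat.mul_le_mul_left _ (hV2 i hi.le Y hY')))
    t ht
    (by
      refine le_trans (Nat.pow_le_pow_right hΔ ?_) hbig
      gcongr)
  refine ⟨Δ ^ (a0 * (40 * (7 ^ I * (c + 2)) + 50) * 16 ^ (t + 2)) *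
    K0 ^ (2 * a0 * 16 ^ (t + 2)), ?_, ?_, ?_⟩
  · exact Nat.one_le_iff_ne_zero.mpr (Nat.mul_ne_zero (pow_ne_zero _ (by omega))
      (pow_ne_zero _ (by omega)))
  · rw [mul_pow, ← pow_mul, ← pow_mul]
    have h1 : Δ ^ (a0 * (40 * (7 ^ I * (c + 2)) + 50) * 16 ^ (t + 2) * I) =
        Δ ^ (I * (a0 * (40 * (7 ^ I * (c + 2)) + 50) * 16 ^ (t + 2))) := by
      rw [mul_comm I]
    have h2 : K0 ^ (2 * a0 * 16 ^ (t + 2) * I) ≤ (2 ^ I * r) ^ (2 * a0 * 16 ^ (t + 2)) := by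
      rw [mul_comm (2 * a0 * 16 ^ (t + 2)) I, pow_mul]
      exact Nat.pow_le_pow_left hK0I _
    rw [h1]
    exact Nat.mul_le_mul_left _ h2
  · intro W hW
    have hbW : b ≤ nc r W := by
      have h1 := hmono' (I - (i + 1)) (i + 1) (by omega)
      rw [show i + 1 + (I - (i + 1)) = I by omega] at h1
      refine le_trans h1 (hV2 I le_rfl W ?_)
      simpa [ChainG_C] using hW
    refine le_trans hinner ?_
    refine Nat.mul_le_mul (Nat.mul_le_mul_right _ (Nat.pow_le_pow_right hΔ ?_)) hbW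
    gcongr

end Pool.Agent.helper41.EX
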