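import Mathlib

/-! # EXS-Cheb: primes in intervals (from Mathlib's Chebyshev bounds) -/

namespace Pool.Agent.helper41.EX

open Finset

theorem Cheb_sub (y z : ℕ) (h : z ≤ y) :
    Chebyshev.theta (y : ℝ) - Chebyshev.theta (z : ℝ) =
      ∑ p ∈ (Ioc z y).filter Nat.Prime, Real.log (p : ℝ) := by
  have h1 : ∀ n : ℕ, Chebyshev.theta (n : ℝ) =
      ∑ p ∈ (Ioc 0 n).filter Nat.Prime, Real.log (p : ℝ) := by
    intro n
    unfold Chebyshev.theta
    rw [Nat.floor_natCast]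
  rw [h1 y, h1 z]
  have h2 : (Ioc 0 y).filter Nat.Prime = (Ioc 0 z).filter Nat.Prime ∪ (Ioc z y).filter Nat.Prime := by
    rw [← filter_union, Ioc_union_Ioc_eq_Ioc (Nat.zero_le z) h]
  have h3 : Disjoint ((Ioc 0 z).filter Nat.Prime) ((Ioc z y).filter Nat.Prime) := by
    rw [disjoint_left]
    intro p hp hq
    simp only [mem_filter, mem_Ioc] at hp hq
    omega
  rw [h2, sum_union h3]
  ring

/-- `θ(y) - θ(z) ≥ y log 2 - o(y) - z log 4 ≥ y / 4` for `4 z ≤ y` -/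
theorem primes_Ioc : ∃ Y : ℕ, 2 ≤ Y ∧ ∀ y z : ℕ, Y ≤ y → 4 * z ≤ y →
    (y : ℝ) / 4 ≤ Real.log y * (((Ioc z y).filter Nat.Prime).card : ℝ) := by
  refine ⟨100000000, by norm_num, fun y z hy hz => ?_⟩
  have hy1 : (100000000 : ℝ) ≤ (y : ℝ) := by exact_mod_cast hy
  have hz1 : 4 * (z : ℝ) ≤ (y : ℝ) := by exact_mod_cast hz
  have hzy : z ≤ y := by omega
  have hy0 : (0 : ℝ) < (y : ℝ) := by linarith
  -- the sum over primes
  have h1 : Chebyshev.theta (y : ℝ) - Chebyshev.theta (z : ℝ) ≤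
      Real.log y * (((Ioc z y).filter Nat.Prime).card : ℝ) := by
    rw [Cheb_sub y z hzy, mul_comm, ← nsmul_eq_mul]
    refine sum_le_card_nsmul _ _ _ fun p hp => ?_
    simp only [mem_filter, mem_Ioc] at hp
    have hp0 : (0 : ℝ) < (p : ℝ) := by exact_mod_cast hp.2.pos
    have hpy : (p : ℝ) ≤ (y : ℝ) := by exact_mod_cast hp.1.2
    exact Real.log_le_log hp0 hpy
  have h2 := Chebyshev.theta_ge y
  have h3 := Chebyshev.theta_le_log4_mul_x (x := (z : ℝ)) (Nat.cast_nonneg z)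
  have h4 : Real.log 4 = 2 * Real.log 2 := by
    rw [show (4 : ℝ) = 2 ^ 2 by norm_num, Real.log_pow]
    norm_num
  have hl2 : (0.6931471803 : ℝ) < Real.log 2 := Real.log_two_gt_d9
  -- the fourth root
  set s : ℝ := Real.sqrt (Real.sqrt (y : ℝ)) with hs
  have hs0 : 0 ≤ s := Real.sqrt_nonneg _
  have hs2 : s ^ 2 = Real.sqrt (y : ℝ) := Real.sq_sqrt (Real.sqrt_nonneg _)
  have hs4 : s ^ 4 = (y : ℝ) := by
    have : s ^ 4 = (s ^ 2) ^ 2 := by ring
    rw [this, hs2, Real.sq_sqrt hy0.le]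
  have hs100 : (100 : ℝ) ≤ s := by
    by_contra hcon
    push Not at hcon
    have : s ^ 4 < 100 ^ 4 := pow_lt_pow_left₀ hcon hs0 (by norm_num)
    rw [hs4] at this
    linarith
  have hspos : 0 < s := by linarith
  have hlog : Real.log (y : ℝ) ≤ 4 * s := by
    rw [← hs4, Real.log_pow]
    have := Real.log_le_sub_one_of_pos hspos
    push_cast
    linarith
  have hlog1 : Real.log ((y : ℝ) + 1) ≤ 1 + 4 * s := by
    have h5 : Real.log ((y : ℝ) + 1) ≤ Real.log (2 * (y : ℝ)) :=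
      Real.log_le_log (by linarith) (by linarith)
    rw [Real.log_mul (by norm_num) hy0.ne'] at h5
    have h6 : Real.log 2 < 0.6931471808 := Real.log_two_lt_d9
    linarith
  have h5 : 2 * Real.sqrt (y : ℝ) * Real.log (y : ℝ) ≤ 8 * s ^ 3 := by
    rw [← hs2]
    have : s ^ 2 * Real.log (y : ℝ) ≤ s ^ 2 * (4 * s) := mul_le_mul_of_nonneg_left hlog (by positivity)
    nlinarith
  have h6 : 8 * s ^ 3 + (1 + 4 * s) ≤ 0.09 * s ^ 4 := by
    have h7 : s ^ 4 = s * s ^ 3 := by ring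
    have h8 : 100 * s ^ 3 ≤ s * s ^ 3 := mul_le_mul_of_nonneg_right hs100 (by positivity)
    have h9 : 1 + 4 * s ≤ s ^ 3 := by nlinarith [mul_le_mul hs100 hs100 (by norm_num) hs0]
    linarith
  have h7 : Real.log 4 * (z : ℝ) ≤ Real.log 2 * (y : ℝ) / 2 := by
    rw [h4]
    have : Real.log 2 * (4 * (z : ℝ)) ≤ Real.log 2 * (y : ℝ) :=
      mul_le_mul_of_nonneg_left hz1 (by linarith)
    linarith
  have h8 : 0.6931471803 * (y : ℝ) ≤ Real.log 2 * (y : ℝ) :=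
    mul_le_mul_of_nonneg_right hl2.le hy0.le
  rw [hs4] at h6
  have h9 : (y : ℝ) * Real.log 2 = Real.log 2 * (y : ℝ) := mul_comm _ _
  linarith

end Pool.Agent.helper41.EX
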