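import Pool.Agent.helper41.EX.Count

/-! # EXS-Part: the unitary parts of an integer -/

namespace Pool.Agent.helper41.EX

open Finset

variable {φ : ℕ → ℕ → Bool} {n X : ℕ}

theorem part_pos (φ : ℕ → ℕ → Bool) (n : ℕ) : 0 < part φ n := by
  unfold part
  apply Finset.prod_pos
  intro p hp
  have := Nat.pos_of_mem_primeFactors (Finset.mem_filter.mp hp).1
  positivity

theorem part_mul_cmp (φ : ℕ → ℕ → Bool) (hn : n ≠ 0) : part φ n * part (cmp φ) n = n := by
  have h1 : ∏ p ∈ n.primeFactors, p ^ n.factorization p = n := by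
    have := Nat.prod_factorization_pow_eq_self hn
    rw [Finsupp.prod, Nat.support_factorization] at this
    exact this
  have h2 : part (cmp φ) n = ∏ p ∈ n.primeFactors.filter
      (fun p => ¬ (φ p (n.factorization p) = true)), p ^ n.factorization p := by
    unfold part cmp
    congr 1
    ext p
    simp
  rw [h2]
  unfold part
  rw [Finset.prod_filter_mul_prod_filter_not]
  exact h1

theorem Part_factorization (φ : ℕ → ℕ → Bool) (n q : ℕ) :
    (part φ n).factorization q =
      if q ∈ n.primeFactors.filter (fun p => φ p (n.factorization p)) then n.factorization q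
      else 0 := by
  unfold part
  rw [Nat.factorization_prod]
  · rw [Finset.sum_apply']
    have h : ∀ p ∈ n.primeFactors.filter (fun p => φ p (n.factorization p)),
        (p ^ n.factorization p).factorization q = if q = p then n.factorization q else 0 := by
      intro p hp
      have hpp := Nat.prime_of_mem_primeFactors (Finset.mem_filter.mp hp).1
      rw [hpp.factorization_pow, Finsupp.single_apply]
      by_cases h : p = q
      · subst h; simp
      · rw [if_neg h, if_neg (Ne.symm h)]
    rw [Finset.sum_congr rfl h, Finset.sum_ite_eq]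
  · intro p hp
    have := Nat.pos_of_mem_primeFactors (Finset.mem_filter.mp hp).1
    positivity

theorem primeFactors_part (φ : ℕ → ℕ → Bool) (n : ℕ) :
    (part φ n).primeFactors = n.primeFactors.filter (fun p => φ p (n.factorization p)) := by
  ext q
  rw [← Nat.support_factorization, Finsupp.mem_support_iff, Part_factorization]
  by_cases h : q ∈ n.primeFactors.filter (fun p => φ p (n.factorization p))
  · rw [if_pos h]
    have h1 := (Finset.mem_filter.mp h).1
    rw [← Nat.support_factorization, Finsupp.mem_support_iff] at h1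
    simp only [h, iff_true]
    exact h1
  · rw [if_neg h]
    simp only [h, iff_false, not_not]

theorem part_coprime (φ : ℕ → ℕ → Bool) (n : ℕ) : Nat.Coprime (part φ n) (part (cmp φ) n) := by
  rw [← Nat.disjoint_primeFactors (part_pos φ n).ne' (part_pos (cmp φ) n).ne',
    primeFactors_part, primeFactors_part, Finset.disjoint_left]
  intro p hp hp'
  have h1 := (Finset.mem_filter.mp hp).2
  have h2 := (Finset.mem_filter.mp hp').2
  unfold cmp at h2
  simp [h1] at h2

theorem part_dvd (φ : ℕ → ℕ → Bool) (n : ℕ) : part φ n ∣ n := by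
  rcases eq_or_ne n 0 with rfl | hn
  · exact dvd_zero _
  · exact ⟨_, (part_mul_cmp φ hn).symm⟩

theorem part_le (φ : ℕ → ℕ → Bool) (hn : n ≠ 0) : part φ n ≤ n :=
  Nat.le_of_dvd (Nat.pos_of_ne_zero hn) (part_dvd φ n)

theorem factorization_part (φ : ℕ → ℕ → Bool) {p : ℕ} (hp : p ∈ (part φ n).primeFactors) :
    (part φ n).factorization p = n.factorization p ∧ φ p (n.factorization p) = true := by
  rw [primeFactors_part] at hp
  exact ⟨by rw [Part_factorization, if_pos hp], (Finset.mem_filter.mp hp).2⟩

theorem G_part (X : ℕ) (φ : ℕ → ℕ → Bool) (n : ℕ) :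
    G X (part φ n) =
      ∏ p ∈ n.primeFactors.filter (fun p => φ p (n.factorization p)), (Lg X / p) := by
  unfold G
  rw [primeFactors_part]

theorem G_part_mul (X : ℕ) (φ : ℕ → ℕ → Bool) (hn : n ≠ 0) :
    G X n = G X (part φ n) * G X (part (cmp φ) n) := by
  rw [← G_mul X (part_coprime φ n), part_mul_cmp φ hn]

theorem inv_le_G (hX : 1 ≤ X) (hn : n ≠ 0) : ((n : ℝ))⁻¹ ≤ G X n := by
  have hL := Lg_ge_one hX
  have h1 : (∏ p ∈ n.primeFactors, (p : ℝ)) ≤ n := by
    have h0 := Nat.le_of_dvd (Nat.pos_of_ne_zero hn) (Nat.prod_primeFactors_dvd n)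
    have h00 : ((∏ p ∈ n.primeFactors, p : ℕ) : ℝ) ≤ (n : ℝ) := by exact_mod_cast h0
    rw [Nat.cast_prod] at h00
    exact h00
  have h2 : 0 < (∏ p ∈ n.primeFactors, (p : ℝ)) := by
    apply Finset.prod_pos
    intro p hp
    exact_mod_cast Nat.pos_of_mem_primeFactors hp
  calc ((n : ℝ))⁻¹ ≤ (∏ p ∈ n.primeFactors, (p : ℝ))⁻¹ := inv_anti₀ h2 h1
    _ = ∏ p ∈ n.primeFactors, ((p : ℝ))⁻¹ := by rw [Finset.prod_inv_distrib]
    _ ≤ ∏ p ∈ n.primeFactors, (Lg X / p) := by
        apply Finset.prod_le_prod
        · intro p _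
          positivity
        · intro p hp
          have hp0 : (0 : ℝ) < p := by exact_mod_cast Nat.pos_of_mem_primeFactors hp
          rw [inv_eq_one_div]
          gcongr
    _ = G X n := rfl

/-- the exponents of `part (phiP X κ j) n` are all equal to `j` -/
theorem part_phiP (X : ℕ) (κ : ℝ) (j n : ℕ) : ∃ x : ℕ, 1 ≤ x ∧ part (phiP X κ j) n = x ^ j := by
  refine ⟨∏ p ∈ n.primeFactors.filter (fun p => phiP X κ j p (n.factorization p)), p, ?_, ?_⟩
  · apply Nat.succ_le_of_lt
    apply Finset.prod_pos
    intro p hp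
    exact Nat.pos_of_mem_primeFactors (Finset.mem_filter.mp hp).1
  · unfold part
    rw [← Finset.prod_pow]
    apply Finset.prod_congr rfl
    intro p hp
    have h := (Finset.mem_filter.mp hp).2
    unfold phiP at h
    simp only [decide_eq_true_eq] at h
    rw [h.2]

/-- the linear part has small `G` -/
theorem G_lin_le (hX : 1 ≤ X) (n : ℕ) : G X (lin X n) ≤ (lin X n : ℝ) ^ (-(15 / 16) : ℝ) := by
  have hL := Lg_ge_one hX
  have hL0 : 0 < Lg X := by linarith
  unfold lin
  rw [G_part]
  have h1 : (part (phiL X) n : ℝ) =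
      ∏ p ∈ n.primeFactors.filter (fun p => phiL X p (n.factorization p)), (p : ℝ) := by
    unfold part
    push_cast
    apply Finset.prod_congr rfl
    intro p hp
    have h := (Finset.mem_filter.mp hp).2
    unfold phiL at h
    simp only [decide_eq_true_eq] at h
    rw [h.2, pow_one]
  rw [h1, ← Real.finsetProd_rpow _ _ (fun p _ => by positivity)]
  apply Finset.prod_le_prod
  · intro p _
    positivity
  · intro p hp
    have hp0 : (0 : ℝ) < p := by
      exact_mod_cast Nat.pos_of_mem_primeFactors (Finset.mem_filter.mp hp).1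
    have h := (Finset.mem_filter.mp hp).2
    unfold phiL at h
    simp only [decide_eq_true_eq] at h
    have h2 : Lg X ^ (16 : ℝ) < p := (Nat.floor_lt (by positivity)).mp h.1
    have h3 : Lg X ≤ (p : ℝ) ^ (1 / 16 : ℝ) := by
      have h4 : Lg X = (Lg X ^ (16 : ℝ)) ^ (1 / 16 : ℝ) := by
        rw [← Real.rpow_mul hL0.le]; norm_num
      rw [h4]
      exact Real.rpow_le_rpow (by positivity) h2.le (by norm_num)
    rw [div_le_iff₀ hp0]
    calc Lg X ≤ (p : ℝ) ^ (1 / 16 : ℝ) := h3
      _ = (p : ℝ) ^ (-(15 / 16) : ℝ) * p := by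
          rw [← Real.rpow_add_one hp0.ne']; norm_num

end Pool.Agent.helper41.EX
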