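import Pool.Agent.helper41.EX.SP
import Pool.Agent.helper41.EX.Part
import Pool.Agent.helper41.EX.Cheb

/-! # EXS-Cls: components of class type have large doubling, by proposition SP -/

namespace Pool.Agent.helper41.EX

open Finset
open scoped Pointwise

/-! ### The limits -/

theorem Cls_tendsto : Filter.Tendsto Lg Filter.atTop Filter.atTop := by
  unfold Lg
  refine Filter.tendsto_atTop_add_const_right _ _ ?_
  exact (Real.tendsto_log_atTop.comp tendsto_natCast_atTop_atTop).const_mul_atTop (by norm_num)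

theorem Cls_log_pow (m : ℕ) (a b : ℝ) (ha : 0 < a) (hb : 0 < b) :
    ∀ᶠ L : ℝ in Filter.atTop, (a * Real.log L) ^ m ≤ b * L := by
  have h1 := (Real.isLittleO_pow_log_id_atTop (n := m)).bound (c := b / a ^ m) (by positivity)
  filter_upwards [h1, Filter.eventually_ge_atTop 1] with L hL hL1
  rw [Real.norm_eq_abs, id, Real.norm_eq_abs, abs_of_nonneg (by linarith : (0 : ℝ) ≤ L)] at hL
  have h2 : Real.log L ^ m ≤ b / a ^ m * L := (le_abs_self _).trans hL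
  calc (a * Real.log L) ^ m = a ^ m * Real.log L ^ m := mul_pow _ _ _
    _ ≤ a ^ m * (b / a ^ m * L) := mul_le_mul_of_nonneg_left h2 (by positivity)
    _ = b * L := by field_simp

theorem Cls_log_rpow (b r : ℝ) (hb : 0 < b) (hr : 0 < r) :
    ∀ᶠ L : ℝ in Filter.atTop, 192 * Real.log L ≤ b * L ^ r := by
  have h1 := (isLittleO_log_rpow_atTop hr).bound (c := b / 192) (by positivity)
  filter_upwards [h1, Filter.eventually_ge_atTop 1] with L hL hL1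
  rw [Real.norm_eq_abs, Real.norm_eq_abs,
    abs_of_nonneg (Real.rpow_nonneg (by linarith : (0 : ℝ) ≤ L) _)] at hL
  have h2 := (le_abs_self _).trans hL
  linarith

theorem Cls_ev (c h e ρ : ℝ) (a0 Y : ℕ) (hc : 0 < c) (hh : 0 < h) (he : 0 < e) (hρ : 0 < ρ) :
    ∃ X0 : ℕ, ∀ X : ℕ, X0 ≤ X → 2 ≤ X ∧ 4 ≤ Lg X ∧ (Y : ℝ) ≤ Lg X ∧ 1 ≤ Real.log (Lg X) ∧
      5 ≤ Lg X ^ h ∧ (64 * Real.log (Lg X)) ^ a0 ≤ Lg X ∧ 2 ≤ Lg X ^ (e / 16) ∧
      192 * Real.log (Lg X) ≤ c * Lg X ^ (e / 16) ∧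
      (64 * Real.log (Lg X)) ^ 17 ≤ c ^ 17 * Lg X ∧ ((Nat.log 2 X : ℕ) : ℝ) + 1 ≤ (X : ℝ) ^ ρ := by
  have e1 : ∀ᶠ X : ℕ in Filter.atTop, 2 ≤ X := Filter.eventually_ge_atTop 2
  have e2 : ∀ᶠ X : ℕ in Filter.atTop, 4 ≤ Lg X :=
    Cls_tendsto.eventually (Filter.eventually_ge_atTop 4)
  have e3 : ∀ᶠ X : ℕ in Filter.atTop, (Y : ℝ) ≤ Lg X :=
    Cls_tendsto.eventually (Filter.eventually_ge_atTop _)
  have e4 : ∀ᶠ X : ℕ in Filter.atTop, 1 ≤ Real.log (Lg X) :=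
    Cls_tendsto.eventually (Real.tendsto_log_atTop.eventually (Filter.eventually_ge_atTop 1))
  have e5 : ∀ᶠ X : ℕ in Filter.atTop, 5 ≤ Lg X ^ h :=
    Cls_tendsto.eventually ((tendsto_rpow_atTop hh).eventually (Filter.eventually_ge_atTop 5))
  have e6 : ∀ᶠ X : ℕ in Filter.atTop, (64 * Real.log (Lg X)) ^ a0 ≤ 1 * Lg X :=
    Cls_tendsto.eventually (Cls_log_pow a0 64 1 (by norm_num) (by norm_num))
  have e7 : ∀ᶠ X : ℕ in Filter.atTop, 2 ≤ Lg X ^ (e / 16) :=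
    Cls_tendsto.eventually ((tendsto_rpow_atTop (by positivity : 0 < e / 16)).eventually
      (Filter.eventually_ge_atTop 2))
  have e8 : ∀ᶠ X : ℕ in Filter.atTop, 192 * Real.log (Lg X) ≤ c * Lg X ^ (e / 16) :=
    Cls_tendsto.eventually (Cls_log_rpow c (e / 16) hc (by positivity))
  have e9 : ∀ᶠ X : ℕ in Filter.atTop, (64 * Real.log (Lg X)) ^ 17 ≤ c ^ 17 * Lg X :=
    Cls_tendsto.eventually (Cls_log_pow 17 64 (c ^ 17) (by norm_num) (by positivity))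
  have e10 : ∀ᶠ X : ℕ in Filter.atTop, ((Nat.log 2 X : ℕ) : ℝ) + 1 ≤ (X : ℝ) ^ ρ := by
    have h1 := (isLittleO_log_rpow_atTop hρ).bound (c := 1 / 4) (by norm_num)
    have h2 := (tendsto_rpow_atTop hρ).eventually (Filter.eventually_ge_atTop 2)
    have h3 := (tendsto_natCast_atTop_atTop (R := ℝ)).eventually (h1.and h2)
    filter_upwards [h3, e1] with X hX hX2
    obtain ⟨h4, h5⟩ := hX
    have hX1 : (2 : ℝ) ≤ X := by exact_mod_cast hX2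
    rw [Real.norm_eq_abs, Real.norm_eq_abs,
      abs_of_nonneg (Real.rpow_nonneg (by linarith : (0 : ℝ) ≤ (X : ℝ)) _)] at h4
    have h6 := (le_abs_self _).trans h4
    have h7 : ((Nat.log 2 X : ℕ) : ℝ) * Real.log 2 ≤ Real.log X := by
      have h8 : (2 : ℝ) ^ (Nat.log 2 X) ≤ X := by
        exact_mod_cast Nat.pow_log_le_self 2 (by omega)
      have h9 := Real.log_le_log (by positivity) h8
      rwa [Real.log_pow] at h9
    have h10 : (1 : ℝ) / 2 ≤ Real.log 2 := by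
      have := Real.log_two_gt_d9
      linarith
    have h11 : (0 : ℝ) ≤ ((Nat.log 2 X : ℕ) : ℝ) := Nat.cast_nonneg _
    nlinarith
  obtain ⟨X0, hX0⟩ := Filter.eventually_atTop.1
    ((((((((e1.and e2).and e3).and e4).and e5).and e6).and e7).and e8).and (e9.and e10))
  refine ⟨X0, fun X hX => ?_⟩
  obtain ⟨⟨⟨⟨⟨⟨⟨⟨f1, f2⟩, f3⟩, f4⟩, f5⟩, f6⟩, f7⟩, f8⟩, f9, f10⟩ := hX0 X hX
  rw [one_mul] at f6
  exact ⟨f1, f2, f3, f4, f5, f6, f7, f8, f9, f10⟩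

/-! ### The elements -/

/-- the primes of the class -/
def Cls_P (y0 y : ℕ) : Finset ℕ := (Ioc y0 y).filter Nat.Prime

theorem Cls_elem {X : ℕ} {κ κ' : ℝ} {n : ℕ} (hX : 1 ≤ X) (hκ : 1 ≤ κ) :
    ∃ F : Finset ℕ, F ⊆ Cls_P (yf X κ) (yf X κ') ∧ (part (phiC X κ κ') n).primeFactors = F ∧
      part (phiC X κ κ') n = ∏ p ∈ F, p ∧
      G X (part (phiC X κ κ') n) = Lg X ^ F.card / (part (phiC X κ κ') n : ℝ) ∧
      Lg X ^ F.card ≤ (part (phiC X κ κ') n : ℝ) := by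
  have hL := Lg_ge_one hX
  set F := n.primeFactors.filter (fun p => phiC X κ κ' p (n.factorization p)) with hF
  have hmem : ∀ p ∈ F, p.Prime ∧ yf X κ < p ∧ p ≤ yf X κ' ∧ n.factorization p = 1 := by
    intro p hp
    obtain ⟨h1, h2⟩ := mem_filter.1 hp
    have h3 := of_decide_eq_true h2
    exact ⟨Nat.prime_of_mem_primeFactors h1, h3⟩
  have hprod : part (phiC X κ κ') n = ∏ p ∈ F, p := by
    unfold part
    refine prod_congr rfl (fun p hp => ?_)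
    rw [(hmem p hp).2.2.2, pow_one]
  refine ⟨F, ?_, ?_, hprod, ?_, ?_⟩
  · intro p hp
    obtain ⟨h1, h2, h3, -⟩ := hmem p hp
    exact mem_filter.2 ⟨mem_Ioc.2 ⟨h2, h3⟩, h1⟩
  · exact primeFactors_part _ _
  · rw [G_part, ← hF, prod_div_distrib, prod_const, hprod]
    push_cast
    rfl
  · rw [hprod]
    push_cast
    rw [← prod_const]
    refine prod_le_prod (fun _ _ => by linarith) (fun p hp => ?_)
    have h1 : Lg X ^ κ < p := Nat.lt_of_floor_lt (hmem p hp).2.1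
    have h2 : Lg X ^ (1 : ℝ) ≤ Lg X ^ κ := Real.rpow_le_rpow_of_exponent_le hL hκ
    rw [Real.rpow_one] at h2
    linarith

/-- `SP` with `ε ≤ 1` -/
theorem Cls_SP (a0 a1 : ℕ) (ha0 : 1 ≤ a0) (ha1 : 1 ≤ a1) :
    ∃ ε : ℝ, 0 < ε ∧ ε ≤ 1 ∧ ∃ Y : ℕ, ∀ (y0 y k : ℕ) (P : Finset ℕ), Y ≤ y → 1 ≤ y →
      (∀ p ∈ P, p.Prime ∧ y0 < p ∧ p ≤ y) → (y : ℝ) ^ (1 - ε) ≤ y0 → 1 ≤ k →
      y * k ^ a0 ≤ P.card ^ a0 → y ≤ k ^ a1 →
      ∀ V : Finset ℤ, V ⊆ A P k → (N P k : ℝ) ≤ (y : ℝ) ^ (ε * k) * V.card →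
        (y : ℝ) ^ (ε * k) * N P k < ((V - V).card : ℝ) := by
  obtain ⟨ε, hε, Y, hY⟩ := SP a0 a1 ha0 ha1
  refine ⟨min ε 1, lt_min hε one_pos, min_le_right _ _, Y, ?_⟩
  intro y0 y k P h1 h1y h2 h3 h4 h5 h6 V h7 h8
  have hy : (1 : ℝ) ≤ y := by exact_mod_cast h1y
  have hm : min ε 1 ≤ ε := min_le_left _ _
  have hpw : (y : ℝ) ^ (min ε 1 * k) ≤ (y : ℝ) ^ (ε * k) :=
    Real.rpow_le_rpow_of_exponent_le hy (mul_le_mul_of_nonneg_right hm (Nat.cast_nonneg k))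
  have h9 := hY y0 y k P h1 h2
    ((Real.rpow_le_rpow_of_exponent_le hy (by linarith)).trans h3) h4 h5 h6 V h7
    (h8.trans (mul_le_mul_of_nonneg_right hpw (Nat.cast_nonneg _)))
  exact lt_of_le_of_lt (mul_le_mul_of_nonneg_right hpw (Nat.cast_nonneg _)) h9

/-! ### The sizes -/

/-- consequences for `k` -/
theorem Cls_k {X : ℕ} {L c : ℝ} {y k : ℕ} (hL : L = Lg X) (hX : 2 ≤ X) (hc : 0 < c) (h4 : 4 ≤ L)
    (hlog : 1 ≤ Real.log L) (hy1 : 1 ≤ y) (hy16 : (y : ℝ) ≤ L ^ 16)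
    (hyk : (X : ℝ) ^ c ≤ (y : ℝ) ^ k) (hLk : L ^ k ≤ (X : ℝ))
    (h17 : (64 * Real.log L) ^ 17 ≤ c ^ 17 * L) :
    1 ≤ k ∧ c * L ≤ 64 * k * Real.log L ∧ y ≤ k ^ 17 ∧ (k : ℝ) ≤ L := by
  have hX1 : (2 : ℝ) ≤ X := by exact_mod_cast hX
  have hX0 : (0 : ℝ) < X := by linarith
  have hL0 : 0 < L := by linarith
  have hyR : (1 : ℝ) ≤ y := by exact_mod_cast hy1
  have hl : Real.log X = (L - 1) / 3 := by
    rw [hL, Lg]
    ring
  have hlpos : 0 < Real.log X := Real.log_pos (by linarith)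
  have hlogy : Real.log y ≤ 16 * Real.log L := by
    have := Real.log_le_log (by linarith) hy16
    rwa [Real.log_pow] at this
  have h1 : c * Real.log X ≤ k * Real.log y := by
    have := Real.log_le_log (Real.rpow_pos_of_pos hX0 c) hyk
    rwa [Real.log_rpow hX0, Real.log_pow] at this
  have h2 : c * L ≤ 64 * k * Real.log L := by
    have h3 : (k : ℝ) * Real.log y ≤ k * (16 * Real.log L) :=
      mul_le_mul_of_nonneg_left hlogy (Nat.cast_nonneg k)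
    have h5 : c * (L / 4) ≤ c * Real.log X := by
      refine mul_le_mul_of_nonneg_left ?_ hc.le
      rw [hl]
      linarith
    linarith
  refine ⟨?_, h2, ?_, ?_⟩
  · rcases Nat.eq_zero_or_pos k with h | h
    · rw [h] at h2
      have : 0 < c * L := mul_pos hc hL0
      simp only [Nat.cast_zero, mul_zero, zero_mul] at h2
      linarith
    · exact h
  · have h3 : (c * L) ^ 17 ≤ (64 * k * Real.log L) ^ 17 :=
      pow_le_pow_left₀ (by positivity) h2 17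
    have h5 : (64 * k * Real.log L) ^ 17 = (k : ℝ) ^ 17 * (64 * Real.log L) ^ 17 := by ring
    have h6 : (k : ℝ) ^ 17 * (64 * Real.log L) ^ 17 ≤ (k : ℝ) ^ 17 * (c ^ 17 * L) :=
      mul_le_mul_of_nonneg_left h17 (by positivity)
    have h7 : (c ^ 17 * L) * L ^ 16 ≤ (c ^ 17 * L) * (k : ℝ) ^ 17 := by
      calc (c ^ 17 * L) * L ^ 16 = (c * L) ^ 17 := by ring
        _ ≤ (k : ℝ) ^ 17 * (c ^ 17 * L) := by
          rw [← h5] at h6
          exact h3.trans h6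
        _ = (c ^ 17 * L) * (k : ℝ) ^ 17 := by ring
    have h8 : L ^ 16 ≤ (k : ℝ) ^ 17 := le_of_mul_le_mul_left h7 (by positivity)
    exact_mod_cast hy16.trans h8
  · have h3 := Real.log_le_log (by positivity) hLk
    rw [Real.log_pow] at h3
    have h5 : (k : ℝ) * 1 ≤ k * Real.log L :=
      mul_le_mul_of_nonneg_left hlog (Nat.cast_nonneg k)
    rw [hl] at h3
    linarith

/-- the number of primes is large -/
theorem Cls_card {L κ0 : ℝ} {y k a0 m : ℕ} (hκ0 : 1 < κ0) (ha0 : 2 * κ0 / (κ0 - 1) ≤ a0)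
    (h4 : 4 ≤ L) (hyκ : L ^ κ0 ≤ (y : ℝ)) (hy1 : 1 ≤ y)
    (hy16 : (y : ℝ) ≤ L ^ 16) (hkL : (k : ℝ) ≤ L) (ha : (64 * Real.log L) ^ a0 ≤ L)
    (hm : (y : ℝ) / 4 ≤ Real.log y * m) : y * k ^ a0 ≤ m ^ a0 := by
  have hL0 : 0 < L := by linarith
  have hyR : (1 : ℝ) ≤ y := by exact_mod_cast hy1
  have hlogy : Real.log y ≤ 16 * Real.log L := by
    have := Real.log_le_log (by linarith) hy16
    rwa [Real.log_pow] at this
  have ha2 : 2 * κ0 ≤ a0 * (κ0 - 1) := by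
    rwa [div_le_iff₀ (by linarith)] at ha0
  have ha1 : 1 ≤ a0 := by
    rcases Nat.eq_zero_or_pos a0 with h | h
    · rw [h] at ha2
      simp only [Nat.cast_zero, zero_mul] at ha2
      linarith
    · exact h
  have h1 : (y : ℝ) ≤ 64 * Real.log L * m := by
    have h2 : Real.log y * m ≤ 16 * Real.log L * m :=
      mul_le_mul_of_nonneg_right hlogy (Nat.cast_nonneg m)
    linarith
  have h2 : (y : ℝ) ^ a0 ≤ L * (m : ℝ) ^ a0 := by
    calc (y : ℝ) ^ a0 ≤ (64 * Real.log L * m) ^ a0 := pow_le_pow_left₀ (by linarith) h1 a0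
      _ = (64 * Real.log L) ^ a0 * (m : ℝ) ^ a0 := mul_pow _ _ _
      _ ≤ L * (m : ℝ) ^ a0 := mul_le_mul_of_nonneg_right ha (by positivity)
  have h3 : (y : ℝ) * L ^ a0 * L ≤ (y : ℝ) ^ a0 := by
    obtain ⟨b, rfl⟩ : ∃ b, a0 = b + 1 := ⟨a0 - 1, by omega⟩
    have h5 : L ^ ((b + 1 : ℕ) : ℝ) * L ≤ (y : ℝ) ^ b := by
      calc L ^ ((b + 1 : ℕ) : ℝ) * L = L ^ (((b + 1 : ℕ) : ℝ) + 1) := by
            rw [Real.rpow_add hL0, Real.rpow_one]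
        _ ≤ L ^ (κ0 * b) := by
            refine Real.rpow_le_rpow_of_exponent_le (by linarith) ?_
            push_cast at ha2 ⊢
            nlinarith
        _ = (L ^ κ0) ^ b := by rw [Real.rpow_mul hL0.le, Real.rpow_natCast]
        _ ≤ (y : ℝ) ^ b := pow_le_pow_left₀ (by positivity) hyκ b
    rw [Real.rpow_natCast] at h5
    calc (y : ℝ) * L ^ (b + 1) * L = y * (L ^ (b + 1) * L) := by ring
      _ ≤ y * (y : ℝ) ^ b := mul_le_mul_of_nonneg_left h5 (by linarith)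
      _ = (y : ℝ) ^ (b + 1) := by ring
  have h5 : L * ((y : ℝ) * (k : ℝ) ^ a0) ≤ L * (m : ℝ) ^ a0 := by
    calc L * ((y : ℝ) * (k : ℝ) ^ a0) ≤ L * ((y : ℝ) * L ^ a0) := by
          refine mul_le_mul_of_nonneg_left (mul_le_mul_of_nonneg_left ?_ (by linarith)) hL0.le
          exact pow_le_pow_left₀ (Nat.cast_nonneg k) hkL a0
      _ = (y : ℝ) * L ^ a0 * L := by ring
      _ ≤ (y : ℝ) ^ a0 := h3
      _ ≤ L * (m : ℝ) ^ a0 := h2
  have h6 := le_of_mul_le_mul_left h5 hL0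
  exact_mod_cast h6

/-- bound for the binomial coefficient -/
theorem Cls_choose {n y k : ℕ} (hn : n ≤ y) :
    ((n.choose k : ℕ) : ℝ) * (k : ℝ) ^ k ≤ (3 * (y : ℝ)) ^ k := by
  have h1 : ((n.choose k : ℕ) : ℝ) ≤ (n : ℝ) ^ k / (k.factorial : ℝ) := Nat.choose_le_pow_div k n
  have h2 : (k : ℝ) ^ k / (k.factorial : ℝ) ≤ 3 ^ k := by
    calc (k : ℝ) ^ k / (k.factorial : ℝ) ≤ Real.exp k :=
          Real.pow_div_factorial_le_exp _ (Nat.cast_nonneg k) k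
      _ = Real.exp 1 ^ k := by rw [← Real.exp_nat_mul, mul_one]
      _ ≤ 3 ^ k := by
          refine pow_le_pow_left₀ (Real.exp_pos 1).le ?_ k
          have := Real.exp_one_lt_d9
          linarith
  calc ((n.choose k : ℕ) : ℝ) * (k : ℝ) ^ k
      ≤ (n : ℝ) ^ k / (k.factorial : ℝ) * (k : ℝ) ^ k :=
        mul_le_mul_of_nonneg_right h1 (by positivity)
    _ = (n : ℝ) ^ k * ((k : ℝ) ^ k / (k.factorial : ℝ)) := by ring
    _ ≤ (n : ℝ) ^ k * 3 ^ k := mul_le_mul_of_nonneg_left h2 (by positivity)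
    _ ≤ (y : ℝ) ^ k * 3 ^ k := by
        refine mul_le_mul_of_nonneg_right ?_ (by positivity)
        exact pow_le_pow_left₀ (Nat.cast_nonneg n) (by exact_mod_cast hn) k
    _ = (3 * (y : ℝ)) ^ k := by rw [mul_pow]; ring

/-- pigeonhole -/
theorem Cls_pig {Q : Finset ℤ} {K : ℕ} (f : ℤ → ℕ) (hf : ∀ q ∈ Q, f q ≤ K) :
    ∃ k : ℕ, Q.card ≤ (K + 1) * (Q.filter (fun q => f q = k)).card := by
  by_contra hcon
  push Not at hcon
  have h1 : Q.card = ∑ k ∈ range (K + 1), (Q.filter (fun q => f q = k)).card :=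
    card_eq_sum_card_fiberwise (fun q hq => by
      have h2 := hf q (mem_coe.1 hq)
      exact mem_coe.2 (mem_range.2 (by omega)))
  have h2 : ∑ k ∈ range (K + 1), (K + 1) * (Q.filter (fun q => f q = k)).card <
      ∑ k ∈ range (K + 1), Q.card :=
    sum_lt_sum_of_nonempty ⟨0, mem_range.2 (by omega)⟩ (fun k _ => hcon k)
  rw [← mul_sum, ← h1, sum_const, card_range, smul_eq_mul] at h2
  exact lt_irrefl _ h2

theorem Cls_sizes {X : ℕ} {κ κ0 h : ℝ} (h4 : 4 ≤ Lg X) (hκ0 : 1 < κ0) (hκ : κ0 ≤ κ)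
    (h16 : κ + h ≤ 16) (h5 : 5 ≤ Lg X ^ h) :
    4 * yf X κ ≤ yf X (κ + h) ∧ (yf X (κ + h) : ℝ) ≤ Lg X ^ (κ + h) ∧
      (yf X (κ + h) : ℝ) ≤ Lg X ^ 16 ∧ Lg X ^ κ0 ≤ (yf X (κ + h) : ℝ) ∧
      Lg X ≤ (yf X (κ + h) : ℝ) ∧ Lg X ^ κ ≤ 2 * (yf X κ : ℝ) ∧ 1 ≤ yf X κ := by
  have hL0 : 0 < Lg X := by linarith
  have hL1 : 1 ≤ Lg X := by linarith
  have a1 : (yf X (κ + h) : ℝ) ≤ Lg X ^ (κ + h) := Nat.floor_le (Real.rpow_nonneg hL0.le _)
  have a2 : Lg X ^ (κ + h) < (yf X (κ + h) : ℝ) + 1 := Nat.lt_floor_add_one _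
  have a3 : (yf X κ : ℝ) ≤ Lg X ^ κ := Nat.floor_le (Real.rpow_nonneg hL0.le _)
  have a4 : Lg X ^ κ < (yf X κ : ℝ) + 1 := Nat.lt_floor_add_one _
  have a5 : Lg X ^ κ0 ≤ Lg X ^ κ := Real.rpow_le_rpow_of_exponent_le hL1 hκ
  have a6 : Lg X ≤ Lg X ^ κ0 := by
    calc Lg X = Lg X ^ (1 : ℝ) := (Real.rpow_one _).symm
      _ ≤ Lg X ^ κ0 := Real.rpow_le_rpow_of_exponent_le hL1 hκ0.le
  have a7 : Lg X ^ (κ + h) = Lg X ^ κ * Lg X ^ h := Real.rpow_add hL0 _ _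
  have a8 : 5 * Lg X ^ κ ≤ Lg X ^ (κ + h) := by
    rw [a7, mul_comm]
    exact mul_le_mul_of_nonneg_left h5 (Real.rpow_nonneg hL0.le _)
  refine ⟨?_, a1, ?_, by linarith, by linarith, by linarith, ?_⟩
  · have : (4 : ℝ) * (yf X κ : ℝ) ≤ (yf X (κ + h) : ℝ) := by linarith
    exact_mod_cast this
  · refine a1.trans ?_
    calc Lg X ^ (κ + h) ≤ Lg X ^ ((16 : ℕ) : ℝ) :=
          Real.rpow_le_rpow_of_exponent_le hL1 (by exact_mod_cast h16)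
      _ = Lg X ^ 16 := Real.rpow_natCast _ _
  · have : (0 : ℝ) < (yf X κ : ℝ) := by linarith
    have h0 : 0 < yf X κ := by exact_mod_cast this
    exact h0

/-- `y0` is large -/
theorem Cls_y0 {L κ h e : ℝ} {y y0 : ℕ} (hL : 4 ≤ L) (hκ : 1 ≤ κ) (hh : 0 < h) (he0 : 0 < e)
    (he1 : e ≤ 1) (hhe : h ≤ e / 4) (h2 : 2 ≤ L ^ (e / 16)) (hy : (y : ℝ) ≤ L ^ (κ + h))
    (hy0 : L ^ κ ≤ 2 * (y0 : ℝ)) : (y : ℝ) ^ (1 - e) ≤ y0 := by
  have hL0 : 0 < L := by linarith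
  have hL1 : 1 ≤ L := by linarith
  have a1 : (y : ℝ) ^ (1 - e) ≤ L ^ (κ - 3 * e / 4) := by
    calc (y : ℝ) ^ (1 - e) ≤ (L ^ (κ + h)) ^ (1 - e) :=
          Real.rpow_le_rpow (Nat.cast_nonneg y) hy (by linarith)
      _ = L ^ ((κ + h) * (1 - e)) := (Real.rpow_mul hL0.le _ _).symm
      _ ≤ L ^ (κ - 3 * e / 4) := by
          refine Real.rpow_le_rpow_of_exponent_le hL1 ?_
          nlinarith
  have a2 : 2 * L ^ (κ - 3 * e / 4) ≤ L ^ κ := by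
    calc 2 * L ^ (κ - 3 * e / 4) ≤ L ^ (e / 16) * L ^ (κ - 3 * e / 4) :=
          mul_le_mul_of_nonneg_right h2 (Real.rpow_nonneg hL0.le _)
      _ = L ^ (e / 16 + (κ - 3 * e / 4)) := (Real.rpow_add hL0 _ _).symm
      _ ≤ L ^ κ := Real.rpow_le_rpow_of_exponent_le hL1 (by linarith)
  linarith

/-- the bound for `N` -/
theorem Cls_N {L κ h e c W : ℝ} {y y0 k n : ℕ} (hL : 4 ≤ L) (hc : 0 < c)
    (he0 : 0 < e) (hhe : h ≤ e / 4) (h2 : 2 ≤ L ^ (e / 16))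
    (h192 : 192 * Real.log L ≤ c * L ^ (e / 16)) (hk1 : 1 ≤ k)
    (hk : c * L ≤ 64 * k * Real.log L) (hn : n ≤ y) (hLy : L ≤ y)
    (hy : (y : ℝ) ≤ L ^ (κ + h)) (hy0 : L ^ κ ≤ 2 * (y0 : ℝ))
    (hG : (y0 : ℝ) ^ k ≤ L ^ k * W) :
    ((n.choose k : ℕ) : ℝ) ≤ W * (y : ℝ) ^ (e / 2 * k) := by
  have hL0 : 0 < L := by linarith
  have hL1 : 1 ≤ L := by linarith
  have hkR : (0 : ℝ) < k := by exact_mod_cast hk1
  have hy0R : (0 : ℝ) < y := by linarith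
  -- 3 L ≤ k L ^ (e / 16)
  have a1 : 3 * L ≤ k * L ^ (e / 16) := by
    have h3 : c * (3 * L) ≤ c * (k * L ^ (e / 16)) := by
      calc c * (3 * L) = 3 * (c * L) := by ring
        _ ≤ 3 * (64 * k * Real.log L) := by linarith
        _ = k * (192 * Real.log L) := by ring
        _ ≤ k * (c * L ^ (e / 16)) := mul_le_mul_of_nonneg_left h192 hkR.le
        _ = c * (k * L ^ (e / 16)) := by ring
    exact le_of_mul_le_mul_left h3 hc
  -- y ≤ y0 L ^ (5 e / 16)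
  have a2 : (y : ℝ) ≤ y0 * (L ^ (e / 16) * L ^ (e / 4)) := by
    calc (y : ℝ) ≤ L ^ (κ + h) := hy
      _ = L ^ κ * L ^ h := Real.rpow_add hL0 _ _
      _ ≤ (2 * (y0 : ℝ)) * L ^ (e / 4) :=
          mul_le_mul hy0 (Real.rpow_le_rpow_of_exponent_le hL1 hhe)
            (Real.rpow_nonneg hL0.le _) (by positivity)
      _ = (y0 * L ^ (e / 4)) * 2 := by ring
      _ ≤ (y0 * L ^ (e / 4)) * L ^ (e / 16) := mul_le_mul_of_nonneg_left h2 (by positivity)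
      _ = y0 * (L ^ (e / 16) * L ^ (e / 4)) := by ring
  have a3 : L ^ (e / 16) * L ^ (e / 4) * L ^ (e / 16) = L ^ (3 * e / 8) := by
    rw [← Real.rpow_add hL0, ← Real.rpow_add hL0]
    congr 1
    ring
  have a4 : L ^ (3 * e / 8) ≤ (y : ℝ) ^ (e / 2) := by
    calc L ^ (3 * e / 8) ≤ (y : ℝ) ^ (3 * e / 8) := Real.rpow_le_rpow hL0.le hLy (by positivity)
      _ ≤ (y : ℝ) ^ (e / 2) :=
          Real.rpow_le_rpow_of_exponent_le (by linarith) (by linarith)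
  have a5 : 3 * (y : ℝ) * L ≤ y0 * k * (y : ℝ) ^ (e / 2) := by
    calc 3 * (y : ℝ) * L = y * (3 * L) := by ring
      _ ≤ (y0 * (L ^ (e / 16) * L ^ (e / 4))) * (k * L ^ (e / 16)) :=
          mul_le_mul a2 a1 (by linarith) (by positivity)
      _ = y0 * k * (L ^ (e / 16) * L ^ (e / 4) * L ^ (e / 16)) := by ring
      _ ≤ y0 * k * (y : ℝ) ^ (e / 2) := by
          rw [a3]
          exact mul_le_mul_of_nonneg_left a4 (by positivity)
  have a6 : (3 * (y : ℝ)) ^ k * L ^ k ≤ (W * (y : ℝ) ^ (e / 2 * k) * (k : ℝ) ^ k) * L ^ k := by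
    calc (3 * (y : ℝ)) ^ k * L ^ k = (3 * (y : ℝ) * L) ^ k := (mul_pow _ _ _).symm
      _ ≤ (y0 * k * (y : ℝ) ^ (e / 2)) ^ k := pow_le_pow_left₀ (by positivity) a5 k
      _ = (y0 : ℝ) ^ k * ((k : ℝ) ^ k * ((y : ℝ) ^ (e / 2)) ^ k) := by rw [mul_pow, mul_pow]; ring
      _ ≤ (L ^ k * W) * ((k : ℝ) ^ k * ((y : ℝ) ^ (e / 2)) ^ k) :=
          mul_le_mul_of_nonneg_right hG (by positivity)
      _ = (W * ((y : ℝ) ^ (e / 2)) ^ k * (k : ℝ) ^ k) * L ^ k := by ring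
      _ = (W * (y : ℝ) ^ (e / 2 * k) * (k : ℝ) ^ k) * L ^ k := by
          rw [Real.rpow_mul hy0R.le, Real.rpow_natCast]
  have a7 := le_of_mul_le_mul_right a6 (by positivity)
  have a8 := (Cls_choose (k := k) hn).trans a7
  exact le_of_mul_le_mul_right a8 (by positivity)

theorem Cls_sub_P {y0 y : ℕ} : (Cls_P y0 y).card ≤ y := by
  unfold Cls_P
  calc ((Ioc y0 y).filter Nat.Prime).card ≤ (Ioc y0 y).card := card_filter_le _ _
    _ = y - y0 := Nat.card_Ioc _ _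
    _ ≤ y := Nat.sub_le _ _

/-- one element of the set -/
theorem Cls_q {X : ℕ} {κ κ' τ ρ : ℝ} {q : ℤ} (hX : 2 ≤ X) (hκ : 1 ≤ κ) (hL4 : 4 ≤ Lg X)
    (hq : ∃ n : ℕ, 1 ≤ n ∧ n ≤ X ∧ q = (part (phiC X κ κ') n : ℤ) ∧
          (X : ℝ) ^ (-τ - ρ) ≤ G X (part (phiC X κ κ') n) ∧
          G X (part (phiC X κ κ') n) ≤ (X : ℝ) ^ (-τ)) :
    q.natAbs.primeFactors.card ≤ Nat.log 2 X ∧
      q ∈ A (Cls_P (yf X κ) (yf X κ')) q.natAbs.primeFactors.card ∧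
      Lg X ^ q.natAbs.primeFactors.card ≤ (X : ℝ) ∧
      (X : ℝ) ^ τ ≤ (yf X κ' : ℝ) ^ q.natAbs.primeFactors.card ∧
      (yf X κ : ℝ) ^ q.natAbs.primeFactors.card ≤
        Lg X ^ q.natAbs.primeFactors.card * (X : ℝ) ^ (τ + ρ) := by
  obtain ⟨n, hn1, hnX, rfl, hG1, hG2⟩ := hq
  obtain ⟨F, hF, hpf, hprod, hG, hLF⟩ := Cls_elem (κ' := κ') (n := n) (by omega : 1 ≤ X) hκ
  rw [Int.natAbs_natCast, hpf]
  set a := part (phiC X κ κ') n with ha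
  have hX0 : (0 : ℝ) < X := by
    have : 0 < X := by omega
    exact_mod_cast this
  have hL0 : 0 < Lg X := by linarith
  have haX : a ≤ X := (part_le _ (by omega)).trans hnX
  have haXR : (a : ℝ) ≤ X := by exact_mod_cast haX
  have ha0 : 0 < a := part_pos _ _
  have ha0R : (0 : ℝ) < a := by exact_mod_cast ha0
  have hmem : ∀ p ∈ F, p.Prime ∧ yf X κ < p ∧ p ≤ yf X κ' := by
    intro p hp
    have h1 := mem_filter.1 (hF hp)
    have h2 := mem_Ioc.1 h1.1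
    exact ⟨h1.2, h2.1, h2.2⟩
  have hLX : Lg X ^ F.card ≤ (X : ℝ) := hLF.trans haXR
  have hay : (a : ℝ) ≤ (yf X κ' : ℝ) ^ F.card := by
    have h1 : a ≤ (yf X κ') ^ F.card := by
      rw [hprod]
      exact prod_le_pow_card F _ _ (fun p hp => (hmem p hp).2.2)
    exact_mod_cast h1
  have hy0a : (yf X κ : ℝ) ^ F.card ≤ (a : ℝ) := by
    have h1 : (yf X κ) ^ F.card ≤ a := by
      rw [hprod, ← prod_const]
      exact prod_le_prod' (fun p hp => (hmem p hp).2.1.le)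
    exact_mod_cast h1
  refine ⟨?_, ?_, hLX, ?_, ?_⟩
  · refine Nat.le_log_of_pow_le (by norm_num) ?_
    have h1 : (2 : ℝ) ^ F.card ≤ (X : ℝ) :=
      (pow_le_pow_left₀ (by norm_num) (by linarith) _).trans hLX
    exact_mod_cast h1
  · unfold A
    refine mem_image.2 ⟨F, mem_powersetCard.2 ⟨hF, rfl⟩, ?_⟩
    rw [hprod]
    push_cast
    rfl
  · refine le_trans ?_ hay
    have h1 : (a : ℝ)⁻¹ ≤ (X : ℝ) ^ (-τ) := by
      refine le_trans ?_ hG2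
      exact inv_le_G (by omega) (by omega)
    rw [Real.rpow_neg hX0.le] at h1
    exact (inv_le_inv₀ ha0R (Real.rpow_pos_of_pos hX0 _)).1 h1
  · have h1 : (X : ℝ) ^ (-(τ + ρ)) ≤ Lg X ^ F.card / (a : ℝ) := by
      have h2 : -(τ + ρ) = -τ - ρ := by ring
      rw [h2, ← hG]
      exact hG1
    rw [le_div_iff₀ ha0R, Real.rpow_neg hX0.le] at h1
    have h3 : (a : ℝ) ≤ Lg X ^ F.card * (X : ℝ) ^ (τ + ρ) := by
      have h4 : (0 : ℝ) < (X : ℝ) ^ (τ + ρ) := Real.rpow_pos_of_pos hX0 _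
      calc (a : ℝ) = (((X : ℝ) ^ (τ + ρ))⁻¹ * a) * (X : ℝ) ^ (τ + ρ) := by
            field_simp
        _ ≤ Lg X ^ F.card * (X : ℝ) ^ (τ + ρ) := mul_le_mul_of_nonneg_right h1 h4.le
    exact hy0a.trans h3

theorem class_comp (κ0 : ℝ) (hκ0 : 1 < κ0) : ∃ ε : ℝ, 0 < ε ∧
    ∀ c h : ℝ, 0 < c → 0 < h → h ≤ ε → ∃ ρ1 : ℝ, 0 < ρ1 ∧ ∀ ρ : ℝ, 0 < ρ → ρ ≤ ρ1 →
    ∃ X0 : ℕ, ∀ X : ℕ, X0 ≤ X → ∀ κ : ℝ, κ0 ≤ κ → κ + h ≤ 16 → ∀ τ : ℝ, c ≤ τ →
      ∀ Q : Finset ℤ,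
        (∀ q ∈ Q, ∃ n : ℕ, 1 ≤ n ∧ n ≤ X ∧ q = (part (phiC X κ (κ + h)) n : ℤ) ∧
          (X : ℝ) ^ (-τ - ρ) ≤ G X (part (phiC X κ (κ + h)) n) ∧
          G X (part (phiC X κ (κ + h)) n) ≤ (X : ℝ) ^ (-τ)) →
        (X : ℝ) ^ (τ - 5 * ρ) ≤ (Q.card : ℝ) →
        (X : ℝ) ^ (τ + 14 * ρ) < ((Q - Q).card : ℝ) := by
  have hq0 : 0 < 2 * κ0 / (κ0 - 1) := div_pos (by linarith) (by linarith)
  obtain ⟨e, he0, he1, Y, hSP⟩ := Cls_SP ⌈2 * κ0 / (κ0 - 1)⌉₊ 17 (Nat.ceil_pos.2 hq0) (by norm_num)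
  obtain ⟨YC, hYC2, hCheb⟩ := primes_Ioc
  refine ⟨e / 4, by positivity, ?_⟩
  intro c h hc hh hhe
  refine ⟨e * c / 20, by positivity, ?_⟩
  intro ρ hρ hρ1
  obtain ⟨X0, hX0⟩ := Cls_ev c h e ρ ⌈2 * κ0 / (κ0 - 1)⌉₊ (max Y YC) hc hh he0 hρ
  refine ⟨X0, ?_⟩
  intro X hXX κ hκ hκ16 τ hτ Q hQ hQc
  obtain ⟨hX2, hL4, hYL, hlog, h5, ha0, h2e, h192, h17, hlg⟩ := hX0 X hXX
  obtain ⟨hy4, hyκ, hy16, hyκ0, hLy, hy0κ, hy01⟩ := Cls_sizes hL4 hκ0 hκ hκ16 h5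
  have hXR : (2 : ℝ) ≤ X := by exact_mod_cast hX2
  have hXp : (0 : ℝ) < X := by linarith
  have hX1 : (1 : ℝ) ≤ X := by linarith
  set y0 := yf X κ with hy0
  set y := yf X (κ + h) with hy
  set P := Cls_P y0 y with hP
  have hYy : max Y YC ≤ y := by
    have : ((max Y YC : ℕ) : ℝ) ≤ (y : ℝ) := hYL.trans hLy
    exact_mod_cast this
  have hy1 : 1 ≤ y := by omega
  have hy1R : (1 : ℝ) ≤ y := by exact_mod_cast hy1
  have hy0R : (0 : ℝ) < y := by linarith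
  -- pigeonhole
  obtain ⟨k, hk⟩ := Cls_pig (Q := Q) (K := Nat.log 2 X) (fun q => q.natAbs.primeFactors.card)
    (fun q hq => (Cls_q hX2 (by linarith) hL4 (hQ q hq)).1)
  set V := Q.filter (fun q => q.natAbs.primeFactors.card = k) with hV
  have hVQ : V ⊆ Q := filter_subset _ _
  have hVc : (X : ℝ) ^ (τ - 6 * ρ) ≤ (V.card : ℝ) := by
    have h1 : (Q.card : ℝ) ≤ ((Nat.log 2 X : ℕ) + 1) * (V.card : ℝ) := by exact_mod_cast hk
    have h2 : (X : ℝ) ^ (τ - 5 * ρ) ≤ (X : ℝ) ^ ρ * (V.card : ℝ) :=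
      hQc.trans (h1.trans (mul_le_mul_of_nonneg_right hlg (Nat.cast_nonneg _)))
    have h3 : (X : ℝ) ^ (τ - 5 * ρ) = (X : ℝ) ^ ρ * (X : ℝ) ^ (τ - 6 * ρ) := by
      rw [← Real.rpow_add hXp]
      congr 1
      ring
    rw [h3] at h2
    exact le_of_mul_le_mul_left h2 (Real.rpow_pos_of_pos hXp _)
  have hVA : V ⊆ A P k := by
    intro q hq
    obtain ⟨h1, h2⟩ := mem_filter.1 hq
    have h3 := (Cls_q hX2 (by linarith) hL4 (hQ q h1)).2.1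
    rw [h2] at h3
    exact h3
  have hVne : V.Nonempty := by
    rw [← card_pos]
    have h1 : (0 : ℝ) < (V.card : ℝ) := lt_of_lt_of_le (Real.rpow_pos_of_pos hXp _) hVc
    exact_mod_cast h1
  obtain ⟨q, hq⟩ := hVne
  obtain ⟨hqQ, hqk⟩ := mem_filter.1 hq
  obtain ⟨-, -, hLk, hXy, hyW⟩ := Cls_q hX2 (by linarith) hL4 (hQ q hqQ)
  rw [hqk] at hLk hXy hyW
  have hXc : (X : ℝ) ^ c ≤ (y : ℝ) ^ k := (Real.rpow_le_rpow_of_exponent_le hX1 hτ).trans hXy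
  obtain ⟨hk1, hkc, hyk, hkL⟩ := Cls_k rfl hX2 hc hL4 hlog hy1 hy16 hXc hLk h17
  have hPc : P.card ≤ y := Cls_sub_P
  have hratio : y * k ^ ⌈2 * κ0 / (κ0 - 1)⌉₊ ≤ P.card ^ ⌈2 * κ0 / (κ0 - 1)⌉₊ :=
    Cls_card hκ0 (Nat.le_ceil _) hL4 hyκ0 hy1 hy16 hkL ha0 (hCheb y y0 (by omega) hy4)
  have hye := Cls_y0 hL4 (by linarith) hh he0 he1 hhe h2e hyκ hy0κ
  have hN : (N P k : ℝ) ≤ (X : ℝ) ^ (τ + ρ) * (y : ℝ) ^ (e / 2 * k) :=
    Cls_N hL4 hc he0 hhe h2e h192 hk1 hkc hPc hLy hyκ hy0κ hyW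
  have hpowe : ∀ s : ℝ, 0 ≤ s → (X : ℝ) ^ (c * s) ≤ (y : ℝ) ^ (s * k) := by
    intro s hs
    calc (X : ℝ) ^ (c * s) = ((X : ℝ) ^ c) ^ s := Real.rpow_mul hXp.le _ _
      _ ≤ ((y : ℝ) ^ k) ^ s := Real.rpow_le_rpow (Real.rpow_nonneg hXp.le _) hXc hs
      _ = (y : ℝ) ^ (s * k) := by
          rw [← Real.rpow_natCast, ← Real.rpow_mul hy0R.le, mul_comm]
  have hdense : (N P k : ℝ) ≤ (y : ℝ) ^ (e * k) * V.card := by
    calc (N P k : ℝ) ≤ (X : ℝ) ^ (τ + ρ) * (y : ℝ) ^ (e / 2 * k) := hN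
      _ = ((X : ℝ) ^ (τ - 6 * ρ) * (X : ℝ) ^ (7 * ρ)) * (y : ℝ) ^ (e / 2 * k) := by
          rw [← Real.rpow_add hXp]
          congr 2
          ring
      _ ≤ ((V.card : ℝ) * (y : ℝ) ^ (e / 2 * k)) * (y : ℝ) ^ (e / 2 * k) := by
          refine mul_le_mul_of_nonneg_right ?_ (by positivity)
          refine mul_le_mul hVc ?_ (by positivity) (by positivity)
          refine le_trans (Real.rpow_le_rpow_of_exponent_le hX1 ?_) (hpowe (e / 2) (by positivity))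
          nlinarith [mul_pos he0 hc]
      _ = (y : ℝ) ^ (e * k) * V.card := by
          have h1 : e * (k : ℝ) = e / 2 * k + e / 2 * k := by ring
          rw [h1, Real.rpow_add hy0R]
          ring
  have hfin := hSP y0 y k P (le_trans (le_max_left _ _) hYy) hy1
    (fun p hp => by
      have h1 := mem_filter.1 hp
      have h2 := mem_Ioc.1 h1.1
      exact ⟨h1.2, h2.1, h2.2⟩) hye hk1 hratio hyk V hVA hdense
  have hNV : (X : ℝ) ^ (τ - 6 * ρ) ≤ (N P k : ℝ) := by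
    refine hVc.trans ?_
    have h1 : V.card ≤ N P k := by
      refine (card_le_card hVA).trans ?_
      unfold A N
      exact card_image_le.trans (card_powersetCard _ _).le
    exact_mod_cast h1
  have hXe : (X : ℝ) ^ (20 * ρ) ≤ (y : ℝ) ^ (e * k) := by
    refine le_trans (Real.rpow_le_rpow_of_exponent_le hX1 ?_) (hpowe e he0.le)
    linarith
  have hlast : (X : ℝ) ^ (τ + 14 * ρ) ≤ (y : ℝ) ^ (e * k) * (N P k : ℝ) := by
    calc (X : ℝ) ^ (τ + 14 * ρ) = (X : ℝ) ^ (20 * ρ) * (X : ℝ) ^ (τ - 6 * ρ) := by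
          rw [← Real.rpow_add hXp]
          congr 1
          ring
      _ ≤ (y : ℝ) ^ (e * k) * (N P k : ℝ) :=
          mul_le_mul hXe hNV (by positivity) (by positivity)
  have hVV : ((V - V).card : ℝ) ≤ ((Q - Q).card : ℝ) := by
    exact_mod_cast card_le_card (sub_subset_sub hVQ hVQ)
  exact lt_of_le_of_lt hlast (lt_of_lt_of_le hfin hVV)

end Pool.Agent.helper41.EX
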