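import Pool.Agent.helper41.EX.Part

/-! # EXS-Comp: every relevant integer has a component with small `G` -/

namespace Pool.Agent.helper41.EX

open Finset

theorem Comp_split (S : Finset ℕ) (P Q : ℕ → Prop) [DecidablePred P] [DecidablePred Q]
    (f : ℕ → ℝ) : ∏ p ∈ S.filter P, f p =
      (∏ p ∈ S.filter (fun p => P p ∧ Q p), f p) * ∏ p ∈ S.filter (fun p => P p ∧ ¬ Q p), f p := by
  rw [← Finset.prod_filter_mul_prod_filter_not (S.filter P) Q f, Finset.filter_filter,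
    Finset.filter_filter]

theorem Comp_low {X n : ℕ} (hn : 1 ≤ n) (hnX : n ≤ X) (a : ℝ) (ha : 0 ≤ a) (S : Finset ℕ)
    (hS : S ⊆ n.primeFactors) (f : ℕ → ℝ)
    (hf : ∀ p ∈ S, ((p : ℝ) ^ (n.factorization p)) ^ (-a) ≤ f p) :
    (X : ℝ) ^ (-a) ≤ ∏ p ∈ S, f p := by
  have h1 : ∏ p ∈ S, ((p : ℝ) ^ (n.factorization p)) ^ (-a) ≤ ∏ p ∈ S, f p :=
    Finset.prod_le_prod (fun p _ => by positivity) hf
  have h2 : ∏ p ∈ S, ((p : ℝ) ^ (n.factorization p)) ^ (-a) =
      (∏ p ∈ S, ((p : ℝ) ^ (n.factorization p))) ^ (-a) :=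
    Real.finsetProd_rpow S _ (fun p _ => by positivity) (-a)
  have h3 : ∏ p ∈ S, p ^ (n.factorization p) ≤ n := by
    have h4 : ∏ p ∈ S, p ^ (n.factorization p) ≤
        ∏ p ∈ n.primeFactors, p ^ (n.factorization p) := by
      refine Finset.prod_le_prod_of_subset_of_one_le' hS ?_
      intro p hp _
      exact Nat.one_le_pow _ _ (Nat.prime_of_mem_primeFactors hp).pos
    have h5 : ∏ p ∈ n.primeFactors, p ^ (n.factorization p) = n :=
      Nat.prod_factorization_pow_eq_self (by omega)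
    omega
  have h6 : (∏ p ∈ S, ((p : ℝ) ^ (n.factorization p))) ≤ (X : ℝ) := by
    have h7 : (∏ p ∈ S, p ^ (n.factorization p)) ≤ X := h3.trans hnX
    exact_mod_cast h7
  have h8 : (0 : ℝ) < ∏ p ∈ S, ((p : ℝ) ^ (n.factorization p)) := by
    refine Finset.prod_pos fun p hp => ?_
    have : (0 : ℝ) < p := by exact_mod_cast (Nat.prime_of_mem_primeFactors (hS hp)).pos
    positivity
  calc (X : ℝ) ^ (-a) ≤ (∏ p ∈ S, ((p : ℝ) ^ (n.factorization p))) ^ (-a) :=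
        Real.rpow_le_rpow_of_nonpos h8 h6 (by linarith)
    _ ≤ _ := by rw [← h2]; exact h1

theorem Comp_yf_mono {X : ℕ} (hX : 1 ≤ X) {a b : ℝ} (hab : a ≤ b) : yf X a ≤ yf X b :=
  Nat.floor_mono (Real.rpow_le_rpow_of_exponent_le (Lg_ge_one hX) hab)

/-- small primes -/
theorem Comp_small {X n : ℕ} (hn : 1 ≤ n) (hnX : n ≤ X) (t κ0 : ℝ) (ht : 0 < t) (ht1 : t ≤ 1)
    (hκ : κ0 ≤ 1 + t) :
    (X : ℝ) ^ (-t) ≤ ∏ p ∈ n.primeFactors.filter (fun p => p ≤ yf X κ0), (Lg X / p) := by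
  have hX : 1 ≤ X := hn.trans hnX
  have hL := Lg_ge_one hX
  refine Comp_low hn hnX t ht.le _ (Finset.filter_subset _ _) _ ?_
  intro p hp
  rw [Finset.mem_filter] at hp
  have hpp := Nat.prime_of_mem_primeFactors hp.1
  have hp1 : (1 : ℝ) ≤ p := by exact_mod_cast hpp.one_lt.le
  have hp0 : (0 : ℝ) < p := by linarith
  have hv : 1 ≤ n.factorization p := by
    have := hpp.factorization_pos_of_dvd (by omega) (Nat.dvd_of_mem_primeFactors hp.1)
    omega
  have h1 : (p : ℝ) ≤ (p : ℝ) ^ (n.factorization p) := by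
    calc (p : ℝ) = (p : ℝ) ^ 1 := (pow_one _).symm
      _ ≤ _ := pow_le_pow_right₀ hp1 hv
  have h2 : ((p : ℝ) ^ (n.factorization p)) ^ (-t) ≤ (p : ℝ) ^ (-t) :=
    Real.rpow_le_rpow_of_nonpos hp0 h1 (by linarith)
  refine h2.trans ?_
  rw [le_div_iff₀ hp0]
  have h3 : (p : ℝ) ≤ Lg X ^ κ0 := by
    have := Nat.floor_le (Real.rpow_nonneg (by linarith : (0 : ℝ) ≤ Lg X) κ0)
    have h4 : (p : ℝ) ≤ (yf X κ0 : ℝ) := by exact_mod_cast hp.2
    exact h4.trans this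
  calc (p : ℝ) ^ (-t) * p = (p : ℝ) ^ (1 - t) := by
        rw [← Real.rpow_add_one hp0.ne']; ring_nf
    _ ≤ (Lg X ^ κ0) ^ (1 - t) := Real.rpow_le_rpow hp0.le h3 (by linarith)
    _ = Lg X ^ (κ0 * (1 - t)) := by rw [← Real.rpow_mul (by linarith)]
    _ ≤ Lg X ^ (1 : ℝ) := Real.rpow_le_rpow_of_exponent_le hL (by nlinarith)
    _ = Lg X := Real.rpow_one _

/-- high exponents -/
theorem Comp_high {X n J : ℕ} (hn : 1 ≤ n) (hnX : n ≤ X) (t : ℝ) (ht : 0 < t)
    (hJ : 1 ≤ t * J) (S : Finset ℕ) (hS : S ⊆ n.primeFactors)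
    (hv : ∀ p ∈ S, J ≤ n.factorization p) :
    (X : ℝ) ^ (-t) ≤ ∏ p ∈ S, (Lg X / p) := by
  have hX : 1 ≤ X := hn.trans hnX
  have hL := Lg_ge_one hX
  refine Comp_low hn hnX t ht.le _ hS _ ?_
  intro p hp
  have hpp := Nat.prime_of_mem_primeFactors (hS hp)
  have hp1 : (1 : ℝ) ≤ p := by exact_mod_cast hpp.one_lt.le
  have hp0 : (0 : ℝ) < p := by linarith
  rw [le_div_iff₀ hp0, ← Real.rpow_natCast, ← Real.rpow_mul hp0.le, ← Real.rpow_add_one hp0.ne']
  have h1 : (J : ℝ) ≤ (n.factorization p : ℝ) := by exact_mod_cast hv p hp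
  have h2 : (n.factorization p : ℝ) * -t + 1 ≤ 0 := by nlinarith
  exact (Real.rpow_le_one_of_one_le_of_nonpos hp1 h2).trans hL

theorem comp_exists (θ κ0 ε : ℝ) (hθ : 0 < θ) (hθ1 : θ ≤ 2) (hκ0 : 1 < κ0)
    (hκ : κ0 ≤ 1 + θ / 27) (hε : 0 < ε) :
    ∃ (T J0 : ℕ) (h c : ℝ), 1 ≤ T ∧ 1 ≤ J0 ∧ 0 < h ∧ h ≤ ε ∧ κ0 + T * h = 16 ∧ 0 < c ∧
      ∃ X0 : ℕ, ∀ X : ℕ, X0 ≤ X → ∀ n : ℕ, 1 ≤ n → n ≤ X →
        G X n ≤ (X : ℝ) ^ (-(8 * θ / 27)) → (lin X n : ℝ) ≤ (X : ℝ) ^ (4 * θ / 27) →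
        (∃ i : ℕ, i < T ∧
          G X (part (phiC X (κ0 + i * h) (κ0 + i * h + h)) n) ≤ (X : ℝ) ^ (-c)) ∨
        (∃ j : ℕ, 2 ≤ j ∧ j ≤ J0 ∧ G X (part (phiP X κ0 j) n) ≤ (X : ℝ) ^ (-c)) := by
  classical
  have h16 : 0 < 16 - κ0 := by linarith
  set T : ℕ := ⌈(16 - κ0) / ε⌉₊ with hT
  set J0 : ℕ := ⌈27 / θ⌉₊ + 1 with hJ0
  have hT1 : 1 ≤ T := Nat.one_le_ceil_iff.2 (by positivity)
  have hT0 : (0 : ℝ) < T := by exact_mod_cast hT1
  have hTe : (16 - κ0) / ε ≤ T := Nat.le_ceil _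
  have hJ1 : 1 ≤ J0 := by omega
  have hJe : 27 / θ ≤ J0 := by
    have := Nat.le_ceil (27 / θ)
    rw [hJ0]; push_cast; linarith
  have hJ27 : 1 ≤ θ / 27 * J0 := by
    rw [div_le_iff₀ hθ] at hJe
    linarith
  have hTJ : (0 : ℝ) < T + J0 := by positivity
  set c : ℝ := θ / (27 * (T + J0)) with hc
  have hc0 : 0 < c := by positivity
  have hcT : c * (T + J0) = θ / 27 := by rw [hc]; field_simp
  set h : ℝ := (16 - κ0) / T with hh
  have hh0 : 0 < h := by positivity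
  refine ⟨T, J0, h, c, hT1, hJ1, hh0, ?_, ?_, hc0, 2, ?_⟩
  · rw [hh, div_le_iff₀ hT0]
    rw [div_le_iff₀ hε] at hTe
    linarith
  · rw [hh]; field_simp; ring
  intro X hX n hn hnX hG hlin
  by_contra hcon
  push Not at hcon
  obtain ⟨hcon1, hcon2⟩ := hcon
  have hX1 : 1 ≤ X := by omega
  have hXr : (1 : ℝ) < X := by exact_mod_cast (by omega : 1 < X)
  have hX0 : (0 : ℝ) < X := by linarith
  have hL := Lg_ge_one hX1
  set S : Finset ℕ := n.primeFactors with hS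
  set v : ℕ → ℕ := fun p => n.factorization p with hv
  set f : ℕ → ℝ := fun p => Lg X / p with hf
  have hfpos : ∀ R : Finset ℕ, R ⊆ S → 0 < ∏ p ∈ R, f p := by
    intro R hR
    refine Finset.prod_pos fun p hp => ?_
    have : (0 : ℝ) < p := by exact_mod_cast (Nat.prime_of_mem_primeFactors (hR hp)).pos
    have : (0 : ℝ) < Lg X := by linarith
    positivity
  -- the classes
  have hC : ∀ i : ℕ, i < T → (X : ℝ) ^ (-c) ≤
      ∏ p ∈ S.filter (fun p => yf X (κ0 + i * h) < p ∧ p ≤ yf X (κ0 + (i + 1 : ℕ) * h) ∧ v p = 1),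
        f p := by
    intro i hi
    have h1 := (hcon1 i hi).le
    rw [G_part] at h1
    refine h1.trans (le_of_eq ?_)
    refine Finset.prod_congr ?_ (fun _ _ => rfl)
    refine Finset.filter_congr fun p _ => ?_
    have e1 : κ0 + i * h + h = κ0 + (i + 1 : ℕ) * h := by push_cast; ring
    simp only [phiC, decide_eq_true_eq, e1, hv]
  have hP : ∀ j : ℕ, 2 ≤ j → j ≤ J0 → (X : ℝ) ^ (-c) ≤
      ∏ p ∈ S.filter (fun p => yf X κ0 < p ∧ v p = j), f p := by
    intro j hj2 hj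
    have h1 := (hcon2 j hj2 hj).le
    rw [G_part] at h1
    refine h1.trans (le_of_eq ?_)
    refine Finset.prod_congr ?_ (fun _ _ => rfl)
    refine Finset.filter_congr fun p _ => ?_
    simp only [phiP, decide_eq_true_eq, hv]
  -- all classes together
  have claim1 : ∀ t : ℕ, t ≤ T → (X : ℝ) ^ (-(c * t)) ≤
      ∏ p ∈ S.filter (fun p => yf X κ0 < p ∧ p ≤ yf X (κ0 + t * h) ∧ v p = 1), f p := by
    intro t
    induction t with
    | zero =>
      intro _
      have e1 : S.filter (fun p => yf X κ0 < p ∧ p ≤ yf X (κ0 + (0 : ℕ) * h) ∧ v p = 1) = ∅ := by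
        refine Finset.filter_eq_empty_iff.2 fun p _ hp => ?_
        have : κ0 + (0 : ℕ) * h = κ0 := by push_cast; ring
        rw [this] at hp
        omega
      rw [e1]
      simp
    | succ t ih =>
      intro ht
      have ih' := ih (by omega)
      have hm1 : yf X κ0 ≤ yf X (κ0 + t * h) := Comp_yf_mono hX1 (by
        have : (0 : ℝ) ≤ t * h := by positivity
        linarith)
      have hm2 : yf X (κ0 + t * h) ≤ yf X (κ0 + (t + 1 : ℕ) * h) := Comp_yf_mono hX1 (by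
        push_cast; nlinarith)
      rw [Comp_split S _ (fun p => p ≤ yf X (κ0 + t * h)) f]
      have e1 : S.filter (fun p => (yf X κ0 < p ∧ p ≤ yf X (κ0 + (t + 1 : ℕ) * h) ∧ v p = 1) ∧
          p ≤ yf X (κ0 + t * h)) =
          S.filter (fun p => yf X κ0 < p ∧ p ≤ yf X (κ0 + t * h) ∧ v p = 1) := by
        refine Finset.filter_congr fun p _ => ?_
        constructor
        · rintro ⟨⟨a1, a2, a3⟩, a4⟩; exact ⟨a1, a4, a3⟩
        · rintro ⟨a1, a4, a3⟩; exact ⟨⟨a1, a4.trans hm2, a3⟩, a4⟩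
      have e2 : S.filter (fun p => (yf X κ0 < p ∧ p ≤ yf X (κ0 + (t + 1 : ℕ) * h) ∧ v p = 1) ∧
          ¬ p ≤ yf X (κ0 + t * h)) =
          S.filter (fun p => yf X (κ0 + t * h) < p ∧ p ≤ yf X (κ0 + (t + 1 : ℕ) * h) ∧
            v p = 1) := by
        refine Finset.filter_congr fun p _ => ?_
        constructor
        · rintro ⟨⟨a1, a2, a3⟩, a4⟩; exact ⟨not_le.1 a4, a2, a3⟩
        · rintro ⟨a1, a2, a3⟩; exact ⟨⟨hm1.trans_lt a1, a2, a3⟩, not_le.2 a1⟩
      rw [e1, e2]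
      have e3 : (X : ℝ) ^ (-(c * (t + 1 : ℕ))) = (X : ℝ) ^ (-(c * t)) * (X : ℝ) ^ (-c) := by
        rw [← Real.rpow_add hX0]; congr 1; push_cast; ring
      rw [e3]
      exact mul_le_mul ih' (hC t (by omega)) (by positivity) (hfpos _ (Finset.filter_subset _ _)).le
  have claim2 : ∀ J : ℕ, J ≤ J0 → (X : ℝ) ^ (-(c * J)) ≤
      ∏ p ∈ S.filter (fun p => yf X κ0 < p ∧ 2 ≤ v p ∧ v p ≤ J), f p := by
    intro J
    induction J with
    | zero =>
      intro _
      have e1 : S.filter (fun p => yf X κ0 < p ∧ 2 ≤ v p ∧ v p ≤ 0) = ∅ := by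
        refine Finset.filter_eq_empty_iff.2 fun p _ hp => ?_
        omega
      rw [e1]
      simp
    | succ J ih =>
      intro hJ
      have ih' := ih (by omega)
      have e3 : (X : ℝ) ^ (-(c * (J + 1 : ℕ))) = (X : ℝ) ^ (-(c * J)) * (X : ℝ) ^ (-c) := by
        rw [← Real.rpow_add hX0]; congr 1; push_cast; ring
      have e4 : (X : ℝ) ^ (-c) ≤ 1 :=
        Real.rpow_le_one_of_one_le_of_nonpos hXr.le (by linarith)
      rcases Nat.lt_or_ge J 1 with hJ1' | hJ1'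
      · have hJ0' : J = 0 := by omega
        subst hJ0'
        have e1 : S.filter (fun p => yf X κ0 < p ∧ 2 ≤ v p ∧ v p ≤ 0 + 1) = ∅ := by
          refine Finset.filter_eq_empty_iff.2 fun p _ hp => ?_
          omega
        rw [e1, e3]
        simpa using e4
      · rw [Comp_split S _ (fun p => v p ≤ J) f]
        have e1 : S.filter (fun p => (yf X κ0 < p ∧ 2 ≤ v p ∧ v p ≤ J + 1) ∧ v p ≤ J) =
            S.filter (fun p => yf X κ0 < p ∧ 2 ≤ v p ∧ v p ≤ J) := by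
          refine Finset.filter_congr fun p _ => ?_
          omega
        have e2 : S.filter (fun p => (yf X κ0 < p ∧ 2 ≤ v p ∧ v p ≤ J + 1) ∧ ¬ v p ≤ J) =
            S.filter (fun p => yf X κ0 < p ∧ v p = J + 1) := by
          refine Finset.filter_congr fun p _ => ?_
          omega
        rw [e1, e2, e3]
        exact mul_le_mul ih' (hP (J + 1) (by omega) hJ) (by positivity)
          (hfpos _ (Finset.filter_subset _ _)).le
  -- the other parts
  have part0 : (X : ℝ) ^ (-(θ / 27)) ≤ ∏ p ∈ S.filter (fun p => p ≤ yf X κ0), f p :=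
    Comp_small hn hnX (θ / 27) κ0 (by positivity) (by linarith) hκ
  have partH : (X : ℝ) ^ (-(θ / 27)) ≤
      ∏ p ∈ S.filter (fun p => yf X κ0 < p ∧ J0 < v p), f p := by
    refine Comp_high (J := J0) hn hnX (θ / 27) (by positivity) hJ27 _
      (Finset.filter_subset _ _) ?_
    intro p hp
    rw [Finset.mem_filter] at hp
    exact hp.2.2.le
  have partL : (X : ℝ) ^ (-(4 * θ / 27)) ≤
      ∏ p ∈ S.filter (fun p => yf X 16 < p ∧ v p = 1), f p := by
    have h1 : ((lin X n : ℕ) : ℝ)⁻¹ ≤ G X (lin X n) := inv_le_G hX1 (part_pos _ _).ne'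
    have h2 : G X (lin X n) = ∏ p ∈ S.filter (fun p => yf X 16 < p ∧ v p = 1), f p := by
      unfold lin
      rw [G_part]
      refine Finset.prod_congr ?_ (fun _ _ => rfl)
      refine Finset.filter_congr fun p _ => ?_
      simp only [phiL, decide_eq_true_eq, hv]
    rw [← h2]
    refine le_trans ?_ h1
    rw [Real.rpow_neg hX0.le]
    have h3 : (0 : ℝ) < (lin X n : ℝ) := by exact_mod_cast part_pos _ _
    exact inv_anti₀ h3 hlin
  have eT : κ0 + T * h = 16 := by rw [hh]; field_simp; ring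
  have hm16 : yf X κ0 ≤ yf X 16 := Comp_yf_mono hX1 (by linarith)
  have c1 := claim1 T le_rfl
  have c2 := claim2 J0 le_rfl
  rw [eT] at c1
  -- assemble
  have hGn : G X n = (∏ p ∈ S.filter (fun p => p ≤ yf X κ0), f p) *
      (((∏ p ∈ S.filter (fun p => yf X κ0 < p ∧ p ≤ yf X 16 ∧ v p = 1), f p) *
        (∏ p ∈ S.filter (fun p => yf X 16 < p ∧ v p = 1), f p)) *
      ((∏ p ∈ S.filter (fun p => yf X κ0 < p ∧ 2 ≤ v p ∧ v p ≤ J0), f p) *
        (∏ p ∈ S.filter (fun p => yf X κ0 < p ∧ J0 < v p), f p))) := by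
    have hvpos : ∀ p ∈ S, 1 ≤ v p := by
      intro p hp
      have hpp := Nat.prime_of_mem_primeFactors hp
      have := hpp.factorization_pos_of_dvd (by omega) (Nat.dvd_of_mem_primeFactors hp)
      show 1 ≤ n.factorization p
      exact this
    have g1 : G X n = ∏ p ∈ S, f p := rfl
    rw [g1, ← Finset.prod_filter_mul_prod_filter_not S (fun p => p ≤ yf X κ0) f]
    congr 1
    rw [Comp_split S _ (fun p => v p = 1) f]
    congr 1
    · rw [Comp_split S _ (fun p => p ≤ yf X 16) f]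
      congr 1
      · refine Finset.prod_congr (Finset.filter_congr fun p _ => ?_) (fun _ _ => rfl)
        constructor
        · rintro ⟨⟨a1, a2⟩, a3⟩; exact ⟨not_le.1 a1, a3, a2⟩
        · rintro ⟨a1, a3, a2⟩; exact ⟨⟨not_le.2 a1, a2⟩, a3⟩
      · refine Finset.prod_congr (Finset.filter_congr fun p _ => ?_) (fun _ _ => rfl)
        constructor
        · rintro ⟨⟨a1, a2⟩, a3⟩; exact ⟨not_le.1 a3, a2⟩
        · rintro ⟨a3, a2⟩; exact ⟨⟨not_le.2 (hm16.trans_lt a3), a2⟩, not_le.2 a3⟩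
    · rw [Comp_split S _ (fun p => v p ≤ J0) f]
      congr 1
      · refine Finset.prod_congr (Finset.filter_congr fun p hp => ?_) (fun _ _ => rfl)
        have := hvpos p hp
        constructor
        · rintro ⟨⟨a1, a2⟩, a3⟩; exact ⟨not_le.1 a1, by omega, a3⟩
        · rintro ⟨a1, a2, a3⟩; exact ⟨⟨not_le.2 a1, by omega⟩, a3⟩
      · refine Finset.prod_congr (Finset.filter_congr fun p hp => ?_) (fun _ _ => rfl)
        have := hvpos p hp
        constructor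
        · rintro ⟨⟨a1, a2⟩, a3⟩; exact ⟨not_le.1 a1, not_le.1 a3⟩
        · rintro ⟨a1, a3⟩; exact ⟨⟨not_le.2 a1, by omega⟩, not_le.2 a3⟩
  have hlow : (X : ℝ) ^ (-(7 * θ / 27)) ≤ G X n := by
    have e1 : (X : ℝ) ^ (-(7 * θ / 27)) = (X : ℝ) ^ (-(θ / 27)) *
        (((X : ℝ) ^ (-(c * T)) * (X : ℝ) ^ (-(4 * θ / 27))) *
          ((X : ℝ) ^ (-(c * J0)) * (X : ℝ) ^ (-(θ / 27)))) := by
      rw [← Real.rpow_add hX0, ← Real.rpow_add hX0, ← Real.rpow_add hX0, ← Real.rpow_add hX0]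
      congr 1
      linarith
    rw [e1, hGn]
    have q : ∀ a : ℝ, 0 ≤ (X : ℝ) ^ a := fun a => by positivity
    refine mul_le_mul part0 ?_ (by positivity) (hfpos _ (Finset.filter_subset _ _)).le
    refine mul_le_mul ?_ ?_ (by positivity) (mul_pos (hfpos _ (Finset.filter_subset _ _))
      (hfpos _ (Finset.filter_subset _ _))).le
    · exact mul_le_mul c1 partL (q _) (hfpos _ (Finset.filter_subset _ _)).le
    · exact mul_le_mul c2 partH (q _) (hfpos _ (Finset.filter_subset _ _)).le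
  have hlt : (X : ℝ) ^ (-(8 * θ / 27)) < (X : ℝ) ^ (-(7 * θ / 27)) :=
    Real.rpow_lt_rpow_of_exponent_lt hXr (by linarith)
  linarith

end Pool.Agent.helper41.EX
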