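import Pool.Agent.helper41.EX.Defs2

/-! # EXS-Count: the mean value of `G` (copy from the landed file
`Pool/Agent/Results/MP_14cf73_nt/ExceptionalSet.lean`, do NOT import it) -/

set_option maxHeartbeats 1000000

namespace Pool.Agent.helper41.EX

open Finset Real

/-- auxiliary weight -/
noncomputable def Count_g (L : ℝ) (n : ℕ) : ℝ := ∏ p ∈ n.primeFactors, (L / p)

theorem Count_g_pos {L : ℝ} (hL : 0 < L) (n : ℕ) : 0 < Count_g L n := by
  unfold Count_g
  apply Finset.prod_pos
  intro p hp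
  have := Nat.pos_of_mem_primeFactors hp
  positivity

theorem Count_g_mul (L : ℝ) {m n : ℕ} (h : Nat.Coprime m n) : Count_g L (m * n) = Count_g L m * Count_g L n := by
  unfold Count_g
  rw [h.primeFactors_mul, Finset.prod_union h.disjoint_primeFactors]

theorem Count_g_prime_pow (L : ℝ) {p k : ℕ} (hp : p.Prime) (hk : k ≠ 0) : Count_g L (p ^ k) = L / p := by
  unfold Count_g
  rw [Nat.primeFactors_prime_pow hk hp]
  simp

noncomputable def Count_f (L s : ℝ) (n : ℕ) : ℝ := Count_g L n * (n : ℝ) ^ (-s)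

theorem Count_f_one (L s : ℝ) : Count_f L s 1 = 1 := by simp [Count_f, Count_g]

theorem Count_f_nonneg {L : ℝ} (hL : 0 < L) (s : ℝ) (n : ℕ) : 0 ≤ Count_f L s n := by
  unfold Count_f
  have := Count_g_pos hL n
  positivity

theorem Count_f_mul (L s : ℝ) {m n : ℕ} (h : Nat.Coprime m n) : Count_f L s (m * n) = Count_f L s m * Count_f L s n := by
  unfold Count_f
  rw [Count_g_mul L h]
  push_cast
  rw [Real.mul_rpow (by positivity) (by positivity)]
  ring

theorem Count_f_prime_pow (L s : ℝ) {p : ℕ} (hp : p.Prime) (k : ℕ) :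
    Count_f L s (p ^ (k + 1)) = (L / p) * ((p : ℝ) ^ (-s) * ((p : ℝ) ^ (-s)) ^ k) := by
  unfold Count_f
  rw [Count_g_prime_pow L hp (Nat.succ_ne_zero k)]
  congr 1
  push_cast
  rw [← pow_succ', ← Real.rpow_natCast, ← Real.rpow_natCast, ← Real.rpow_mul (by positivity),
    ← Real.rpow_mul (by positivity)]
  congr 1
  ring

theorem Count_r_lt_one {s : ℝ} (hs : 0 < s) {p : ℕ} (hp : p.Prime) : (p : ℝ) ^ (-s) < 1 := by
  apply Real.rpow_lt_one_of_one_lt_of_neg
  · exact_mod_cast hp.one_lt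
  · linarith

theorem Count_hasSum_f {L s : ℝ} (hs : 0 < s) {p : ℕ} (hp : p.Prime) :
    HasSum (fun k : ℕ => Count_f L s (p ^ k)) (1 + (L / p) * ((p : ℝ) ^ (-s) * (1 - (p : ℝ) ^ (-s))⁻¹)) := by
  have h0 : (0 : ℝ) ≤ (p : ℝ) ^ (-s) := by positivity
  have h1 := (hasSum_geometric_of_lt_one h0 (Count_r_lt_one hs hp)).mul_left ((p : ℝ) ^ (-s))
  have h2 := h1.mul_left (L / p)
  have h3 : HasSum (fun k : ℕ => Count_f L s (p ^ (k + 1))) ((L / p) * ((p : ℝ) ^ (-s) * (1 - (p : ℝ) ^ (-s))⁻¹)) := by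
    have e : (fun k : ℕ => Count_f L s (p ^ (k + 1))) =
        fun k : ℕ => L / p * ((p : ℝ) ^ (-s) * ((p : ℝ) ^ (-s)) ^ k) := by
      funext k
      exact Count_f_prime_pow L s hp k
    rw [e]
    exact h2
  have h4 := (hasSum_nat_add_iff' (f := fun k : ℕ => Count_f L s (p ^ k))
    (g := 1 + (L / p) * ((p : ℝ) ^ (-s) * (1 - (p : ℝ) ^ (-s))⁻¹)) 1).mp
  apply h4
  simp only [Finset.range_one, Finset.sum_singleton, pow_zero, Count_f_one, add_sub_cancel_left]
  exact h3

theorem Count_sum_le_prod {L s : ℝ} (hL : 0 < L) (hs : 0 < s) (X : ℕ) :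
    ∑ m ∈ Finset.Icc 1 X, Count_f L s m ≤
      ∏ p ∈ (X + 1).primesBelow, (1 + (L / p) * ((p : ℝ) ^ (-s) * (1 - (p : ℝ) ^ (-s))⁻¹)) := by
  obtain ⟨h1, h2⟩ := EulerProduct.summable_and_hasSum_smoothNumbers_prod_primesBelow_tsum
    (f := Count_f L s) (Count_f_one L s) (fun {m n} h => Count_f_mul L s h)
    (fun {p} hp => (Count_hasSum_f (L := L) hs hp).summable.norm) (X + 1)
  have h3 : ∏ p ∈ (X + 1).primesBelow, ∑' n : ℕ, Count_f L s (p ^ n) =
      ∏ p ∈ (X + 1).primesBelow, (1 + (L / p) * ((p : ℝ) ^ (-s) * (1 - (p : ℝ) ^ (-s))⁻¹)) := by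
    apply Finset.prod_congr rfl
    intro p hp
    exact (Count_hasSum_f (L := L) hs (Nat.prime_of_mem_primesBelow hp)).tsum_eq
  rw [← h3]
  -- the finite sum is part of the series
  have hmem : ∀ m : Finset.Icc 1 X, (m : ℕ) ∈ (X + 1).smoothNumbers := by
    intro m
    have := Finset.mem_Icc.mp m.2
    exact Nat.mem_smoothNumbers_of_lt (by omega) (by omega)
  rw [← Finset.sum_coe_sort]
  let e : Finset.Icc 1 X → (X + 1).smoothNumbers := fun m => ⟨m, hmem m⟩
  have he : Function.Injective e := by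
    intro a b hab
    have := congrArg (fun z : (X + 1).smoothNumbers => (z : ℕ)) hab
    exact Subtype.ext this
  calc ∑ m : Finset.Icc 1 X, Count_f L s m = ∑ m : Finset.Icc 1 X, Count_f L s (e m) := rfl
    _ = ∑ z ∈ Finset.univ.map ⟨e, he⟩, Count_f L s z := by rw [Finset.sum_map]; rfl
    _ ≤ _ := sum_le_hasSum _ (fun z _ => Count_f_nonneg hL s z) h2

theorem Count_S_bound (δ : ℝ) (hδ : 0 < δ) :
    ∃ K : ℝ, 0 < K ∧ ∀ X : ℕ, 1 ≤ X →
      ∑ m ∈ Finset.Icc 1 X, Count_g (3 * Real.log X + 1) m ≤ K * (X : ℝ) ^ δ := by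
  set s := δ / 2 with hs
  have hspos : 0 < s := by positivity
  have h2s : (2 : ℝ) ^ (-s) < 1 := Real.rpow_lt_one_of_one_lt_of_neg (by norm_num) (by linarith)
  set D := (1 - (2 : ℝ) ^ (-s))⁻¹ with hD
  have hDpos : 0 < D := inv_pos.mpr (by linarith)
  set u : ℕ → ℝ := fun n => D * (n : ℝ) ^ (-(1 + s)) with hu
  have hsum : Summable u := by
    apply Summable.mul_left
    rw [Real.summable_nat_rpow]
    linarith
  set η := δ / 12 with hη
  have hηpos : 0 < η := by positivity
  obtain ⟨s0, hs0⟩ := summable_iff_vanishing_norm.mp hsum η hηpos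
  set T := s0.card + 1 with hT
  have hTpos : (0 : ℝ) < T := by rw [hT]; positivity
  set M0 := 1 + D * T / η with hM0
  have hM0pos : 0 < M0 := by positivity
  refine ⟨M0 ^ T * Real.exp (2 * η), by positivity, ?_⟩
  intro X hX
  have hX1 : (1 : ℝ) ≤ X := by exact_mod_cast hX
  have hlogX : 0 ≤ Real.log X := Real.log_nonneg hX1
  set L := 3 * Real.log X + 1 with hL
  have hLpos : 0 < L := by positivity
  -- step 1
  have st1 : ∑ m ∈ Finset.Icc 1 X, Count_g L m ≤ (X : ℝ) ^ s * ∑ m ∈ Finset.Icc 1 X, Count_f L s m := by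
    rw [Finset.mul_sum]
    apply Finset.sum_le_sum
    intro m hm
    have hm' := Finset.mem_Icc.mp hm
    have hm1 : (1 : ℝ) ≤ m := by exact_mod_cast hm'.1
    have hmX : (m : ℝ) ≤ X := by exact_mod_cast hm'.2
    unfold Count_f
    have hg := Count_g_pos hLpos m
    have h1 : (m : ℝ) ^ s ≤ (X : ℝ) ^ s := Real.rpow_le_rpow (by linarith) hmX hspos.le
    have h2 : (m : ℝ) ^ s * (m : ℝ) ^ (-s) = 1 := by
      rw [← Real.rpow_add (by linarith)]; simp
    calc Count_g L m = Count_g L m * ((m : ℝ) ^ s * (m : ℝ) ^ (-s)) := by rw [h2, mul_one]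
      _ ≤ Count_g L m * ((X : ℝ) ^ s * (m : ℝ) ^ (-s)) := by gcongr
      _ = _ := by ring
  -- step 2
  have st2 := Count_sum_le_prod (L := L) hLpos hspos X
  -- step 3 : bound each factor
  have st3 : ∏ p ∈ (X + 1).primesBelow, (1 + (L / p) * ((p : ℝ) ^ (-s) * (1 - (p : ℝ) ^ (-s))⁻¹)) ≤
      ∏ p ∈ (X + 1).primesBelow, (1 + L * u p) := by
    apply Finset.prod_le_prod
    · intro p hp
      have hpp := Nat.prime_of_mem_primesBelow hp
      have := Count_r_lt_one hspos hpp
      have h3 : 0 < 1 - (p : ℝ) ^ (-s) := by linarith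
      positivity
    · intro p hp
      have hpp := Nat.prime_of_mem_primesBelow hp
      have hp2 : (2 : ℝ) ≤ p := by exact_mod_cast hpp.two_le
      have h4 : (p : ℝ) ^ (-s) ≤ (2 : ℝ) ^ (-s) :=
        Real.rpow_le_rpow_of_nonpos (by norm_num) hp2 (by linarith)
      have h5 : (1 - (p : ℝ) ^ (-s))⁻¹ ≤ D := by
        rw [hD]
        apply inv_anti₀ <;> linarith
      have h6 : (p : ℝ) ^ (-(1 + s)) = (1 / p) * (p : ℝ) ^ (-s) := by
        rw [neg_add, Real.rpow_add (by linarith), Real.rpow_neg_one]; ring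
      calc 1 + (L / p) * ((p : ℝ) ^ (-s) * (1 - (p : ℝ) ^ (-s))⁻¹)
          ≤ 1 + (L / p) * ((p : ℝ) ^ (-s) * D) := by gcongr
        _ = 1 + L * u p := by rw [hu]; simp only; rw [h6]; ring
  have hu0 : ∀ n, 0 ≤ u n := fun n => by rw [hu]; positivity
  -- step 4
  have st4 : ∏ p ∈ (X + 1).primesBelow, (1 + L * u p) ≤ (1 + L * D) ^ T * Real.exp (L * η) := by
    rw [← Finset.prod_inter_mul_prod_sdiff _ s0]
    apply mul_le_mul
    · calc ∏ p ∈ (X + 1).primesBelow ∩ s0, (1 + L * u p)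
          ≤ ∏ p ∈ (X + 1).primesBelow ∩ s0, (1 + L * D) := by
            apply Finset.prod_le_prod
            · intro p _
              have := hu0 p
              positivity
            · intro p hp
              have hpp := Nat.prime_of_mem_primesBelow (Finset.mem_inter.mp hp).1
              have hp1 : (1 : ℝ) ≤ p := by exact_mod_cast hpp.one_lt.le
              have : u p ≤ D := by
                rw [hu]
                have : (p : ℝ) ^ (-(1 + s)) ≤ 1 := Real.rpow_le_one_of_one_le_of_nonpos hp1 (by linarith)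
                simp only
                nlinarith
              gcongr
        _ = (1 + L * D) ^ ((X + 1).primesBelow ∩ s0).card := by rw [Finset.prod_const]
        _ ≤ (1 + L * D) ^ T := by
            apply pow_le_pow_right₀
            · have : 0 < L * D := by positivity
              linarith
            · rw [hT]
              have := Finset.card_le_card (Finset.inter_subset_right (s₁ := (X + 1).primesBelow) (s₂ := s0))
              omega
    · calc ∏ p ∈ (X + 1).primesBelow \ s0, (1 + L * u p)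
          ≤ ∏ p ∈ (X + 1).primesBelow \ s0, Real.exp (L * u p) := by
            apply Finset.prod_le_prod
            · intro p _
              have := hu0 p
              positivity
            · intro p _
              have := Real.add_one_le_exp (L * u p)
              linarith
        _ = Real.exp (L * ∑ p ∈ (X + 1).primesBelow \ s0, u p) := by
            rw [← Real.exp_sum, Finset.mul_sum]
        _ ≤ Real.exp (L * η) := by
            apply Real.exp_le_exp.mpr
            have := hs0 ((X + 1).primesBelow \ s0) Finset.sdiff_disjoint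
            rw [Real.norm_eq_abs] at this
            have h7 := (abs_lt.mp this).2.le
            gcongr
    · apply Finset.prod_nonneg
      intro p _
      have := hu0 p
      positivity
    · positivity
  -- step 5
  have st5 : (1 + L * D) ^ T ≤ M0 ^ T * Real.exp (η * L) := by
    have h8 : 1 + L * D ≤ M0 * Real.exp (η * L / T) := by
      have h9 := Real.add_one_le_exp (η * L / T)
      have h10 : 0 < η * L / T := by positivity
      calc 1 + L * D ≤ M0 * (η * L / T + 1) := by
            rw [hM0]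
            have e1 : (1 + D * T / η) * (η * L / T + 1) = 1 + η * L / T + D * T / η + D * L := by
              field_simp
              ring
            rw [e1]
            have : 0 < D * T / η := by positivity
            linarith
        _ ≤ M0 * Real.exp (η * L / T) := by gcongr
    calc (1 + L * D) ^ T ≤ (M0 * Real.exp (η * L / T)) ^ T := by gcongr
      _ = M0 ^ T * Real.exp (η * L) := by
        rw [mul_pow, ← Real.exp_nat_mul]
        congr 2
        field_simp
  -- final
  have st6 : Real.exp (η * L) * Real.exp (L * η) = Real.exp (2 * η) * (X : ℝ) ^ s := by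
    rw [← Real.exp_add, Real.rpow_def_of_pos (by linarith), ← Real.exp_add]
    congr 1
    rw [hL, hs, hη]
    ring
  calc ∑ m ∈ Finset.Icc 1 X, Count_g L m ≤ (X : ℝ) ^ s * ∑ m ∈ Finset.Icc 1 X, Count_f L s m := st1
    _ ≤ (X : ℝ) ^ s * ((M0 ^ T * Real.exp (η * L)) * Real.exp (L * η)) := by
      apply mul_le_mul_of_nonneg_left _ (by positivity)
      calc _ ≤ _ := st2
        _ ≤ _ := st3
        _ ≤ _ := st4
        _ ≤ _ := by gcongr
    _ = M0 ^ T * Real.exp (2 * η) * ((X : ℝ) ^ s * (X : ℝ) ^ s) := by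
      rw [mul_assoc (M0 ^ T), st6]; ring
    _ = M0 ^ T * Real.exp (2 * η) * (X : ℝ) ^ δ := by
      rw [← Real.rpow_add (by linarith)]
      congr 2
      rw [hs]; ring

theorem Count_G_eq (X n : ℕ) : G X n = Count_g (3 * Real.log X + 1) n := rfl

theorem Lg_ge_one {X : ℕ} (hX : 1 ≤ X) : 1 ≤ Lg X := by
  have h1 : (1 : ℝ) ≤ X := by exact_mod_cast hX
  have h2 : 0 ≤ Real.log X := Real.log_nonneg h1
  unfold Lg
  linarith

theorem G_pos {X : ℕ} (hX : 1 ≤ X) (n : ℕ) : 0 < G X n := by
  have h := Lg_ge_one hX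
  have h1 : (0 : ℝ) < Lg X := by linarith
  exact Count_g_pos h1 n

theorem G_mul (X : ℕ) {m n : ℕ} (h : Nat.Coprime m n) : G X (m * n) = G X m * G X n :=
  Count_g_mul _ h

theorem S_bound (η : ℝ) (hη : 0 < η) : ∃ K : ℝ, 1 ≤ K ∧ ∀ X : ℕ, 1 ≤ X →
    ∑ m ∈ Icc 1 X, G X m ≤ K * (X : ℝ) ^ η := by
  obtain ⟨K, hK, h⟩ := Count_S_bound η hη
  refine ⟨max 1 K, le_max_left _ _, fun X hX => (h X hX).trans ?_⟩
  exact mul_le_mul_of_nonneg_right (le_max_right _ _) (by positivity)

open Classical in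
/-- few integers have large `G` (a negative `lam` is allowed) -/
theorem count_G (η : ℝ) (hη : 0 < η) : ∃ K : ℝ, 1 ≤ K ∧ ∀ X : ℕ, 1 ≤ X → ∀ lam : ℝ,
    (((Icc 1 X).filter (fun n => (X : ℝ) ^ (-lam) ≤ G X n)).card : ℝ) ≤
      K * (X : ℝ) ^ (lam + η) := by
  obtain ⟨K, hK, h⟩ := S_bound η hη
  refine ⟨K, hK, fun X hX lam => ?_⟩
  have hX0 : (0 : ℝ) < X := by exact_mod_cast hX
  set W := (Icc 1 X).filter (fun n => (X : ℝ) ^ (-lam) ≤ G X n) with hW
  have h1 : (W.card : ℝ) * (X : ℝ) ^ (-lam) ≤ ∑ m ∈ Icc 1 X, G X m := by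
    calc (W.card : ℝ) * (X : ℝ) ^ (-lam) = ∑ _m ∈ W, (X : ℝ) ^ (-lam) := by
          rw [Finset.sum_const, nsmul_eq_mul]
      _ ≤ ∑ m ∈ W, G X m := Finset.sum_le_sum (fun m hm => (Finset.mem_filter.1 hm).2)
      _ ≤ ∑ m ∈ Icc 1 X, G X m :=
          Finset.sum_le_sum_of_subset_of_nonneg (Finset.filter_subset _ _)
            (fun m _ _ => (G_pos hX m).le)
  have h2 := h1.trans (h X hX)
  have h3 : (X : ℝ) ^ (-lam) * (X : ℝ) ^ lam = 1 := by
    rw [← Real.rpow_add hX0]; simp
  calc (W.card : ℝ) = (W.card : ℝ) * ((X : ℝ) ^ (-lam) * (X : ℝ) ^ lam) := by rw [h3, mul_one]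
    _ = (W.card : ℝ) * (X : ℝ) ^ (-lam) * (X : ℝ) ^ lam := by ring
    _ ≤ K * (X : ℝ) ^ η * (X : ℝ) ^ lam := mul_le_mul_of_nonneg_right h2 (by positivity)
    _ = K * (X : ℝ) ^ (lam + η) := by rw [mul_assoc, ← Real.rpow_add hX0, add_comm η lam]

end Pool.Agent.helper41.EX
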