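import Pool.Agent.helper41.EX.Defs

/-! # EXS-CovCalc: the covering calculus -/

namespace Pool.Agent.helper41.EX

open Finset
open scoped Pointwise

variable {R : Type*} [CommRing R] [DecidableEq R] {D : Finset R} {K K' K1 : ℕ} {ξ η : R}

theorem Cov.mono (h : Cov D K ξ) (hK : K ≤ K') : Cov D K' ξ := by
  obtain ⟨X, hX, hc⟩ := h
  exact ⟨X, hX.trans hK, hc⟩

theorem Cov.one : Cov D 1 (1 : R) := by
  refine ⟨{0}, by simp, fun d hd => ?_⟩
  rw [Finset.mem_add]
  exact ⟨0, by simp, d, hd, by simp⟩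

theorem Cov.neg (hD : AG D K1) (h : Cov D K ξ) : Cov D K (-ξ) := by
  obtain ⟨X, hX, hc⟩ := h
  refine ⟨X, hX, fun d hd => ?_⟩
  have h1 := hc (-d) (hD.neg d hd)
  have h2 : -ξ * d = ξ * -d := by ring
  rw [h2]
  exact h1

theorem Cov.add (hD : AG D K1) (h : Cov D K ξ) (h' : Cov D K' η) :
    Cov D (K * K' * K1) (ξ + η) := by
  obtain ⟨X, hX, hc⟩ := h
  obtain ⟨Y, hY, hc'⟩ := h'
  obtain ⟨Z, hZ, hcz⟩ := hD.cov
  refine ⟨X + Y + Z, ?_, fun d hd => ?_⟩
  · exact (Finset.card_add_le).trans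
      (Nat.mul_le_mul ((Finset.card_add_le).trans (Nat.mul_le_mul hX hY)) hZ)
  · obtain ⟨x, hx, e, he, hxe⟩ := Finset.mem_add.1 (hc d hd)
    obtain ⟨y, hy, f, hf, hyf⟩ := Finset.mem_add.1 (hc' d hd)
    obtain ⟨z, hz, g, hg, hzg⟩ := Finset.mem_add.1 (hcz e he f hf)
    refine Finset.mem_add.2 ⟨x + y + z,
      Finset.add_mem_add (Finset.add_mem_add hx hy) hz, g, hg, ?_⟩
    calc x + y + z + g = (x + y) + (z + g) := by ring
      _ = (x + y) + (e + f) := by rw [hzg]
      _ = (x + e) + (y + f) := by ring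
      _ = ξ * d + η * d := by rw [hxe, hyf]
      _ = (ξ + η) * d := by ring

theorem Cov.sub (hD : AG D K1) (h : Cov D K ξ) (h' : Cov D K' η) :
    Cov D (K * K' * K1) (ξ - η) := by
  rw [sub_eq_add_neg]
  exact Cov.add hD h (Cov.neg hD h')

theorem Cov.mul (h : Cov D K ξ) (h' : Cov D K' η) : Cov D (K * K') (ξ * η) := by
  obtain ⟨X, hX, hc⟩ := h
  obtain ⟨Y, hY, hc'⟩ := h'
  refine ⟨X + Y.image (fun y => ξ * y), ?_, fun d hd => ?_⟩
  · exact (Finset.card_add_le).trans (Nat.mul_le_mul hX (Finset.card_image_le.trans hY))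
  · obtain ⟨y, hy, f, hf, hyf⟩ := Finset.mem_add.1 (hc' d hd)
    obtain ⟨x, hx, e, he, hxe⟩ := Finset.mem_add.1 (hc f hf)
    refine Finset.mem_add.2 ⟨x + ξ * y,
      Finset.add_mem_add hx (Finset.mem_image_of_mem _ hy), e, he, ?_⟩
    calc x + ξ * y + e = (x + e) + ξ * y := by ring
      _ = ξ * f + ξ * y := by rw [hxe]
      _ = ξ * (y + f) := by ring
      _ = ξ * (η * d) := by rw [hyf]
      _ = ξ * η * d := by ring

theorem Cov.card_le (hD : AG D K1) (h : Cov D K ξ) :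
    (D + D.image (fun d => ξ * d)).card ≤ K * K1 * D.card := by
  obtain ⟨X, hX, hc⟩ := h
  obtain ⟨Z, hZ, hcz⟩ := hD.cov
  have hsub : D + D.image (fun d => ξ * d) ⊆ X + Z + D := by
    intro t ht
    obtain ⟨d, hd, e, he, hde⟩ := Finset.mem_add.1 ht
    obtain ⟨d', hd', hd''⟩ := Finset.mem_image.1 he
    obtain ⟨x, hx, f, hf, hxf⟩ := Finset.mem_add.1 (hc d' hd')
    obtain ⟨z, hz, g, hg, hzg⟩ := Finset.mem_add.1 (hcz d hd f hf)
    refine Finset.mem_add.2 ⟨x + z, Finset.add_mem_add hx hz, g, hg, ?_⟩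
    calc x + z + g = x + (z + g) := by ring
      _ = x + (d + f) := by rw [hzg]
      _ = d + (x + f) := by ring
      _ = d + ξ * d' := by rw [hxf]
      _ = d + e := by rw [← hd'']
      _ = t := hde
  exact (Finset.card_le_card hsub).trans ((Finset.card_add_le).trans
    (Nat.mul_le_mul_right _ ((Finset.card_add_le).trans (Nat.mul_le_mul hX hZ))))

/-- kernel bound: `|ρ D| |π(D)| ≤ |D + ρ D|` if `π(ρ) = 0` -/
theorem Cov.kernel {S : Type*} [CommRing S] [DecidableEq S] (π : R →+* S) {ρ : R}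
    (hρ : π ρ = 0) (D : Finset R) :
    (D.image (fun d => ρ * d)).card * (D.image π).card ≤
      (D + D.image (fun d => ρ * d)).card := by
  classical
  -- a section of `π` on `π(D)`
  have hsec : ∀ s : S, ∃ r : R, s ∈ D.image π → r ∈ D ∧ π r = s := by
    intro s
    by_cases hs : s ∈ D.image π
    · obtain ⟨r, hr, hrs⟩ := Finset.mem_image.1 hs
      exact ⟨r, fun _ => ⟨hr, hrs⟩⟩
    · exact ⟨0, fun h => absurd h hs⟩
  choose σ hσ using hsec
  rw [← Finset.card_product]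
  refine Finset.card_le_card_of_injOn (fun p => σ p.2 + p.1) ?_ ?_
  · intro p hp
    have hp' := Finset.mem_product.1 (Finset.mem_coe.1 hp)
    exact Finset.mem_coe.2 (Finset.add_mem_add (hσ p.2 hp'.2).1 hp'.1)
  · intro p hp q hq hpq
    have hp' := Finset.mem_product.1 (Finset.mem_coe.1 hp)
    have hq' := Finset.mem_product.1 (Finset.mem_coe.1 hq)
    have key : ∀ u ∈ D.image (fun d => ρ * d), π u = 0 := by
      intro u hu
      obtain ⟨d, _, hd⟩ := Finset.mem_image.1 hu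
      rw [← hd, map_mul, hρ, zero_mul]
    have hpq' : σ p.2 + p.1 = σ q.2 + q.1 := hpq
    have h1 : p.2 = q.2 := by
      have h2 := congrArg π hpq'
      rw [map_add, map_add, key _ hp'.1, key _ hq'.1, add_zero, add_zero,
        (hσ p.2 hp'.2).2, (hσ q.2 hq'.2).2] at h2
      exact h2
    have h3 : p.1 = q.1 := by
      rw [h1] at hpq'
      exact add_left_cancel hpq'
    exact Prod.ext h3 h1

/-- from a set `G` with small difference set to `D = G - G` -/
theorem AG_of_sub {G : Finset R} (hG : G.Nonempty) {a : ℕ} (h : (G - G).card ≤ a * G.card) :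
    AG (G - G) (a ^ 5) := by
  obtain ⟨g0, hg0⟩ := hG
  have hGpos : (0 : ℚ) < (G.card : ℚ) := by
    exact_mod_cast Finset.card_pos.2 ⟨g0, hg0⟩
  refine ⟨Finset.mem_sub.2 ⟨g0, hg0, g0, hg0, sub_self g0⟩, ?_, ?_⟩
  · intro d hd
    obtain ⟨x, hx, y, hy, hxy⟩ := Finset.mem_sub.1 hd
    exact Finset.mem_sub.2 ⟨y, hy, x, hx, by rw [← hxy]; ring⟩
  · have h1 := Finset.pluennecke_ruzsa_inequality_nsmul_sub_nsmul_sub (A := G) ⟨g0, hg0⟩ G 3 2
    have h2 : (((3 • G - 2 • G : Finset R)).card : ℚ) ≤ (a : ℚ) ^ 5 * G.card := by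
      have h3 : (((G - G).card : ℚ) / G.card) ≤ a := by
        rw [div_le_iff₀ hGpos]
        exact_mod_cast h
      have h4 : (((3 • G - 2 • G : Finset R)).card : ℚ) ≤
          (((G - G).card : ℚ) / G.card) ^ (3 + 2) * G.card := by
        have h5 := h1
        exact_mod_cast h5
      refine h4.trans ?_
      have h6 : (0 : ℚ) ≤ ((G - G).card : ℚ) / G.card := by positivity
      gcongr
    have h7 : (((G - G) + (G - G)) + G : Finset R) ⊆ 3 • G - 2 • G := by
      intro t ht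
      obtain ⟨u, hu, g, hg, hug⟩ := Finset.mem_add.1 ht
      obtain ⟨v, hv, w, hw, hvw⟩ := Finset.mem_add.1 hu
      obtain ⟨x, hx, y, hy, hxy⟩ := Finset.mem_sub.1 hv
      obtain ⟨x', hx', y', hy', hxy'⟩ := Finset.mem_sub.1 hw
      have e3 : (3 • G : Finset R) = G + G + G := by
        rw [succ_nsmul, two_nsmul]
      have e2 : (2 • G : Finset R) = G + G := two_nsmul G
      rw [e3, e2]
      refine Finset.mem_sub.2 ⟨x + x' + g, Finset.add_mem_add (Finset.add_mem_add hx hx') hg,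
        y + y', Finset.add_mem_add hy hy', ?_⟩
      rw [← hug, ← hvw, ← hxy, ← hxy']
      ring
    have h8 : ((((G - G) + (G - G)) + G : Finset R).card : ℝ) ≤ (a : ℝ) ^ 5 * G.card := by
      have h9 : ((((G - G) + (G - G)) + G : Finset R).card : ℚ) ≤ (a : ℚ) ^ 5 * G.card :=
        le_trans (by exact_mod_cast Finset.card_le_card h7) h2
      have h10 : (((G - G) + (G - G)) + G : Finset R).card ≤ a ^ 5 * G.card := by
        exact_mod_cast h9
      exact_mod_cast h10
    obtain ⟨F, _, hF, hc⟩ := Finset.ruzsa_covering_add ⟨g0, hg0⟩ h8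
    refine ⟨F, by exact_mod_cast hF, fun d hd d' hd' => hc (Finset.add_mem_add hd hd')⟩

/-- Ruzsa covering: if `|G - ξ G| ≤ a |G|` and `D = G - G` then `ξ D` is covered by
`a ^ 2 * K1` translates of `D` -/
theorem Cov_of_sub {G : Finset R} (hG : G.Nonempty) {a : ℕ} (hD : AG (G - G) K1)
    (h : (G - G.image (fun g => ξ * g)).card ≤ a * G.card) : Cov (G - G) (a ^ 2 * K1) ξ := by
  classical
  set H : Finset R := G.image (fun g => ξ * g) with hH
  have h1 : (H + (-G)).card = (G - H).card := by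
    have h2 : H + (-G) = -(G - H) := by
      rw [neg_sub, sub_eq_add_neg]
    rw [h2, Finset.card_neg]
  have h3 : ((H + (-G) : Finset R).card : ℝ) ≤ (a : ℝ) * ((-G : Finset R).card : ℝ) := by
    rw [h1, Finset.card_neg]
    exact_mod_cast h
  obtain ⟨F, _, hF, hc⟩ := Finset.ruzsa_covering_add (by simpa using hG) h3
  have hF' : F.card ≤ a := by exact_mod_cast hF
  obtain ⟨Z, hZ, hcz⟩ := hD.cov
  refine ⟨(F - F) + Z, ?_, ?_⟩
  · refine (Finset.card_add_le).trans (Nat.mul_le_mul ?_ hZ)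
    refine (Finset.card_sub_le).trans ?_
    calc F.card * F.card ≤ a * a := Nat.mul_le_mul hF' hF'
      _ = a ^ 2 := by ring
  · intro d hd
    obtain ⟨x, hx, y, hy, hxy⟩ := Finset.mem_sub.1 hd
    have hsub : ∀ g ∈ G, ∃ f ∈ F, ∃ e ∈ G - G, f + e = ξ * g := by
      intro g hg
      obtain ⟨f, hf, e, he, hfe⟩ := Finset.mem_add.1 (hc (Finset.mem_image_of_mem _ hg))
      refine ⟨f, hf, e, ?_, hfe⟩
      obtain ⟨p, hp, q, hq, hpq⟩ := Finset.mem_sub.1 he
      refine Finset.mem_sub.2 ⟨-q, Finset.mem_neg'.1 hq, -p, Finset.mem_neg'.1 hp, ?_⟩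
      rw [← hpq]; ring
    obtain ⟨f, hf, e, he, hfe⟩ := hsub x hx
    obtain ⟨f', hf', e', he', hfe'⟩ := hsub y hy
    obtain ⟨z, hz, g, hg, hzg⟩ := Finset.mem_add.1 (hcz e he (-e') (hD.neg e' he'))
    refine Finset.mem_add.2 ⟨(f - f') + z,
      Finset.add_mem_add (Finset.sub_mem_sub hf hf') hz, g, hg, ?_⟩
    calc f - f' + z + g = (f - f') + (z + g) := by ring
      _ = (f - f') + (e + -e') := by rw [hzg]
      _ = (f + e) - (f' + e') := by ring
      _ = ξ * x - ξ * y := by rw [hfe, hfe']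
      _ = ξ * d := by rw [← hxy]; ring

end Pool.Agent.helper41.EX
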