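import Mathlib

/-!
# Project EXS (MP_14cf73_nt): definitions for proposition SP

`A P m`: the products of `m` distinct elements of a set `P` of primes, as integers.
`nc d V`: the number of classes modulo `d` met by `V`.
`Env`: the standing hypotheses (all constants are powers of `Δ`).
`VV P Δ m c V`: `V` is a dense subset of `A P m` with small doubling, with loss `Δ ^ c`.
`Cov D K ξ`: `ξ D` is covered by `K` translates of `D`.
-/

namespace Pool.Agent.helper41.EX

open Finset
open scoped Pointwise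

/-- products of `m` distinct elements of `P`, as integers -/
def A (P : Finset ℕ) (m : ℕ) : Finset ℤ :=
  (P.powersetCard m).image (fun F : Finset ℕ => ∏ p ∈ F, (p : ℤ))

/-- the binomial coefficient `(|P| choose m)`, which is the number of elements of `A P m` -/
def N (P : Finset ℕ) (m : ℕ) : ℕ := P.card.choose m

/-- number of classes modulo `d` met by `V` -/
def nc (d : ℕ) (V : Finset ℤ) : ℕ := (V.image (fun v : ℤ => (v : ZMod d))).card

/-- the cofactors of `x` in `V` which are products of `m` elements of `P` -/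
def fib (P : Finset ℕ) (m : ℕ) (V : Finset ℤ) (x : ℤ) : Finset ℤ :=
  (A P m).filter (fun v => x * v ∈ V)

/-- standing hypotheses -/
structure Env (P : Finset ℕ) (y0 y k Δ a0 : ℕ) : Prop where
  prime : ∀ p ∈ P, p.Prime
  gt : ∀ p ∈ P, y0 < p
  le : ∀ p ∈ P, p ≤ y
  y0_pos : 1 ≤ y0
  sq : y ≤ y0 ^ 2
  k_pos : 1 ≤ k
  two_k : 2 * k ≤ P.card
  a0_pos : 1 ≤ a0
  ratio : y * k ^ a0 ≤ P.card ^ a0
  y_le : y ≤ Δ
  four_k : 4 ^ k ≤ Δ
  yy0 : y ^ k ≤ Δ * y0 ^ k
  bin : ∀ j m : ℕ, j + m ≤ k → N P j * N P m ≤ Δ * N P (j + m)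
  logs : Nat.log 2 (y ^ k) + 1 ≤ Δ

/-- dense subset of `A P m` with small doubling, losses `Δ ^ c` -/
structure VV (P : Finset ℕ) (Δ m c : ℕ) (V : Finset ℤ) : Prop where
  sub : V ⊆ A P m
  dense : N P m ≤ Δ ^ c * V.card
  dbl : (V - V).card ≤ Δ ^ c * N P m

/-- all elements of `V` are prime to `w` -/
def CopTo (V : Finset ℤ) (w : ℕ) : Prop := ∀ v ∈ V, IsCoprime v (w : ℤ)

/-- `ξ D` is covered by `K` translates of `D` -/
def Cov {R : Type*} [CommRing R] [DecidableEq R] (D : Finset R) (K : ℕ) (ξ : R) : Prop :=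
  ∃ X : Finset R, X.card ≤ K ∧ ∀ d ∈ D, ξ * d ∈ X + D

/-- `D` is symmetric, contains `0`, and `D + D` is covered by `K1` translates of `D` -/
structure AG {R : Type*} [CommRing R] [DecidableEq R] (D : Finset R) (K1 : ℕ) : Prop where
  zero : (0 : R) ∈ D
  neg : ∀ d ∈ D, -d ∈ D
  cov : ∃ X : Finset R, X.card ≤ K1 ∧ ∀ d ∈ D, ∀ d' ∈ D, d + d' ∈ X + D

end Pool.Agent.helper41.EX
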