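import Mathlib

/-!
# Project EXS (MP_14cf73_nt): definitions for part II

`Lg X = 3 log X + 1`, `G X n = ∏_{p | n} Lg X / p`.
`part φ n`: the product of the `p ^ v_p(n)` over the primes `p | n` with `φ p (v_p(n)) = true`.
`yf X κ = ⌊(Lg X) ^ κ⌋`.
`phiC X κ κ'`: primes in `(yf κ, yf κ']` with exponent 1.
`phiP X κ j`: primes above `yf κ` with exponent `j`.
`lin X n`: the product of the primes `> yf 16` which divide `n` exactly once.
`BT X θ Λ`: the pairs `(a, b)` coprime with `X / 2 < a + b ≤ X` and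
`1 ≤ Λ X ^ θ G(a) G(b) G(a+b)`.
-/

namespace Pool.Agent.helper41.EX

open Finset

noncomputable def Lg (X : ℕ) : ℝ := 3 * Real.log X + 1

noncomputable def G (X n : ℕ) : ℝ := ∏ p ∈ n.primeFactors, (Lg X / p)

def part (φ : ℕ → ℕ → Bool) (n : ℕ) : ℕ :=
  ∏ p ∈ n.primeFactors.filter (fun p => φ p (n.factorization p)), p ^ n.factorization p

/-- the complementary condition -/
def cmp (φ : ℕ → ℕ → Bool) : ℕ → ℕ → Bool := fun p e => !(φ p e)

noncomputable def yf (X : ℕ) (κ : ℝ) : ℕ := ⌊Lg X ^ κ⌋₊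

noncomputable def phiC (X : ℕ) (κ κ' : ℝ) : ℕ → ℕ → Bool :=
  fun p e => decide (yf X κ < p ∧ p ≤ yf X κ' ∧ e = 1)

noncomputable def phiP (X : ℕ) (κ : ℝ) (j : ℕ) : ℕ → ℕ → Bool :=
  fun p e => decide (yf X κ < p ∧ e = j)

noncomputable def phiL (X : ℕ) : ℕ → ℕ → Bool := fun p e => decide (yf X 16 < p ∧ e = 1)

noncomputable def lin (X n : ℕ) : ℕ := part (phiL X) n

open Classical in
noncomputable def BT (X : ℕ) (θ Λ : ℝ) : Finset (ℕ × ℕ) :=
  ((Icc 1 X) ×ˢ (Icc 1 X)).filter (fun t => t.1 + t.2 ≤ X ∧ X < 2 * (t.1 + t.2) ∧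
    Nat.Coprime t.1 t.2 ∧ 1 ≤ Λ * (X : ℝ) ^ θ * (G X t.1 * G X t.2 * G X (t.1 + t.2)))

end Pool.Agent.helper41.EX
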