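import Pool.Agent.helper41.EX.Basics
import Pool.Agent.helper41.EX.Bip

/-! # EXS-Fibre: the tensor lemma -/

namespace Pool.Agent.helper41.EX

open Finset
open scoped Pointwise

variable {P : Finset ℕ} {y0 y k Δ a0 : ℕ}

/-- one element of `V` over each class: `(c, t) ↦ v_c + d t` is injective -/
theorem classes_mul {d : ℕ} (hd : 1 ≤ d) (T V : Finset ℤ) :
    nc d V * T.card ≤ (T.image (fun t => (d : ℤ) * t) + V).card := by
  classical
  have hsec : ∀ c ∈ V.image (fun v : ℤ => (v : ZMod d)), ∃ v ∈ V, ((v : ℤ) : ZMod d) = c := by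
    intro c hc
    obtain ⟨v, hv, hvc⟩ := Finset.mem_image.mp hc
    exact ⟨v, hv, hvc⟩
  choose! s hsV hsc using hsec
  have hcard : nc d V * T.card
      = ((V.image (fun v : ℤ => (v : ZMod d))) ×ˢ T).card := by
    rw [Finset.card_product]; rfl
  rw [hcard]
  refine Finset.card_le_card_of_injOn (fun q => (d : ℤ) * q.2 + s q.1) ?_ ?_
  · intro q hq
    have hq' := Finset.mem_product.mp (Finset.mem_coe.mp hq)
    refine Finset.mem_coe.mpr (Finset.add_mem_add ?_ (hsV _ hq'.1))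
    exact Finset.mem_image_of_mem _ hq'.2
  · intro q hq q' hq' h
    have h1 := Finset.mem_product.mp (Finset.mem_coe.mp hq)
    have h2 := Finset.mem_product.mp (Finset.mem_coe.mp hq')
    simp only at h
    have hc : q.1 = q'.1 := by
      have := congrArg (fun z : ℤ => (z : ZMod d)) h
      simp only [Int.cast_add, Int.cast_mul, Int.cast_natCast, ZMod.natCast_self, zero_mul,
        zero_add] at this
      rw [hsc _ h1.1, hsc _ h2.1] at this
      exact this
    rw [hc] at h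
    have hd0 : (d : ℤ) ≠ 0 := by exact_mod_cast (by omega : d ≠ 0)
    have : q.2 = q'.2 := mul_left_cancel₀ hd0 (add_right_cancel h)
    exact Prod.ext hc this

/-- Plünnecke: `|V - V + V| |V|^2 ≤ |V - V|^3` -/
theorem plun (V : Finset ℤ) : (V - V + V).card * V.card ^ 2 ≤ (V - V).card ^ 3 := by
  classical
  rcases V.eq_empty_or_nonempty with rfl | hne
  · simp
  have h := Finset.pluennecke_ruzsa_inequality_nsmul_sub_nsmul_sub hne V 2 1
  have h1 : (2 • V - 1 • V : Finset ℤ) = V - V + V := by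
    rw [two_nsmul, one_nsmul, add_sub_right_comm]
  rw [h1] at h
  have hpos : 0 < V.card := hne.card_pos
  have hq : ((V.card : ℕ) : ℚ≥0) ≠ 0 := by exact_mod_cast hpos.ne'
  have h2 : (((V - V + V).card : ℕ) : ℚ≥0) * ((V.card : ℕ) : ℚ≥0) ^ 2
      ≤ (((V - V).card : ℕ) : ℚ≥0) ^ 3 := by
    calc (((V - V + V).card : ℕ) : ℚ≥0) * ((V.card : ℕ) : ℚ≥0) ^ 2
        ≤ ((((V - V).card : ℕ) : ℚ≥0) / ((V.card : ℕ) : ℚ≥0)) ^ (2 + 1) * ((V.card : ℕ) : ℚ≥0)
          * ((V.card : ℕ) : ℚ≥0) ^ 2 := mul_le_mul_left h _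
      _ = (((V - V).card : ℕ) : ℚ≥0) ^ 3 := by
          rw [div_pow]
          field_simp
          ring
  exact_mod_cast h2

theorem Fibre_card_le {m : ℕ} {V : Finset ℤ} (hV : V ⊆ A P m) : V.card ≤ N P m := by
  refine (Finset.card_le_card hV).trans ?_
  unfold A N
  exact (Finset.card_image_le).trans (Finset.card_powersetCard _ _).le

theorem VV.tripling {m c : ℕ} {V : Finset ℤ} (hV : VV P Δ m c V) (hN : 0 < N P m) :
    (V - V + V).card ≤ Δ ^ (6 * c) * N P m := by
  have hVpos : 0 < V.card := by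
    rcases Nat.eq_zero_or_pos V.card with h | h
    · have := hV.dense
      rw [h, mul_zero] at this
      omega
    · exact h
  have h1 : (V - V).card ≤ Δ ^ (2 * c) * V.card := by
    calc (V - V).card ≤ Δ ^ c * N P m := hV.dbl
      _ ≤ Δ ^ c * (Δ ^ c * V.card) := Nat.mul_le_mul_left _ hV.dense
      _ = Δ ^ (2 * c) * V.card := by ring
  have h2 : (V - V + V).card * V.card ^ 2 ≤ (Δ ^ (6 * c) * V.card) * V.card ^ 2 := by
    calc (V - V + V).card * V.card ^ 2 ≤ (V - V).card ^ 3 := plun V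
      _ ≤ (Δ ^ (2 * c) * V.card) ^ 3 := Nat.pow_le_pow_left h1 3
      _ = (Δ ^ (6 * c) * V.card) * V.card ^ 2 := by
          rw [mul_pow, ← pow_mul, show 2 * c * 3 = 6 * c by ring]
          ring
  have h3 : (V - V + V).card ≤ Δ ^ (6 * c) * V.card :=
    Nat.le_of_mul_le_mul_right h2 (pow_pos hVpos 2)
  exact h3.trans (Nat.mul_le_mul_left _ (Fibre_card_le hV.sub))

/-- the edges `(x, v)` with `x v ∈ V` -/
def edges (P : Finset ℕ) (j m : ℕ) (V : Finset ℤ) : Finset (ℤ × ℤ) :=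
  ((A P j) ×ˢ (A P m)).filter (fun e => e.1 * e.2 ∈ V)

theorem card_le_edges {j m : ℕ} {V : Finset ℤ} (hV : V ⊆ A P (j + m)) :
    V.card ≤ (edges P j m V).card := by
  refine (Finset.card_le_card ?_).trans
    (Finset.card_image_le (s := edges P j m V) (f := fun e : ℤ × ℤ => e.1 * e.2))
  intro a ha
  obtain ⟨x, hx, v, hv, hxv⟩ := A_fact (hV ha)
  refine Finset.mem_image.mpr ⟨(x, v), ?_, hxv⟩
  refine Finset.mem_filter.mpr ⟨Finset.mem_product.mpr ⟨hx, hv⟩, ?_⟩
  simp only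
  rw [hxv]; exact ha

theorem edges_dense (E : Env P y0 y k Δ a0) {j m c : ℕ} (hjm : j + m ≤ k) {V : Finset ℤ}
    (hV : V ⊆ A P (j + m)) (hd : N P (j + m) ≤ Δ ^ c * V.card) :
    N P j * N P m ≤ Δ ^ (c + 1) * (edges P j m V).card := by
  calc N P j * N P m ≤ Δ * N P (j + m) := E.bin j m hjm
    _ ≤ Δ * (Δ ^ c * V.card) := Nat.mul_le_mul_left _ hd
    _ ≤ Δ * (Δ ^ c * (edges P j m V).card) :=
        Nat.mul_le_mul_left _ (Nat.mul_le_mul_left _ (card_le_edges hV))
    _ = Δ ^ (c + 1) * (edges P j m V).card := by ring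

theorem edges_filter_fst {j m : ℕ} {V : Finset ℤ} {x : ℤ} (hx : x ∈ A P j) :
    ((edges P j m V).filter (fun e => e.1 = x)).card = (fib P m V x).card := by
  refine Finset.card_bij (fun e _ => e.2) ?_ ?_ ?_
  · intro e he
    obtain ⟨he1, he2⟩ := Finset.mem_filter.mp he
    obtain ⟨he3, he4⟩ := Finset.mem_filter.mp he1
    refine Finset.mem_filter.mpr ⟨(Finset.mem_product.mp he3).2, ?_⟩
    rw [← he2]; exact he4
  · intro e he e' he' h
    have h1 := (Finset.mem_filter.mp he).2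
    have h2 := (Finset.mem_filter.mp he').2
    exact Prod.ext (h1.trans h2.symm) h
  · intro v hv
    obtain ⟨hv1, hv2⟩ := Finset.mem_filter.mp hv
    refine ⟨(x, v), Finset.mem_filter.mpr ⟨Finset.mem_filter.mpr
      ⟨Finset.mem_product.mpr ⟨hx, hv1⟩, hv2⟩, rfl⟩, rfl⟩

theorem edges_filter_snd {j m : ℕ} {V : Finset ℤ} {v : ℤ} (hv : v ∈ A P m) :
    ((edges P j m V).filter (fun e => e.2 = v)).card = (fib P j V v).card := by
  refine Finset.card_bij (fun e _ => e.1) ?_ ?_ ?_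
  · intro e he
    obtain ⟨he1, he2⟩ := Finset.mem_filter.mp he
    obtain ⟨he3, he4⟩ := Finset.mem_filter.mp he1
    refine Finset.mem_filter.mpr ⟨(Finset.mem_product.mp he3).1, ?_⟩
    rw [← he2, mul_comm]; exact he4
  · intro e he e' he' h
    have h1 := (Finset.mem_filter.mp he).2
    have h2 := (Finset.mem_filter.mp he').2
    exact Prod.ext h (h1.trans h2.symm)
  · intro x hx
    obtain ⟨hx1, hx2⟩ := Finset.mem_filter.mp hx
    refine ⟨(x, v), Finset.mem_filter.mpr ⟨Finset.mem_filter.mpr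
      ⟨Finset.mem_product.mpr ⟨hx1, hv⟩, ?_⟩, rfl⟩, rfl⟩
    simp only
    rw [mul_comm]; exact hx2

/-- at most `D` elements of a class modulo `d` in `[1, D d]` -/
theorem Fibre_class_le {d D : ℕ} (hd : 1 ≤ d) (U : Finset ℤ)
    (h1 : ∀ u ∈ U, 0 < u) (h2 : ∀ u ∈ U, u ≤ (D : ℤ) * d) (t : ZMod d) :
    (U.filter (fun u : ℤ => (u : ZMod d) = t)).card ≤ D := by
  have hd0 : (0 : ℤ) < (d : ℤ) := by exact_mod_cast (by omega : 0 < d)
  have hinj : Set.InjOn (fun u : ℤ => (u - 1) / (d : ℤ))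
      (U.filter (fun u : ℤ => (u : ZMod d) = t) : Finset ℤ) := by
    intro u hu u' hu' h
    have hu2 := (Finset.mem_filter.mp (Finset.mem_coe.mp hu)).2
    have hu2' := (Finset.mem_filter.mp (Finset.mem_coe.mp hu')).2
    have hc : ((u : ℤ) : ZMod d) = ((u' : ℤ) : ZMod d) := hu2.trans hu2'.symm
    have hmod : (u - 1) % (d : ℤ) = (u' - 1) % (d : ℤ) := by
      have := (ZMod.intCast_eq_intCast_iff u u' d).mp hc
      exact (this.sub_right 1)
    simp only at h
    have e1 := Int.mul_ediv_add_emod (u - 1) (d : ℤ)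
    have e2 := Int.mul_ediv_add_emod (u' - 1) (d : ℤ)
    rw [h, hmod] at e1
    have : u - 1 = u' - 1 := e1.symm.trans e2
    linarith
  have hmaps : ∀ u ∈ U.filter (fun u : ℤ => (u : ZMod d) = t),
      (fun u : ℤ => (u - 1) / (d : ℤ)) u ∈ Finset.Ico (0 : ℤ) (D : ℤ) := by
    intro u hu
    have hu1 := (Finset.mem_filter.mp hu).1
    have a1 := h1 u hu1
    have a2 := h2 u hu1
    simp only
    rw [Finset.mem_Ico]
    refine ⟨Int.ediv_nonneg (by linarith) hd0.le, ?_⟩
    exact Int.ediv_lt_of_lt_mul hd0 (by linarith)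
  calc (U.filter (fun u : ℤ => (u : ZMod d) = t)).card
      ≤ (Finset.Ico (0 : ℤ) (D : ℤ)).card := Finset.card_le_card_of_injOn _ hmaps hinj
    _ = D := by simp

/-- if `x ∈ A_j` has a neighbour `v` of degree `|U|`, then `V` meets at least `|U| / 2Δ` classes
modulo `x` -/
theorem nc_ge_of_neighbour (E : Env P y0 y k Δ a0) {j m : ℕ} (hjm : j + m ≤ k) {V : Finset ℤ}
    (hV : V ⊆ A P (j + m)) {x v : ℤ} (hx : x ∈ A P j) (hv : v ∈ A P m) (hxv : x * v ∈ V) :
    (fib P j V v).card ≤ 2 * Δ * nc x.toNat V := by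
  classical
  have hx0 : 0 < x := A_pos E.prime hx
  have hxt : ((x.toNat : ℕ) : ℤ) = x := Int.toNat_of_nonneg hx0.le
  have hd : 1 ≤ x.toNat := by omega
  set U := fib P j V v with hU
  have hUA : U ⊆ A P j := Finset.filter_subset _ _
  have hcop : IsCoprime v ((x.toNat : ℕ) : ℤ) := by
    rw [hxt]
    exact (A_coprime E.prime hx hv (hV hxv)).symm
  have hnc : nc x.toNat U ≤ nc x.toNat V := by
    rw [← nc_image_mul hcop U]
    refine nc_mono ?_
    intro a ha
    obtain ⟨u, hu, rfl⟩ := Finset.mem_image.mp ha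
    exact (Finset.mem_filter.mp hu).2
  have hyy : (y : ℤ) ^ j ≤ (Δ : ℤ) * x := by
    have e1 : (y : ℤ) ^ j ≤ (Δ : ℤ) * (y0 : ℤ) ^ j := by
      exact_mod_cast E.yy (show j ≤ k by omega)
    have e2 : (y0 : ℤ) ^ j ≤ x := A_ge E.gt hx
    exact e1.trans (mul_le_mul_of_nonneg_left e2 (by positivity))
  have hcard : U.card ≤ Δ * nc x.toNat U := by
    refine card_le_mul_fibre U (fun u : ℤ => (u : ZMod x.toNat)) Δ ?_
    intro t _
    refine Fibre_class_le hd U (fun u hu => A_pos E.prime (hUA hu)) (fun u hu => ?_) t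
    rw [hxt]
    exact (A_le E.le (hUA hu)).trans hyy
  calc U.card ≤ Δ * nc x.toNat U := hcard
    _ ≤ Δ * nc x.toNat V := Nat.mul_le_mul_left _ hnc
    _ ≤ 2 * Δ * nc x.toNat V := by nlinarith [Nat.zero_le (Δ * nc x.toNat V)]

/-- the difference set of a fibre -/
theorem fib_sub_fib {j m : ℕ} (hP : ∀ p ∈ P, p.Prime) {V : Finset ℤ} {x : ℤ} (hx : x ∈ A P j) :
    nc x.toNat V * (fib P m V x - fib P m V x).card ≤ (V - V + V).card := by
  classical
  have hx0 : 0 < x := A_pos hP hx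
  have hxt : ((x.toNat : ℕ) : ℤ) = x := Int.toNat_of_nonneg hx0.le
  have hd : 1 ≤ x.toNat := by omega
  refine (classes_mul hd (fib P m V x - fib P m V x) V).trans (Finset.card_le_card ?_)
  refine Finset.add_subset_add_right ?_
  intro a ha
  obtain ⟨t, ht, rfl⟩ := Finset.mem_image.mp ha
  obtain ⟨u, hu, w, hw, rfl⟩ := Finset.mem_sub.mp ht
  rw [hxt, mul_sub]
  exact Finset.sub_mem_sub (Finset.mem_filter.mp hu).2 (Finset.mem_filter.mp hw).2

theorem fibre (E : Env P y0 y k Δ a0) {j m c : ℕ} (hjm : j + m ≤ k) {V : Finset ℤ}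
    (hV : VV P Δ (j + m) c V) :
    ∃ x ∈ A P j, VV P Δ m (7 * c + 5) (fib P m V x) ∧ (fib P m V x).Nonempty := by
  classical
  have hΔ4 : 4 ≤ Δ := E.four_le
  have hNjm : 0 < N P (j + m) := E.Npos hjm
  have hNj : 0 < N P j := E.Npos (show j ≤ k by omega)
  have hNm : 0 < N P m := E.Npos (show m ≤ k by omega)
  have hVne : V.Nonempty := VV.nonempty hNjm hV
  have hEd := edges_dense E hjm hV.sub hV.dense
  have hEne : (edges P j m V).Nonempty := by
    rw [← Finset.card_pos]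
    exact lt_of_lt_of_le hVne.card_pos (card_le_edges hV.sub)
  obtain ⟨e, he, h1, h2⟩ := popular_edge (A P j) (A P m) (edges P j m V)
    (Finset.filter_subset _ _) hEne
  obtain ⟨he1, hxv⟩ := Finset.mem_filter.mp he
  have hx : e.1 ∈ A P j := (Finset.mem_product.mp he1).1
  have hv : e.2 ∈ A P m := (Finset.mem_product.mp he1).2
  rw [edges_filter_fst hx, card_A E.prime] at h1
  rw [edges_filter_snd hv, card_A E.prime] at h2
  have hnb := nc_ge_of_neighbour E hjm hV.sub hx hv hxv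
  have hpc : 0 < Δ ^ (c + 1) := pow_pos (by omega) _
  -- density of the fibre
  have hdense : N P m ≤ Δ ^ (c + 2) * (fib P m V e.1).card := by
    have : N P j * N P m ≤ N P j * (Δ ^ (c + 2) * (fib P m V e.1).card) := by
      calc N P j * N P m ≤ Δ ^ (c + 1) * (edges P j m V).card := hEd
        _ ≤ Δ ^ (c + 1) * (4 * N P j * (fib P m V e.1).card) := Nat.mul_le_mul_left _ h1
        _ ≤ Δ ^ (c + 1) * (Δ * N P j * (fib P m V e.1).card) :=
            Nat.mul_le_mul_left _ (Nat.mul_le_mul_right _ (Nat.mul_le_mul_right _ hΔ4))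
        _ = N P j * (Δ ^ (c + 2) * (fib P m V e.1).card) := by ring
    exact Nat.le_of_mul_le_mul_left this hNj
  have hNjle : N P j ≤ Δ ^ (c + 4) * nc e.1.toNat V := by
    have : N P m * N P j ≤ N P m * (Δ ^ (c + 4) * nc e.1.toNat V) := by
      calc N P m * N P j = N P j * N P m := mul_comm _ _
        _ ≤ Δ ^ (c + 1) * (edges P j m V).card := hEd
        _ ≤ Δ ^ (c + 1) * (4 * N P m * (fib P j V e.2).card) := Nat.mul_le_mul_left _ h2
        _ ≤ Δ ^ (c + 1) * (Δ * N P m * (2 * Δ * nc e.1.toNat V)) :=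
            Nat.mul_le_mul_left _ (Nat.mul_le_mul (Nat.mul_le_mul_right _ hΔ4) hnb)
        _ ≤ Δ ^ (c + 1) * (Δ * N P m * (Δ * Δ * nc e.1.toNat V)) := by
            refine Nat.mul_le_mul_left _ (Nat.mul_le_mul_left _ (Nat.mul_le_mul_right _ ?_))
            exact Nat.mul_le_mul_right _ (by omega)
        _ = N P m * (Δ ^ (c + 4) * nc e.1.toNat V) := by ring
    exact Nat.le_of_mul_le_mul_left this hNm
  have hncpos : 0 < nc e.1.toNat V := nc_pos hVne
  have hdbl : (fib P m V e.1 - fib P m V e.1).card ≤ Δ ^ (7 * c + 4) * N P m := by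
    have hs := fib_sub_fib (m := m) (V := V) E.prime hx
    have : nc e.1.toNat V * (fib P m V e.1 - fib P m V e.1).card
        ≤ nc e.1.toNat V * (Δ ^ (7 * c + 4) * N P m) := by
      calc nc e.1.toNat V * (fib P m V e.1 - fib P m V e.1).card
          ≤ (V - V + V).card := hs
        _ ≤ Δ ^ (6 * c) * N P (j + m) := hV.tripling hNjm
        _ ≤ Δ ^ (6 * c) * (N P j * N P m) := Nat.mul_le_mul_left _ (N_add_le j m)
        _ ≤ Δ ^ (6 * c) * ((Δ ^ (c + 4) * nc e.1.toNat V) * N P m) :=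
            Nat.mul_le_mul_left _ (Nat.mul_le_mul_right _ hNjle)
        _ = nc e.1.toNat V * (Δ ^ (7 * c + 4) * N P m) := by
            rw [show 7 * c + 4 = 6 * c + (c + 4) by ring, pow_add Δ (6 * c) (c + 4)]
            ring
    exact Nat.le_of_mul_le_mul_left this hncpos
  have hΔ1 : 0 < Δ := by omega
  refine ⟨e.1, hx, ⟨Finset.filter_subset _ _, ?_, ?_⟩, ?_⟩
  · refine hdense.trans (Nat.mul_le_mul_right _ ?_)
    exact Nat.pow_le_pow_right hΔ1 (by omega)
  · refine hdbl.trans (Nat.mul_le_mul_right _ ?_)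
    exact Nat.pow_le_pow_right hΔ1 (by omega)
  · refine ⟨e.2, Finset.mem_filter.mpr ⟨hv, hxv⟩⟩

end Pool.Agent.helper41.EX
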