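import Pool.Agent.helper41.EX.MT

/-! # EXS-Fin: the exceptional set -/

namespace Pool.Agent.helper41.EX

open Finset Real

/-- The radical of `n`: the product of the distinct primes dividing `n`. -/
def rad (n : ℕ) : ℕ := ∏ p ∈ n.primeFactors, p

/-- `H n = rad n / (log (rad n)) ^ ω(n)`. -/
noncomputable def H (n : ℕ) : ℝ := (rad n : ℝ) / Real.log (rad n) ^ n.primeFactors.card

lemma Fin_rad_pos (n : ℕ) : 0 < rad n :=
  Finset.prod_pos fun _ hp => Nat.pos_of_mem_primeFactors hp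

lemma Fin_Lg_pos {X : ℕ} (hX : 1 ≤ X) : 0 < Lg X := by
  have hX1 : (1 : ℝ) ≤ X := by exact_mod_cast hX
  have hlogX : 0 ≤ Real.log X := Real.log_nonneg hX1
  unfold Lg
  positivity

lemma Fin_G_pos {X : ℕ} (hX : 1 ≤ X) (n : ℕ) : 0 < G X n := by
  unfold G
  apply Finset.prod_pos
  intro p hp
  have := Nat.pos_of_mem_primeFactors hp
  have := Fin_Lg_pos hX
  positivity

lemma Fin_G_mul (X : ℕ) {m n : ℕ} (h : Nat.Coprime m n) : G X (m * n) = G X m * G X n := by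
  unfold G
  rw [h.primeFactors_mul, Finset.prod_union h.disjoint_primeFactors]

lemma Fin_one_le_H_mul_G {X n : ℕ} (hn : 2 ≤ n) (hL : Real.log (rad n) ≤ Lg X) :
    1 ≤ H n * G X n ∧ 0 < H n := by
  have hrad2 : 2 ≤ rad n := by
    have h1 : n.minFac ∈ n.primeFactors := by
      rw [Nat.mem_primeFactors]
      exact ⟨Nat.minFac_prime (by omega), Nat.minFac_dvd n, by omega⟩
    have h2 : n.minFac ∣ rad n := Finset.dvd_prod_of_mem _ h1
    exact (Nat.minFac_prime (by omega : n ≠ 1)).two_le.trans (Nat.le_of_dvd (Fin_rad_pos n) h2)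
  have hradr : (2 : ℝ) ≤ rad n := by exact_mod_cast hrad2
  have hlog : 0 < Real.log (rad n) := Real.log_pos (by linarith)
  have hLpos : 0 < Lg X := lt_of_lt_of_le hlog hL
  have hg : G X n = Lg X ^ n.primeFactors.card / rad n := by
    unfold G rad
    rw [Finset.prod_div_distrib, Finset.prod_const]
    push_cast
    rfl
  have hHpos : 0 < H n := by unfold H; positivity
  refine ⟨?_, hHpos⟩
  rw [hg, H]
  have h3 : (rad n : ℝ) / Real.log (rad n) ^ n.primeFactors.card *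
      (Lg X ^ n.primeFactors.card / rad n) = (Lg X / Real.log (rad n)) ^ n.primeFactors.card := by
    rw [div_pow]; field_simp
  rw [h3]
  apply one_le_pow₀
  rw [one_le_div hlog]; exact hL

/-- a violating triple with `X / 2 < c ≤ X` gives an element of `BT` -/
theorem mem_BT {e C : ℝ} (he : -(1 / 2) ≤ e) (hC : 0 < C) {X a b : ℕ} (ha : 0 < a) (hb : 0 < b)
    (hc : a + b ≤ X) (hX : X < 2 * (a + b)) (hg : Nat.Coprime a b)
    (h : C * H (a * b * (a + b)) ^ (1 + e) ≤ ((a + b : ℕ) : ℝ)) :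
    (a, b) ∈ BT X (1 / (1 + e)) (C ^ (-(1 / (1 + e)))) := by
  have hX1 : 1 ≤ X := by omega
  have hX1r : (1 : ℝ) ≤ X := by exact_mod_cast hX1
  have hac : Nat.Coprime a (a + b) := by simpa using hg
  have hbc : Nat.Coprime b (a + b) := by simpa using hg.symm
  have hn2 : 2 ≤ a * b * (a + b) := by
    have h1 : 1 ≤ a * b := Nat.mul_pos ha hb
    have h2 : 2 ≤ a + b := by omega
    nlinarith
  have hnX : (a * b * (a + b) : ℕ) ≤ X ^ 3 := by
    calc a * b * (a + b) ≤ X * X * X := by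
          apply Nat.mul_le_mul _ hc
          apply Nat.mul_le_mul <;> omega
      _ = X ^ 3 := by ring
  have hlograd : Real.log (rad (a * b * (a + b))) ≤ Lg X := by
    have h1 : rad (a * b * (a + b)) ≤ X ^ 3 :=
      (Nat.le_of_dvd (by omega) (Nat.prod_primeFactors_dvd _)).trans hnX
    have h2 : (rad (a * b * (a + b)) : ℝ) ≤ (X : ℝ) ^ 3 := by exact_mod_cast h1
    have h3 := Real.log_le_log (by exact_mod_cast Fin_rad_pos (a * b * (a + b))) h2
    rw [Real.log_pow] at h3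
    push_cast at h3
    unfold Lg
    linarith
  obtain ⟨h1, hHpos⟩ := Fin_one_le_H_mul_G hn2 hlograd
  have hGmul : G X (a * b * (a + b)) = G X a * G X b * G X (a + b) := by
    rw [Fin_G_mul X (Nat.Coprime.mul_left hac hbc), Fin_G_mul X hg]
  have he1 : (0 : ℝ) < 1 + e := by linarith
  have hθ : 0 < 1 / (1 + e) := by positivity
  have hHZ : H (a * b * (a + b)) ≤ C ^ (-(1 / (1 + e))) * (X : ℝ) ^ (1 / (1 + e)) := by
    have h4 : H (a * b * (a + b)) ^ (1 + e) ≤ X / C := by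
      rw [le_div_iff₀ hC, mul_comm]
      refine h.trans ?_
      exact_mod_cast hc
    have h5 : H (a * b * (a + b)) = (H (a * b * (a + b)) ^ (1 + e)) ^ (1 / (1 + e)) := by
      rw [← Real.rpow_mul hHpos.le, mul_one_div, div_self he1.ne', Real.rpow_one]
    rw [h5]
    refine (Real.rpow_le_rpow (by positivity) h4 hθ.le).trans (le_of_eq ?_)
    rw [Real.div_rpow (by positivity) hC.le, Real.rpow_neg hC.le]
    ring
  have ga := Fin_G_pos hX1 a
  have gb := Fin_G_pos hX1 b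
  have gc := Fin_G_pos hX1 (a + b)
  unfold BT
  simp only [Finset.mem_filter, Finset.mem_product, Finset.mem_Icc]
  refine ⟨⟨⟨by omega, by omega⟩, ⟨by omega, by omega⟩⟩, hc, hX, hg, ?_⟩
  rw [hGmul] at h1
  refine h1.trans ?_
  gcongr

/-- the set of violating triples with `c ≤ X` -/
def Fin_set (e C : ℝ) (X : ℕ) : Set (ℕ × ℕ × ℕ) :=
  {t : ℕ × ℕ × ℕ | 0 < t.1 ∧ 0 < t.2.1 ∧ t.1 + t.2.1 = t.2.2 ∧
      Nat.gcd (Nat.gcd t.1 t.2.1) t.2.2 = 1 ∧ t.2.2 ≤ X ∧
      C * H (t.1 * t.2.1 * t.2.2) ^ (1 + e) ≤ (t.2.2 : ℝ)}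

lemma Fin_set_zero (e C : ℝ) : Fin_set e C 0 = ∅ := by
  ext t
  simp only [Fin_set, Set.mem_ofPred_eq, Set.mem_empty_iff_false, iff_false]
  rintro ⟨h1, h2, h3, -, h5, -⟩
  omega

lemma Fin_set_finite (e C : ℝ) (X : ℕ) : (Fin_set e C X).Finite := by
  apply Set.Finite.subset (Finset.finite_toSet
    ((Finset.range (X + 1)) ×ˢ ((Finset.range (X + 1)) ×ˢ (Finset.range (X + 1)))))
  rintro ⟨a, b, c⟩ ⟨h1, h2, h3, -, h5, -⟩
  simp only at h1 h2 h3 h5
  simp only [Finset.coe_product, Finset.coe_range, Set.mem_prod, Set.mem_Iio]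
  omega

/-- one dyadic step -/
lemma Fin_step {e C : ℝ} (he : -(1 / 2) ≤ e) (hC : 0 < C) (X : ℕ) :
    (Fin_set e C X).ncard ≤
      (BT X (1 / (1 + e)) (C ^ (-(1 / (1 + e))))).card + (Fin_set e C (X / 2)).ncard := by
  classical
  set B := BT X (1 / (1 + e)) (C ^ (-(1 / (1 + e)))) with hB
  have hsub : Fin_set e C X ⊆
      (↑(B.image (fun t : ℕ × ℕ => (t.1, t.2, t.1 + t.2))) : Set (ℕ × ℕ × ℕ)) ∪
        Fin_set e C (X / 2) := by
    rintro ⟨a, b, c⟩ ⟨h1, h2, h3, h4, h5, h6⟩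
    simp only at h1 h2 h3 h4 h5 h6
    subst h3
    rcases lt_or_ge X (2 * (a + b)) with hX | hX
    · left
      have hcop : Nat.Coprime a b := by
        have hd : Nat.gcd a b ∣ a + b := (Nat.gcd_dvd_left a b).add (Nat.gcd_dvd_right a b)
        rw [Nat.gcd_eq_left hd] at h4
        exact h4
      rw [Finset.mem_coe, Finset.mem_image]
      exact ⟨(a, b), mem_BT he hC h1 h2 h5 hX hcop h6, rfl⟩
    · right
      refine ⟨h1, h2, rfl, h4, ?_, h6⟩
      show a + b ≤ X / 2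
      omega
  have hfin : ((↑(B.image (fun t : ℕ × ℕ => (t.1, t.2, t.1 + t.2))) : Set (ℕ × ℕ × ℕ)) ∪
        Fin_set e C (X / 2)).Finite :=
    (Finset.finite_toSet _).union (Fin_set_finite e C _)
  calc (Fin_set e C X).ncard ≤ _ := Set.ncard_le_ncard hsub hfin
    _ ≤ (↑(B.image (fun t : ℕ × ℕ => (t.1, t.2, t.1 + t.2))) : Set (ℕ × ℕ × ℕ)).ncard +
        (Fin_set e C (X / 2)).ncard := Set.ncard_union_le _ _
    _ ≤ B.card + (Fin_set e C (X / 2)).ncard := by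
        rw [Set.ncard_coe_finset]
        exact Nat.add_le_add_right Finset.card_image_le _

theorem final (e : ℝ) (he : -(1 / 2) ≤ e) : ∃ δ : ℝ, 0 < δ ∧ ∀ C : ℝ, 0 < C → ∃ K : ℝ, ∀ X : ℕ,
    ({t : ℕ × ℕ × ℕ | 0 < t.1 ∧ 0 < t.2.1 ∧ t.1 + t.2.1 = t.2.2 ∧
      Nat.gcd (Nat.gcd t.1 t.2.1) t.2.2 = 1 ∧ t.2.2 ≤ X ∧
      C * H (t.1 * t.2.1 * t.2.2) ^ (1 + e) ≤ (t.2.2 : ℝ)}.ncard : ℝ) ≤
    K * (X : ℝ) ^ (2 / (3 * (1 + e)) - δ) := by
  have he1 : (0 : ℝ) < 1 + e := by linarith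
  have hθ : 0 < 1 / (1 + e) := by positivity
  have hθ1 : 1 / (1 + e) ≤ 2 := by
    rw [div_le_iff₀ he1]; linarith
  obtain ⟨δ0, hδ0, hMT⟩ := MT (1 / (1 + e)) hθ hθ1
  refine ⟨min δ0 (1 / (1 + e) / 3), lt_min hδ0 (by positivity), ?_⟩
  intro C hC
  set δ := min δ0 (1 / (1 + e) / 3) with hδdef
  have hδδ0 : δ ≤ δ0 := min_le_left _ _
  have hδθ : δ ≤ 1 / (1 + e) / 3 := min_le_right _ _
  have hexp : 2 / (3 * (1 + e)) = 2 * (1 / (1 + e)) / 3 := by field_simp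
  rw [hexp]
  set θ := 1 / (1 + e) with hθdef
  set s := 2 * θ / 3 - δ with hs
  have hspos : 0 < s := by rw [hs]; linarith
  obtain ⟨K, hK1, hK⟩ := hMT (C ^ (-θ)) (by positivity)
  have h2s : (2 : ℝ) ^ (-s) < 1 := Real.rpow_lt_one_of_one_lt_of_neg (by norm_num) (by linarith)
  have h2s0 : (0 : ℝ) < (2 : ℝ) ^ (-s) := by positivity
  have hden : 0 < 1 - (2 : ℝ) ^ (-s) := by linarith
  refine ⟨K / (1 - (2 : ℝ) ^ (-s)), ?_⟩
  set K' := K / (1 - (2 : ℝ) ^ (-s)) with hK'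
  have hK'pos : 0 < K' := by rw [hK']; positivity
  have hKK' : K + K' * (2 : ℝ) ^ (-s) = K' := by
    have : K = K' * (1 - (2 : ℝ) ^ (-s)) := by rw [hK']; field_simp
    linarith
  intro X
  show ((Fin_set e C X).ncard : ℝ) ≤ K' * (X : ℝ) ^ s
  induction X using Nat.strong_induction_on with
  | _ X ih =>
    rcases Nat.eq_zero_or_pos X with rfl | hX
    · rw [Fin_set_zero]
      simp only [Set.ncard_empty, Nat.cast_zero]
      positivity
    · have hX1 : (1 : ℝ) ≤ X := by exact_mod_cast hX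
      have h1 := ih (X / 2) (by omega)
      have h2 := hK X hX
      have h3 : ((Fin_set e C X).ncard : ℝ) ≤
          ((BT X θ (C ^ (-θ))).card : ℝ) + ((Fin_set e C (X / 2)).ncard : ℝ) := by
        exact_mod_cast Fin_step he hC X
      have h4 : (X : ℝ) ^ (2 * θ / 3 - δ0) ≤ (X : ℝ) ^ s := by
        apply Real.rpow_le_rpow_of_exponent_le hX1
        rw [hs]; linarith
      have h5 : (((X / 2 : ℕ) : ℝ)) ^ s ≤ (2 : ℝ) ^ (-s) * (X : ℝ) ^ s := by
        have h6 : (((X / 2 : ℕ) : ℝ)) ≤ (X : ℝ) / 2 := Nat.cast_div_le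
        calc (((X / 2 : ℕ) : ℝ)) ^ s ≤ ((X : ℝ) / 2) ^ s :=
              Real.rpow_le_rpow (by positivity) h6 hspos.le
          _ = (2 : ℝ) ^ (-s) * (X : ℝ) ^ s := by
              rw [Real.div_rpow (by positivity) (by norm_num), Real.rpow_neg (by norm_num)]
              ring
      calc ((Fin_set e C X).ncard : ℝ) ≤ _ := h3
        _ ≤ K * (X : ℝ) ^ (2 * θ / 3 - δ0) + K' * (((X / 2 : ℕ) : ℝ)) ^ s := add_le_add h2 h1
        _ ≤ K * (X : ℝ) ^ s + K' * ((2 : ℝ) ^ (-s) * (X : ℝ) ^ s) := by gcongr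
        _ = (K + K' * (2 : ℝ) ^ (-s)) * (X : ℝ) ^ s := by ring
        _ = K' * (X : ℝ) ^ s := by rw [hKK']

end Pool.Agent.helper41.EX
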