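import Pool.Agent.helper41.EX.Basics

/-! # EXS-GcdPig: making the set prime to the modulus -/

namespace Pool.Agent.helper41.EX

open Finset
open scoped Pointwise

variable {P : Finset ℕ} {y0 y k Δ a0 : ℕ}

/-- `C(n-i, k-i) n ^ i ≤ C(n, k) k ^ i`. -/
theorem GcdPig_choose {n k : ℕ} (hkn : k ≤ n) (i : ℕ) (hi : i ≤ k) :
    (n - i).choose (k - i) * n ^ i ≤ n.choose k * k ^ i := by
  induction i with
  | zero => simp
  | succ i ih =>
    have h1 := ih (by omega)
    obtain ⟨a, ha⟩ : ∃ a, n - i = a + 1 := ⟨n - i - 1, by omega⟩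
    obtain ⟨b, hb⟩ : ∃ b, k - i = b + 1 := ⟨k - i - 1, by omega⟩
    have ha' : n - (i + 1) = a := by omega
    have hb' : k - (i + 1) = b := by omega
    rw [ha', hb']
    rw [ha, hb] at h1
    have h2 : (a + 1) * a.choose b = (a + 1).choose (b + 1) * (b + 1) :=
      Nat.add_one_mul_choose_eq a b
    -- a.choose b * n ≤ (a+1).choose (b+1) * k
    have h3 : a.choose b * n ≤ (a + 1).choose (b + 1) * k := by
      have h4 : (b + 1) * n ≤ k * (a + 1) := by
        have e1 : n = a + 1 + i := by omega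
        have e2 : k = b + 1 + i := by omega
        rw [e1, e2]
        have : b ≤ a := by omega
        nlinarith
      have h5 : (a + 1) * (a.choose b * n) ≤ (a + 1) * ((a + 1).choose (b + 1) * k) := by
        calc (a + 1) * (a.choose b * n) = (a + 1).choose (b + 1) * ((b + 1) * n) := by
              rw [← mul_assoc, h2]; ring
          _ ≤ (a + 1).choose (b + 1) * (k * (a + 1)) := Nat.mul_le_mul_left _ h4
          _ = (a + 1) * ((a + 1).choose (b + 1) * k) := by ring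
      exact Nat.le_of_mul_le_mul_left h5 (Nat.succ_pos a)
    calc a.choose b * n ^ (i + 1) = (a.choose b * n) * n ^ i := by ring
      _ ≤ ((a + 1).choose (b + 1) * k) * n ^ i := Nat.mul_le_mul_right _ h3
      _ = k * ((a + 1).choose (b + 1) * n ^ i) := by ring
      _ ≤ k * (n.choose k * k ^ i) := Nat.mul_le_mul_left _ h1
      _ = n.choose k * k ^ (i + 1) := by ring

theorem GcdPig_choose_mono {n k : ℕ} (h2 : 2 * k ≤ n) (i : ℕ) (hi : i ≤ k) :
    n.choose (k - i) ≤ n.choose k := by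
  induction i with
  | zero => simp
  | succ i ih =>
    refine le_trans ?_ (ih (by omega))
    have h := Nat.choose_le_succ_of_lt_half_left (r := k - (i + 1)) (n := n) (by omega)
    have e : k - (i + 1) + 1 = k - i := by omega
    rwa [e] at h

/-- Reducing the modulus. -/
theorem GcdPig_nc {w g : ℕ} (hg : 1 ≤ g) (hgw : g ∣ w) {V4 V : Finset ℤ}
    (h : ∀ x ∈ V4, (g : ℤ) * x ∈ V) : nc (w / g) V4 ≤ nc w V := by
  classical
  unfold nc
  let f : ZMod (w / g) → ZMod w := fun κ =>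
    (((g : ℤ) * (Function.invFunOn (fun v : ℤ => (v : ZMod (w / g))) (V4 : Set ℤ) κ) : ℤ) : ZMod w)
  have hinv : ∀ κ ∈ V4.image (fun v : ℤ => (v : ZMod (w / g))),
      Function.invFunOn (fun v : ℤ => (v : ZMod (w / g))) (V4 : Set ℤ) κ ∈ V4 ∧
      ((Function.invFunOn (fun v : ℤ => (v : ZMod (w / g))) (V4 : Set ℤ) κ : ℤ) :
        ZMod (w / g)) = κ := by
    intro κ hκ
    rw [Finset.mem_image] at hκ
    obtain ⟨v, hv, e⟩ := hκ
    have hex : ∃ a ∈ (V4 : Set ℤ), (fun v : ℤ => (v : ZMod (w / g))) a = κ := ⟨v, hv, e⟩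
    exact ⟨Finset.mem_coe.1 (Function.invFunOn_mem hex), Function.invFunOn_eq hex⟩
  refine Finset.card_le_card_of_injOn f ?_ ?_
  · intro κ hκ
    obtain ⟨h1, -⟩ := hinv κ hκ
    exact Finset.mem_coe.2 (Finset.mem_image.2 ⟨_, h _ h1, rfl⟩)
  · intro κ hκ κ' hκ' e
    obtain ⟨-, h1⟩ := hinv κ hκ
    obtain ⟨-, h2⟩ := hinv κ' hκ'
    have e' : (((g : ℤ) * (Function.invFunOn (fun v : ℤ => (v : ZMod (w / g))) (V4 : Set ℤ) κ) : ℤ)
        : ZMod w) = (((g : ℤ) *
          (Function.invFunOn (fun v : ℤ => (v : ZMod (w / g))) (V4 : Set ℤ) κ') : ℤ) : ZMod w) := e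
    rw [ZMod.intCast_eq_intCast_iff_dvd_sub] at e'
    rw [← h1, ← h2, ZMod.intCast_eq_intCast_iff_dvd_sub]
    have hw : (w : ℤ) = (g : ℤ) * ((w / g : ℕ) : ℤ) := by
      have h3 := Nat.mul_div_cancel' hgw
      exact_mod_cast h3.symm
    have hgz : (g : ℤ) ≠ 0 := by exact_mod_cast Nat.one_le_iff_ne_zero.1 hg
    rw [← mul_sub] at e'
    obtain ⟨t, ht⟩ := e'
    refine ⟨t, ?_⟩
    apply mul_left_cancel₀ hgz
    rw [ht, ← mul_assoc, ← hw]

theorem gcdPig (E : Env P y0 y k Δ a0) {c w : ℕ} {V : Finset ℤ} (hV : VV P Δ k c V)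
    (hw : 1 ≤ w) (hwy : w ≤ y ^ k) :
    ∃ (g i : ℕ) (V4 : Finset ℤ), i ≤ k ∧ 1 ≤ g ∧ g ∣ w ∧ g ≤ Δ ^ (a0 * (c + 1)) ∧
      y ^ i ≤ Δ ^ (a0 * (c + 1)) ∧ (∀ q : ℕ, q.Prime → q ∣ g → q ≤ y) ∧
      VV P Δ (k - i) (2 * c + 1) V4 ∧ CopTo V4 w ∧ nc (w / g) V4 ≤ nc w V := by
  classical
  have hk1 := E.k_pos
  have h2k := E.two_k
  have hΔ : 4 ≤ Δ := E.four_le
  have hΔ1 : 1 ≤ Δ := by omega
  have hNk : 0 < N P k := E.Npos le_rfl
  -- `y0 ≥ 2`
  have hy0 : 2 ≤ y0 := by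
    by_contra hcon
    have h1 : y0 = 1 := by
      have := E.y0_pos
      omega
    have h2 : 0 < P.card := by omega
    obtain ⟨p, hp⟩ := Finset.card_pos.1 h2
    have h3 := (E.prime p hp).two_le
    have h4 := E.le p hp
    have h5 := E.sq
    rw [h1] at h5
    omega
  -- the primes of `P` dividing `w`
  set Pw : Finset ℕ := P.filter (fun p => p ∣ w) with hPw
  have hprod_dvd : ∀ F : Finset ℕ, F ⊆ Pw → (∏ p ∈ F, p) ∣ w := by
    intro F hF
    refine Finset.prod_primes_dvd w (fun p hp => ?_) (fun p hp => ?_)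
    · exact Nat.prime_iff.1 (E.prime p (Finset.mem_filter.1 (hF hp)).1)
    · exact (Finset.mem_filter.1 (hF hp)).2
  have hcardPw : Pw.card ≤ 2 * k := by
    have h1 : y0 ^ Pw.card ≤ ∏ p ∈ Pw, p := by
      rw [← Finset.prod_const]
      exact Finset.prod_le_prod' fun p hp => (E.gt p (Finset.mem_filter.1 hp).1).le
    have h2 : ∏ p ∈ Pw, p ≤ w := Nat.le_of_dvd (by omega) (hprod_dvd Pw subset_rfl)
    have h3 : y ^ k ≤ y0 ^ (2 * k) := by
      rw [pow_mul]
      exact Nat.pow_le_pow_left E.sq k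
    exact (Nat.pow_le_pow_iff_right (by omega)).1 (h1.trans (h2.trans (hwy.trans h3)))
  have hpw : Pw.powerset.card ≤ Δ := by
    rw [Finset.card_powerset]
    calc 2 ^ Pw.card ≤ 2 ^ (2 * k) := Nat.pow_le_pow_right (by norm_num) hcardPw
      _ = 4 ^ k := by rw [pow_mul]; norm_num
      _ ≤ Δ := E.four_k
  -- pigeonhole
  let φ : ℤ → Finset ℕ := fun v => Pw.filter (fun p : ℕ => (p : ℤ) ∣ v)
  have hφ : ∀ v ∈ V, φ v ∈ Pw.powerset := fun v _ =>
    Finset.mem_powerset.2 (Finset.filter_subset _ _)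
  have hVne : V.Nonempty := hV.nonempty hNk
  obtain ⟨F0, hF0, hpig⟩ : ∃ F0 ∈ Pw.powerset, V.card ≤ Δ * (V.filter fun v => φ v = F0).card := by
    by_contra hcon
    push Not at hcon
    have h1 := Finset.card_eq_sum_card_fiberwise hφ
    have h2 : Δ * V.card < Pw.powerset.card * V.card := by
      calc Δ * V.card = ∑ F ∈ Pw.powerset, Δ * (V.filter fun v => φ v = F).card := by
            rw [h1, Finset.mul_sum]
        _ < ∑ F ∈ Pw.powerset, V.card :=
            Finset.sum_lt_sum_of_nonempty ⟨∅, Finset.empty_mem_powerset _⟩ hcon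
        _ = Pw.powerset.card * V.card := by rw [Finset.sum_const, smul_eq_mul]
    have h3 : Pw.powerset.card * V.card ≤ Δ * V.card := Nat.mul_le_mul_right _ hpw
    omega
  set Vg := V.filter fun v => φ v = F0 with hVg
  have hF0Pw : F0 ⊆ Pw := Finset.mem_powerset.1 hF0
  have hF0P : F0 ⊆ P := hF0Pw.trans (Finset.filter_subset _ _)
  set g : ℕ := ∏ p ∈ F0, p with hg
  set i : ℕ := F0.card with hi
  have hg1 : 1 ≤ g := Finset.prod_pos fun p hp => (E.prime p (hF0P hp)).pos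
  have hgz : (g : ℤ) ≠ 0 := by exact_mod_cast Nat.one_le_iff_ne_zero.1 hg1
  have hgw : g ∣ w := hprod_dvd F0 hF0Pw
  -- factorisation of the elements of `Vg`
  have hfac : ∀ v ∈ Vg, ∃ F ∈ (P \ F0).powersetCard (k - i), i ≤ k ∧ (∀ p ∈ F, ¬ p ∣ w) ∧
      v = (g : ℤ) * ∏ p ∈ F, (p : ℤ) := by
    intro v hv
    obtain ⟨hvV, hvF⟩ := Finset.mem_filter.1 hv
    have hvA := hV.sub hvV
    unfold A at hvA
    rw [Finset.mem_image] at hvA
    obtain ⟨F, hF, rfl⟩ := hvA
    rw [Finset.mem_powersetCard] at hF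
    have hdvd : ∀ p ∈ P, ((p : ℤ) ∣ ∏ q ∈ F, (q : ℤ)) → p ∈ F := by
      intro p hp h
      have hp' := E.prime p hp
      have hpz : Prime (p : ℤ) := Nat.prime_iff_prime_int.1 hp'
      obtain ⟨q, hq, hpq⟩ := hpz.exists_mem_finset_dvd h
      have hq' := E.prime q (hF.1 hq)
      have : p ∣ q := Int.natCast_dvd_natCast.1 hpq
      have e := (Nat.prime_dvd_prime_iff_eq hp' hq').1 this
      rwa [e]
    have hF0F : F0 ⊆ F := by
      intro p hp
      have h1 : p ∈ φ (∏ q ∈ F, (q : ℤ)) := by rw [hvF]; exact hp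
      exact hdvd p (hF0P hp) (Finset.mem_filter.1 h1).2
    refine ⟨F \ F0, ?_, ?_, ?_, ?_⟩
    · rw [Finset.mem_powersetCard]
      refine ⟨Finset.sdiff_subset_sdiff hF.1 subset_rfl, ?_⟩
      rw [Finset.card_sdiff_of_subset hF0F, hF.2]
    · rw [← hF.2]
      exact Finset.card_le_card hF0F
    · intro p hp hpw
      obtain ⟨hpF, hpF0⟩ := Finset.mem_sdiff.1 hp
      apply hpF0
      rw [← hvF]
      exact Finset.mem_filter.2 ⟨Finset.mem_filter.2 ⟨hF.1 hpF, hpw⟩,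
        Finset.dvd_prod_of_mem (fun q : ℕ => (q : ℤ)) hpF⟩
    · rw [hg, Nat.cast_prod, mul_comm, Finset.prod_sdiff hF0F]
  -- the set `V4`
  set V4 : Finset ℤ := Vg.image (fun v => v / (g : ℤ)) with hV4
  have hV4mem : ∀ x ∈ V4, (g : ℤ) * x ∈ Vg ∧ ∃ F ∈ (P \ F0).powersetCard (k - i),
      (∀ p ∈ F, ¬ p ∣ w) ∧ x = ∏ p ∈ F, (p : ℤ) := by
    intro x hx
    rw [hV4, Finset.mem_image] at hx
    obtain ⟨v, hv, rfl⟩ := hx
    obtain ⟨F, hF, -, hFw, e⟩ := hfac v hv
    have e2 : v / (g : ℤ) = ∏ p ∈ F, (p : ℤ) := by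
      rw [e, Int.mul_ediv_cancel_left _ hgz]
    rw [e2]
    refine ⟨?_, F, hF, hFw, rfl⟩
    rw [← e]
    exact hv
  have hVgimg : Vg = V4.image (fun x => (g : ℤ) * x) := by
    ext v
    rw [Finset.mem_image]
    constructor
    · intro hv
      obtain ⟨F, hF, -, hFw, e⟩ := hfac v hv
      refine ⟨v / g, Finset.mem_image_of_mem _ hv, ?_⟩
      rw [e, Int.mul_ediv_cancel_left _ hgz]
    · rintro ⟨x, hx, rfl⟩
      exact (hV4mem x hx).1
  have hcard4 : Vg.card = V4.card := by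
    rw [hVgimg]
    exact Finset.card_image_of_injective _ fun a b h => mul_left_cancel₀ hgz h
  have hVgne : Vg.Nonempty := by
    rw [← Finset.card_pos]
    have h1 := Finset.card_pos.2 hVne
    by_contra hcon
    have h2 : Vg.card = 0 := by omega
    rw [h2] at hpig
    omega
  obtain ⟨v0, hv0⟩ := hVgne
  obtain ⟨-, -, hik, -, -⟩ := hfac v0 hv0
  have hdense : N P k ≤ Δ ^ (c + 1) * V4.card := by
    calc N P k ≤ Δ ^ c * V.card := hV.dense
      _ ≤ Δ ^ c * (Δ * Vg.card) := Nat.mul_le_mul_left _ hpig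
      _ = Δ ^ (c + 1) * V4.card := by rw [hcard4]; ring
  have hsub : V4 ⊆ A P (k - i) := by
    intro x hx
    obtain ⟨-, F, hF, -, rfl⟩ := hV4mem x hx
    rw [Finset.mem_powersetCard] at hF
    exact Finset.mem_image.2 ⟨F, Finset.mem_powersetCard.2
      ⟨hF.1.trans Finset.sdiff_subset, hF.2⟩, rfl⟩
  have hsub2 : V4 ⊆ A (P \ F0) (k - i) := by
    intro x hx
    obtain ⟨-, F, hF, -, rfl⟩ := hV4mem x hx
    exact Finset.mem_image.2 ⟨F, hF, rfl⟩
  have hcardA : V4.card ≤ N P (k - i) := by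
    rw [← card_A E.prime]
    exact Finset.card_le_card hsub
  have hcardB : V4.card ≤ (P.card - i).choose (k - i) := by
    have h1 := Finset.card_le_card hsub2
    rw [card_A (fun p hp => E.prime p (Finset.mem_sdiff.1 hp).1)] at h1
    unfold N at h1
    rwa [Finset.card_sdiff_of_subset hF0P] at h1
  -- the bound on `y ^ i`
  have hni : P.card ^ i ≤ Δ ^ (c + 1) * k ^ i := by
    have h1 := GcdPig_choose (n := P.card) (k := k) (by omega) i hik
    have h2 : N P k * P.card ^ i ≤ N P k * (Δ ^ (c + 1) * k ^ i) := by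
      calc N P k * P.card ^ i ≤ (Δ ^ (c + 1) * V4.card) * P.card ^ i :=
            Nat.mul_le_mul_right _ hdense
        _ ≤ (Δ ^ (c + 1) * (P.card - i).choose (k - i)) * P.card ^ i :=
            Nat.mul_le_mul_right _ (Nat.mul_le_mul_left _ hcardB)
        _ = Δ ^ (c + 1) * ((P.card - i).choose (k - i) * P.card ^ i) := by ring
        _ ≤ Δ ^ (c + 1) * (P.card.choose k * k ^ i) := Nat.mul_le_mul_left _ h1
        _ = N P k * (Δ ^ (c + 1) * k ^ i) := by unfold N; ring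
    exact Nat.le_of_mul_le_mul_left h2 hNk
  have hyi : y ^ i ≤ Δ ^ (a0 * (c + 1)) := by
    have h1 : y ^ i * (k ^ a0) ^ i ≤ (Δ ^ (a0 * (c + 1))) * (k ^ a0) ^ i := by
      calc y ^ i * (k ^ a0) ^ i = (y * k ^ a0) ^ i := by rw [mul_pow]
        _ ≤ (P.card ^ a0) ^ i := Nat.pow_le_pow_left E.ratio i
        _ = (P.card ^ i) ^ a0 := by rw [← pow_mul, ← pow_mul, mul_comm]
        _ ≤ (Δ ^ (c + 1) * k ^ i) ^ a0 := Nat.pow_le_pow_left hni a0
        _ = (Δ ^ (a0 * (c + 1))) * (k ^ a0) ^ i := by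
            rw [mul_pow, ← pow_mul, ← pow_mul, ← pow_mul, mul_comm (c + 1) a0, mul_comm i a0]
    exact Nat.le_of_mul_le_mul_right h1 (pow_pos (pow_pos hk1 _) _)
  have hgy : g ≤ y ^ i := by
    rw [hg, hi, ← Finset.prod_const]
    exact Finset.prod_le_prod' fun p hp => E.le p (hF0P hp)
  refine ⟨g, i, V4, hik, hg1, hgw, hgy.trans hyi, hyi, ?_, ⟨hsub, ?_, ?_⟩, ?_, ?_⟩
  · intro q hq hqg
    obtain ⟨p, hp, hqp⟩ := (Nat.prime_iff.1 hq).exists_mem_finset_dvd hqg
    have e := (Nat.prime_dvd_prime_iff_eq hq (E.prime p (hF0P hp))).1 hqp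
    rw [e]
    exact E.le p (hF0P hp)
  · calc N P (k - i) ≤ N P k := GcdPig_choose_mono E.two_k i hik
      _ ≤ Δ ^ (c + 1) * V4.card := hdense
      _ ≤ Δ ^ (2 * c + 1) * V4.card :=
          Nat.mul_le_mul_right _ (Nat.pow_le_pow_right hΔ1 (by omega))
  · have h1 : (V4 - V4).card = (Vg - Vg).card := by
      have e : Vg - Vg = (V4 - V4).image (fun x => (g : ℤ) * x) := by
        ext z
        simp only [Finset.mem_sub, Finset.mem_image]
        constructor
        · rintro ⟨a, ha, b, hb, rfl⟩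
          rw [hVgimg, Finset.mem_image] at ha hb
          obtain ⟨a, ha, rfl⟩ := ha
          obtain ⟨b, hb, rfl⟩ := hb
          exact ⟨a - b, ⟨a, ha, b, hb, rfl⟩, mul_sub _ _ _⟩
        · rintro ⟨_, ⟨a, ha, b, hb, rfl⟩, rfl⟩
          exact ⟨_, (hV4mem a ha).1, _, (hV4mem b hb).1, (mul_sub _ _ _).symm⟩
      rw [e, Finset.card_image_of_injective _ fun a b h => mul_left_cancel₀ hgz h]
    have h2 : Vg - Vg ⊆ V - V := Finset.sub_subset_sub (Finset.filter_subset _ _)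
      (Finset.filter_subset _ _)
    calc (V4 - V4).card = (Vg - Vg).card := h1
      _ ≤ (V - V).card := Finset.card_le_card h2
      _ ≤ Δ ^ c * N P k := hV.dbl
      _ ≤ Δ ^ c * (Δ ^ (c + 1) * V4.card) := Nat.mul_le_mul_left _ hdense
      _ ≤ Δ ^ c * (Δ ^ (c + 1) * N P (k - i)) :=
          Nat.mul_le_mul_left _ (Nat.mul_le_mul_left _ hcardA)
      _ = Δ ^ (2 * c + 1) * N P (k - i) := by ring
  · intro x hx
    obtain ⟨-, F, hF, hFw, rfl⟩ := hV4mem x hx
    refine IsCoprime.prod_left fun p hp => ?_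
    have hpP : p ∈ P := (Finset.mem_sdiff.1 ((Finset.mem_powersetCard.1 hF).1 hp)).1
    exact Nat.isCoprime_iff_coprime.2 (((E.prime p hpP).coprime_iff_not_dvd).2 (hFw p hp))
  · exact GcdPig_nc hg1 hgw fun x hx => (Finset.mem_filter.1 (hV4mem x hx).1).1

end Pool.Agent.helper41.EX
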