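import Pool.Agent.helper41.EX.CovCalc
import Pool.Agent.helper41.EX.Averaging

/-! # EXS-Growth: one step of growth modulo `r`, inside `Cov` -/

namespace Pool.Agent.helper41.EX

open Finset
open scoped Pointwise

/-- `q` is a quotient of differences of `T` -/
def IsQuo {r : ℕ} (T : Finset (ZMod r)) (q : ZMod r) : Prop :=
  ∃ a ∈ T, ∃ b ∈ T, ∃ c ∈ T, ∃ d ∈ T, c ≠ d ∧ q * (c - d) = a - b

theorem growthStep {r w : ℕ} [Fact r.Prime] (hrw : r ∣ w) (D : Finset (ZMod w)) {K1 K : ℕ}
    (hD : AG D K1) (hK : 1 ≤ K) (hK1 : 1 ≤ K1) (S : Finset (ZMod w)) (hS : ∀ ξ ∈ S, Cov D K ξ)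
    (h2 : 2 ≤ (S.image (ZMod.castHom hrw (ZMod r))).card) :
    ∃ S' : Finset (ZMod w), (∀ ξ ∈ S', Cov D (K ^ 8 * K1 ^ 5) ξ) ∧
      min ((S.image (ZMod.castHom hrw (ZMod r))).card ^ 2) r ≤
        2 * (S'.image (ZMod.castHom hrw (ZMod r))).card := by
  classical
  set π : ZMod w →+* ZMod r := ZMod.castHom hrw (ZMod r) with hπ
  set T := S.image π with hT
  have hTne : T.Nonempty := Finset.card_pos.mp (by omega)
  obtain ⟨c0, hc0, d0, hd0, hcd0⟩ := Finset.one_lt_card.mp (show 1 < T.card by omega)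
  by_cases hall : ∀ q : ZMod r, IsQuo T q
  · obtain ⟨ξ, hξ⟩ := averaging T hTne
    obtain ⟨a, ha, b, hb, c, hc, d, hd, hcd, hq⟩ := hall ξ
    obtain ⟨a', ha', rfl⟩ := Finset.mem_image.mp ha
    obtain ⟨b', hb', rfl⟩ := Finset.mem_image.mp hb
    obtain ⟨c', hc', rfl⟩ := Finset.mem_image.mp hc
    obtain ⟨d', hd', rfl⟩ := Finset.mem_image.mp hd
    refine ⟨(S ×ˢ S).image (fun st => (c' - d') * st.1 + (a' - b') * st.2), ?_, ?_⟩
    · intro η hη
      obtain ⟨⟨s, t⟩, hst, rfl⟩ := Finset.mem_image.mp hη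
      obtain ⟨hs, ht⟩ := Finset.mem_product.mp hst
      have h1 : Cov D (K * K * K1) (c' - d') := Cov.sub hD (hS _ hc') (hS _ hd')
      have h3 : Cov D (K * K * K1) (a' - b') := Cov.sub hD (hS _ ha') (hS _ hb')
      have h4 := Cov.mul h1 (hS _ hs)
      have h5 := Cov.mul h3 (hS _ ht)
      refine Cov.mono (Cov.add hD h4 h5) ?_
      calc K * K * K1 * K * (K * K * K1 * K) * K1 = K ^ 6 * K1 ^ 3 := by ring
        _ ≤ K ^ 8 * K1 ^ 5 := Nat.mul_le_mul (Nat.pow_le_pow_right hK (by norm_num))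
            (Nat.pow_le_pow_right hK1 (by norm_num))
    · have hne : π c' - π d' ≠ 0 := sub_ne_zero.mpr hcd
      have hsub : (T + T.image (fun s => ξ * s)).image (fun z => (π c' - π d') * z) ⊆
          ((S ×ˢ S).image (fun st => (c' - d') * st.1 + (a' - b') * st.2)).image π := by
        intro z hz
        obtain ⟨u, hu, rfl⟩ := Finset.mem_image.mp hz
        obtain ⟨s, hs, v, hv, rfl⟩ := Finset.mem_add.mp hu
        obtain ⟨t, ht, rfl⟩ := Finset.mem_image.mp hv
        obtain ⟨s', hs', rfl⟩ := Finset.mem_image.mp hs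
        obtain ⟨t', ht', rfl⟩ := Finset.mem_image.mp ht
        refine Finset.mem_image.mpr ⟨(c' - d') * s' + (a' - b') * t',
          Finset.mem_image.mpr ⟨(s', t'), Finset.mem_product.mpr ⟨hs', ht'⟩, rfl⟩, ?_⟩
        rw [map_add, map_mul, map_mul, map_sub, map_sub, ← hq]
        ring
      have hcard := Finset.card_le_card hsub
      rw [Finset.card_image_of_injective _ (mul_right_injective₀ hne)] at hcard
      exact hξ.trans (Nat.mul_le_mul_left 2 hcard)
  · push Not at hall
    have h0 : IsQuo T 0 := ⟨c0, hc0, c0, hc0, c0, hc0, d0, hd0, hcd0, by simp⟩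
    have hx : ∃ x : ZMod r, IsQuo T x ∧ ¬ IsQuo T (x + 1) := by
      by_contra hcon
      push Not at hcon
      obtain ⟨q, hq⟩ := hall
      apply hq
      have hnat : ∀ n : ℕ, IsQuo T (n : ZMod r) := by
        intro n
        induction n with
        | zero => simpa using h0
        | succ n ih =>
          rw [Nat.cast_succ]
          exact hcon _ ih
      have := hnat q.val
      rwa [ZMod.natCast_zmod_val] at this
    obtain ⟨x, ⟨a, ha, b, hb, c, hc, d, hd, hcd, hq⟩, hx1⟩ := hx
    obtain ⟨a', ha', rfl⟩ := Finset.mem_image.mp ha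
    obtain ⟨b', hb', rfl⟩ := Finset.mem_image.mp hb
    obtain ⟨c', hc', rfl⟩ := Finset.mem_image.mp hc
    obtain ⟨d', hd', rfl⟩ := Finset.mem_image.mp hd
    have hne : π c' - π d' ≠ 0 := sub_ne_zero.mpr hcd
    refine ⟨(S ×ˢ S).image
      (fun st => (c' - d') * st.1 + ((a' - b') + (c' - d')) * st.2), ?_, ?_⟩
    · intro η hη
      obtain ⟨⟨s, t⟩, hst, rfl⟩ := Finset.mem_image.mp hη
      obtain ⟨hs, ht⟩ := Finset.mem_product.mp hst
      have h1 : Cov D (K * K * K1) (c' - d') := Cov.sub hD (hS _ hc') (hS _ hd')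
      have h3 : Cov D (K * K * K1) (a' - b') := Cov.sub hD (hS _ ha') (hS _ hb')
      have h4 := Cov.mul h1 (hS _ hs)
      have h5 := Cov.mul (Cov.add hD h3 h1) (hS _ ht)
      refine Cov.mono (Cov.add hD h4 h5) (le_of_eq ?_)
      ring
    · have hsub : (T ×ˢ T).image (fun st => (π c' - π d') * (st.1 + (x + 1) * st.2)) ⊆
          ((S ×ˢ S).image
            (fun st => (c' - d') * st.1 + ((a' - b') + (c' - d')) * st.2)).image π := by
        intro z hz
        obtain ⟨⟨s, t⟩, hst, rfl⟩ := Finset.mem_image.mp hz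
        obtain ⟨hs, ht⟩ := Finset.mem_product.mp hst
        obtain ⟨s', hs', rfl⟩ := Finset.mem_image.mp hs
        obtain ⟨t', ht', rfl⟩ := Finset.mem_image.mp ht
        refine Finset.mem_image.mpr ⟨(c' - d') * s' + ((a' - b') + (c' - d')) * t',
          Finset.mem_image.mpr ⟨(s', t'), Finset.mem_product.mpr ⟨hs', ht'⟩, rfl⟩, ?_⟩
        rw [map_add, map_mul, map_mul, map_add, map_sub, map_sub, ← hq]
        ring
      have hinj : Set.InjOn (fun st : ZMod r × ZMod r =>
          (π c' - π d') * (st.1 + (x + 1) * st.2)) (T ×ˢ T : Finset (ZMod r × ZMod r)) := by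
        rintro ⟨s, t⟩ hst ⟨s1, t1⟩ hst1 heq
        obtain ⟨hs, ht⟩ := Finset.mem_product.mp (Finset.mem_coe.mp hst)
        obtain ⟨hs1, ht1⟩ := Finset.mem_product.mp (Finset.mem_coe.mp hst1)
        have heq' : s + (x + 1) * t = s1 + (x + 1) * t1 := mul_left_cancel₀ hne heq
        have htt : t = t1 := by
          by_contra hne'
          exact hx1 ⟨s, hs, s1, hs1, t1, ht1, t, ht, fun h => hne' h.symm, by
            linear_combination -heq'⟩
        subst htt
        have hss : s = s1 := by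
          linear_combination heq'
        rw [hss]
      have hcard := Finset.card_le_card hsub
      rw [Finset.card_image_of_injOn hinj, Finset.card_product, ← pow_two] at hcard
      refine (min_le_left _ _).trans (hcard.trans ?_)
      omega

end Pool.Agent.helper41.EX
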