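import Pool.Agent.helper41.EX.Growth

/-! # EXS-GrowthFull: all of `F_r` -/

namespace Pool.Agent.helper41.EX

open Finset
open scoped Pointwise

theorem growth_iter {r w : ℕ} [Fact r.Prime] (hrw : r ∣ w) (D : Finset (ZMod w)) {K1 K : ℕ}
    (hD : AG D K1) (hK : 1 ≤ K) (hK1 : 1 ≤ K1) (S : Finset (ZMod w)) (hS : ∀ ξ ∈ S, Cov D K ξ)
    (hr4 : 4 ≤ r) (h2 : 2 ≤ (S.image (ZMod.castHom hrw (ZMod r))).card) (s : ℕ) :
    ∃ (S' : Finset (ZMod w)) (K' : ℕ), 1 ≤ K' ∧ K' * K1 ≤ (K * K1) ^ (8 ^ s) ∧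
      (∀ ξ ∈ S', Cov D K' ξ) ∧ 2 ≤ (S'.image (ZMod.castHom hrw (ZMod r))).card ∧
      (r ≤ 2 * (S'.image (ZMod.castHom hrw (ZMod r))).card ∨
        (S.image (ZMod.castHom hrw (ZMod r))).card ^ (2 ^ s) * 2 ≤
          2 ^ (2 ^ s) * (S'.image (ZMod.castHom hrw (ZMod r))).card) := by
  induction s with
  | zero =>
    refine ⟨S, K, hK, by simp, hS, h2, Or.inr ?_⟩
    simp [mul_comm]
  | succ s ih =>
    obtain ⟨S', K', hK', hKK, hS', h2', hor⟩ := ih
    obtain ⟨S'', hS'', hmin⟩ := growthStep hrw D hD hK' hK1 S' hS' h2'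
    set n := (S'.image (ZMod.castHom hrw (ZMod r))).card with hn
    set n2 := (S''.image (ZMod.castHom hrw (ZMod r))).card with hn2
    set n0 := (S.image (ZMod.castHom hrw (ZMod r))).card with hn0
    refine ⟨S'', K' ^ 8 * K1 ^ 5, ?_, ?_, hS'', ?_, ?_⟩
    · exact Nat.one_le_iff_ne_zero.mpr (by positivity)
    · calc K' ^ 8 * K1 ^ 5 * K1 = K' ^ 8 * K1 ^ 6 := by ring
        _ ≤ K' ^ 8 * K1 ^ 8 := Nat.mul_le_mul_left _ (Nat.pow_le_pow_right hK1 (by norm_num))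
        _ = (K' * K1) ^ 8 := by ring
        _ ≤ ((K * K1) ^ (8 ^ s)) ^ 8 := Nat.pow_le_pow_left hKK 8
        _ = (K * K1) ^ (8 ^ (s + 1)) := by rw [← pow_mul, pow_succ 8 s]
    · have h4 : 4 ≤ n ^ 2 := by nlinarith
      have : 4 ≤ min (n ^ 2) r := le_min h4 hr4
      omega
    · rcases hor with hor | hor
      · left
        have h4 : r ≤ n ^ 2 := by
          have : r * r ≤ (2 * n) * (2 * n) := Nat.mul_le_mul hor hor
          nlinarith
        rw [min_eq_right h4] at hmin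
        exact hmin
      · rcases le_total (n ^ 2) r with hle | hle
        · right
          rw [min_eq_left hle] at hmin
          have h5 : (n0 ^ (2 ^ s) * 2) ^ 2 ≤ (2 ^ (2 ^ s) * n) ^ 2 := Nat.pow_le_pow_left hor 2
          have e1 : (n0 ^ (2 ^ s) * 2) ^ 2 = 2 * (n0 ^ (2 ^ (s + 1)) * 2) := by
            rw [pow_succ 2 s, pow_mul]; ring
          have e2 : (2 ^ (2 ^ s) * n) ^ 2 = 2 ^ (2 ^ (s + 1)) * n ^ 2 := by
            rw [pow_succ 2 s, pow_mul]; ring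
          rw [e1, e2] at h5
          have h6 : 2 ^ (2 ^ (s + 1)) * n ^ 2 ≤ 2 ^ (2 ^ (s + 1)) * (2 * n2) :=
            Nat.mul_le_mul_left _ hmin
          have h7 : 2 * (n0 ^ (2 ^ (s + 1)) * 2) ≤ 2 * (2 ^ (2 ^ (s + 1)) * n2) := by
            calc _ ≤ _ := h5.trans h6
              _ = _ := by ring
          exact Nat.le_of_mul_le_mul_left h7 (by norm_num)
        · left
          rw [min_eq_right hle] at hmin
          exact hmin

theorem growthFull {r w : ℕ} [Fact r.Prime] (hrw : r ∣ w) (D : Finset (ZMod w)) {K1 K : ℕ}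
    (hD : AG D K1) (hK : 1 ≤ K) (hK1 : 1 ≤ K1) (S : Finset (ZMod w)) (hS : ∀ ξ ∈ S, Cov D K ξ)
    (hr4 : 4 ≤ r) (t : ℕ)
    (hcard : r * 2 ^ (2 ^ (t + 1)) ≤
      (S.image (ZMod.castHom hrw (ZMod r))).card ^ (2 ^ (t + 1))) :
    ∀ z : ZMod r, ∃ ρ : ZMod w, Cov D ((K * K1) ^ (16 ^ (t + 2))) ρ ∧
      ZMod.castHom hrw (ZMod r) ρ = z := by
  classical
  have h2 : 2 ≤ (S.image (ZMod.castHom hrw (ZMod r))).card := by
    by_contra hcon
    have h1 : (S.image (ZMod.castHom hrw (ZMod r))).card ≤ 1 := by omega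
    have h3 : (S.image (ZMod.castHom hrw (ZMod r))).card ^ (2 ^ (t + 1)) ≤ 1 :=
      Nat.pow_le_one_iff (by positivity) |>.mpr h1
    have h4 : 1 ≤ 2 ^ (2 ^ (t + 1)) := Nat.one_le_two_pow
    nlinarith
  obtain ⟨S', K', hK', hKK, hS', h2', hor⟩ := growth_iter hrw D hD hK hK1 S hS hr4 h2 (t + 1)
  set T := S'.image (ZMod.castHom hrw (ZMod r)) with hT
  have hr : r ≤ 2 * T.card := by
    rcases hor with hor | hor
    · exact hor
    · have h3 : r * 2 ^ (2 ^ (t + 1)) * 2 ≤ 2 ^ (2 ^ (t + 1)) * T.card :=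
        (Nat.mul_le_mul_right 2 hcard).trans hor
      have h4 : 2 ^ (2 ^ (t + 1)) * (r * 2) ≤ 2 ^ (2 ^ (t + 1)) * T.card := by
        calc _ = _ := by ring
          _ ≤ _ := h3
      have h5 := Nat.le_of_mul_le_mul_left h4 (by positivity)
      omega
  have hTne : T.Nonempty := Finset.card_pos.mp (by omega)
  have hcd := ZMod.cauchy_davenport (Fact.out : r.Prime) hTne hTne
  have hTT : r - 1 ≤ (T + T).card := by
    refine le_trans (le_min ?_ ?_) hcd <;> omega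
  intro z
  have hinter : ¬ Disjoint (T + T) (T.image (fun a => z - a)) := by
    intro hdis
    have h3 := Finset.card_union_of_disjoint hdis
    have h4 : (T.image (fun a => z - a)).card = T.card :=
      Finset.card_image_of_injective _ sub_right_injective
    have h5 : ((T + T) ∪ T.image (fun a => z - a)).card ≤ r := by
      calc _ ≤ Fintype.card (ZMod r) := Finset.card_le_univ _
        _ = r := ZMod.card r
    omega
  obtain ⟨x, hx1, hx2⟩ := Finset.not_disjoint_iff.mp hinter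
  obtain ⟨a, ha, b, hb, hab⟩ := Finset.mem_add.mp hx1
  obtain ⟨c, hc, hcx⟩ := Finset.mem_image.mp hx2
  obtain ⟨a', ha', rfl⟩ := Finset.mem_image.mp ha
  obtain ⟨b', hb', rfl⟩ := Finset.mem_image.mp hb
  obtain ⟨c', hc', rfl⟩ := Finset.mem_image.mp hc
  refine ⟨a' + b' + c', ?_, ?_⟩
  · refine Cov.mono (Cov.add hD (Cov.add hD (hS' _ ha') (hS' _ hb')) (hS' _ hc')) ?_
    have h1 : 1 ≤ K * K1 := Nat.one_le_iff_ne_zero.mpr (by positivity)
    calc K' * K' * K1 * K' * K1 = K' ^ 3 * K1 ^ 2 := by ring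
      _ ≤ K' ^ 3 * K1 ^ 3 := Nat.mul_le_mul_left _ (Nat.pow_le_pow_right hK1 (by norm_num))
      _ = (K' * K1) ^ 3 := by ring
      _ ≤ ((K * K1) ^ (8 ^ (t + 1))) ^ 3 := Nat.pow_le_pow_left hKK 3
      _ = (K * K1) ^ (8 ^ (t + 1) * 3) := by rw [← pow_mul]
      _ ≤ (K * K1) ^ (16 ^ (t + 2)) := by
        apply Nat.pow_le_pow_right h1
        calc 8 ^ (t + 1) * 3 ≤ 16 ^ (t + 1) * 16 :=
              Nat.mul_le_mul (Nat.pow_le_pow_left (by norm_num) _) (by norm_num)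
          _ = 16 ^ (t + 2) := by ring
  · rw [map_add, map_add, hab]
    have : z - ZMod.castHom hrw (ZMod r) c' = x := hcx
    rw [← this]
    ring

end Pool.Agent.helper41.EX
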