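import Pool.Agent.helper41.EX.Fibre

/-! # EXS-NonConc: dense subsets of `A_M` meet many classes -/

namespace Pool.Agent.helper41.EX

open Finset
open scoped Pointwise

variable {P : Finset ℕ} {y0 y k Δ a0 : ℕ}

theorem NonConc_y_pos (E : Env P y0 y k Δ a0) : 1 ≤ y := by
  have h1 : 0 < P.card := by
    have := E.two_k
    have := E.k_pos
    omega
  obtain ⟨p, hp⟩ := Finset.card_pos.mp h1
  have h2 := (E.prime p hp).one_lt
  have h3 := E.le p hp
  omega

/-- distinct elements of `[1, d]` are distinct modulo `d` -/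
theorem NonConc_nc_eq {d : ℕ} {X : Finset ℤ} (h0 : ∀ x ∈ X, 0 < x) (h1 : ∀ x ∈ X, x ≤ (d : ℤ)) :
    X.card ≤ nc d X := by
  unfold nc
  rw [Finset.card_image_of_injOn]
  intro a ha b hb hab
  simp only at hab
  have ha' := h0 a ha
  have hb' := h0 b hb
  have ha'' := h1 a ha
  have hb'' := h1 b hb
  rw [ZMod.intCast_eq_intCast_iff_dvd_sub] at hab
  obtain ⟨q, hq⟩ := hab
  have hd : (0 : ℤ) < d := by omega
  have hq1 : q < 1 := by
    by_contra hc
    have : (d : ℤ) * 1 ≤ d * q := by
      apply mul_le_mul_of_nonneg_left _ hd.le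
      omega
    omega
  have hq2 : -1 < q := by
    by_contra hc
    have : (d : ℤ) * q ≤ d * (-1) := by
      apply mul_le_mul_of_nonneg_left _ hd.le
      omega
    omega
  have hq3 : q = 0 := by omega
  rw [hq3] at hq
  omega

/-- the cofactors of `v` in `V` are counted by the classes of `V` -/
theorem NonConc_fib_le {i d : ℕ} (hP : ∀ p ∈ P, p.Prime) (hle : ∀ p ∈ P, p ≤ y) {V : Finset ℤ}
    {v : ℤ} (hne : (fib P i V v).Nonempty) (hyd : y ^ i ≤ d) (hcop : CopTo V d) :
    (fib P i V v).card ≤ nc d V := by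
  have hmem : ∀ x ∈ fib P i V v, x ∈ A P i ∧ v * x ∈ V := by
    intro x hx
    simpa [fib] using hx
  have hvd : IsCoprime v (d : ℤ) := by
    obtain ⟨x, hx⟩ := hne
    exact (hcop _ (hmem x hx).2).of_mul_left_left
  calc (fib P i V v).card ≤ nc d (fib P i V v) := by
        apply NonConc_nc_eq
        · intro x hx
          exact A_pos hP (hmem x hx).1
        · intro x hx
          have h1 := A_le hle (hmem x hx).1
          have h2 : ((y : ℤ) ^ i) ≤ (d : ℤ) := by exact_mod_cast hyd
          exact h1.trans h2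
    _ = nc d ((fib P i V v).image (fun x => v * x)) := (nc_image_mul hvd _).symm
    _ ≤ nc d V := by
        apply nc_mono
        intro z hz
        rw [Finset.mem_image] at hz
        obtain ⟨x, hx, rfl⟩ := hz
        exact (hmem x hx).2

theorem nonconc (E : Env P y0 y k Δ a0) {M c d : ℕ} (hM : M ≤ k) {V : Finset ℤ}
    (hsub : V ⊆ A P M) (hdense : N P M ≤ Δ ^ c * V.card) (hd : 1 ≤ d) (hdy : d ≤ y ^ M)
    (hcop : CopTo V d) :
    d ≤ Δ ^ (a0 * (c + 1) + 1) * nc d V ^ a0 := by
  have hy1 := NonConc_y_pos E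
  -- the exponent i
  obtain ⟨i, hiM, hi1, hi2⟩ : ∃ i, i ≤ M ∧ y ^ i ≤ d ∧ d ≤ y * y ^ i := by
    refine ⟨Nat.findGreatest (fun i => y ^ i ≤ d) M, Nat.findGreatest_le M, ?_, ?_⟩
    · exact Nat.findGreatest_spec (P := fun i => y ^ i ≤ d) (Nat.zero_le M) (by simpa using hd)
    · rcases (Nat.findGreatest_le (P := fun i => y ^ i ≤ d) M).lt_or_eq with hlt | heq
      · have h := Nat.findGreatest_is_greatest (P := fun i => y ^ i ≤ d)
          (Nat.lt_succ_self _) (Nat.succ_le_of_lt hlt)
        rw [not_le, Nat.succ_eq_add_one, pow_succ, mul_comm] at h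
        exact h.le
      · rw [heq]
        calc d ≤ y ^ M := hdy
          _ = 1 * y ^ M := (one_mul _).symm
          _ ≤ y * y ^ M := Nat.mul_le_mul_right _ hy1
  obtain ⟨m, rfl⟩ : ∃ m, M = i + m := ⟨M - i, by omega⟩
  have hik : i ≤ k := by omega
  have hmk : m ≤ k := by omega
  have hNpos : 0 < N P (i + m) := E.Npos hM
  have hVpos : 0 < V.card := by
    rcases Nat.eq_zero_or_pos V.card with h | h
    · rw [h, mul_zero] at hdense
      omega
    · exact h
  have hE1 : V.card ≤ (edges P i m V).card := card_le_edges hsub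
  have hEne : (edges P i m V).Nonempty := Finset.card_pos.mp (by omega)
  have hEsub : edges P i m V ⊆ (A P i) ×ˢ (A P m) := Finset.filter_subset _ _
  obtain ⟨v, hv, hdeg, hvne⟩ := exists_deg (A P i) (A P m) (edges P i m V) hEsub hEne
  have hfc := edges_filter_snd (V := V) (j := i) hv
  rw [hfc, card_A E.prime] at hdeg
  have hfne : (fib P i V v).Nonempty := by
    rw [← Finset.card_pos, ← hfc]
    exact Finset.card_pos.mpr hvne
  have hed := edges_dense E hM hsub hdense
  have hNm : 0 < N P m := E.Npos hmk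
  have hNi : N P i ≤ Δ ^ (c + 1) * (fib P i V v).card := by
    have h1 : N P i * N P m ≤ (Δ ^ (c + 1) * (fib P i V v).card) * N P m := by
      calc N P i * N P m ≤ Δ ^ (c + 1) * (edges P i m V).card := hed
        _ ≤ Δ ^ (c + 1) * (N P m * (fib P i V v).card) := Nat.mul_le_mul_left _ hdeg
        _ = (Δ ^ (c + 1) * (fib P i V v).card) * N P m := by ring
    exact Nat.le_of_mul_le_mul_right h1 hNm
  have hnc : (fib P i V v).card ≤ nc d V := NonConc_fib_le E.prime E.le hfne hi1 hcop
  calc d ≤ y * y ^ i := hi2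
    _ ≤ Δ * N P i ^ a0 := Nat.mul_le_mul E.y_le (E.y_pow_le hik)
    _ ≤ Δ * (Δ ^ (c + 1) * nc d V) ^ a0 := by
        apply Nat.mul_le_mul_left
        apply Nat.pow_le_pow_left
        exact hNi.trans (Nat.mul_le_mul_left _ hnc)
    _ = Δ ^ (a0 * (c + 1) + 1) * nc d V ^ a0 := by
        rw [mul_pow, ← pow_mul, pow_succ]
        ring

end Pool.Agent.helper41.EX
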