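import Pool.Agent.helper41.EX.StructS
import Pool.Agent.helper41.EX.GrowthFull
import Pool.Agent.helper41.EX.NonConc

/-! # EXS-InnerG: stationary sets are nearly full modulo `r` -/

namespace Pool.Agent.helper41.EX

open Finset
open scoped Pointwise

variable {P : Finset ℕ} {y0 y k Δ a0 : ℕ}

/-- the growth hypothesis for the set of dilates -/
theorem growth_hyp (E : Env P y0 y k Δ a0) {m c r t : ℕ} (hm : m ≤ k) (hr : r.Prime)
    (hyr : y < r) (hry : r ≤ y ^ m) {X0 : Finset ℤ} (hX : X0 ⊆ A P m)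
    (hd : N P m ≤ Δ ^ (2 * c + 6) * X0.card) (ht : a0 ≤ 2 ^ t)
    (hbig : Δ ^ (2 * (a0 * (2 * c + 7) + 1) + a0) ≤ r) :
    r * 2 ^ (2 ^ (t + 1)) ≤ nc r X0 ^ (2 ^ (t + 1)) := by
  have hΔ4 : 4 ≤ Δ := E.four_le
  have hΔ0 : 0 < Δ := by omega
  have ha0 := E.a0_pos
  have hr0 : 0 < r := hr.pos
  have h1 := nonconc E hm hX hd hr0 hry (copTo_prime E.prime E.le hr hyr hX)
  set n := nc r X0 with hn
  set e1 := a0 * (2 * c + 6 + 1) + 1 with he1
  have he1' : 2 * (a0 * (2 * c + 7) + 1) + a0 = 2 * e1 + a0 := by rw [he1]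
  rw [he1'] at hbig
  have h2 : Δ ^ (2 * e1) * (r * Δ ^ a0) ≤ Δ ^ (2 * e1) * n ^ (2 * a0) := by
    calc Δ ^ (2 * e1) * (r * Δ ^ a0) = r * Δ ^ (2 * e1 + a0) := by ring
      _ ≤ r * r := Nat.mul_le_mul_left _ hbig
      _ ≤ (Δ ^ e1 * n ^ a0) * (Δ ^ e1 * n ^ a0) := Nat.mul_le_mul h1 h1
      _ = Δ ^ (2 * e1) * n ^ (2 * a0) := by ring
  have h3 := Nat.le_of_mul_le_mul_left h2 (by positivity)
  have h4 : r * 2 ^ (2 * a0) ≤ n ^ (2 * a0) := by
    refine le_trans (Nat.mul_le_mul_left _ ?_) h3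
    rw [pow_mul]
    exact Nat.pow_le_pow_left (by omega) _
  have hn2 : 2 ≤ n := by
    by_contra hcon
    have h5 : n ≤ 1 := by omega
    have h6 : n ^ (2 * a0) ≤ 1 := by
      calc n ^ (2 * a0) ≤ 1 ^ (2 * a0) := Nat.pow_le_pow_left h5 _
        _ = 1 := one_pow _
    have h7 : 2 ≤ r * 2 ^ (2 * a0) := by
      calc 2 ≤ r * 1 := by rw [mul_one]; exact hr.two_le
        _ ≤ r * 2 ^ (2 * a0) := Nat.mul_le_mul_left _ Nat.one_le_two_pow
    omega
  have hM : 2 * a0 ≤ 2 ^ (t + 1) := by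
    calc 2 * a0 ≤ 2 * 2 ^ t := Nat.mul_le_mul_left _ ht
      _ = 2 ^ (t + 1) := by ring
  obtain ⟨l, hl⟩ := Nat.exists_eq_add_of_le hM
  rw [hl, pow_add, pow_add, ← mul_assoc]
  exact Nat.mul_le_mul h4 (Nat.pow_le_pow_left hn2 _)

/-- the classes of `V'` inject into `D` -/
theorem nc_le_of_mem {w : ℕ} {V' : Finset ℤ} {D : Finset (ZMod w)} {u s : ZMod w}
    (hu : IsUnit u) (h : ∀ v ∈ V', u * (v : ZMod w) - s ∈ D) : nc w V' ≤ D.card := by
  classical
  unfold nc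
  refine card_le_card_of_injOn (fun z => u * z - s) ?_ ?_
  · intro z hz
    obtain ⟨v, hv, rfl⟩ := mem_image.mp (mem_coe.mp hz)
    exact mem_coe.mpr (h v hv)
  · intro a _ b _ hab
    have h1 : u * a - s = u * b - s := hab
    exact hu.mul_right_injective (sub_left_injective h1)

/-- the dilates `x0 / x` modulo a prime -/
theorem card_dilates {r : ℕ} [Fact r.Prime] {X0 : Finset ℤ} {x0 : ℤ}
    (hx0 : IsCoprime x0 (r : ℤ)) :
    (X0.image (fun x : ℤ => (x0 : ZMod r) * (x : ZMod r)⁻¹)).card = nc r X0 := by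
  classical
  have h1 : X0.image (fun x : ℤ => (x0 : ZMod r) * (x : ZMod r)⁻¹) =
      (X0.image (fun x : ℤ => (x : ZMod r))).image (fun z => (x0 : ZMod r) * z⁻¹) := by
    rw [image_image]
    rfl
  rw [h1]
  unfold nc
  refine card_image_of_injective _ ?_
  intro a b hab
  have h2 := (isUnit_cast hx0).mul_right_injective hab
  exact inv_injective h2

theorem innerG (E : Env P y0 y k Δ a0) {m c r : ℕ} (hm : 2 * m ≤ k) (hrp : r.Prime)
    (hyr : y < r) (hr : r ≤ y ^ m) {V : Finset ℤ} (hV : VV P Δ (2 * m) c V) (K0 : ℕ)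
    (hK01 : 1 ≤ K0) (hK0 : ∀ Y : Finset ℤ, VV P Δ m (7 * c + 7) Y → nc r V ≤ K0 * nc r Y)
    (t : ℕ) (ht : a0 ≤ 2 ^ t) (hbig : Δ ^ (2 * (a0 * (2 * c + 7) + 1) + a0) ≤ r) :
    r ≤ Δ ^ (a0 * (40 * c + 50) * 16 ^ (t + 2)) * K0 ^ (2 * a0 * 16 ^ (t + 2)) * nc r V := by
  classical
  have : Fact r.Prime := ⟨hrp⟩
  have hΔ4 : 4 ≤ Δ := E.four_le
  have hΔ0 : 0 < Δ := by omega
  have ha0 := E.a0_pos
  have hr0 : 0 < r := hrp.pos
  have hcop : CopTo V r := copTo_prime E.prime E.le hrp hyr hV.sub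
  obtain ⟨V', Y0, X0, x0, D, u, s, hV'V, hV'd, -, -, -, hx0, hX0A, hX0d, hX0c, hAG, hDcard,
    hu, hmem, hcov⟩ := structS E hm hr0 hV hcop K0 hK01 (fun Y hY _ => hK0 Y hY)
  set b := 16 ^ (t + 2) with hb
  have hb1 : 1 ≤ b := Nat.one_le_pow _ _ (by norm_num)
  set K := Δ ^ (18 * c + 18) * K0 ^ 2 with hK
  set K1 := Δ ^ (10 * c + 10) with hK1
  have hK1pos : 1 ≤ K1 := Nat.one_le_pow _ _ hΔ0
  have hKpos : 1 ≤ K := Nat.one_le_iff_ne_zero.mpr (by positivity)
  set S : Finset (ZMod r) := X0.image (fun x : ℤ => (x0 : ZMod r) * (x : ZMod r)⁻¹) with hS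
  have hScard : (S.image (ZMod.castHom (dvd_refl r) (ZMod r))).card = nc r X0 := by
    rw [ZMod.castHom_self]
    simp only [RingHom.coe_id, image_id]
    exact card_dilates hx0
  have hr4 : 4 ≤ r := by
    refine le_trans ?_ hbig
    calc 4 ≤ Δ := hΔ4
      _ = Δ ^ 1 := (pow_one _).symm
      _ ≤ Δ ^ (2 * (a0 * (2 * c + 7) + 1) + a0) := Nat.pow_le_pow_right hΔ0 (by omega)
  have hgr := growth_hyp E (by omega : m ≤ k) hrp hyr hr hX0A hX0d ht hbig
  have hfull := growthFull (dvd_refl r) D hAG hKpos hK1pos S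
    (fun ξ hξ => by
      obtain ⟨x, hx, rfl⟩ := mem_image.mp hξ
      exact hcov x hx) hr4 t (by rw [hScard]; exact hgr)
  have hall : ∀ z : ZMod r, Cov D ((K * K1) ^ b) z := by
    intro z
    obtain ⟨ρ, h1, h2⟩ := hfull z
    rw [ZMod.castHom_self] at h2
    have h3 : ρ = z := h2
    rw [← h3]
    exact h1
  obtain ⟨ξ, hξ⟩ := averaging D ⟨0, hAG.zero⟩
  have hDpos : 0 < D.card := card_pos.mpr ⟨0, hAG.zero⟩
  have hle : (D + D.image (fun s => ξ * s)).card ≤ (K * K1) ^ b * K1 * D.card :=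
    Cov.card_le hAG (hall ξ)
  have hKK : (K * K1) ^ b = Δ ^ ((28 * c + 28) * b) * K0 ^ (2 * b) := by
    rw [hK, hK1]
    have : Δ ^ (18 * c + 18) * K0 ^ 2 * Δ ^ (10 * c + 10) = Δ ^ (28 * c + 28) * K0 ^ 2 := by
      ring
    rw [this, mul_pow, ← pow_mul, ← pow_mul]
  have hVne : V.Nonempty := VV.nonempty (E.Npos hm) hV
  have hncpos : 1 ≤ nc r V := nc_pos hVne
  have h2Δ : 2 ≤ Δ := by omega
  have hbnd : 2 * ((K * K1) ^ b * K1) ≤ Δ ^ ((28 * c + 28) * b + 10 * c + 11) * K0 ^ (2 * b) := by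
    rw [hKK, hK1]
    calc 2 * (Δ ^ ((28 * c + 28) * b) * K0 ^ (2 * b) * Δ ^ (10 * c + 10))
        ≤ Δ * (Δ ^ ((28 * c + 28) * b) * K0 ^ (2 * b) * Δ ^ (10 * c + 10)) :=
          Nat.mul_le_mul_right _ h2Δ
      _ = Δ ^ ((28 * c + 28) * b + 10 * c + 11) * K0 ^ (2 * b) := by ring
  rcases le_total (D.card ^ 2) r with hcase | hcase
  · rw [min_eq_left hcase] at hξ
    have h1 : D.card * D.card ≤ 2 * ((K * K1) ^ b * K1) * D.card := by
      calc D.card * D.card = D.card ^ 2 := by ring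
        _ ≤ 2 * (D + D.image (fun s => ξ * s)).card := hξ
        _ ≤ 2 * ((K * K1) ^ b * K1 * D.card) := Nat.mul_le_mul_left _ hle
        _ = 2 * ((K * K1) ^ b * K1) * D.card := by ring
    have h2 := Nat.le_of_mul_le_mul_right h1 hDpos
    have h3 : nc r V' ≤ Δ ^ ((28 * c + 28) * b + 10 * c + 11) * K0 ^ (2 * b) :=
      le_trans (nc_le_of_mem hu hmem) (le_trans h2 hbnd)
    have hry : r ≤ y ^ (2 * m) := by
      have hy1 : 1 ≤ y := by
        rcases Nat.eq_zero_or_pos y with h | h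
        · subst h
          rcases Nat.eq_zero_or_pos m with h' | h'
          · subst h'
            simp only [pow_zero] at hr
            omega
          · rw [zero_pow (by omega)] at hr
            omega
        · exact h
      exact le_trans hr (Nat.pow_le_pow_right hy1 (by omega))
    have h4 := nonconc E hm (hV'V.trans hV.sub) hV'd hr0 hry
      (copTo_prime E.prime E.le hrp hyr (hV'V.trans hV.sub))
    have hexp : (a0 * (c + 1 + 1) + 1) + ((28 * c + 28) * b + 10 * c + 11) * a0 ≤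
        a0 * (40 * c + 50) * b := by
      have h5 : c + 2 ≤ (c + 2) * b := Nat.le_mul_of_pos_right _ hb1
      have h6 : 10 * c + 11 ≤ (10 * c + 11) * b := Nat.le_mul_of_pos_right _ hb1
      have h7 : 1 ≤ a0 * b := Nat.one_le_iff_ne_zero.mpr (by positivity)
      calc (a0 * (c + 1 + 1) + 1) + ((28 * c + 28) * b + 10 * c + 11) * a0
          = a0 * (c + 2) + 1 + a0 * ((28 * c + 28) * b) + a0 * (10 * c + 11) := by ring
        _ ≤ a0 * ((c + 2) * b) + a0 * b + a0 * ((28 * c + 28) * b) +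
            a0 * ((10 * c + 11) * b) := by
            have h8 := Nat.mul_le_mul_left a0 h5
            have h9 := Nat.mul_le_mul_left a0 h6
            omega
        _ = a0 * (39 * c + 42) * b := by ring
        _ ≤ a0 * (40 * c + 50) * b :=
            Nat.mul_le_mul_right _ (Nat.mul_le_mul_left _ (by omega))
    calc r ≤ Δ ^ (a0 * (c + 1 + 1) + 1) * nc r V' ^ a0 := h4
      _ ≤ Δ ^ (a0 * (c + 1 + 1) + 1) *
          (Δ ^ ((28 * c + 28) * b + 10 * c + 11) * K0 ^ (2 * b)) ^ a0 :=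
          Nat.mul_le_mul_left _ (Nat.pow_le_pow_left h3 _)
      _ = Δ ^ ((a0 * (c + 1 + 1) + 1) + ((28 * c + 28) * b + 10 * c + 11) * a0) *
          K0 ^ (2 * a0 * b) := by
          have h9 : 2 * b * a0 = 2 * a0 * b := by ring
          rw [mul_pow, ← pow_mul, ← pow_mul, h9, ← mul_assoc, ← pow_add]
      _ ≤ Δ ^ (a0 * (40 * c + 50) * b) * K0 ^ (2 * a0 * b) :=
          Nat.mul_le_mul_right _ (Nat.pow_le_pow_right hΔ0 hexp)
      _ ≤ Δ ^ (a0 * (40 * c + 50) * b) * K0 ^ (2 * a0 * b) * nc r V :=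
          Nat.le_mul_of_pos_right _ hncpos
  · rw [min_eq_right hcase] at hξ
    have hexp : ((28 * c + 28) * b + 10 * c + 11) + (2 * c + 2) ≤ a0 * (40 * c + 50) * b := by
      have h6 : 12 * c + 13 ≤ (12 * c + 13) * b := Nat.le_mul_of_pos_right _ hb1
      calc ((28 * c + 28) * b + 10 * c + 11) + (2 * c + 2)
          = (28 * c + 28) * b + (12 * c + 13) := by ring
        _ ≤ (28 * c + 28) * b + (12 * c + 13) * b := Nat.add_le_add_left h6 _
        _ = (40 * c + 41) * b := by ring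
        _ ≤ a0 * (40 * c + 50) * b := by
            refine Nat.mul_le_mul_right _ ?_
            calc 40 * c + 41 ≤ 1 * (40 * c + 50) := by omega
              _ ≤ a0 * (40 * c + 50) := Nat.mul_le_mul_right _ ha0
    calc r ≤ 2 * (D + D.image (fun s => ξ * s)).card := hξ
      _ ≤ 2 * ((K * K1) ^ b * K1 * D.card) := Nat.mul_le_mul_left _ hle
      _ = 2 * ((K * K1) ^ b * K1) * D.card := by ring
      _ ≤ (Δ ^ ((28 * c + 28) * b + 10 * c + 11) * K0 ^ (2 * b)) *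
          (Δ ^ (2 * c + 2) * nc r V) := Nat.mul_le_mul hbnd hDcard
      _ = Δ ^ (((28 * c + 28) * b + 10 * c + 11) + (2 * c + 2)) * K0 ^ (2 * b) * nc r V := by
          rw [pow_add Δ ((28 * c + 28) * b + 10 * c + 11) (2 * c + 2)]
          generalize Δ ^ ((28 * c + 28) * b + 10 * c + 11) = z1
          generalize Δ ^ (2 * c + 2) = z2
          ring
      _ ≤ Δ ^ (a0 * (40 * c + 50) * b) * K0 ^ (2 * a0 * b) * nc r V := by
          refine Nat.mul_le_mul_right _ (Nat.mul_le_mul (Nat.pow_le_pow_right hΔ0 hexp) ?_)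
          refine Nat.pow_le_pow_right hK01 ?_
          calc 2 * b = 1 * (2 * b) := (one_mul _).symm
            _ ≤ a0 * (2 * b) := Nat.mul_le_mul_right _ ha0
            _ = 2 * a0 * b := by ring

end Pool.Agent.helper41.EX
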