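import Pool.Agent.helper41.EX.Part
import Pool.Agent.helper41.EX.Fibre

/-! # EXS-Pig: from a set with small doubling to a set of parts with small doubling -/

namespace Pool.Agent.helper41.EX

open Finset
open scoped Pointwise

/-- `X` large -/
theorem Pig_large (ρ K C : ℝ) (hρ : 0 < ρ) : ∃ X0 : ℕ, 2 ≤ X0 ∧ ∀ X : ℕ, X0 ≤ X →
    C * ((Nat.log 2 X : ℝ) + 1) ≤ (X : ℝ) ^ ρ ∧ 4 * K ≤ (X : ℝ) ^ (ρ / 2) := by
  have h1 : ∀ᶠ x : ℝ in Filter.atTop, |C| * (Real.log x / Real.log 2 + 1) ≤ x ^ ρ := by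
    have hlog : (fun x : ℝ => |C| * (Real.log x / Real.log 2 + 1)) =o[Filter.atTop]
        (fun x : ℝ => x ^ ρ) := by
      have ha : (fun x : ℝ => Real.log x) =o[Filter.atTop] (fun x : ℝ => x ^ ρ) :=
        isLittleO_log_rpow_atTop hρ
      have hb : (fun _ : ℝ => (1 : ℝ)) =o[Filter.atTop] (fun x : ℝ => x ^ ρ) := by
        rw [Asymptotics.isLittleO_const_left]
        right
        have h0 := Filter.tendsto_abs_atTop_atTop.comp (tendsto_rpow_atTop hρ)
        simpa [Function.comp_def, Real.norm_eq_abs] using h0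
      have hc : (fun x : ℝ => Real.log x / Real.log 2 + 1) =o[Filter.atTop]
          (fun x : ℝ => x ^ ρ) := by
        refine Asymptotics.IsLittleO.add ?_ hb
        have : (fun x : ℝ => Real.log x / Real.log 2) = fun x => (Real.log 2)⁻¹ * Real.log x := by
          funext x
          rw [div_eq_mul_inv, mul_comm]
        rw [this]
        exact ha.const_mul_left _
      exact hc.const_mul_left _
    have := hlog.bound (show (0 : ℝ) < 1 by norm_num)
    filter_upwards [this, Filter.eventually_ge_atTop (1 : ℝ)] with x hx hx1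
    rw [one_mul, Real.norm_eq_abs, Real.norm_eq_abs, abs_of_nonneg (Real.rpow_nonneg (by linarith) _)] at hx
    exact (le_abs_self _).trans hx
  have h2 : ∀ᶠ x : ℝ in Filter.atTop, 4 * K ≤ x ^ (ρ / 2) :=
    (tendsto_rpow_atTop (by positivity : 0 < ρ / 2)).eventually_ge_atTop _
  have h3 := tendsto_natCast_atTop_atTop (R := ℝ) |>.eventually (h1.and h2)
  obtain ⟨X0, hX0⟩ := Filter.eventually_atTop.mp h3
  refine ⟨max X0 2, le_max_right _ _, fun X hX => ?_⟩
  have hX2 : 2 ≤ X := (le_max_right _ _).trans hX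
  obtain ⟨ha, hb⟩ := hX0 X ((le_max_left _ _).trans hX)
  refine ⟨?_, hb⟩
  refine le_trans ?_ ha
  have hl : (Nat.log 2 X : ℝ) ≤ Real.log X / Real.log 2 := by
    have := Real.natLog_le_logb X 2
    simpa [Real.logb] using this
  have hl0 : (0 : ℝ) ≤ (Nat.log 2 X : ℝ) := Nat.cast_nonneg _
  calc C * ((Nat.log 2 X : ℝ) + 1) ≤ |C| * ((Nat.log 2 X : ℝ) + 1) :=
        mul_le_mul_of_nonneg_right (le_abs_self _) (by linarith)
    _ ≤ |C| * (Real.log X / Real.log 2 + 1) :=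
        mul_le_mul_of_nonneg_left (by linarith) (abs_nonneg _)

theorem Pig_nat_of {u : ℤ} (hu : 1 ≤ u) : u.toNat ≠ 0 ∧ (u.toNat : ℤ) = u := by
  constructor
  · omega
  · exact Int.toNat_of_nonneg (by omega)

open Classical in
/-- few parts with large `G` -/
theorem Pig_image_card {X : ℕ} {ψ : ℕ → ℕ → Bool} {V : Finset ℤ} {lam B : ℝ}
    (hV : ∀ u ∈ V, 1 ≤ u ∧ u ≤ (X : ℤ) ∧ (X : ℝ) ^ (-lam) ≤ G X (part ψ u.toNat))
    (hB : (((Icc 1 X).filter (fun n => (X : ℝ) ^ (-lam) ≤ G X n)).card : ℝ) ≤ B) :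
    ((V.image (fun u : ℤ => (part ψ u.toNat : ℤ))).card : ℝ) ≤ B := by
  refine le_trans ?_ hB
  have : (V.image (fun u : ℤ => (part ψ u.toNat : ℤ))).card ≤
      ((Icc 1 X).filter (fun n => (X : ℝ) ^ (-lam) ≤ G X n)).card := by
    apply Finset.card_le_card_of_injOn (fun z : ℤ => z.toNat)
    · intro z hz
      rw [Finset.mem_coe, Finset.mem_image] at hz
      obtain ⟨u, hu, rfl⟩ := hz
      obtain ⟨h1, h2, h3⟩ := hV u hu
      have h4 := Pig_nat_of h1
      rw [Finset.mem_coe, Finset.mem_filter, Finset.mem_Icc]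
      simp only [Int.toNat_natCast]
      refine ⟨⟨part_pos _ _, ?_⟩, h3⟩
      have h5 := part_le ψ h4.1
      omega
    · intro z hz z' hz' hzz
      rw [Finset.mem_coe, Finset.mem_image] at hz hz'
      obtain ⟨u, hu, rfl⟩ := hz
      obtain ⟨u', hu', rfl⟩ := hz'
      simp only [Int.toNat_natCast] at hzz
      rw [hzz]
  exact_mod_cast this

/-- elements of a dyadic interval are distinct modulo an element of it -/
theorem Pig_nc_dyadic {d s : ℕ} (hd : 2 ^ s ≤ d) {W : Finset ℤ}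
    (hW : ∀ w ∈ W, (2 : ℤ) ^ s ≤ w ∧ w < 2 ^ (s + 1)) : W.card ≤ nc d W := by
  unfold nc
  rw [Finset.card_image_of_injOn]
  intro a ha b hb hab
  simp only at hab
  have ha' := hW a ha
  have hb' := hW b hb
  have hd' : (2 : ℤ) ^ s ≤ (d : ℤ) := by exact_mod_cast hd
  have h2 : (2 : ℤ) ^ (s + 1) = 2 ^ s + 2 ^ s := by ring
  have h2p : (0 : ℤ) < 2 ^ s := by positivity
  rw [ZMod.intCast_eq_intCast_iff_dvd_sub] at hab
  obtain ⟨q, hq⟩ := hab
  have hd : (0 : ℤ) < d := by omega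
  have hq1 : q < 1 := by
    by_contra hc
    have : (d : ℤ) * 1 ≤ d * q := by
      apply mul_le_mul_of_nonneg_left _ hd.le
      omega
    omega
  have hq2 : -1 < q := by
    by_contra hc
    have : (d : ℤ) * q ≤ d * (-1) := by
      apply mul_le_mul_of_nonneg_left _ hd.le
      omega
    omega
  have hq3 : q = 0 := by omega
  rw [hq3] at hq
  omega

/-- the tensor step -/
theorem Pig_core {φ : ℕ → ℕ → Bool} {V : Finset ℤ} {s : ℕ}
    (hne : V.Nonempty)
    (hV : ∀ u ∈ V, 1 ≤ u ∧ 2 ^ s ≤ part (cmp φ) u.toNat ∧ part (cmp φ) u.toNat < 2 ^ (s + 1))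
    {B1 B2 : ℝ}
    (hB1 : ((V.image (fun u : ℤ => (part φ u.toNat : ℤ))).card : ℝ) ≤ B1)
    (hB2 : ((V.image (fun u : ℤ => (part (cmp φ) u.toNat : ℤ))).card : ℝ) ≤ B2) :
    ∃ (V1 : Finset ℤ), V1 ⊆ V ∧
      (V.card : ℝ) ≤ 4 * B2 * ((V1.image (fun u : ℤ => (part φ u.toNat : ℤ))).card : ℝ) ∧
      ∃ w : ℕ, (V.card : ℝ) ≤ 4 * B1 * (w : ℝ) ∧
        w * ((V1.image (fun u : ℤ => (part φ u.toNat : ℤ))) -
          (V1.image (fun u : ℤ => (part φ u.toNat : ℤ)))).card ≤ (V - V + V).card := by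
  set f1 : ℤ → ℤ := fun u : ℤ => (part φ u.toNat : ℤ) with hf1
  set f2 : ℤ → ℤ := fun u : ℤ => (part (cmp φ) u.toNat : ℤ) with hf2
  have hmul : ∀ u ∈ V, f1 u * f2 u = u := by
    intro u hu
    have h := Pig_nat_of (hV u hu).1
    have h2 := part_mul_cmp φ h.1
    simp only [hf1, hf2]
    rw [← Nat.cast_mul, h2, h.2]
  set E : Finset (ℤ × ℤ) := V.image (fun u => (f1 u, f2 u)) with hE
  have hEcard : E.card = V.card := by
    apply Finset.card_image_of_injOn
    intro u hu v hv huv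
    simp only [Prod.mk.injEq] at huv
    rw [← hmul u hu, ← hmul v hv, huv.1, huv.2]
  have hEsub : E ⊆ (V.image f1) ×ˢ (V.image f2) := by
    intro e he
    rw [hE, Finset.mem_image] at he
    obtain ⟨u, hu, rfl⟩ := he
    rw [Finset.mem_product]
    exact ⟨Finset.mem_image_of_mem _ hu, Finset.mem_image_of_mem _ hu⟩
  have hEne : E.Nonempty := hne.image _
  obtain ⟨e, he, hd1, hd2⟩ := popular_edge (V.image f1) (V.image f2) E hEsub hEne
  rw [hE, Finset.mem_image] at he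
  obtain ⟨u, hu, hue⟩ := he
  have hmemE : ∀ p : ℤ × ℤ, p ∈ E → ∃ v ∈ V, f1 v = p.1 ∧ f2 v = p.2 := by
    intro p hp
    rw [hE, Finset.mem_image] at hp
    obtain ⟨v, hv, rfl⟩ := hp
    exact ⟨v, hv, rfl, rfl⟩
  -- the first set
  refine ⟨V.filter (fun v => f2 v = f2 u), Finset.filter_subset _ _, ?_, ?_⟩
  · -- the degree of the second vertex
    have h1 : (E.filter (fun p => p.2 = e.2)).card ≤
        ((V.filter (fun v => f2 v = f2 u)).image f1).card := by
      apply Finset.card_le_card_of_injOn (fun p => p.1)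
      · intro p hp
        rw [Finset.mem_coe, Finset.mem_filter] at hp
        obtain ⟨v, hv, hv1, hv2⟩ := hmemE p hp.1
        rw [Finset.mem_coe, Finset.mem_image]
        refine ⟨v, ?_, hv1⟩
        rw [Finset.mem_filter]
        refine ⟨hv, ?_⟩
        rw [hv2, hp.2, ← hue]
      · intro p hp p' hp' hpp
        rw [Finset.mem_coe, Finset.mem_filter] at hp hp'
        exact Prod.ext hpp (hp.2.trans hp'.2.symm)
    rw [← hEcard]
    have h2 : (E.card : ℝ) ≤ 4 * ((V.image f2).card : ℝ) *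
        ((E.filter (fun p => p.2 = e.2)).card : ℝ) := by exact_mod_cast hd2
    refine h2.trans ?_
    have h3 : ((E.filter (fun p => p.2 = e.2)).card : ℝ) ≤
        (((V.filter (fun v => f2 v = f2 u)).image f1).card : ℝ) := by exact_mod_cast h1
    have h4 : (0 : ℝ) ≤ ((E.filter (fun p => p.2 = e.2)).card : ℝ) := Nat.cast_nonneg _
    have h5 : (0 : ℝ) ≤ B2 := le_trans (Nat.cast_nonneg _) hB2
    apply mul_le_mul _ h3 h4 (by linarith)
    linarith
  · -- the cofactors of `f1 u`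
    set W : Finset ℤ := (E.filter (fun p => p.1 = e.1)).image (fun p => p.2) with hW
    have hWcard : W.card = (E.filter (fun p => p.1 = e.1)).card := by
      apply Finset.card_image_of_injOn
      intro p hp p' hp' hpp
      rw [Finset.mem_coe, Finset.mem_filter] at hp hp'
      exact Prod.ext (hp.2.trans hp'.2.symm) hpp
    have hWmem : ∀ w ∈ W, ∃ v ∈ V, f1 v = f1 u ∧ f2 v = w := by
      intro w hw
      rw [hW, Finset.mem_image] at hw
      obtain ⟨p, hp, rfl⟩ := hw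
      rw [Finset.mem_filter] at hp
      obtain ⟨v, hv, hv1, hv2⟩ := hmemE p hp.1
      refine ⟨v, hv, ?_, hv2⟩
      rw [hv1, hp.2, ← hue]
    refine ⟨W.card, ?_, ?_⟩
    · rw [← hEcard, hWcard]
      have h2 : (E.card : ℝ) ≤ 4 * ((V.image f1).card : ℝ) *
          ((E.filter (fun p => p.1 = e.1)).card : ℝ) := by exact_mod_cast hd1
      refine h2.trans ?_
      apply mul_le_mul_of_nonneg_right _ (Nat.cast_nonneg _)
      linarith
    · set d : ℕ := part (cmp φ) u.toNat with hd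
      have hd1' : 1 ≤ d := part_pos _ _
      have hcop : IsCoprime (f1 u) (d : ℤ) := by
        have := part_coprime φ u.toNat
        exact Nat.isCoprime_iff_coprime.mpr this
      have hnc : W.card ≤ nc d V := by
        calc W.card ≤ nc d W := by
              apply Pig_nc_dyadic (hV u hu).2.1
              intro w hw
              obtain ⟨v, hv, hv1, rfl⟩ := hWmem w hw
              have := (hV v hv).2
              simp only [hf2]
              constructor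
              · exact_mod_cast this.1
              · exact_mod_cast this.2
          _ = nc d (W.image (fun w => f1 u * w)) := (nc_image_mul hcop _).symm
          _ ≤ nc d V := by
              apply nc_mono
              intro z hz
              rw [Finset.mem_image] at hz
              obtain ⟨w, hw, rfl⟩ := hz
              obtain ⟨v, hv, hv1, rfl⟩ := hWmem w hw
              rw [← hv1, hmul v hv]
              exact hv
      set Q : Finset ℤ := (V.filter (fun v => f2 v = f2 u)).image f1 with hQ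
      calc W.card * (Q - Q).card ≤ nc d V * (Q - Q).card := Nat.mul_le_mul_right _ hnc
        _ ≤ ((Q - Q).image (fun t => (d : ℤ) * t) + V).card := classes_mul hd1' _ _
        _ ≤ (V - V + V).card := by
            apply Finset.card_le_card
            apply Finset.add_subset_add_right
            intro z hz
            rw [Finset.mem_image] at hz
            obtain ⟨t, ht, rfl⟩ := hz
            rw [Finset.mem_sub] at ht
            obtain ⟨q, hq, q', hq', rfl⟩ := ht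
            rw [hQ, Finset.mem_image] at hq hq'
            obtain ⟨v, hv, rfl⟩ := hq
            obtain ⟨v', hv', rfl⟩ := hq'
            rw [Finset.mem_filter] at hv hv'
            rw [Finset.mem_sub]
            refine ⟨v, hv.1, v', hv'.1, ?_⟩
            have e1 := hmul v hv.1
            have e2 := hmul v' hv'.1
            rw [hv.2] at e1
            rw [hv'.2] at e2
            have e3 : f2 u = (d : ℤ) := rfl
            rw [e3] at e1 e2
            calc v - v' = f1 v * d - f1 v' * d := by rw [e1, e2]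
              _ = (d : ℤ) * (f1 v - f1 v') := by ring

theorem exists_Q (θ ρ c : ℝ) (hθ : 0 < θ) (hθ1 : θ ≤ 2) (hρ : 0 < ρ) (hc : 0 < c) :
    ∃ X0 : ℕ, ∀ X : ℕ, X0 ≤ X → ∀ (φ : ℕ → ℕ → Bool) (U : Finset ℤ),
      (∀ u ∈ U, 1 ≤ u ∧ u ≤ (X : ℤ) ∧ (X : ℝ) ^ (-(θ / 3) - ρ) ≤ G X u.toNat ∧
        G X (part φ u.toNat) ≤ (X : ℝ) ^ (-c)) →
      (X : ℝ) ^ (θ / 3 - 2 * ρ) ≤ (U.card : ℝ) → ((U - U).card : ℝ) ≤ (X : ℝ) ^ (θ / 3 + ρ) →
      ∃ τ : ℝ, c ≤ τ ∧ ∃ Q : Finset ℤ,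
        (∀ q ∈ Q, ∃ n : ℕ, 1 ≤ n ∧ n ≤ X ∧ q = (part φ n : ℤ) ∧
          (X : ℝ) ^ (-τ - ρ) ≤ G X (part φ n) ∧ G X (part φ n) ≤ (X : ℝ) ^ (-τ)) ∧
        (X : ℝ) ^ (τ - 5 * ρ) ≤ (Q.card : ℝ) ∧ ((Q - Q).card : ℝ) ≤ (X : ℝ) ^ (τ + 14 * ρ) := by
  obtain ⟨K, hK1, hK⟩ := count_G (ρ / 2) (by positivity)
  obtain ⟨X0, hX02, hX0⟩ := Pig_large ρ K ((⌊1 / ρ⌋₊ : ℝ) + 1) hρ
  refine ⟨X0, fun X hX φ U hU hcard hdiff => ?_⟩
  have hX2 : 2 ≤ X := hX02.trans hX
  have hX1 : 1 ≤ X := by omega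
  obtain ⟨hlarge1, hlarge2⟩ := hX0 X hX
  have hx1 : (1 : ℝ) < (X : ℝ) := by exact_mod_cast hX2
  have hx0 : (0 : ℝ) < (X : ℝ) := by linarith
  -- the exponent of the first part
  set g : ℤ → ℝ := fun u => -Real.logb X (G X (part φ u.toNat)) with hg
  have hGpos : ∀ n, 0 < G X n := fun n => G_pos hX1 n
  have hgc : ∀ u ∈ U, c ≤ g u := by
    intro u hu
    have h1 := (hU u hu).2.2.2
    have h2 := (Real.logb_le_iff_le_rpow hx1 (hGpos _)).mpr h1
    simp only [hg]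
    linarith
  have hg1 : ∀ u ∈ U, g u ≤ 1 := by
    intro u hu
    obtain ⟨h1, h2, -, -⟩ := hU u hu
    have h3 := Pig_nat_of h1
    have h4 := part_le φ h3.1
    have h5 : part φ u.toNat ≠ 0 := (part_pos φ _).ne'
    have h6 := inv_le_G hX1 h5
    have h7 : (part φ u.toNat : ℝ) ≤ (X : ℝ) := by
      have : part φ u.toNat ≤ X := by omega
      exact_mod_cast this
    have h8 : (0 : ℝ) < (part φ u.toNat : ℝ) := by exact_mod_cast part_pos φ _
    have h9 : (X : ℝ) ^ (-1 : ℝ) ≤ G X (part φ u.toNat) := by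
      rw [Real.rpow_neg_one]
      exact (inv_anti₀ h8 h7).trans h6
    have h10 := (Real.le_logb_iff_rpow_le hx1 (hGpos _)).mpr h9
    simp only [hg]
    linarith
  set ci : ℤ → ℕ := fun u => ⌊(g u - c) / ρ⌋₊ with hci
  set cs : ℤ → ℕ := fun u => Nat.log 2 (part (cmp φ) u.toNat) with hcs
  set t : Finset (ℕ × ℕ) := (Finset.range (⌊1 / ρ⌋₊ + 1)) ×ˢ (Finset.range (Nat.log 2 X + 1))
    with ht
  have hmaps : ∀ u ∈ U, (ci u, cs u) ∈ t := by
    intro u hu
    rw [ht, Finset.mem_product, Finset.mem_range, Finset.mem_range]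
    constructor
    · have h1 : (g u - c) / ρ ≤ 1 / ρ := by
        apply div_le_div_of_nonneg_right _ hρ.le
        linarith [hg1 u hu]
      have h2 := Nat.floor_le_floor h1
      simp only [hci]
      omega
    · obtain ⟨h1, h2, -, -⟩ := hU u hu
      have h3 := Pig_nat_of h1
      have h4 := part_le (cmp φ) h3.1
      have h5 : part (cmp φ) u.toNat ≤ X := by omega
      have h6 := Nat.log_mono_right (b := 2) h5
      simp only [hcs]
      omega
  have htne : t.Nonempty := ⟨(0, 0), by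
    rw [ht, Finset.mem_product, Finset.mem_range, Finset.mem_range]
    exact ⟨Nat.succ_pos _, Nat.succ_pos _⟩⟩
  have htcard : (t.card : ℝ) ≤ (X : ℝ) ^ ρ := by
    rw [ht, Finset.card_product, Finset.card_range, Finset.card_range]
    push_cast
    exact hlarge1
  have htpos : (0 : ℝ) < (t.card : ℝ) := by exact_mod_cast Finset.card_pos.mpr htne
  obtain ⟨cell, hcell, hfib⟩ := Finset.exists_le_card_fiber_of_nsmul_le_card_of_maps_to
    (s := U) (t := t) (f := fun u => (ci u, cs u)) (b := (U.card : ℝ) / (t.card : ℝ)) hmaps htne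
    (by rw [nsmul_eq_mul, mul_div_cancel₀ _ htpos.ne'])
  set V : Finset ℤ := U.filter (fun u => (ci u, cs u) = cell) with hVdef
  have hVU : V ⊆ U := Finset.filter_subset _ _
  have hVcard : (X : ℝ) ^ (θ / 3 - 3 * ρ) ≤ (V.card : ℝ) := by
    refine le_trans ?_ hfib
    rw [le_div_iff₀ htpos]
    calc (X : ℝ) ^ (θ / 3 - 3 * ρ) * (t.card : ℝ)
        ≤ (X : ℝ) ^ (θ / 3 - 3 * ρ) * (X : ℝ) ^ ρ :=
          mul_le_mul_of_nonneg_left htcard (Real.rpow_nonneg hx0.le _)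
      _ = (X : ℝ) ^ (θ / 3 - 2 * ρ) := by
          rw [← Real.rpow_add hx0]
          congr 1
          ring
      _ ≤ (U.card : ℝ) := hcard
  have hVpos : (0 : ℝ) < (V.card : ℝ) := lt_of_lt_of_le (Real.rpow_pos_of_pos hx0 _) hVcard
  have hVne : V.Nonempty := by
    rw [← Finset.card_pos]
    exact_mod_cast hVpos
  set τ : ℝ := c + cell.1 * ρ with hτ
  have hτc : c ≤ τ := by
    have : (0 : ℝ) ≤ cell.1 * ρ := by positivity
    linarith
  have hVmem : ∀ u ∈ V, u ∈ U ∧ ci u = cell.1 ∧ cs u = cell.2 := by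
    intro u hu
    rw [hVdef, Finset.mem_filter] at hu
    obtain ⟨hu1, hu2⟩ := hu
    rw [← hu2]
    exact ⟨hu1, rfl, rfl⟩
  have hG1 : ∀ u ∈ V, (X : ℝ) ^ (-τ - ρ) ≤ G X (part φ u.toNat) ∧
      G X (part φ u.toNat) ≤ (X : ℝ) ^ (-τ) := by
    intro u hu
    obtain ⟨huU, hi, -⟩ := hVmem u hu
    have h0 : 0 ≤ (g u - c) / ρ := div_nonneg (by linarith [hgc u huU]) hρ.le
    have h1 := Nat.floor_le h0
    have h2 := Nat.lt_floor_add_one ((g u - c) / ρ)
    have h3 : (⌊(g u - c) / ρ⌋₊ : ℝ) = (cell.1 : ℝ) := by exact_mod_cast hi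
    rw [h3] at h1 h2
    rw [le_div_iff₀ hρ] at h1
    rw [div_lt_iff₀ hρ] at h2
    constructor
    · rw [← Real.le_logb_iff_rpow_le hx1 (hGpos _)]
      have : g u = -Real.logb X (G X (part φ u.toNat)) := rfl
      rw [hτ]
      nlinarith
    · rw [← Real.logb_le_iff_le_rpow hx1 (hGpos _)]
      have : g u = -Real.logb X (G X (part φ u.toNat)) := rfl
      rw [hτ]
      nlinarith
  have hG2 : ∀ u ∈ V, (X : ℝ) ^ (-(θ / 3 + ρ - τ)) ≤ G X (part (cmp φ) u.toNat) := by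
    intro u hu
    obtain ⟨huU, -, -⟩ := hVmem u hu
    obtain ⟨h1, h2, h3, -⟩ := hU u huU
    have h4 := Pig_nat_of h1
    have h5 := G_part_mul X φ h4.1
    have h6 := (hG1 u hu).2
    have h7 : 0 < G X (part (cmp φ) u.toNat) := hGpos _
    have h8 : (X : ℝ) ^ (-(θ / 3) - ρ) ≤ (X : ℝ) ^ (-τ) * G X (part (cmp φ) u.toNat) := by
      refine h3.trans ?_
      rw [h5]
      exact mul_le_mul_of_nonneg_right h6 h7.le
    have h9 : (X : ℝ) ^ (-(θ / 3 + ρ - τ)) = (X : ℝ) ^ (-(θ / 3) - ρ) * (X : ℝ) ^ τ := by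
      rw [← Real.rpow_add hx0]
      congr 1
      ring
    rw [h9]
    calc (X : ℝ) ^ (-(θ / 3) - ρ) * (X : ℝ) ^ τ
        ≤ ((X : ℝ) ^ (-τ) * G X (part (cmp φ) u.toNat)) * (X : ℝ) ^ τ :=
          mul_le_mul_of_nonneg_right h8 (Real.rpow_nonneg hx0.le _)
      _ = ((X : ℝ) ^ (-τ) * (X : ℝ) ^ τ) * G X (part (cmp φ) u.toNat) := by ring
      _ = G X (part (cmp φ) u.toNat) := by
          rw [← Real.rpow_add hx0, neg_add_cancel, Real.rpow_zero, one_mul]
  have hB1 : ((V.image (fun u : ℤ => (part φ u.toNat : ℤ))).card : ℝ) ≤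
      K * (X : ℝ) ^ (τ + ρ + ρ / 2) := by
    apply Pig_image_card (X := X) (lam := τ + ρ)
    · intro u hu
      obtain ⟨h1, h2, -, -⟩ := hU u (hVU hu)
      refine ⟨h1, h2, ?_⟩
      have := (hG1 u hu).1
      rwa [show -(τ + ρ) = -τ - ρ by ring]
    · exact hK X hX1 _
  have hB2 : ((V.image (fun u : ℤ => (part (cmp φ) u.toNat : ℤ))).card : ℝ) ≤
      K * (X : ℝ) ^ (θ / 3 + ρ - τ + ρ / 2) := by
    apply Pig_image_card (X := X) (lam := θ / 3 + ρ - τ)
    · intro u hu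
      obtain ⟨h1, h2, -, -⟩ := hU u (hVU hu)
      exact ⟨h1, h2, hG2 u hu⟩
    · exact hK X hX1 _
  have hs : ∀ u ∈ V, 1 ≤ u ∧ 2 ^ cell.2 ≤ part (cmp φ) u.toNat ∧
      part (cmp φ) u.toNat < 2 ^ (cell.2 + 1) := by
    intro u hu
    obtain ⟨huU, -, hcs'⟩ := hVmem u hu
    refine ⟨(hU u huU).1, ?_, ?_⟩
    · rw [← hcs']
      exact Nat.pow_log_le_self 2 (part_pos _ _).ne'
    · rw [← hcs']
      exact Nat.lt_pow_succ_log_self (by norm_num) _
  obtain ⟨V1, hV1, hQ1, w, hw1, hw2⟩ := Pig_core hVne hs hB1 hB2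
  set Q : Finset ℤ := V1.image (fun u : ℤ => (part φ u.toNat : ℤ)) with hQdef
  refine ⟨τ, hτc, Q, ?_, ?_, ?_⟩
  · intro q hq
    rw [hQdef, Finset.mem_image] at hq
    obtain ⟨u, hu, rfl⟩ := hq
    have hu' := hV1 hu
    obtain ⟨h1, h2, -, -⟩ := hU u (hVU hu')
    exact ⟨u.toNat, by omega, by omega, rfl, (hG1 u hu').1, (hG1 u hu').2⟩
  · have h1 : (X : ℝ) ^ (θ / 3 - 3 * ρ) ≤ (X : ℝ) ^ (θ / 3 - τ + 2 * ρ) * (Q.card : ℝ) := by
      refine hVcard.trans (hQ1.trans ?_)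
      apply mul_le_mul_of_nonneg_right _ (Nat.cast_nonneg _)
      calc 4 * (K * (X : ℝ) ^ (θ / 3 + ρ - τ + ρ / 2))
          = (4 * K) * (X : ℝ) ^ (θ / 3 + ρ - τ + ρ / 2) := by ring
        _ ≤ (X : ℝ) ^ (ρ / 2) * (X : ℝ) ^ (θ / 3 + ρ - τ + ρ / 2) :=
            mul_le_mul_of_nonneg_right hlarge2 (Real.rpow_nonneg hx0.le _)
        _ = (X : ℝ) ^ (θ / 3 - τ + 2 * ρ) := by
            rw [← Real.rpow_add hx0]
            congr 1
            ring
    have h2 : (X : ℝ) ^ (τ - 5 * ρ) =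
        (X : ℝ) ^ (-(θ / 3 - τ + 2 * ρ)) * (X : ℝ) ^ (θ / 3 - 3 * ρ) := by
      rw [← Real.rpow_add hx0]
      congr 1
      ring
    rw [h2]
    calc (X : ℝ) ^ (-(θ / 3 - τ + 2 * ρ)) * (X : ℝ) ^ (θ / 3 - 3 * ρ)
        ≤ (X : ℝ) ^ (-(θ / 3 - τ + 2 * ρ)) *
          ((X : ℝ) ^ (θ / 3 - τ + 2 * ρ) * (Q.card : ℝ)) :=
          mul_le_mul_of_nonneg_left h1 (Real.rpow_nonneg hx0.le _)
      _ = ((X : ℝ) ^ (-(θ / 3 - τ + 2 * ρ)) * (X : ℝ) ^ (θ / 3 - τ + 2 * ρ)) * (Q.card : ℝ) := by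
          ring
      _ = (Q.card : ℝ) := by
          rw [← Real.rpow_add hx0, neg_add_cancel, Real.rpow_zero, one_mul]
  · -- lower bound for `w`
    have hw3 : (X : ℝ) ^ (θ / 3 - τ - 5 * ρ) ≤ (w : ℝ) := by
      have h1 : (X : ℝ) ^ (θ / 3 - 3 * ρ) ≤ (X : ℝ) ^ (τ + 2 * ρ) * (w : ℝ) := by
        refine hVcard.trans (hw1.trans ?_)
        apply mul_le_mul_of_nonneg_right _ (Nat.cast_nonneg _)
        calc 4 * (K * (X : ℝ) ^ (τ + ρ + ρ / 2))
            = (4 * K) * (X : ℝ) ^ (τ + ρ + ρ / 2) := by ring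
          _ ≤ (X : ℝ) ^ (ρ / 2) * (X : ℝ) ^ (τ + ρ + ρ / 2) :=
              mul_le_mul_of_nonneg_right hlarge2 (Real.rpow_nonneg hx0.le _)
          _ = (X : ℝ) ^ (τ + 2 * ρ) := by
              rw [← Real.rpow_add hx0]
              congr 1
              ring
      have h2 : (X : ℝ) ^ (θ / 3 - τ - 5 * ρ) =
          (X : ℝ) ^ (-(τ + 2 * ρ)) * (X : ℝ) ^ (θ / 3 - 3 * ρ) := by
        rw [← Real.rpow_add hx0]
        congr 1
        ring
      rw [h2]
      calc (X : ℝ) ^ (-(τ + 2 * ρ)) * (X : ℝ) ^ (θ / 3 - 3 * ρ)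
          ≤ (X : ℝ) ^ (-(τ + 2 * ρ)) * ((X : ℝ) ^ (τ + 2 * ρ) * (w : ℝ)) :=
            mul_le_mul_of_nonneg_left h1 (Real.rpow_nonneg hx0.le _)
        _ = ((X : ℝ) ^ (-(τ + 2 * ρ)) * (X : ℝ) ^ (τ + 2 * ρ)) * (w : ℝ) := by ring
        _ = (w : ℝ) := by
            rw [← Real.rpow_add hx0, neg_add_cancel, Real.rpow_zero, one_mul]
    -- Plunnecke
    have hVV : ((V - V).card : ℝ) ≤ (X : ℝ) ^ (θ / 3 + ρ) := by
      refine le_trans ?_ hdiff
      exact_mod_cast Finset.card_le_card (Finset.sub_subset_sub hVU hVU)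
    have hpl : ((V - V + V).card : ℝ) * (V.card : ℝ) ^ 2 ≤ ((V - V).card : ℝ) ^ 3 := by
      exact_mod_cast plun V
    have h3 : ((V - V + V).card : ℝ) ≤ (X : ℝ) ^ (θ / 3 + 9 * ρ) := by
      have h4 : ((V - V + V).card : ℝ) * ((X : ℝ) ^ (θ / 3 - 3 * ρ)) ^ 2 ≤
          ((X : ℝ) ^ (θ / 3 + ρ)) ^ 3 := by
        calc ((V - V + V).card : ℝ) * ((X : ℝ) ^ (θ / 3 - 3 * ρ)) ^ 2
            ≤ ((V - V + V).card : ℝ) * (V.card : ℝ) ^ 2 := by
              apply mul_le_mul_of_nonneg_left _ (Nat.cast_nonneg _)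
              exact pow_le_pow_left₀ (Real.rpow_nonneg hx0.le _) hVcard 2
          _ ≤ ((V - V).card : ℝ) ^ 3 := hpl
          _ ≤ ((X : ℝ) ^ (θ / 3 + ρ)) ^ 3 := pow_le_pow_left₀ (Nat.cast_nonneg _) hVV 3
      have h5 : ((X : ℝ) ^ (θ / 3 - 3 * ρ)) ^ 2 = (X : ℝ) ^ (2 * (θ / 3 - 3 * ρ)) := by
        rw [← Real.rpow_natCast, ← Real.rpow_mul hx0.le]
        congr 1
        push_cast
        ring
      have h6 : ((X : ℝ) ^ (θ / 3 + ρ)) ^ 3 =
          (X : ℝ) ^ (θ / 3 + 9 * ρ) * (X : ℝ) ^ (2 * (θ / 3 - 3 * ρ)) := by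
        rw [← Real.rpow_natCast, ← Real.rpow_mul hx0.le, ← Real.rpow_add hx0]
        congr 1
        push_cast
        ring
      rw [h5, h6] at h4
      exact le_of_mul_le_mul_right h4 (Real.rpow_pos_of_pos hx0 _)
    have h7 : (w : ℝ) * ((Q - Q).card : ℝ) ≤ ((V - V + V).card : ℝ) := by exact_mod_cast hw2
    have h8 : (X : ℝ) ^ (θ / 3 - τ - 5 * ρ) * ((Q - Q).card : ℝ) ≤
        (X : ℝ) ^ (θ / 3 - τ - 5 * ρ) * (X : ℝ) ^ (τ + 14 * ρ) := by
      calc (X : ℝ) ^ (θ / 3 - τ - 5 * ρ) * ((Q - Q).card : ℝ)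
          ≤ (w : ℝ) * ((Q - Q).card : ℝ) := mul_le_mul_of_nonneg_right hw3 (Nat.cast_nonneg _)
        _ ≤ (X : ℝ) ^ (θ / 3 + 9 * ρ) := h7.trans h3
        _ = (X : ℝ) ^ (θ / 3 - τ - 5 * ρ) * (X : ℝ) ^ (τ + 14 * ρ) := by
            rw [← Real.rpow_add hx0]
            congr 1
            ring
    exact le_of_mul_le_mul_left h8 (Real.rpow_pos_of_pos hx0 _)

end Pool.Agent.helper41.EX
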