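import Pool.Agent.helper41.EX.Defs2

/-! # EXS-Pow: sets of `j`-th powers have many differences -/

namespace Pool.Agent.helper41.EX

open Finset
open scoped Pointwise

/-- the divisor bound -/
theorem Pow_div (η : ℝ) (hη : 0 < η) : ∃ K : ℝ, 1 ≤ K ∧ ∀ n : ℕ, 1 ≤ n →
    (n.divisors.card : ℝ) ≤ K * (n : ℝ) ^ η := by
  set C : ℝ := 1 + 1 / (η * Real.log 2) with hC
  have hl2 : 0 < Real.log 2 := Real.log_pos (by norm_num)
  have hC1 : 1 ≤ C := by
    have : 0 < 1 / (η * Real.log 2) := by positivity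
    linarith
  set P0 : ℕ := ⌈(2 : ℝ) ^ (1 / η)⌉₊ with hP0
  refine ⟨C ^ P0, one_le_pow₀ hC1, ?_⟩
  intro n hn
  have hn0 : n ≠ 0 := by omega
  have key : ∀ p e : ℕ, p.Prime → ((e : ℝ) + 1) ≤ (if p < P0 then C else 1) * ((p : ℝ) ^ e) ^ η := by
    intro p e hp
    have hp2 : (2 : ℝ) ≤ p := by exact_mod_cast hp.two_le
    have hp0 : (0 : ℝ) < p := by linarith
    by_cases h : p < P0
    · rw [if_pos h]
      have h1 : (2 : ℝ) ^ (e * η) ≤ ((p : ℝ) ^ e) ^ η := by
        rw [← Real.rpow_natCast (p : ℝ) e, ← Real.rpow_mul hp0.le]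
        exact Real.rpow_le_rpow (by norm_num) hp2 (by positivity)
      have h2 : 1 + e * η * Real.log 2 ≤ (2 : ℝ) ^ (e * η) := by
        rw [Real.rpow_def_of_pos (by norm_num)]
        have := Real.add_one_le_exp (Real.log 2 * (e * η))
        linarith
      have h3 : (e : ℝ) + 1 ≤ C * (1 + e * η * Real.log 2) := by
        rw [hC]
        have e1 : (1 + 1 / (η * Real.log 2)) * (1 + e * η * Real.log 2) =
            1 + e * η * Real.log 2 + 1 / (η * Real.log 2) + e := by
          field_simp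
          ring
        rw [e1]
        have : 0 ≤ (e : ℝ) * η * Real.log 2 := by positivity
        have : 0 < 1 / (η * Real.log 2) := by positivity
        linarith
      calc (e : ℝ) + 1 ≤ C * (1 + e * η * Real.log 2) := h3
        _ ≤ C * ((p : ℝ) ^ e) ^ η := by
            apply mul_le_mul_of_nonneg_left _ (by linarith)
            linarith
    · rw [if_neg h, one_mul]
      have h1 : (2 : ℝ) ^ (1 / η) ≤ p := by
        have := Nat.le_ceil ((2 : ℝ) ^ (1 / η))
        have h2 : (P0 : ℝ) ≤ p := by exact_mod_cast not_lt.mp h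
        linarith
      have h2 : (2 : ℝ) ≤ (p : ℝ) ^ η := by
        calc (2 : ℝ) = ((2 : ℝ) ^ (1 / η)) ^ η := by
              rw [← Real.rpow_mul (by norm_num)]
              field_simp
              simp
          _ ≤ _ := Real.rpow_le_rpow (by positivity) h1 hη.le
      have h3 : ((p : ℝ) ^ e) ^ η = ((p : ℝ) ^ η) ^ e := by
        rw [← Real.rpow_natCast (p : ℝ) e, ← Real.rpow_natCast ((p : ℝ) ^ η) e,
          ← Real.rpow_mul hp0.le, ← Real.rpow_mul hp0.le, mul_comm]
      rw [h3]
      have h4 : ((e : ℝ) + 1) ≤ (2 : ℝ) ^ e := by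
        have : e + 1 ≤ 2 ^ e := Nat.lt_two_pow_self
        exact_mod_cast this
      calc ((e : ℝ) + 1) ≤ (2 : ℝ) ^ e := h4
        _ ≤ ((p : ℝ) ^ η) ^ e := pow_le_pow_left₀ (by norm_num) h2 e
  have h1 : (n.divisors.card : ℝ) = ∏ p ∈ n.primeFactors, ((n.factorization p : ℝ) + 1) := by
    rw [Nat.card_divisors hn0]
    push_cast
    rfl
  have h2 : (n : ℝ) ^ η = ∏ p ∈ n.primeFactors, (((p : ℝ) ^ n.factorization p)) ^ η := by
    have h3 : (n : ℝ) = ∏ p ∈ n.primeFactors, ((p : ℝ) ^ n.factorization p) := by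
      have := Nat.prod_factorization_pow_eq_self hn0
      rw [Finsupp.prod, Nat.support_factorization] at this
      conv_lhs => rw [← this]
      push_cast
      rfl
    conv_lhs => rw [h3]
    rw [← Real.finsetProd_rpow _ _ (fun p _ => by positivity)]
  rw [h1, h2]
  calc ∏ p ∈ n.primeFactors, ((n.factorization p : ℝ) + 1) ≤
      ∏ p ∈ n.primeFactors, ((if p < P0 then C else 1) * ((p : ℝ) ^ n.factorization p) ^ η) := by
        apply Finset.prod_le_prod
        · intro p _
          positivity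
        · intro p hp
          exact key p _ (Nat.prime_of_mem_primeFactors hp)
    _ = (∏ p ∈ n.primeFactors, (if p < P0 then C else 1)) *
        ∏ p ∈ n.primeFactors, ((p : ℝ) ^ n.factorization p) ^ η := Finset.prod_mul_distrib
    _ ≤ C ^ P0 * ∏ p ∈ n.primeFactors, ((p : ℝ) ^ n.factorization p) ^ η := by
        apply mul_le_mul_of_nonneg_right
        · rw [Finset.prod_ite, Finset.prod_const_one, mul_one, Finset.prod_const]
          apply pow_le_pow_right₀ hC1
          calc (n.primeFactors.filter (fun p => p < P0)).card ≤ (Finset.range P0).card := by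
                apply Finset.card_le_card
                intro p hp
                exact Finset.mem_range.mpr (Finset.mem_filter.mp hp).2
            _ = P0 := Finset.card_range _
        · apply Finset.prod_nonneg
          intro p _
          positivity

/-- strict monotonicity of the differences of `j`-th powers -/
theorem Pow_mono {j : ℕ} (hj : 2 ≤ j) {D z1 z2 : ℤ} (hD : 0 < D) (hz : 0 ≤ z1) (h : z1 < z2) :
    (z1 + D) ^ j - z1 ^ j < (z2 + D) ^ j - z2 ^ j := by
  have h1 := geom_sum₂_mul (z1 + D) z1 j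
  have h2 := geom_sum₂_mul (z2 + D) z2 j
  rw [← h1, ← h2]
  have e1 : z1 + D - z1 = D := by ring
  have e2 : z2 + D - z2 = D := by ring
  rw [e1, e2]
  apply mul_lt_mul_of_pos_right _ hD
  apply Finset.sum_lt_sum
  · intro i _
    apply mul_le_mul
    · exact pow_le_pow_left₀ (by linarith) (by linarith) _
    · exact pow_le_pow_left₀ hz h.le _
    · exact pow_nonneg hz _
    · exact pow_nonneg (by linarith) _
  · refine ⟨j - 1, Finset.mem_range.mpr (by omega), ?_⟩
    have e3 : j - 1 - (j - 1) = 0 := by omega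
    rw [e3, pow_zero, pow_zero, mul_one, mul_one]
    exact pow_lt_pow_left₀ (by linarith) (by linarith) (by omega)

theorem Pow_inj {j : ℕ} (hj : 2 ≤ j) {D z1 z2 : ℤ} (hD : 0 < D) (hz1 : 0 ≤ z1) (hz2 : 0 ≤ z2)
    (h : (z1 + D) ^ j - z1 ^ j = (z2 + D) ^ j - z2 ^ j) : z1 = z2 := by
  rcases lt_trichotomy z1 z2 with h1 | h1 | h1
  · have := Pow_mono hj hD hz1 h1
    omega
  · exact h1
  · have := Pow_mono hj hD hz2 h1
    omega

/-- few representations of a non-zero integer -/
theorem Pow_rep {j : ℕ} (hj : 2 ≤ j) (S : Finset (ℤ × ℤ)) (N : ℤ) (hN : N ≠ 0)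
    (hS : ∀ s ∈ S, ∃ x z : ℤ, 1 ≤ x ∧ 1 ≤ z ∧ s = (x ^ j, z ^ j) ∧ x ^ j - z ^ j = N) :
    S.card ≤ N.natAbs.divisors.card := by
  classical
  choose! x z hx hz hs hN' using hS
  apply Finset.card_le_card_of_injOn (fun s => (x s - z s).natAbs)
  · intro s hs'
    have hs0 : s ∈ S := hs'
    simp only [Finset.mem_coe, Nat.mem_divisors]
    refine ⟨?_, by simpa using hN⟩
    rw [Int.natAbs_dvd_natAbs, ← hN' s hs0]
    exact sub_dvd_pow_sub_pow _ _ _
  · intro s hs' t ht' hst
    have hs0 : s ∈ S := hs'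
    have ht0 : t ∈ S := ht'
    simp only at hst
    have a1 := hN' s hs0
    have a2 := hN' t ht0
    have b1 := hx s hs0
    have b2 := hz s hs0
    have b3 := hx t ht0
    have b4 := hz t ht0
    have hsign : ∀ u v : ℤ, 1 ≤ u → 1 ≤ v → u ^ j - v ^ j = N → (0 < u - v ↔ 0 < N) := by
      intro u v hu hv huv
      constructor
      · intro h
        have := pow_lt_pow_left₀ (show v < u by linarith) (by linarith) (show j ≠ 0 by omega)
        omega
      · intro h
        by_contra hcon
        have := pow_le_pow_left₀ (show 0 ≤ u by linarith) (show u ≤ v by linarith) j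
        omega
    have c1 := hsign _ _ b1 b2 a1
    have c2 := hsign _ _ b3 b4 a2
    have hxz : x s = x t ∧ z s = z t := by
      rcases lt_or_gt_of_ne hN with hneg | hpos
      · -- N < 0
        have d1 : ¬ 0 < x s - z s := by rw [c1]; omega
        have d2 : ¬ 0 < x t - z t := by rw [c2]; omega
        have d3 : x s ≠ z s := by
          intro h
          rw [h] at a1
          omega
        have d4 : z s - x s = z t - x t := by omega
        have d5 : 0 < z s - x s := by omega
        have d6 : (x s + (z s - x s)) ^ j - x s ^ j = (x t + (z s - x s)) ^ j - x t ^ j := by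
          have e1 : x s + (z s - x s) = z s := by ring
          have e2 : x t + (z s - x s) = z t := by rw [d4]; ring
          rw [e1, e2]
          omega
        have d7 := Pow_inj hj d5 (by omega) (by omega) d6
        exact ⟨d7, by omega⟩
      · have d1 : 0 < x s - z s := by rw [c1]; exact hpos
        have d2 : 0 < x t - z t := by rw [c2]; exact hpos
        have d4 : x s - z s = x t - z t := by omega
        have d6 : (z s + (x s - z s)) ^ j - z s ^ j = (z t + (x s - z s)) ^ j - z t ^ j := by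
          have e1 : z s + (x s - z s) = x s := by ring
          have e2 : z t + (x s - z s) = x t := by rw [d4]; ring
          rw [e1, e2]
          omega
        have d7 := Pow_inj hj d1 (by omega) (by omega) d6
        exact ⟨by omega, d7⟩
    rw [hs s hs0, hs t ht0, hxz.1, hxz.2]

theorem pow_diff (η : ℝ) (hη : 0 < η) : ∃ K : ℝ, 1 ≤ K ∧ ∀ X : ℕ, 1 ≤ X → ∀ j : ℕ, 2 ≤ j →
    ∀ Q : Finset ℤ, (∀ q ∈ Q, ∃ x : ℕ, 1 ≤ x ∧ q = (x : ℤ) ^ j ∧ x ^ j ≤ X) →
      (Q.card : ℝ) ^ 2 ≤ K * (X : ℝ) ^ η * ((Q - Q).card : ℝ) := by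
  obtain ⟨K, hK1, hK⟩ := Pow_div η hη
  refine ⟨K + 1, by linarith, ?_⟩
  intro X hX j hj Q hQ
  have hX1 : (1 : ℝ) ≤ X := by exact_mod_cast hX
  have hXη : 1 ≤ (X : ℝ) ^ η := Real.one_le_rpow hX1 hη.le
  rcases Q.eq_empty_or_nonempty with rfl | hne
  · simp
  have hle : Q.card ≤ (Q - Q).card := by
    obtain ⟨q0, hq0⟩ := hne
    apply Finset.card_le_card_of_injOn (fun q => q - q0)
    · intro q hq
      exact Finset.sub_mem_sub hq hq0
    · intro a _ b _ hab
      simpa using hab
  have h1 : (Q ×ˢ Q).card = ∑ N ∈ Q - Q, ((Q ×ˢ Q).filter (fun s => s.1 - s.2 = N)).card := by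
    apply Finset.card_eq_sum_card_fiberwise
    intro s hs
    have hs' := Finset.mem_product.mp hs
    exact Finset.sub_mem_sub hs'.1 hs'.2
  have h2 : ∀ N ∈ Q - Q, (((Q ×ˢ Q).filter (fun s => s.1 - s.2 = N)).card : ℝ) ≤
      (if N = 0 then (Q.card : ℝ) else 0) + K * (X : ℝ) ^ η := by
    intro N hN
    by_cases h0 : N = 0
    · rw [if_pos h0]
      have h3 : ((Q ×ˢ Q).filter (fun s => s.1 - s.2 = N)).card ≤ Q.card := by
        apply Finset.card_le_card_of_injOn (fun s => s.1)
        · intro s hs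
          exact (Finset.mem_product.mp (Finset.mem_filter.mp hs).1).1
        · intro s hs t ht hst
          have a1 := (Finset.mem_filter.mp hs).2
          have a2 := (Finset.mem_filter.mp ht).2
          simp only at hst
          ext
          · exact hst
          · omega
      have h4 : (((Q ×ˢ Q).filter (fun s => s.1 - s.2 = N)).card : ℝ) ≤ Q.card := by
        exact_mod_cast h3
      have : 0 ≤ K * (X : ℝ) ^ η := by positivity
      linarith
    · rw [if_neg h0, zero_add]
      obtain ⟨a, ha, b, hb, hab⟩ := Finset.mem_sub.mp hN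
      obtain ⟨x, hx1, hx2, hx3⟩ := hQ a ha
      obtain ⟨z, hz1, hz2, hz3⟩ := hQ b hb
      have hNX : N.natAbs ≤ X := by
        have a1 : a ≤ X := by rw [hx2]; exact_mod_cast hx3
        have a2 : b ≤ X := by rw [hz2]; exact_mod_cast hz3
        have a3 : 0 ≤ a := by rw [hx2]; positivity
        have a4 : 0 ≤ b := by rw [hz2]; positivity
        omega
      have h3 := Pow_rep hj ((Q ×ˢ Q).filter (fun s => s.1 - s.2 = N)) N h0 (by
        intro s hs
        have hs1 := Finset.mem_product.mp (Finset.mem_filter.mp hs).1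
        have hs2 := (Finset.mem_filter.mp hs).2
        obtain ⟨x, hx1, hx2, hx3⟩ := hQ s.1 hs1.1
        obtain ⟨z, hz1, hz2, hz3⟩ := hQ s.2 hs1.2
        refine ⟨x, z, by exact_mod_cast hx1, by exact_mod_cast hz1, ?_, ?_⟩
        · ext
          · exact hx2
          · exact hz2
        · rw [← hx2, ← hz2]; exact hs2)
      have h4 := hK N.natAbs (by omega)
      have h5 : ((N.natAbs : ℕ) : ℝ) ^ η ≤ (X : ℝ) ^ η :=
        Real.rpow_le_rpow (by positivity) (by exact_mod_cast hNX) hη.le
      calc (((Q ×ˢ Q).filter (fun s => s.1 - s.2 = N)).card : ℝ) ≤ N.natAbs.divisors.card := by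
            exact_mod_cast h3
        _ ≤ K * ((N.natAbs : ℕ) : ℝ) ^ η := h4
        _ ≤ K * (X : ℝ) ^ η := by gcongr
  have h3 : ((Q ×ˢ Q).card : ℝ) ≤ Q.card + K * (X : ℝ) ^ η * ((Q - Q).card : ℝ) := by
    rw [h1]
    push_cast
    calc ∑ N ∈ Q - Q, (((Q ×ˢ Q).filter (fun s => s.1 - s.2 = N)).card : ℝ) ≤
        ∑ N ∈ Q - Q, ((if N = 0 then (Q.card : ℝ) else 0) + K * (X : ℝ) ^ η) :=
          Finset.sum_le_sum h2
      _ = ∑ N ∈ Q - Q, (if N = 0 then (Q.card : ℝ) else 0) +
          ((Q - Q).card : ℝ) * (K * (X : ℝ) ^ η) := by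
          rw [Finset.sum_add_distrib, Finset.sum_const, nsmul_eq_mul]
      _ ≤ Q.card + K * (X : ℝ) ^ η * ((Q - Q).card : ℝ) := by
          have h6 : ∑ N ∈ Q - Q, (if N = 0 then (Q.card : ℝ) else 0) ≤ Q.card := by
            rw [Finset.sum_ite_eq']
            split_ifs
            · exact le_rfl
            · positivity
          linarith
  have h4 : ((Q ×ˢ Q).card : ℝ) = (Q.card : ℝ) ^ 2 := by
    rw [Finset.card_product]; push_cast; ring
  rw [h4] at h3
  have h5 : (Q.card : ℝ) ≤ (Q - Q).card := by exact_mod_cast hle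
  have h6 : ((Q - Q).card : ℝ) ≤ (X : ℝ) ^ η * ((Q - Q).card : ℝ) := by
    have : (0 : ℝ) ≤ ((Q - Q).card : ℝ) := by positivity
    nlinarith
  calc (Q.card : ℝ) ^ 2 ≤ Q.card + K * (X : ℝ) ^ η * ((Q - Q).card : ℝ) := h3
    _ ≤ (X : ℝ) ^ η * ((Q - Q).card : ℝ) + K * (X : ℝ) ^ η * ((Q - Q).card : ℝ) := by linarith
    _ = (K + 1) * (X : ℝ) ^ η * ((Q - Q).card : ℝ) := by ring

end Pool.Agent.helper41.EX
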