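import Pool.Agent.helper41.EX.Comp
import Pool.Agent.helper41.EX.Pig
import Pool.Agent.helper41.EX.Pow
import Pool.Agent.helper41.EX.Cls

/-! # EXS-Key: sets of integers with large `G` and small linear part have large doubling -/

namespace Pool.Agent.helper41.EX

open Finset
open scoped Pointwise

/-- a positive power of `X` exceeds a constant, for large `X` -/
theorem Key_large (a C : ℝ) (ha : 0 < a) : ∃ X0 : ℕ, ∀ X : ℕ, X0 ≤ X → C < (X : ℝ) ^ a := by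
  have h := ((tendsto_rpow_atTop ha).comp tendsto_natCast_atTop_atTop).eventually_gt_atTop C
  obtain ⟨X0, h0⟩ := Filter.eventually_atTop.1 h
  exact ⟨X0, fun X hX => h0 X hX⟩

/-- the conditions: classes first, then exact powers -/
noncomputable def Key_phi (X : ℕ) (κ0 h : ℝ) (T i : ℕ) : ℕ → ℕ → Bool :=
  if i < T then phiC X (κ0 + i * h) (κ0 + i * h + h) else phiP X κ0 (i - T)

open Classical in
/-- few elements of `U` have large `G` -/
theorem Key_big (U : Finset ℤ) (X : ℕ) (lam : ℝ) (hU : ∀ u ∈ U, 1 ≤ u ∧ u ≤ (X : ℤ)) :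
    (U.filter (fun u => (X : ℝ) ^ (-lam) < G X u.toNat)).card ≤
      ((Icc 1 X).filter (fun n => (X : ℝ) ^ (-lam) ≤ G X n)).card := by
  refine Finset.card_le_card_of_injOn (fun u => u.toNat) ?_ ?_
  · intro u hu
    rw [Finset.mem_coe, Finset.mem_filter] at hu
    obtain ⟨h1, h2⟩ := hU u hu.1
    rw [Finset.mem_coe, Finset.mem_filter, Finset.mem_Icc]
    refine ⟨⟨?_, ?_⟩, hu.2.le⟩ <;> show _ ≤ _ <;> simp only <;> omega
  · intro u hu v hv huv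
    rw [Finset.mem_coe, Finset.mem_filter] at hu hv
    have h1 := (hU u hu.1).1
    have h2 := (hU v hv.1).1
    simp only at huv
    omega

theorem KEY (θ : ℝ) (hθ : 0 < θ) (hθ1 : θ ≤ 2) : ∃ ρ : ℝ, 0 < ρ ∧ ρ ≤ 1 ∧
    ∃ X0 : ℕ, ∀ X : ℕ, X0 ≤ X → ∀ U : Finset ℤ,
      (∀ u ∈ U, 1 ≤ u ∧ u ≤ (X : ℤ) ∧ (X : ℝ) ^ (-(θ / 3) - ρ) ≤ G X u.toNat ∧
        (lin X u.toNat : ℝ) ≤ (X : ℝ) ^ (4 * θ / 27)) →
      (X : ℝ) ^ (θ / 3 - ρ) ≤ (U.card : ℝ) → (X : ℝ) ^ (θ / 3 + ρ) < ((U - U).card : ℝ) := by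
  classical
  have hκ0 : 1 < 1 + θ / 27 := by linarith [div_pos hθ (by norm_num : (0 : ℝ) < 27)]
  obtain ⟨ε, hε, hcls⟩ := class_comp (1 + θ / 27) hκ0
  obtain ⟨T, J0, h, c, hT, hJ0, hh, hhε, hTh, hc, X1, hcomp⟩ :=
    comp_exists θ (1 + θ / 27) ε hθ hθ1 hκ0 le_rfl hε
  obtain ⟨ρ1, hρ1, hcls⟩ := hcls c h hc hh hhε
  obtain ⟨ρ, hρ, hρa, hρb, hρc⟩ : ∃ ρ : ℝ, 0 < ρ ∧ ρ ≤ ρ1 ∧ ρ ≤ c / 200 ∧ ρ ≤ θ / 100 := by
    refine ⟨min ρ1 (min (c / 200) (θ / 100)), ?_, min_le_left _ _, ?_, ?_⟩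
    · exact lt_min hρ1 (lt_min (by positivity) (by positivity))
    · exact (min_le_right _ _).trans (min_le_left _ _)
    · exact (min_le_right _ _).trans (min_le_right _ _)
  obtain ⟨X2, hcls⟩ := hcls ρ hρ hρa
  obtain ⟨X3, hQ⟩ := exists_Q θ ρ c hθ hθ1 hρ hc
  obtain ⟨K, hK1, hK⟩ := count_G (θ / 100) (by positivity)
  obtain ⟨K', hK'1, hK'⟩ := pow_diff (c / 4) (by positivity)
  obtain ⟨X4, hX4⟩ := Key_large (θ / 100) (2 * K) (by positivity)
  obtain ⟨X5, hX5⟩ := Key_large ρ (2 * (T + J0 + 1 : ℕ)) hρ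
  obtain ⟨X6, hX6⟩ := Key_large (c / 2) K' (by positivity)
  refine ⟨ρ, hρ, by linarith, max 1 (max X1 (max X2 (max X3 (max X4 (max X5 X6))))), ?_⟩
  intro X hX U hU hcard
  simp only [max_le_iff] at hX
  obtain ⟨g0, g1, g2, g3, g4, g5, g6⟩ := hX
  have hXr : (1 : ℝ) ≤ X := by exact_mod_cast g0
  have hX0 : (0 : ℝ) < X := by linarith
  by_contra hdbl
  rw [not_lt] at hdbl
  -- the elements with large `G`
  set Ub : Finset ℤ := U.filter (fun u => (X : ℝ) ^ (-(8 * θ / 27)) < G X u.toNat) with hUb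
  set Us : Finset ℤ := U.filter (fun u => ¬ (X : ℝ) ^ (-(8 * θ / 27)) < G X u.toNat) with hUs
  have hsplit : (U.card : ℝ) = Ub.card + Us.card := by
    have := Finset.card_filter_add_card_filter_not
      (s := U) (fun u => (X : ℝ) ^ (-(8 * θ / 27)) < G X u.toNat)
    rw [← this]
    push_cast
    rfl
  have hb1 : (Ub.card : ℝ) ≤ K * (X : ℝ) ^ (8 * θ / 27 + θ / 100) := by
    refine le_trans ?_ (hK X g0 (8 * θ / 27))
    exact_mod_cast Key_big U X (8 * θ / 27) (fun u hu => ⟨(hU u hu).1, (hU u hu).2.1⟩)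
  have hb2 : 2 * (K * (X : ℝ) ^ (8 * θ / 27 + θ / 100)) ≤ (X : ℝ) ^ (θ / 3 - ρ) := by
    have e1 : (X : ℝ) ^ (θ / 100 + (8 * θ / 27 + θ / 100)) ≤ (X : ℝ) ^ (θ / 3 - ρ) :=
      Real.rpow_le_rpow_of_exponent_le hXr (by linarith)
    rw [Real.rpow_add hX0] at e1
    have e2 : 2 * K * (X : ℝ) ^ (8 * θ / 27 + θ / 100) ≤
        (X : ℝ) ^ (θ / 100) * (X : ℝ) ^ (8 * θ / 27 + θ / 100) :=
      mul_le_mul_of_nonneg_right (hX4 X g4).le (by positivity)
    linarith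
  have hs : (X : ℝ) ^ (θ / 3 - ρ) / 2 ≤ (Us.card : ℝ) := by linarith
  -- pigeonhole over the components
  set I : Finset ℕ := (Finset.range (T + J0 + 1)).filter (fun i => i < T ∨ 2 ≤ i - T) with hI
  let F : ℕ → Finset ℤ := fun i =>
    U.filter (fun u => G X (part (Key_phi X (1 + θ / 27) h T i) u.toNat) ≤ (X : ℝ) ^ (-c))
  have hcov : Us ⊆ I.biUnion F := by
    intro u hu
    rw [hUs, Finset.mem_filter, not_lt] at hu
    obtain ⟨huU, huG⟩ := hu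
    obtain ⟨h1, h2, h3, h4⟩ := hU u huU
    rw [Finset.mem_biUnion]
    rcases hcomp X g1 u.toNat (by omega) (by omega) huG h4 with ⟨i, hi, hi2⟩ | ⟨j, hj, hj1, hj2⟩
    · refine ⟨i, ?_, ?_⟩
      · rw [hI, Finset.mem_filter, Finset.mem_range]
        exact ⟨by omega, Or.inl hi⟩
      · show u ∈ U.filter _
        rw [Finset.mem_filter]
        refine ⟨huU, ?_⟩
        rw [Key_phi, if_pos hi]
        exact hi2
    · refine ⟨T + j, ?_, ?_⟩
      · rw [hI, Finset.mem_filter, Finset.mem_range]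
        exact ⟨by omega, Or.inr (by omega)⟩
      · show u ∈ U.filter _
        rw [Finset.mem_filter]
        refine ⟨huU, ?_⟩
        rw [Key_phi, if_neg (by omega), Nat.add_sub_cancel_left]
        exact hj2
  obtain ⟨i, hiI, hicard⟩ : ∃ i ∈ I, (X : ℝ) ^ (θ / 3 - 2 * ρ) ≤ ((F i).card : ℝ) := by
    by_contra hno
    push Not at hno
    have k1 : (Us.card : ℝ) ≤ ∑ i ∈ I, ((F i).card : ℝ) := by
      exact_mod_cast (Finset.card_le_card hcov).trans Finset.card_biUnion_le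
    have k2 : ∑ i ∈ I, ((F i).card : ℝ) ≤ I.card • (X : ℝ) ^ (θ / 3 - 2 * ρ) :=
      Finset.sum_le_card_nsmul _ _ _ (fun i hi => (hno i hi).le)
    have k3 : (I.card : ℝ) ≤ ((T + J0 + 1 : ℕ) : ℝ) := by
      have : I.card ≤ T + J0 + 1 := by
        rw [hI]
        exact (Finset.card_filter_le _ _).trans (by rw [Finset.card_range])
      exact_mod_cast this
    rw [nsmul_eq_mul] at k2
    have k4 : (X : ℝ) ^ (θ / 3 - ρ) = (X : ℝ) ^ ρ * (X : ℝ) ^ (θ / 3 - 2 * ρ) := by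
      rw [← Real.rpow_add hX0]
      congr 1
      ring
    have k5 : (0 : ℝ) < (X : ℝ) ^ (θ / 3 - 2 * ρ) := by positivity
    have k6 : (I.card : ℝ) * (X : ℝ) ^ (θ / 3 - 2 * ρ) ≤
        ((T + J0 + 1 : ℕ) : ℝ) * (X : ℝ) ^ (θ / 3 - 2 * ρ) :=
      mul_le_mul_of_nonneg_right k3 k5.le
    have k7 : 2 * ((T + J0 + 1 : ℕ) : ℝ) * (X : ℝ) ^ (θ / 3 - 2 * ρ) <
        (X : ℝ) ^ ρ * (X : ℝ) ^ (θ / 3 - 2 * ρ) :=
      mul_lt_mul_of_pos_right (hX5 X g5) k5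
    rw [k4] at hs
    linarith
  have hFsub : F i ⊆ U := Finset.filter_subset _ _
  have hFdbl : ((F i - F i).card : ℝ) ≤ (X : ℝ) ^ (θ / 3 + ρ) := by
    refine le_trans ?_ hdbl
    exact_mod_cast Finset.card_le_card (Finset.sub_subset_sub hFsub hFsub)
  obtain ⟨τ, hτ, Q, hQ1, hQ2, hQ3⟩ := hQ X g3 (Key_phi X (1 + θ / 27) h T i) (F i) (by
    intro u hu
    rw [Finset.mem_filter] at hu
    obtain ⟨h1, h2, h3, h4⟩ := hU u hu.1
    exact ⟨h1, h2, h3, hu.2⟩) hicard hFdbl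
  rw [hI, Finset.mem_filter, Finset.mem_range] at hiI
  by_cases hiT : i < T
  · -- a class
    rw [Key_phi, if_pos hiT] at hQ1
    have hi1 : ((i : ℝ) + 1) ≤ T := by exact_mod_cast hiT
    have e1 : 1 + θ / 27 + i * h + h ≤ 16 := by
      have : ((i : ℝ) + 1) * h ≤ T * h := mul_le_mul_of_nonneg_right hi1 hh.le
      linarith
    have e2 : (0 : ℝ) ≤ i * h := by positivity
    have := hcls X g2 (1 + θ / 27 + i * h) (by linarith) e1 τ hτ Q hQ1 hQ2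
    linarith
  · -- exact powers
    have hj : 2 ≤ i - T := by
      rcases hiI.2 with h1 | h1
      · exact absurd h1 hiT
      · exact h1
    rw [Key_phi, if_neg hiT] at hQ1
    have p1 := hK' X g0 (i - T) hj Q (by
      intro q hq
      obtain ⟨n, hn1, hnX, hqn, _, _⟩ := hQ1 q hq
      obtain ⟨x, hx1, hx2⟩ := part_phiP X (1 + θ / 27) (i - T) n
      refine ⟨x, hx1, ?_, ?_⟩
      · rw [hqn, hx2]
        push_cast
        rfl
      · rw [← hx2]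
        exact (part_le _ (by omega)).trans hnX)
    have p2 : (X : ℝ) ^ (2 * (τ - 5 * ρ)) ≤ (Q.card : ℝ) ^ 2 := by
      have e1 : (X : ℝ) ^ (2 * (τ - 5 * ρ)) = ((X : ℝ) ^ (τ - 5 * ρ)) ^ 2 := by
        rw [← Real.rpow_natCast, ← Real.rpow_mul hX0.le]
        congr 1
        push_cast
        ring
      rw [e1]
      exact pow_le_pow_left₀ (by positivity) hQ2 2
    have p3 : K' * (X : ℝ) ^ (c / 4) * ((Q - Q).card : ℝ) ≤
        K' * (X : ℝ) ^ (c / 4) * (X : ℝ) ^ (τ + 14 * ρ) :=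
      mul_le_mul_of_nonneg_left hQ3 (by positivity)
    have p4 : (X : ℝ) ^ (2 * (τ - 5 * ρ)) ≤
        K' * ((X : ℝ) ^ (c / 4) * (X : ℝ) ^ (τ + 14 * ρ)) := by
      rw [← mul_assoc]
      exact (p2.trans p1).trans p3
    rw [← Real.rpow_add hX0] at p4
    have p5 : (X : ℝ) ^ (c / 2) * (X : ℝ) ^ (c / 4 + (τ + 14 * ρ)) ≤
        (X : ℝ) ^ (2 * (τ - 5 * ρ)) := by
      rw [← Real.rpow_add hX0]
      exact Real.rpow_le_rpow_of_exponent_le hXr (by linarith)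
    have p6 : K' * (X : ℝ) ^ (c / 4 + (τ + 14 * ρ)) <
        (X : ℝ) ^ (c / 2) * (X : ℝ) ^ (c / 4 + (τ + 14 * ρ)) :=
      mul_lt_mul_of_pos_right (hX6 X g6) (by positivity)
    linarith

end Pool.Agent.helper41.EX
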