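import Mathlib

/-! # EXS-Latt: primitive lattice points in a box -/

namespace Pool.Agent.helper41.EX

open Finset

/-- Two primitive points of the lattice with the same value of `4 A² y / (x m)` are equal. -/
theorem Latt_inj (A m al be : ℕ) (hm : 1 ≤ m) (hal : Nat.Coprime al m) (x y x' y' : ℕ)
    (hx : 1 ≤ x) (hx' : 1 ≤ x') (hxA : x < 2 * A) (hxA' : x' < 2 * A)
    (hc : Nat.Coprime x y) (hc' : Nat.Coprime x' y') (hd : m ∣ al * x + be * y)
    (hd' : m ∣ al * x' + be * y')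
    (h : 4 * A ^ 2 * y / (x * m) = 4 * A ^ 2 * y' / (x' * m)) : x = x' ∧ y = y' := by
  set k := 4 * A ^ 2 * y / (x * m) with hk
  have hxm : 0 < x * m := Nat.mul_pos hx hm
  have hxm' : 0 < x' * m := Nat.mul_pos hx' hm
  have h1 : k * (x * m) ≤ 4 * A ^ 2 * y := Nat.div_mul_le_self _ _
  have h2 : 4 * A ^ 2 * y < (k + 1) * (x * m) := by
    rw [hk, ← Nat.div_lt_iff_lt_mul hxm]
    exact Nat.lt_succ_self _
  have h1' : k * (x' * m) ≤ 4 * A ^ 2 * y' := by
    rw [h]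
    exact Nat.div_mul_le_self _ _
  have h2' : 4 * A ^ 2 * y' < (k + 1) * (x' * m) := by
    rw [h, ← Nat.div_lt_iff_lt_mul hxm']
    exact Nat.lt_succ_self _
  -- compare `y x'` and `y' x`
  have hxx : x * x' < 4 * A ^ 2 := by
    have h3 : x * x' < (2 * A) * (2 * A) :=
      Nat.mul_lt_mul_of_lt_of_lt hxA hxA'
    calc x * x' < (2 * A) * (2 * A) := h3
      _ = 4 * A ^ 2 := by ring
  have e1 : (4 * A ^ 2 : ℤ) * ((y : ℤ) * x' - y' * x) < (4 * A ^ 2 : ℤ) * m := by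
    have g1 : (4 * (A : ℤ) ^ 2 * y) * x' < ((k : ℤ) + 1) * (x * m) * x' := by
      have : ((4 * A ^ 2 * y : ℕ) : ℤ) < (((k + 1) * (x * m) : ℕ) : ℤ) := by exact_mod_cast h2
      push_cast at this
      exact mul_lt_mul_of_pos_right this (by exact_mod_cast hx')
    have g2 : (k : ℤ) * (x' * m) * x ≤ (4 * (A : ℤ) ^ 2 * y') * x := by
      have : ((k * (x' * m) : ℕ) : ℤ) ≤ ((4 * A ^ 2 * y' : ℕ) : ℤ) := by exact_mod_cast h1'
      push_cast at this
      exact mul_le_mul_of_nonneg_right this (by positivity)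
    have g3 : ((x : ℤ) * x') * m < (4 * (A : ℤ) ^ 2) * m := by
      have : ((x * x' : ℕ) : ℤ) < ((4 * A ^ 2 : ℕ) : ℤ) := by exact_mod_cast hxx
      push_cast at this
      exact mul_lt_mul_of_pos_right this (by exact_mod_cast hm)
    nlinarith
  have e2 : (4 * A ^ 2 : ℤ) * ((y' : ℤ) * x - y * x') < (4 * A ^ 2 : ℤ) * m := by
    have g1 : (4 * (A : ℤ) ^ 2 * y') * x < ((k : ℤ) + 1) * (x' * m) * x := by
      have : ((4 * A ^ 2 * y' : ℕ) : ℤ) < (((k + 1) * (x' * m) : ℕ) : ℤ) := by exact_mod_cast h2'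
      push_cast at this
      exact mul_lt_mul_of_pos_right this (by exact_mod_cast hx)
    have g2 : (k : ℤ) * (x * m) * x' ≤ (4 * (A : ℤ) ^ 2 * y) * x' := by
      have : ((k * (x * m) : ℕ) : ℤ) ≤ ((4 * A ^ 2 * y : ℕ) : ℤ) := by exact_mod_cast h1
      push_cast at this
      exact mul_le_mul_of_nonneg_right this (by positivity)
    have g3 : ((x : ℤ) * x') * m < (4 * (A : ℤ) ^ 2) * m := by
      have : ((x * x' : ℕ) : ℤ) < ((4 * A ^ 2 : ℕ) : ℤ) := by exact_mod_cast hxx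
      push_cast at this
      exact mul_lt_mul_of_pos_right this (by exact_mod_cast hm)
    nlinarith
  have hA : (0 : ℤ) < 4 * A ^ 2 := by
    have : 0 < A := by omega
    positivity
  have f1 : (y : ℤ) * x' - y' * x < m := lt_of_mul_lt_mul_left e1 hA.le
  have f2 : (y' : ℤ) * x - y * x' < m := lt_of_mul_lt_mul_left e2 hA.le
  have hdvd : (m : ℤ) ∣ (y : ℤ) * x' - y' * x := by
    have g1 : (m : ℤ) ∣ (al : ℤ) * x + be * y := by exact_mod_cast hd
    have g2 : (m : ℤ) ∣ (al : ℤ) * x' + be * y' := by exact_mod_cast hd'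
    have g3 : (m : ℤ) ∣ (al : ℤ) * ((y : ℤ) * x' - y' * x) := by
      have := dvd_sub (g2.mul_right (y : ℤ)) (g1.mul_right (y' : ℤ))
      have e : ((al : ℤ) * x' + be * y') * y - ((al : ℤ) * x + be * y) * y' =
          (al : ℤ) * ((y : ℤ) * x' - y' * x) := by ring
      rwa [e] at this
    have g4 : IsCoprime (m : ℤ) (al : ℤ) := Nat.isCoprime_iff_coprime.2 hal.symm
    exact g4.dvd_of_dvd_mul_left g3
  have hz : (y : ℤ) * x' - y' * x = 0 := by
    refine Int.eq_zero_of_abs_lt_dvd hdvd ?_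
    rw [abs_lt]
    constructor
    · linarith
    · exact f1
  have hn : y * x' = y' * x := by
    have : (y : ℤ) * x' = y' * x := sub_eq_zero.1 hz
    exact_mod_cast this
  have d1 : x ∣ x' := by
    have : x ∣ y * x' := ⟨y', by rw [hn]; ring⟩
    exact hc.dvd_of_dvd_mul_left this
  have d2 : x' ∣ x := by
    have : x' ∣ y' * x := ⟨y, by rw [← hn]; ring⟩
    exact hc'.dvd_of_dvd_mul_left this
  have hxx' : x = x' := Nat.dvd_antisymm d1 d2
  refine ⟨hxx', ?_⟩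
  subst hxx'
  exact Nat.eq_of_mul_eq_mul_right hx hn

theorem lattice (A B m al be : ℕ) (hA : 1 ≤ A) (hB : 1 ≤ B) (hm : 1 ≤ m)
    (hal : Nat.Coprime al m) :
    (((Ico A (2 * A)) ×ˢ (Ico B (2 * B))).filter (fun t => Nat.Coprime t.1 t.2 ∧
      m ∣ al * t.1 + be * t.2)).card ≤ 8 * A * B / m + 1 := by
  classical
  rw [← Finset.card_range (8 * A * B / m + 1)]
  refine Finset.card_le_card_of_injOn (fun t => 4 * A ^ 2 * t.2 / (t.1 * m)) ?_ ?_
  · rintro ⟨x, y⟩ ht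
    obtain ⟨h1, h2⟩ := Finset.mem_filter.1 ht
    obtain ⟨h3, h4⟩ := Finset.mem_product.1 h1
    obtain ⟨h5, h6⟩ := Finset.mem_Ico.1 h3
    obtain ⟨h7, h8⟩ := Finset.mem_Ico.1 h4
    simp only [Finset.coe_range, Set.mem_Iio]
    rw [Nat.lt_succ_iff]
    simp only at h5 h6 h7 h8
    have hx : 0 < x := by omega
    calc 4 * A ^ 2 * y / (x * m) ≤ 4 * A ^ 2 * (2 * B) / (A * m) := by
          refine Nat.div_le_div (Nat.mul_le_mul_left _ h8.le) (Nat.mul_le_mul_right _ h5) ?_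
          exact (Nat.mul_pos hA hm).ne'
      _ = 8 * A * B / m := by
          rw [show 4 * A ^ 2 * (2 * B) = A * (8 * A * B) by ring]
          exact Nat.mul_div_mul_left _ _ hA
  · rintro ⟨x, y⟩ ht ⟨x', y'⟩ ht' h
    obtain ⟨h1, h2, h3⟩ := Finset.mem_filter.1 ht
    obtain ⟨h1', h2', h3'⟩ := Finset.mem_filter.1 ht'
    obtain ⟨h4, h5⟩ := Finset.mem_product.1 h1
    obtain ⟨h4', h5'⟩ := Finset.mem_product.1 h1'
    obtain ⟨h6, h7⟩ := Finset.mem_Ico.1 h4
    obtain ⟨h6', h7'⟩ := Finset.mem_Ico.1 h4'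
    simp only at h6 h7 h6' h7' h2 h3 h2' h3' h
    obtain ⟨e1, e2⟩ := Latt_inj A m al be hm hal x y x' y' (by omega) (by omega) h7 h7' h2 h2'
      h3 h3' h
    rw [e1, e2]

end Pool.Agent.helper41.EX
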