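import Pool.Agent.helper41.EX.Part
import Pool.Agent.helper41.EX.Latt

/-! # EXS-LinP: few bad triples have large linear parts -/

namespace Pool.Agent.helper41.EX

open Finset

/-- the cofactor of the linear part -/
noncomputable def LinP_co (X n : ℕ) : ℕ := part (cmp (phiL X)) n

lemma LinP_mul (X : ℕ) {n : ℕ} (hn : n ≠ 0) : lin X n * LinP_co X n = n :=
  part_mul_cmp (phiL X) hn

lemma LinP_lin_pos (X n : ℕ) : 0 < lin X n := part_pos _ _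

lemma LinP_co_pos (X n : ℕ) : 0 < LinP_co X n := part_pos _ _

lemma LinP_co_le (X : ℕ) {n : ℕ} (hn : n ≠ 0) : LinP_co X n ≤ n := part_le _ hn

lemma LinP_lin_le (X : ℕ) {n : ℕ} (hn : n ≠ 0) : lin X n ≤ n := part_le _ hn

lemma LinP_G_le {X : ℕ} (hX : 1 ≤ X) {n i : ℕ} (hn : n ≠ 0) (hi : 2 ^ i ≤ lin X n) :
    G X n ≤ G X (LinP_co X n) * ((2 : ℝ) ^ i) ^ (-(15 / 16) : ℝ) := by
  rw [G_part_mul X (phiL X) hn, mul_comm]
  refine mul_le_mul_of_nonneg_left ?_ (G_pos hX _).le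
  refine (G_lin_le hX n).trans ?_
  exact Real.rpow_le_rpow_of_nonpos (by positivity) (by exact_mod_cast hi) (by norm_num)

lemma LinP_mem_BT {X : ℕ} {θ Λ : ℝ} {t : ℕ × ℕ} (h : t ∈ BT X θ Λ) :
    1 ≤ t.1 ∧ t.1 ≤ X ∧ 1 ≤ t.2 ∧ t.2 ≤ X ∧ t.1 + t.2 ≤ X ∧ X < 2 * (t.1 + t.2) ∧
      Nat.Coprime t.1 t.2 ∧
      1 ≤ Λ * (X : ℝ) ^ θ * (G X t.1 * G X t.2 * G X (t.1 + t.2)) := by
  classical
  unfold BT at h
  rw [mem_filter, mem_product, mem_Icc, mem_Icc] at h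
  obtain ⟨⟨⟨h1, h2⟩, h3, h4⟩, h5, h6, h7, h8⟩ := h
  exact ⟨h1, h2, h3, h4, h5, h6, h7, h8⟩

lemma LinP_count {α β : Type} [DecidableEq β] (B : Finset α) (T : Finset β) (f : α → β)
    (hmap : ∀ t ∈ B, f t ∈ T) (c : β → ℝ)
    (h : ∀ u ∈ T, ((B.filter (fun t => f t = u)).card : ℝ) ≤ c u) :
    (B.card : ℝ) ≤ ∑ u ∈ T, c u := by
  rw [card_eq_sum_card_fiberwise (f := f) (s := B) (t := T) hmap]
  push_cast
  exact sum_le_sum h

lemma LinP_cube (S : Finset ℕ) (g : ℕ → ℝ) :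
    ∑ u ∈ S ×ˢ S ×ˢ S, g u.1 * g u.2.1 * g u.2.2 = (∑ m ∈ S, g m) ^ 3 := by
  simp only [sum_product, ← mul_sum, ← sum_mul]
  ring

open Classical in
/-- one fibre of a dyadic box -/
lemma LinP_fiber (θ Λ : ℝ) (hΛ : 0 < Λ) {X : ℕ} (hX : 1 ≤ X) (i j l s s' s'' : ℕ) :
    ((((BT X θ Λ).filter (fun t => (2 ^ i ≤ lin X t.1 ∧ lin X t.1 < 2 ^ (i + 1)) ∧
        (2 ^ j ≤ lin X t.2 ∧ lin X t.2 < 2 ^ (j + 1)) ∧
        (2 ^ l ≤ lin X (t.1 + t.2) ∧ lin X (t.1 + t.2) < 2 ^ (l + 1)))).filter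
        (fun t => (LinP_co X t.1, LinP_co X t.2, LinP_co X (t.1 + t.2)) =
          (s, s', s''))).card : ℝ) ≤
      (32 * Λ * (X : ℝ) ^ θ * ((2 : ℝ) ^ (i + j + l)) ^ (-(15 / 16) : ℝ) *
        (1 + (2 : ℝ) ^ (i + j + l) / X)) * (G X s * G X s' * G X s'') := by
  have hXr : (0 : ℝ) < X := by exact_mod_cast hX
  generalize hF : (((BT X θ Λ).filter (fun t => (2 ^ i ≤ lin X t.1 ∧ lin X t.1 < 2 ^ (i + 1)) ∧
        (2 ^ j ≤ lin X t.2 ∧ lin X t.2 < 2 ^ (j + 1)) ∧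
        (2 ^ l ≤ lin X (t.1 + t.2) ∧ lin X (t.1 + t.2) < 2 ^ (l + 1)))).filter
        (fun t => (LinP_co X t.1, LinP_co X t.2, LinP_co X (t.1 + t.2)) =
          (s, s', s''))) = F
  have hmem : ∀ t ∈ F, t ∈ BT X θ Λ ∧ ((2 ^ i ≤ lin X t.1 ∧ lin X t.1 < 2 ^ (i + 1)) ∧
        (2 ^ j ≤ lin X t.2 ∧ lin X t.2 < 2 ^ (j + 1)) ∧
        (2 ^ l ≤ lin X (t.1 + t.2) ∧ lin X (t.1 + t.2) < 2 ^ (l + 1))) ∧
        LinP_co X t.1 = s ∧ LinP_co X t.2 = s' ∧ LinP_co X (t.1 + t.2) = s'' := by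
    intro t ht
    rw [← hF, mem_filter, mem_filter] at ht
    obtain ⟨⟨h1, h2⟩, h3⟩ := ht
    simp only [Prod.mk.injEq] at h3
    exact ⟨h1, h2, h3⟩
  have hG := G_pos hX s
  have hG' := G_pos hX s'
  have hG'' := G_pos hX s''
  rcases F.eq_empty_or_nonempty with h0 | ⟨t0, ht0⟩
  · rw [h0, card_empty, Nat.cast_zero]
    positivity
  obtain ⟨hB0, ⟨⟨hi1, hi2⟩, ⟨hj1, hj2⟩, hl1, hl2⟩, hs, hs', hs''⟩ := hmem t0 ht0
  obtain ⟨ha1, ha2, hb1, hb2, hab, hX2, hcop, hbad⟩ := LinP_mem_BT hB0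
  have ha0 : t0.1 ≠ 0 := by omega
  have hb0 : t0.2 ≠ 0 := by omega
  have hc0 : t0.1 + t0.2 ≠ 0 := by omega
  have hspos : 0 < s'' := by rw [← hs'']; exact LinP_co_pos _ _
  have hcop2 : Nat.Coprime s s'' := by
    have h1 : s ∣ t0.1 := by rw [← hs]; exact part_dvd _ _
    have h2 : s'' ∣ t0.1 + t0.2 := by rw [← hs'']; exact part_dvd _ _
    have h3 : Nat.Coprime t0.1 (t0.1 + t0.2) := by
      rw [Nat.coprime_self_add_right]; exact hcop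
    exact Nat.Coprime.coprime_dvd_left h1 (Nat.Coprime.coprime_dvd_right h2 h3)
  -- the number of elements
  have hcard : F.card ≤ 8 * 2 ^ i * 2 ^ j / s'' + 1 := by
    refine le_trans ?_ (lattice (2 ^ i) (2 ^ j) s'' s s' Nat.one_le_two_pow Nat.one_le_two_pow
      hspos hcop2)
    refine card_le_card_of_injOn (fun t => (lin X t.1, lin X t.2)) ?_ ?_
    · intro t ht
      obtain ⟨hB, ⟨⟨i1, i2⟩, ⟨j1, j2⟩, l1, l2⟩, e, e', e''⟩ := hmem t ht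
      obtain ⟨a1, a2, b1, b2, ab, X2, cp, -⟩ := LinP_mem_BT hB
      have ea : lin X t.1 * s = t.1 := by
        rw [← e]; exact LinP_mul X (by omega)
      have eb : lin X t.2 * s' = t.2 := by
        rw [← e']; exact LinP_mul X (by omega)
      refine mem_coe.2 (mem_filter.2 ?_)
      simp only [mem_product, mem_Ico]
      refine ⟨⟨⟨i1, ?_⟩, j1, ?_⟩, ?_, ?_⟩
      · rw [← pow_succ']; exact i2
      · rw [← pow_succ']; exact j2
      · exact Nat.Coprime.coprime_dvd_left (part_dvd _ _)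
          (Nat.Coprime.coprime_dvd_right (part_dvd _ _) cp)
      · rw [mul_comm s, mul_comm s', ea, eb, ← e'']
        exact part_dvd _ _
    · intro t ht u hu htu
      obtain ⟨hB, -, e, e', e''⟩ := hmem t ht
      obtain ⟨hBu, -, v, v', v''⟩ := hmem u hu
      obtain ⟨a1, a2, b1, b2, -⟩ := LinP_mem_BT hB
      obtain ⟨c1, c2, d1, d2, -⟩ := LinP_mem_BT hBu
      have ea : lin X t.1 * s = t.1 := by
        rw [← e]; exact LinP_mul X (by omega)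
      have eb : lin X t.2 * s' = t.2 := by
        rw [← e']; exact LinP_mul X (by omega)
      have fa : lin X u.1 * s = u.1 := by
        rw [← v]; exact LinP_mul X (by omega)
      have fb : lin X u.2 * s' = u.2 := by
        rw [← v']; exact LinP_mul X (by omega)
      simp only [Prod.mk.injEq] at htu
      refine Prod.ext ?_ ?_
      · rw [← ea, ← fa, htu.1]
      · rw [← eb, ← fb, htu.2]
  have hW : (0 : ℝ) < (2 : ℝ) ^ (i + j + l) := by positivity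
  have hsr : (0 : ℝ) < s'' := by exact_mod_cast hspos
  have hXs : (X : ℝ) ≤ 4 * 2 ^ l * s'' := by
    have h1 : lin X (t0.1 + t0.2) * s'' = t0.1 + t0.2 := by
      rw [← hs'']; exact LinP_mul X hc0
    have h2 : X ≤ 4 * 2 ^ l * s'' := by
      have h3 : lin X (t0.1 + t0.2) * s'' ≤ 2 ^ (l + 1) * s'' :=
        Nat.mul_le_mul_right _ hl2.le
      rw [pow_succ] at h3
      nlinarith
    exact_mod_cast h2
  have hcardR : (F.card : ℝ) ≤ 32 * (1 + (2 : ℝ) ^ (i + j + l) / X) := by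
    have h1 : (F.card : ℝ) ≤ ((8 * 2 ^ i * 2 ^ j / s'' : ℕ) : ℝ) + 1 := by exact_mod_cast hcard
    have h2 : ((8 * 2 ^ i * 2 ^ j / s'' : ℕ) : ℝ) ≤ ((8 * 2 ^ i * 2 ^ j : ℕ) : ℝ) / s'' :=
      Nat.cast_div_le
    have h3 : ((8 * 2 ^ i * 2 ^ j : ℕ) : ℝ) / s'' ≤ 32 * ((2 : ℝ) ^ (i + j + l) / X) := by
      push_cast
      rw [← mul_div_assoc, div_le_div_iff₀ hsr hXr]
      calc (8 : ℝ) * 2 ^ i * 2 ^ j * X ≤ 8 * 2 ^ i * 2 ^ j * (4 * 2 ^ l * s'') :=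
            mul_le_mul_of_nonneg_left hXs (by positivity)
        _ = 32 * 2 ^ (i + j + l) * s'' := by rw [pow_add, pow_add]; ring
    linarith
  -- the weight
  have hwt : 1 ≤ Λ * (X : ℝ) ^ θ * (((2 : ℝ) ^ (i + j + l)) ^ (-(15 / 16) : ℝ) *
      (G X s * G X s' * G X s'')) := by
    refine hbad.trans ?_
    refine mul_le_mul_of_nonneg_left ?_ (by positivity)
    have g1 := LinP_G_le hX ha0 hi1
    have g2 := LinP_G_le hX hb0 hj1
    have g3 := LinP_G_le hX hc0 hl1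
    rw [hs] at g1
    rw [hs'] at g2
    rw [hs''] at g3
    have p1 := G_pos hX t0.1
    have p2 := G_pos hX t0.2
    have p3 := G_pos hX (t0.1 + t0.2)
    have e1 : ((2 : ℝ) ^ (i + j + l)) ^ (-(15 / 16) : ℝ) =
        ((2 : ℝ) ^ i) ^ (-(15 / 16) : ℝ) * ((2 : ℝ) ^ j) ^ (-(15 / 16) : ℝ) *
          ((2 : ℝ) ^ l) ^ (-(15 / 16) : ℝ) := by
      rw [pow_add, pow_add, Real.mul_rpow (by positivity) (by positivity),
        Real.mul_rpow (by positivity) (by positivity)]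
    calc G X t0.1 * G X t0.2 * G X (t0.1 + t0.2) ≤
          (G X s * ((2 : ℝ) ^ i) ^ (-(15 / 16) : ℝ)) *
            (G X s' * ((2 : ℝ) ^ j) ^ (-(15 / 16) : ℝ)) *
            (G X s'' * ((2 : ℝ) ^ l) ^ (-(15 / 16) : ℝ)) := by
          refine mul_le_mul (mul_le_mul g1 g2 p2.le (by positivity)) g3 p3.le (by positivity)
      _ = _ := by rw [e1]; ring
  calc (F.card : ℝ) ≤ 32 * (1 + (2 : ℝ) ^ (i + j + l) / X) * 1 := by rw [mul_one]; exact hcardR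
    _ ≤ 32 * (1 + (2 : ℝ) ^ (i + j + l) / X) *
        (Λ * (X : ℝ) ^ θ * (((2 : ℝ) ^ (i + j + l)) ^ (-(15 / 16) : ℝ) *
          (G X s * G X s' * G X s''))) := mul_le_mul_of_nonneg_left hwt (by positivity)
    _ = _ := by ring

open Classical in
/-- one dyadic box -/
theorem lin_box (θ Λ η : ℝ) (hΛ : 0 < Λ) (hη : 0 < η) : ∃ K : ℝ, 1 ≤ K ∧
    ∀ X : ℕ, 1 ≤ X → ∀ i j l : ℕ,
      (((BT X θ Λ).filter (fun t => (2 ^ i ≤ lin X t.1 ∧ lin X t.1 < 2 ^ (i + 1)) ∧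
        (2 ^ j ≤ lin X t.2 ∧ lin X t.2 < 2 ^ (j + 1)) ∧
        (2 ^ l ≤ lin X (t.1 + t.2) ∧ lin X (t.1 + t.2) < 2 ^ (l + 1)))).card : ℝ) ≤
      K * (X : ℝ) ^ (θ + η) * ((2 : ℝ) ^ (i + j + l)) ^ (-(15 / 16) : ℝ) *
        (1 + (2 : ℝ) ^ (i + j + l) / X) := by
  obtain ⟨K0, hK0, hS⟩ := S_bound (η / 3) (by positivity)
  refine ⟨max 1 (32 * Λ * K0 ^ 3), le_max_left _ _, fun X hX i j l => ?_⟩
  have hXr : (0 : ℝ) < X := by exact_mod_cast hX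
  have hmap : ∀ t ∈ ((BT X θ Λ).filter (fun t => (2 ^ i ≤ lin X t.1 ∧ lin X t.1 < 2 ^ (i + 1)) ∧
        (2 ^ j ≤ lin X t.2 ∧ lin X t.2 < 2 ^ (j + 1)) ∧
        (2 ^ l ≤ lin X (t.1 + t.2) ∧ lin X (t.1 + t.2) < 2 ^ (l + 1)))),
      (LinP_co X t.1, LinP_co X t.2, LinP_co X (t.1 + t.2)) ∈
        (Icc 1 X) ×ˢ (Icc 1 X) ×ˢ (Icc 1 X) := by
    intro t ht
    rw [mem_filter] at ht
    obtain ⟨a1, a2, b1, b2, ab, -⟩ := LinP_mem_BT ht.1
    simp only [mem_product, mem_Icc]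
    exact ⟨⟨LinP_co_pos _ _, (LinP_co_le X (by omega)).trans a2⟩,
      ⟨LinP_co_pos _ _, (LinP_co_le X (by omega)).trans b2⟩,
      ⟨LinP_co_pos _ _, (LinP_co_le X (by omega)).trans ab⟩⟩
  refine (LinP_count _ _ (fun t : ℕ × ℕ => (LinP_co X t.1, LinP_co X t.2,
    LinP_co X (t.1 + t.2))) hmap (fun u => (32 * Λ * (X : ℝ) ^ θ *
      ((2 : ℝ) ^ (i + j + l)) ^ (-(15 / 16) : ℝ) * (1 + (2 : ℝ) ^ (i + j + l) / X)) *
      (G X u.1 * G X u.2.1 * G X u.2.2))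
    (fun u _ => LinP_fiber θ Λ hΛ hX i j l u.1 u.2.1 u.2.2)).trans ?_
  rw [← mul_sum]
  have hsum := LinP_cube (Icc 1 X) (G X)
  rw [hsum]
  have hS0 : 0 ≤ ∑ m ∈ Icc 1 X, G X m := sum_nonneg fun m _ => (G_pos hX m).le
  have hS3 : (∑ m ∈ Icc 1 X, G X m) ^ 3 ≤ K0 ^ 3 * (X : ℝ) ^ η := by
    calc (∑ m ∈ Icc 1 X, G X m) ^ 3 ≤ (K0 * (X : ℝ) ^ (η / 3)) ^ 3 :=
          pow_le_pow_left₀ hS0 (hS X hX) 3
      _ = K0 ^ 3 * (X : ℝ) ^ η := by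
          rw [mul_pow, ← Real.rpow_natCast ((X : ℝ) ^ (η / 3)) 3, ← Real.rpow_mul hXr.le]
          congr 2
          push_cast
          ring
  have hW : (0 : ℝ) < ((2 : ℝ) ^ (i + j + l)) ^ (-(15 / 16) : ℝ) := by positivity
  calc (32 * Λ * (X : ℝ) ^ θ * ((2 : ℝ) ^ (i + j + l)) ^ (-(15 / 16) : ℝ) *
        (1 + (2 : ℝ) ^ (i + j + l) / X)) * (∑ m ∈ Icc 1 X, G X m) ^ 3 ≤
      (32 * Λ * (X : ℝ) ^ θ * ((2 : ℝ) ^ (i + j + l)) ^ (-(15 / 16) : ℝ) *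
        (1 + (2 : ℝ) ^ (i + j + l) / X)) * (K0 ^ 3 * (X : ℝ) ^ η) :=
        mul_le_mul_of_nonneg_left hS3 (by positivity)
    _ = (32 * Λ * K0 ^ 3) * ((X : ℝ) ^ θ * (X : ℝ) ^ η) *
        ((2 : ℝ) ^ (i + j + l)) ^ (-(15 / 16) : ℝ) * (1 + (2 : ℝ) ^ (i + j + l) / X) := by ring
    _ = (32 * Λ * K0 ^ 3) * (X : ℝ) ^ (θ + η) *
        ((2 : ℝ) ^ (i + j + l)) ^ (-(15 / 16) : ℝ) * (1 + (2 : ℝ) ^ (i + j + l) / X) := by
        rw [Real.rpow_add hXr]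
    _ ≤ _ := by
        refine mul_le_mul_of_nonneg_right (mul_le_mul_of_nonneg_right
          (mul_le_mul_of_nonneg_right (le_max_right _ _) (by positivity)) hW.le) (by positivity)

/-- the number of dyadic boxes -/
lemma LinP_log (η : ℝ) (hη : 0 < η) : ∃ K : ℝ, 1 ≤ K ∧ ∀ X : ℕ, 1 ≤ X →
    ((Nat.log 2 X + 1 : ℕ) : ℝ) ^ 3 ≤ K * (X : ℝ) ^ η := by
  have hl2 : (1 : ℝ) / 2 ≤ Real.log 2 := by have := Real.log_two_gt_d9; linarith
  have hη3 : (0 : ℝ) < η / 3 := by positivity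
  refine ⟨(2 / (η / 3) + 1) ^ 3, ?_, fun X hX => ?_⟩
  · refine one_le_pow₀ ?_
    have : 0 < 2 / (η / 3) := by positivity
    linarith
  have hXr : (0 : ℝ) < X := by exact_mod_cast hX
  have hX1 : (1 : ℝ) ≤ X := by exact_mod_cast hX
  have h1 : ((Nat.log 2 X : ℕ) : ℝ) ≤ 2 / (η / 3) * (X : ℝ) ^ (η / 3) := by
    have h2 : ((Nat.log 2 X : ℕ) : ℝ) * Real.log 2 ≤ Real.log X := by
      have h3 : ((2 ^ Nat.log 2 X : ℕ) : ℝ) ≤ X := by
        exact_mod_cast Nat.pow_log_le_self 2 (by omega)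
      have h4 := Real.log_le_log (by positivity) h3
      rwa [Nat.cast_pow, Real.log_pow, Nat.cast_ofNat] at h4
    have h5 : Real.log X ≤ (X : ℝ) ^ (η / 3) / (η / 3) := Real.log_le_rpow_div hXr.le hη3
    have h6 : ((Nat.log 2 X : ℕ) : ℝ) * (1 / 2) ≤ ((Nat.log 2 X : ℕ) : ℝ) * Real.log 2 :=
      mul_le_mul_of_nonneg_left hl2 (Nat.cast_nonneg _)
    have h7 : 2 / (η / 3) * (X : ℝ) ^ (η / 3) = 2 * ((X : ℝ) ^ (η / 3) / (η / 3)) := by ring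
    rw [h7]
    linarith
  have h2 : (1 : ℝ) ≤ (X : ℝ) ^ (η / 3) := Real.one_le_rpow hX1 hη3.le
  have h3 : ((Nat.log 2 X + 1 : ℕ) : ℝ) ≤ (2 / (η / 3) + 1) * (X : ℝ) ^ (η / 3) := by
    push_cast
    linarith
  calc ((Nat.log 2 X + 1 : ℕ) : ℝ) ^ 3 ≤ ((2 / (η / 3) + 1) * (X : ℝ) ^ (η / 3)) ^ 3 :=
        pow_le_pow_left₀ (Nat.cast_nonneg _) h3 3
    _ = _ := by
        rw [mul_pow, ← Real.rpow_natCast ((X : ℝ) ^ (η / 3)) 3, ← Real.rpow_mul hXr.le]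
        congr 2
        push_cast
        ring

/-- the estimate for one box -/
lemma LinP_real {θ x W : ℝ} (hθ : 0 < θ) (hθ1 : θ ≤ 2) (hx : 1 ≤ x) (hW : 0 < W)
    (h1 : x ^ (4 * θ / 9) ≤ 8 * W) (h2 : W ≤ x ^ 3) :
    x ^ (θ + θ / 100) * W ^ (-(15 / 16) : ℝ) * (1 + W / x) ≤
      9 * x ^ (2 * θ / 3 - θ / 36 - θ / 100) := by
  have hx0 : 0 < x := by linarith
  have e1 : x ^ (θ + θ / 100) * W ^ (-(15 / 16) : ℝ) * (1 + W / x) =
      x ^ (θ + θ / 100) * W ^ (-(15 / 16) : ℝ) + x ^ (θ + θ / 100 - 1) * W ^ (1 / 16 : ℝ) := by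
    have h3 : W ^ (1 / 16 : ℝ) = W ^ (-(15 / 16) : ℝ) * W := by
      rw [← Real.rpow_add_one hW.ne']
      norm_num
    rw [h3, Real.rpow_sub_one hx0.ne']
    ring
  have t1 : x ^ (θ + θ / 100) * W ^ (-(15 / 16) : ℝ) ≤
      8 * x ^ (2 * θ / 3 - θ / 36 - θ / 100) := by
    have h3 : W ^ (-(15 / 16) : ℝ) ≤ 8 * x ^ (-(5 * θ / 12)) := by
      have h4 : x ^ (4 * θ / 9) / 8 ≤ W := by linarith
      have h5 : 0 < x ^ (4 * θ / 9) := by positivity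
      calc W ^ (-(15 / 16) : ℝ) ≤ (x ^ (4 * θ / 9) / 8) ^ (-(15 / 16) : ℝ) :=
            Real.rpow_le_rpow_of_nonpos (by positivity) h4 (by norm_num)
        _ = (x ^ (4 * θ / 9)) ^ (-(15 / 16) : ℝ) / (8 : ℝ) ^ (-(15 / 16) : ℝ) :=
            Real.div_rpow h5.le (by norm_num) _
        _ = x ^ (-(5 * θ / 12)) * (8 : ℝ) ^ (15 / 16 : ℝ) := by
            rw [← Real.rpow_mul hx0.le, Real.rpow_neg (by norm_num : (0 : ℝ) ≤ 8), div_inv_eq_mul]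
            congr 2
            ring
        _ ≤ x ^ (-(5 * θ / 12)) * 8 := by
            refine mul_le_mul_of_nonneg_left ?_ (by positivity)
            calc (8 : ℝ) ^ (15 / 16 : ℝ) ≤ (8 : ℝ) ^ (1 : ℝ) :=
                  Real.rpow_le_rpow_of_exponent_le (by norm_num) (by norm_num)
              _ = 8 := Real.rpow_one _
        _ = 8 * x ^ (-(5 * θ / 12)) := mul_comm _ _
    calc x ^ (θ + θ / 100) * W ^ (-(15 / 16) : ℝ) ≤
          x ^ (θ + θ / 100) * (8 * x ^ (-(5 * θ / 12))) :=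
          mul_le_mul_of_nonneg_left h3 (by positivity)
      _ = 8 * x ^ (θ + θ / 100 + -(5 * θ / 12)) := by
          rw [Real.rpow_add hx0 (θ + θ / 100) (-(5 * θ / 12))]; ring
      _ ≤ 8 * x ^ (2 * θ / 3 - θ / 36 - θ / 100) := by
          refine mul_le_mul_of_nonneg_left ?_ (by norm_num)
          refine Real.rpow_le_rpow_of_exponent_le hx ?_
          linarith
  have t2 : x ^ (θ + θ / 100 - 1) * W ^ (1 / 16 : ℝ) ≤
      x ^ (2 * θ / 3 - θ / 36 - θ / 100) := by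
    have h3 : W ^ (1 / 16 : ℝ) ≤ x ^ (3 / 16 : ℝ) := by
      calc W ^ (1 / 16 : ℝ) ≤ (x ^ 3) ^ (1 / 16 : ℝ) :=
            Real.rpow_le_rpow hW.le h2 (by norm_num)
        _ = x ^ (3 / 16 : ℝ) := by
            rw [← Real.rpow_natCast x 3, ← Real.rpow_mul hx0.le]
            congr 1
            norm_num
    calc x ^ (θ + θ / 100 - 1) * W ^ (1 / 16 : ℝ) ≤
          x ^ (θ + θ / 100 - 1) * x ^ (3 / 16 : ℝ) :=
          mul_le_mul_of_nonneg_left h3 (by positivity)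
      _ = x ^ (θ + θ / 100 - 1 + 3 / 16) := (Real.rpow_add hx0 _ _).symm
      _ ≤ _ := by
          refine Real.rpow_le_rpow_of_exponent_le hx ?_
          linarith
  rw [e1]
  linarith


open Classical in
theorem linear_part (θ Λ : ℝ) (hθ : 0 < θ) (hθ1 : θ ≤ 2) (hΛ : 0 < Λ) : ∃ K : ℝ, 1 ≤ K ∧
    ∀ X : ℕ, 1 ≤ X →
      (((BT X θ Λ).filter (fun t => (X : ℝ) ^ (4 * θ / 9) ≤
        (lin X t.1 : ℝ) * lin X t.2 * lin X (t.1 + t.2))).card : ℝ) ≤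
      K * (X : ℝ) ^ (2 * θ / 3 - θ / 36) := by
  obtain ⟨K, hK, hbox⟩ := lin_box θ Λ (θ / 100) hΛ (by positivity)
  obtain ⟨K1, hK1, hlog⟩ := LinP_log (θ / 100) (by positivity)
  have hK0 : 0 < K := by linarith
  have hK10 : 0 < K1 := by linarith
  refine ⟨9 * K * K1, ?_, fun X hX => ?_⟩
  · have h1 : 1 ≤ K * K1 := one_le_mul_of_one_le_of_one_le hK hK1
    nlinarith
  have hXr : (0 : ℝ) < X := by exact_mod_cast hX
  have hX1 : (1 : ℝ) ≤ X := by exact_mod_cast hX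
  generalize hT : ((BT X θ Λ).filter (fun t => (X : ℝ) ^ (4 * θ / 9) ≤
        (lin X t.1 : ℝ) * lin X t.2 * lin X (t.1 + t.2))) = T
  have hmemT : ∀ t ∈ T, t ∈ BT X θ Λ ∧ (X : ℝ) ^ (4 * θ / 9) ≤
      (lin X t.1 : ℝ) * lin X t.2 * lin X (t.1 + t.2) := by
    intro t ht
    rw [← hT, mem_filter] at ht
    exact ht
  have hmap : ∀ t ∈ T, (Nat.log 2 (lin X t.1), Nat.log 2 (lin X t.2),
      Nat.log 2 (lin X (t.1 + t.2))) ∈ (range (Nat.log 2 X + 1)) ×ˢ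
        (range (Nat.log 2 X + 1)) ×ˢ (range (Nat.log 2 X + 1)) := by
    intro t ht
    obtain ⟨a1, a2, b1, b2, ab, -⟩ := LinP_mem_BT (hmemT t ht).1
    simp only [mem_product, mem_range, Nat.lt_succ_iff]
    exact ⟨Nat.log_mono_right ((LinP_lin_le X (by omega)).trans a2),
      Nat.log_mono_right ((LinP_lin_le X (by omega)).trans b2),
      Nat.log_mono_right ((LinP_lin_le X (by omega)).trans ab)⟩
  have hfib : ∀ u ∈ (range (Nat.log 2 X + 1)) ×ˢ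
        (range (Nat.log 2 X + 1)) ×ˢ (range (Nat.log 2 X + 1)),
      (((T.filter (fun t => (Nat.log 2 (lin X t.1), Nat.log 2 (lin X t.2),
        Nat.log 2 (lin X (t.1 + t.2))) = u)).card : ℕ) : ℝ) ≤
      9 * K * (X : ℝ) ^ (2 * θ / 3 - θ / 36 - θ / 100) := by
    rintro ⟨i, j, l⟩ -
    rcases (T.filter (fun t => (Nat.log 2 (lin X t.1), Nat.log 2 (lin X t.2),
        Nat.log 2 (lin X (t.1 + t.2))) = (i, j, l))).eq_empty_or_nonempty with h0 | ⟨t0, ht0⟩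
    · rw [h0, card_empty, Nat.cast_zero]
      positivity
    have hdy : ∀ n e : ℕ, Nat.log 2 (lin X n) = e →
        2 ^ e ≤ lin X n ∧ lin X n < 2 ^ (e + 1) := by
      intro n e he
      subst he
      exact ⟨Nat.pow_log_le_self 2 (LinP_lin_pos X n).ne', Nat.lt_pow_succ_log_self (by norm_num) _⟩
    have hsub : T.filter (fun t => (Nat.log 2 (lin X t.1), Nat.log 2 (lin X t.2),
        Nat.log 2 (lin X (t.1 + t.2))) = (i, j, l)) ⊆
        (BT X θ Λ).filter (fun t => (2 ^ i ≤ lin X t.1 ∧ lin X t.1 < 2 ^ (i + 1)) ∧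
        (2 ^ j ≤ lin X t.2 ∧ lin X t.2 < 2 ^ (j + 1)) ∧
        (2 ^ l ≤ lin X (t.1 + t.2) ∧ lin X (t.1 + t.2) < 2 ^ (l + 1))) := by
      intro t ht
      rw [mem_filter] at ht
      obtain ⟨h1, h2⟩ := ht
      simp only [Prod.mk.injEq] at h2
      rw [mem_filter]
      exact ⟨(hmemT t h1).1, hdy _ _ h2.1, hdy _ _ h2.2.1, hdy _ _ h2.2.2⟩
    have hcard : (((T.filter (fun t => (Nat.log 2 (lin X t.1), Nat.log 2 (lin X t.2),
        Nat.log 2 (lin X (t.1 + t.2))) = (i, j, l))).card : ℕ) : ℝ) ≤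
        K * (X : ℝ) ^ (θ + θ / 100) * ((2 : ℝ) ^ (i + j + l)) ^ (-(15 / 16) : ℝ) *
        (1 + (2 : ℝ) ^ (i + j + l) / X) :=
      le_trans (by exact_mod_cast card_le_card hsub) (hbox X hX i j l)
    rw [mem_filter] at ht0
    obtain ⟨h1, h2⟩ := ht0
    simp only [Prod.mk.injEq] at h2
    obtain ⟨hB0, hbig⟩ := hmemT t0 h1
    obtain ⟨a1, a2, b1, b2, ab, -⟩ := LinP_mem_BT hB0
    obtain ⟨i1, i2⟩ := hdy _ _ h2.1
    obtain ⟨j1, j2⟩ := hdy _ _ h2.2.1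
    obtain ⟨l1, l2⟩ := hdy _ _ h2.2.2
    have hW : (0 : ℝ) < (2 : ℝ) ^ (i + j + l) := by positivity
    have hWlow : (X : ℝ) ^ (4 * θ / 9) ≤ 8 * (2 : ℝ) ^ (i + j + l) := by
      refine hbig.trans ?_
      have k1 : (lin X t0.1 : ℝ) ≤ 2 ^ (i + 1) := by exact_mod_cast i2.le
      have k2 : (lin X t0.2 : ℝ) ≤ 2 ^ (j + 1) := by exact_mod_cast j2.le
      have k3 : (lin X (t0.1 + t0.2) : ℝ) ≤ 2 ^ (l + 1) := by exact_mod_cast l2.le
      calc (lin X t0.1 : ℝ) * lin X t0.2 * lin X (t0.1 + t0.2) ≤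
            2 ^ (i + 1) * 2 ^ (j + 1) * 2 ^ (l + 1) := by gcongr
        _ = 8 * (2 : ℝ) ^ (i + j + l) := by
            rw [pow_succ, pow_succ, pow_succ, pow_add, pow_add]; ring
    have hWup : (2 : ℝ) ^ (i + j + l) ≤ (X : ℝ) ^ 3 := by
      have k1 : (2 : ℝ) ^ i ≤ X := by
        exact_mod_cast i1.trans ((LinP_lin_le X (by omega)).trans a2)
      have k2 : (2 : ℝ) ^ j ≤ X := by
        exact_mod_cast j1.trans ((LinP_lin_le X (by omega)).trans b2)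
      have k3 : (2 : ℝ) ^ l ≤ X := by
        exact_mod_cast l1.trans ((LinP_lin_le X (by omega)).trans ab)
      calc (2 : ℝ) ^ (i + j + l) = 2 ^ i * 2 ^ j * 2 ^ l := by rw [pow_add, pow_add]
        _ ≤ X * X * X := by gcongr
        _ = (X : ℝ) ^ 3 := by ring
    have hreal := LinP_real hθ hθ1 hX1 hW hWlow hWup
    calc _ ≤ K * (X : ℝ) ^ (θ + θ / 100) * ((2 : ℝ) ^ (i + j + l)) ^ (-(15 / 16) : ℝ) *
        (1 + (2 : ℝ) ^ (i + j + l) / X) := hcard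
      _ = K * ((X : ℝ) ^ (θ + θ / 100) * ((2 : ℝ) ^ (i + j + l)) ^ (-(15 / 16) : ℝ) *
        (1 + (2 : ℝ) ^ (i + j + l) / X)) := by ring
      _ ≤ K * (9 * (X : ℝ) ^ (2 * θ / 3 - θ / 36 - θ / 100)) :=
          mul_le_mul_of_nonneg_left hreal hK0.le
      _ = _ := by ring
  refine (LinP_count T _ (fun t : ℕ × ℕ => (Nat.log 2 (lin X t.1), Nat.log 2 (lin X t.2),
    Nat.log 2 (lin X (t.1 + t.2)))) hmap
    (fun _ => 9 * K * (X : ℝ) ^ (2 * θ / 3 - θ / 36 - θ / 100)) hfib).trans ?_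
  rw [sum_const, card_product, card_product, card_range, nsmul_eq_mul]
  have hlogX := hlog X hX
  have hn : (((Nat.log 2 X + 1) * ((Nat.log 2 X + 1) * (Nat.log 2 X + 1)) : ℕ) : ℝ) =
      ((Nat.log 2 X + 1 : ℕ) : ℝ) ^ 3 := by push_cast; ring
  rw [hn]
  calc ((Nat.log 2 X + 1 : ℕ) : ℝ) ^ 3 * (9 * K * (X : ℝ) ^ (2 * θ / 3 - θ / 36 - θ / 100)) ≤
        (K1 * (X : ℝ) ^ (θ / 100)) * (9 * K * (X : ℝ) ^ (2 * θ / 3 - θ / 36 - θ / 100)) :=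
        mul_le_mul_of_nonneg_right hlogX (by positivity)
    _ = 9 * K * K1 * ((X : ℝ) ^ (2 * θ / 3 - θ / 36 - θ / 100) * (X : ℝ) ^ (θ / 100)) := by ring
    _ = 9 * K * K1 * (X : ℝ) ^ (2 * θ / 3 - θ / 36) := by
        rw [← Real.rpow_add hXr]
        congr 2
        ring

end Pool.Agent.helper41.EX
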