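import Pool.Agent.helper41.EX.Count

/-! # EXS-Unbal: few bad triples have a small `G` -/

namespace Pool.Agent.helper41.EX

open Finset

/-- the general count: pairs injected into the square of `[1, X]`, each of weight at least one -/
theorem Unbal_case (X : ℕ) (hX : 1 ≤ X) (c : ℝ) (hc : 0 ≤ c) (T : Finset (ℕ × ℕ))
    (f g : ℕ × ℕ → ℕ)
    (hinj : ∀ t ∈ T, ∀ u ∈ T, f t = f u → g t = g u → t = u)
    (hf : ∀ t ∈ T, f t ∈ Icc 1 X) (hg : ∀ t ∈ T, g t ∈ Icc 1 X)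
    (h : ∀ t ∈ T, 1 ≤ c * (G X (f t) * G X (g t))) :
    (T.card : ℝ) ≤ c * ((∑ m ∈ Icc 1 X, G X m) * (∑ m ∈ Icc 1 X, G X m)) := by
  have h1 : (T.card : ℝ) ≤ ∑ t ∈ T, c * (G X (f t) * G X (g t)) := by
    have : (T.card : ℝ) = ∑ _t ∈ T, (1 : ℝ) := by simp
    rw [this]
    exact Finset.sum_le_sum h
  have h2 : ∑ t ∈ T, (G X (f t) * G X (g t)) =
      ∑ q ∈ T.image (fun t => (f t, g t)), (G X q.1 * G X q.2) := by
    rw [Finset.sum_image]
    intro t ht u hu htu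
    have := Prod.mk.inj htu
    exact hinj t ht u hu this.1 this.2
  have h3 : ∑ q ∈ T.image (fun t => (f t, g t)), (G X q.1 * G X q.2) ≤
      ∑ q ∈ (Icc 1 X) ×ˢ (Icc 1 X), (G X q.1 * G X q.2) := by
    apply Finset.sum_le_sum_of_subset_of_nonneg
    · intro q hq
      rw [Finset.mem_image] at hq
      obtain ⟨t, ht, rfl⟩ := hq
      exact Finset.mem_product.2 ⟨hf t ht, hg t ht⟩
    · intro q _ _
      exact mul_nonneg (G_pos hX _).le (G_pos hX _).le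
  rw [← Finset.mul_sum, h2] at h1
  rw [Finset.sum_mul_sum, ← Finset.sum_product']
  exact h1.trans (mul_le_mul_of_nonneg_left h3 hc)

/-- removing the small factor -/
theorem Unbal_step {c u v x y z : ℝ} (hc : 0 ≤ c) (hy : 0 ≤ y) (hz : 0 ≤ z)
    (hx : x ≤ v) (h : 1 ≤ c * u * (x * y * z)) (hu : 0 ≤ u) :
    1 ≤ (c * (u * v)) * (y * z) := by
  calc (1 : ℝ) ≤ c * u * (x * y * z) := h
    _ = (c * u * (y * z)) * x := by ring
    _ ≤ (c * u * (y * z)) * v :=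
        mul_le_mul_of_nonneg_left hx (mul_nonneg (mul_nonneg hc hu) (mul_nonneg hy hz))
    _ = (c * (u * v)) * (y * z) := by ring

open Classical in
theorem unbalanced (θ σ Λ : ℝ) (hθ : 0 < θ) (hσ : 0 < σ) (hΛ : 0 < Λ) : ∃ K : ℝ, 1 ≤ K ∧
    ∀ X : ℕ, 1 ≤ X →
      (((BT X θ Λ).filter (fun t => G X t.1 < (X : ℝ) ^ (-(θ / 3) - σ) ∨
        G X t.2 < (X : ℝ) ^ (-(θ / 3) - σ) ∨ G X (t.1 + t.2) < (X : ℝ) ^ (-(θ / 3) - σ))).card
        : ℝ) ≤ K * (X : ℝ) ^ (2 * θ / 3 - σ / 2) := by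
  obtain ⟨K, hK1, hK⟩ := S_bound (σ / 4) (by positivity)
  refine ⟨max 1 (3 * (Λ * (K * K))), le_max_left _ _, ?_⟩
  intro X hX
  have hX0 : (0 : ℝ) < X := by exact_mod_cast hX
  have hK0 : (0 : ℝ) ≤ K := by linarith
  set S : ℝ := ∑ m ∈ Icc 1 X, G X m with hS
  have hS0 : 0 ≤ S := Finset.sum_nonneg (fun m _ => (G_pos hX m).le)
  have hSK : S ≤ K * (X : ℝ) ^ (σ / 4) := hK X hX
  set v : ℝ := (X : ℝ) ^ (-(θ / 3) - σ) with hv
  have hv0 : 0 < v := Real.rpow_pos_of_pos hX0 _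
  set u : ℝ := (X : ℝ) ^ θ with hu
  have hu0 : 0 < u := Real.rpow_pos_of_pos hX0 _
  -- the common bound
  have hbd : Λ * (u * v) * (S * S) ≤ (Λ * (K * K)) * (X : ℝ) ^ (2 * θ / 3 - σ / 2) := by
    have h1 : S * S ≤ (K * (X : ℝ) ^ (σ / 4)) * (K * (X : ℝ) ^ (σ / 4)) :=
      mul_le_mul hSK hSK hS0 (hS0.trans hSK)
    have h2 : (X : ℝ) ^ (2 * θ / 3 - σ / 2) =
        (u * v) * ((X : ℝ) ^ (σ / 4) * (X : ℝ) ^ (σ / 4)) := by
      rw [hu, hv, ← Real.rpow_add hX0, ← Real.rpow_add hX0, ← Real.rpow_add hX0]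
      congr 1
      ring
    rw [h2]
    calc Λ * (u * v) * (S * S)
        ≤ Λ * (u * v) * ((K * (X : ℝ) ^ (σ / 4)) * (K * (X : ℝ) ^ (σ / 4))) :=
          mul_le_mul_of_nonneg_left h1 (mul_nonneg hΛ.le (mul_nonneg hu0.le hv0.le))
      _ = (Λ * (K * K)) * ((u * v) * ((X : ℝ) ^ (σ / 4) * (X : ℝ) ^ (σ / 4))) := by ring
  have hc0 : 0 ≤ Λ * (u * v) := mul_nonneg hΛ.le (mul_nonneg hu0.le hv0.le)
  -- membership facts
  have hmem : ∀ t ∈ BT X θ Λ, t.1 ∈ Icc 1 X ∧ t.2 ∈ Icc 1 X ∧ t.1 + t.2 ∈ Icc 1 X ∧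
      1 ≤ Λ * u * (G X t.1 * G X t.2 * G X (t.1 + t.2)) := by
    intro t ht
    unfold BT at ht
    rw [Finset.mem_filter, Finset.mem_product] at ht
    obtain ⟨⟨h1, h2⟩, h3, _, _, h5⟩ := ht
    refine ⟨h1, h2, ?_, h5⟩
    rw [Finset.mem_Icc] at h1 ⊢
    omega
  have hA : (((BT X θ Λ).filter (fun t => G X t.1 < v)).card : ℝ) ≤ Λ * (u * v) * (S * S) := by
    apply Unbal_case X hX _ hc0 _ (fun t => t.2) (fun t => t.1 + t.2)
    · intro t _ w _ h1 h2
      ext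
      · omega
      · exact h1
    · intro t ht
      exact (hmem t (Finset.mem_filter.1 ht).1).2.1
    · intro t ht
      exact (hmem t (Finset.mem_filter.1 ht).1).2.2.1
    · intro t ht
      obtain ⟨ht1, ht2⟩ := Finset.mem_filter.1 ht
      exact Unbal_step hΛ.le (G_pos hX _).le (G_pos hX _).le ht2.le (hmem t ht1).2.2.2 hu0.le
  have hB : (((BT X θ Λ).filter (fun t => G X t.2 < v)).card : ℝ) ≤ Λ * (u * v) * (S * S) := by
    apply Unbal_case X hX _ hc0 _ (fun t => t.1) (fun t => t.1 + t.2)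
    · intro t _ w _ h1 h2
      ext
      · exact h1
      · omega
    · intro t ht
      exact (hmem t (Finset.mem_filter.1 ht).1).1
    · intro t ht
      exact (hmem t (Finset.mem_filter.1 ht).1).2.2.1
    · intro t ht
      obtain ⟨ht1, ht2⟩ := Finset.mem_filter.1 ht
      have h5 := (hmem t ht1).2.2.2
      rw [mul_comm (G X t.1) (G X t.2)] at h5
      exact Unbal_step hΛ.le (G_pos hX _).le (G_pos hX _).le ht2.le h5 hu0.le
  have hC : (((BT X θ Λ).filter (fun t => G X (t.1 + t.2) < v)).card : ℝ) ≤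
      Λ * (u * v) * (S * S) := by
    apply Unbal_case X hX _ hc0 _ (fun t => t.1) (fun t => t.2)
    · intro t _ w _ h1 h2
      exact Prod.ext h1 h2
    · intro t ht
      exact (hmem t (Finset.mem_filter.1 ht).1).1
    · intro t ht
      exact (hmem t (Finset.mem_filter.1 ht).1).2.1
    · intro t ht
      obtain ⟨ht1, ht2⟩ := Finset.mem_filter.1 ht
      have h5 := (hmem t ht1).2.2.2
      have h6 : G X t.1 * G X t.2 * G X (t.1 + t.2) =
          G X (t.1 + t.2) * G X t.1 * G X t.2 := by ring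
      rw [h6] at h5
      exact Unbal_step hΛ.le (G_pos hX _).le (G_pos hX _).le ht2.le h5 hu0.le
  have hsub : (BT X θ Λ).filter (fun t => G X t.1 < v ∨ G X t.2 < v ∨ G X (t.1 + t.2) < v) ⊆
      ((BT X θ Λ).filter (fun t => G X t.1 < v)) ∪
      (((BT X θ Λ).filter (fun t => G X t.2 < v)) ∪
        ((BT X θ Λ).filter (fun t => G X (t.1 + t.2) < v))) := by
    intro t ht
    obtain ⟨h1, h2⟩ := Finset.mem_filter.1 ht
    rw [Finset.mem_union, Finset.mem_union, Finset.mem_filter, Finset.mem_filter,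
      Finset.mem_filter]
    rcases h2 with h2 | h2 | h2
    · exact Or.inl ⟨h1, h2⟩
    · exact Or.inr (Or.inl ⟨h1, h2⟩)
    · exact Or.inr (Or.inr ⟨h1, h2⟩)
  have hcard : (((BT X θ Λ).filter
      (fun t => G X t.1 < v ∨ G X t.2 < v ∨ G X (t.1 + t.2) < v)).card : ℝ) ≤
      (((BT X θ Λ).filter (fun t => G X t.1 < v)).card : ℝ) +
      ((((BT X θ Λ).filter (fun t => G X t.2 < v)).card : ℝ) +
        (((BT X θ Λ).filter (fun t => G X (t.1 + t.2) < v)).card : ℝ)) := by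
    have h1 := Finset.card_le_card hsub
    have h2 := h1.trans (Finset.card_union_le _ _)
    have h3 := h2.trans (Nat.add_le_add_left (Finset.card_union_le _ _) _)
    exact_mod_cast h3
  have hP : (0 : ℝ) ≤ (X : ℝ) ^ (2 * θ / 3 - σ / 2) := Real.rpow_nonneg hX0.le _
  have hfin : 3 * (Λ * (K * K)) * (X : ℝ) ^ (2 * θ / 3 - σ / 2) ≤
      max 1 (3 * (Λ * (K * K))) * (X : ℝ) ^ (2 * θ / 3 - σ / 2) :=
    mul_le_mul_of_nonneg_right (le_max_right _ _) hP
  linarith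

end Pool.Agent.helper41.EX
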