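import Pool.Agent.helper41.EX.Bal
import Pool.Agent.helper41.EX.Unbal
import Pool.Agent.helper41.EX.LinP

/-! # EXS-MT: the number of bad triples -/

namespace Pool.Agent.helper41.EX

open Finset

/-- if the product of three numbers is below `x ^ (3 a)`, one of them is at most `x ^ a` -/
theorem MT_one_small {x a u v w : ℝ} (hx : 0 < x) (h : u * v * w < x ^ (3 * a)) :
    u ≤ x ^ a ∨ v ≤ x ^ a ∨ w ≤ x ^ a := by
  by_contra hcon
  push Not at hcon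
  obtain ⟨h1, h2, h3⟩ := hcon
  have hp : 0 < x ^ a := Real.rpow_pos_of_pos hx a
  have e : x ^ (3 * a) = x ^ a * x ^ a * x ^ a := by
    rw [← Real.rpow_add hx, ← Real.rpow_add hx]
    congr 1
    ring
  rw [e] at h
  have h4 : x ^ a * x ^ a ≤ u * v := mul_le_mul h1.le h2.le hp.le (hp.le.trans h1.le)
  have h5 : x ^ a * x ^ a * x ^ a ≤ u * v * w :=
    mul_le_mul h4 h3.le hp.le ((mul_pos hp hp).le.trans h4)
  linarith

theorem MT_card_le (X : ℕ) (θ Λ : ℝ) : ((BT X θ Λ).card : ℝ) ≤ (X : ℝ) ^ 2 := by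
  classical
  have h1 : (BT X θ Λ).card ≤ X * X := by
    unfold BT
    refine (Finset.card_filter_le _ _).trans ?_
    rw [Finset.card_product, Nat.card_Icc]
    simp
  calc ((BT X θ Λ).card : ℝ) ≤ ((X * X : ℕ) : ℝ) := by exact_mod_cast h1
    _ = (X : ℝ) ^ 2 := by push_cast; ring

theorem MT (θ : ℝ) (hθ : 0 < θ) (hθ1 : θ ≤ 2) : ∃ δ : ℝ, 0 < δ ∧ ∀ Λ : ℝ, 0 < Λ →
    ∃ K : ℝ, 1 ≤ K ∧ ∀ X : ℕ, 1 ≤ X →
      ((BT X θ Λ).card : ℝ) ≤ K * (X : ℝ) ^ (2 * θ / 3 - δ) := by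
  classical
  obtain ⟨σ, hσ, X0, hbal⟩ := balanced θ hθ hθ1
  refine ⟨min (σ / 2) (θ / 36), lt_min (by linarith) (by linarith), fun Λ hΛ => ?_⟩
  set δ : ℝ := min (σ / 2) (θ / 36) with hδ
  have hδ1 : δ ≤ σ / 2 := min_le_left _ _
  have hδ2 : δ ≤ θ / 36 := min_le_right _ _
  obtain ⟨K1, hK1, h1⟩ := unbalanced θ σ Λ hθ hσ hΛ
  obtain ⟨K2, hK2, h2⟩ := linear_part θ Λ hθ hθ1 hΛ
  have hX0 : (0 : ℝ) ≤ (X0 : ℝ) ^ 2 := by positivity
  refine ⟨(X0 : ℝ) ^ 2 + K1 + K2 + 1, by linarith, fun X hX => ?_⟩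
  have hXr : (1 : ℝ) ≤ (X : ℝ) := by exact_mod_cast hX
  have hXp : (0 : ℝ) < (X : ℝ) := by linarith
  have hE1 : (1 : ℝ) ≤ (X : ℝ) ^ (2 * θ / 3 - δ) :=
    Real.one_le_rpow hXr (by linarith)
  set E : ℝ := (X : ℝ) ^ (2 * θ / 3 - δ) with hE
  rcases lt_or_ge X X0 with hlt | hge
  · have h3 : ((BT X θ Λ).card : ℝ) ≤ (X0 : ℝ) ^ 2 := by
      refine (MT_card_le X θ Λ).trans ?_
      have : (X : ℝ) ≤ (X0 : ℝ) := by exact_mod_cast hlt.le
      exact pow_le_pow_left₀ hXp.le this 2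
    have h4 : (X0 : ℝ) ^ 2 ≤ ((X0 : ℝ) ^ 2 + K1 + K2 + 1) * E := by
      nlinarith
    linarith
  · have hU := h1 X hX
    have hL := h2 X hX
    set U := (BT X θ Λ).filter (fun t => G X t.1 < (X : ℝ) ^ (-(θ / 3) - σ) ∨
        G X t.2 < (X : ℝ) ^ (-(θ / 3) - σ) ∨ G X (t.1 + t.2) < (X : ℝ) ^ (-(θ / 3) - σ)) with hUd
    set L := (BT X θ Λ).filter (fun t => (X : ℝ) ^ (4 * θ / 9) ≤
        (lin X t.1 : ℝ) * lin X t.2 * lin X (t.1 + t.2)) with hLd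
    set R := (BT X θ Λ).filter (fun t => t ∉ U ∧ t ∉ L) with hRd
    have hR : (R.card : ℝ) ≤ (X : ℝ) ^ (2 * θ / 3 - σ) := by
      refine hbal X hge R fun t ht => ?_
      obtain ⟨htB, htU, htL⟩ := Finset.mem_filter.1 ht
      have hB := htB
      unfold BT at hB
      rw [Finset.mem_filter, Finset.mem_product, Finset.mem_Icc, Finset.mem_Icc] at hB
      obtain ⟨⟨⟨ha1, -⟩, hb1, -⟩, hs, -⟩ := hB
      have hU' : ¬ (G X t.1 < (X : ℝ) ^ (-(θ / 3) - σ) ∨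
        G X t.2 < (X : ℝ) ^ (-(θ / 3) - σ) ∨ G X (t.1 + t.2) < (X : ℝ) ^ (-(θ / 3) - σ)) :=
        fun h => htU (Finset.mem_filter.2 ⟨htB, h⟩)
      have hL' : ¬ ((X : ℝ) ^ (4 * θ / 9) ≤
        (lin X t.1 : ℝ) * lin X t.2 * lin X (t.1 + t.2)) :=
        fun h => htL (Finset.mem_filter.2 ⟨htB, h⟩)
      push Not at hU' hL'
      refine ⟨ha1, hb1, hs, hU'.1, hU'.2.1, hU'.2.2, MT_one_small hXp ?_⟩
      have e : 3 * (4 * θ / 27) = 4 * θ / 9 := by ring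
      rw [e]
      exact hL'
    have hsub : BT X θ Λ ⊆ (U ∪ L) ∪ R := by
      intro t ht
      by_cases hu : t ∈ U
      · exact Finset.mem_union_left _ (Finset.mem_union_left _ hu)
      · by_cases hl : t ∈ L
        · exact Finset.mem_union_left _ (Finset.mem_union_right _ hl)
        · exact Finset.mem_union_right _ (Finset.mem_filter.2 ⟨ht, hu, hl⟩)
    have hcard : (BT X θ Λ).card ≤ U.card + L.card + R.card := by
      refine (Finset.card_le_card hsub).trans ((Finset.card_union_le _ _).trans ?_)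
      exact Nat.add_le_add_right (Finset.card_union_le _ _) _
    have hcard' : ((BT X θ Λ).card : ℝ) ≤ U.card + L.card + R.card := by exact_mod_cast hcard
    have e1 : (X : ℝ) ^ (2 * θ / 3 - σ / 2) ≤ E :=
      Real.rpow_le_rpow_of_exponent_le hXr (by linarith)
    have e2 : (X : ℝ) ^ (2 * θ / 3 - θ / 36) ≤ E :=
      Real.rpow_le_rpow_of_exponent_le hXr (by linarith)
    have e3 : (X : ℝ) ^ (2 * θ / 3 - σ) ≤ E :=
      Real.rpow_le_rpow_of_exponent_le hXr (by linarith)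
    have f1 : (U.card : ℝ) ≤ K1 * E :=
      hU.trans (mul_le_mul_of_nonneg_left e1 (by linarith))
    have f2 : (L.card : ℝ) ≤ K2 * E :=
      hL.trans (mul_le_mul_of_nonneg_left e2 (by linarith))
    have f3 : (R.card : ℝ) ≤ E := hR.trans e3
    have hX0E : 0 ≤ (X0 : ℝ) ^ 2 * E := mul_nonneg hX0 (by linarith)
    calc ((BT X θ Λ).card : ℝ) ≤ U.card + L.card + R.card := hcard'
      _ ≤ K1 * E + K2 * E + E := by linarith
      _ ≤ ((X0 : ℝ) ^ 2 + K1 + K2 + 1) * E := by linarith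

end Pool.Agent.helper41.EX
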