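import Pool.Agent.helper41.EX.Blr

/-! # EXS-NoHom: there is no approximate section `F_r → Z/w` -/

namespace Pool.Agent.helper41.EX

open Finset

/-- if `m` times a representative vanishes modulo `w` -/
theorem NoHom_dvd {w : ℕ} (hw : 1 ≤ w) (t : ZMod w) : w ∣ addOrderOf t * t.val := by
  haveI : NeZero w := ⟨by omega⟩
  have h := addOrderOf_nsmul_eq_zero t
  rw [nsmul_eq_mul] at h
  rw [← ZMod.natCast_eq_zero_iff, Nat.cast_mul, ZMod.natCast_zmod_val]
  exact h

theorem NoHom_cast {w q : ℕ} (hw : 1 ≤ w) (hqw : q ∣ w) (t : ZMod w) :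
    ZMod.castHom hqw (ZMod q) t = 0 ↔ q ∣ t.val := by
  haveI : NeZero w := ⟨by omega⟩
  have h : ZMod.castHom hqw (ZMod q) t = ((t.val : ℕ) : ZMod q) := by
    conv_lhs => rw [← ZMod.natCast_zmod_val t]
    exact map_natCast _ _
  rw [h, ZMod.natCast_eq_zero_iff]

/-- if `t ∈ Z/w` is non-zero modulo the prime `q` then `q ^ v_q(w)` divides its order -/
theorem pow_dvd_order {w q : ℕ} (hw : 1 ≤ w) (hq : q.Prime) (hqw : q ∣ w) (t : ZMod w)
    (ht : ZMod.castHom hqw (ZMod q) t ≠ 0) : q ^ (w.factorization q) ∣ addOrderOf t := by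
  have h1 : ¬ q ∣ t.val := fun h => ht ((NoHom_cast hw hqw t).2 h)
  have h2 : q ^ (w.factorization q) ∣ addOrderOf t * t.val :=
    (Nat.ordProj_dvd w q).trans (NoHom_dvd hw t)
  have h3 : Nat.Coprime (q ^ (w.factorization q)) t.val :=
    Nat.Coprime.pow_left _ ((Nat.Prime.coprime_iff_not_dvd hq).2 h1)
  exact Nat.Coprime.dvd_of_dvd_mul_right h3 h2

/-- the orders: the sum of the logarithms -/
theorem NoHom_log {w Dmax : ℕ} (hw : 1 ≤ w) (W : Finset ℕ) (hW : W ⊆ w.primeFactors)
    (t : ZMod w) (ht : addOrderOf t ≤ Dmax) :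
    ∑ q ∈ W.filter (fun q => ¬ q ∣ t.val), (w.factorization q : ℝ) * Real.log q ≤
      Real.log Dmax := by
  haveI : NeZero w := ⟨by omega⟩
  have hpos : 0 < addOrderOf t := addOrderOf_pos t
  have hdvd : ∏ q ∈ W.filter (fun q => ¬ q ∣ t.val), q ^ (w.factorization q) ∣ addOrderOf t := by
    apply Finset.prod_dvd_of_isRelPrime
    · intro a ha b hb hab
      have ha' := Nat.prime_of_mem_primeFactors (hW (Finset.mem_filter.1 (Finset.mem_coe.1 ha)).1)
      have hb' := Nat.prime_of_mem_primeFactors (hW (Finset.mem_filter.1 (Finset.mem_coe.1 hb)).1)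
      exact Nat.coprime_iff_isRelPrime.1
        (Nat.coprime_pow_primes _ _ ha' hb' hab)
    · intro q hq
      obtain ⟨hq1, hq2⟩ := Finset.mem_filter.1 hq
      have hq3 := hW hq1
      exact pow_dvd_order hw (Nat.prime_of_mem_primeFactors hq3) (Nat.dvd_of_mem_primeFactors hq3)
        t (fun h => hq2 ((NoHom_cast hw _ t).1 h))
  have hle : ∏ q ∈ W.filter (fun q => ¬ q ∣ t.val), q ^ (w.factorization q) ≤ Dmax :=
    (Nat.le_of_dvd hpos hdvd).trans ht
  have hp : ∀ q ∈ W.filter (fun q => ¬ q ∣ t.val), ((q : ℝ) ^ (w.factorization q)) ≠ 0 := by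
    intro q hq
    have hq3 := Nat.prime_of_mem_primeFactors (hW (Finset.mem_filter.1 hq).1)
    exact pow_ne_zero _ (by exact_mod_cast hq3.ne_zero)
  have e : ∑ q ∈ W.filter (fun q => ¬ q ∣ t.val), (w.factorization q : ℝ) * Real.log q =
      Real.log (∏ q ∈ W.filter (fun q => ¬ q ∣ t.val), (q : ℝ) ^ (w.factorization q)) := by
    rw [Real.log_prod hp]
    exact Finset.sum_congr rfl fun q _ => (Real.log_pow _ _).symm
  rw [e]
  apply Real.log_le_log
  · apply Finset.prod_pos
    intro q hq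
    have hq3 := Nat.prime_of_mem_primeFactors (hW (Finset.mem_filter.1 hq).1)
    exact pow_pos (by exact_mod_cast hq3.pos) _
  · exact_mod_cast hle

/-- exchanging the sums -/
theorem NoHom_swap {X : Type*} [Fintype X] {w Dmax : ℕ} (hw : 1 ≤ w) (W : Finset ℕ)
    (hW : W ⊆ w.primeFactors) (T : X → ZMod w) (hT : ∀ x, addOrderOf (T x) ≤ Dmax) :
    ∑ q ∈ W, (w.factorization q : ℝ) * Real.log q *
      ((univ.filter (fun x : X => ¬ q ∣ (T x).val)).card : ℝ) ≤
      (Fintype.card X : ℝ) * Real.log Dmax := by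
  have e : ∑ q ∈ W, (w.factorization q : ℝ) * Real.log q *
      ((univ.filter (fun x : X => ¬ q ∣ (T x).val)).card : ℝ) =
      ∑ x : X, ∑ q ∈ W.filter (fun q => ¬ q ∣ (T x).val),
        (w.factorization q : ℝ) * Real.log q := by
    simp_rw [Finset.sum_filter]
    rw [Finset.sum_comm]
    refine Finset.sum_congr rfl fun q _ => ?_
    rw [← Finset.sum_filter, Finset.sum_const, nsmul_eq_mul, mul_comm]
  rw [e]
  calc _ ≤ ∑ _x : X, Real.log Dmax := Finset.sum_le_sum fun x _ => NoHom_log hw W hW (T x) (hT x)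
    _ = _ := by rw [Finset.sum_const, nsmul_eq_mul, Finset.card_univ]

theorem noApproxHom {r w Dmax : ℕ} [Fact r.Prime] (hw : 1 ≤ w) (hrw : r ∣ w)
    (φ : ZMod r → ZMod w) (hφ : ∀ x, ZMod.castHom hrw (ZMod r) (φ x) = x)
    (h2 : ∀ x x', addOrderOf (φ x + φ x' - φ (x + x')) ≤ Dmax)
    (h1 : ∀ x, addOrderOf (φ x + 1 - φ (x + 1)) ≤ Dmax)
    (hD2 : 2 ≤ Dmax) (hDr : Dmax < r) (hDw : Dmax ^ 100 * r ≤ w) : False := by
  haveI : NeZero w := ⟨by omega⟩
  have hr : r.Prime := Fact.out
  have hw0 : w ≠ 0 := by omega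
  -- the case `r ^ 2 ∣ w`
  have hr2 : ¬ r ^ 2 ∣ w := by
    intro hrr
    have hz : ∀ t : ZMod w, addOrderOf t ≤ Dmax →
        ZMod.castHom hrr (ZMod (r ^ 2)) t = 0 := by
      intro t ht
      rw [NoHom_cast hw hrr]
      have hpos : 0 < addOrderOf t := addOrderOf_pos t
      have hnd : ¬ r ∣ addOrderOf t := fun h =>
        absurd (Nat.le_of_dvd hpos h) (not_le.2 (lt_of_le_of_lt ht hDr))
      have hcop : Nat.Coprime (r ^ 2) (addOrderOf t) :=
        Nat.Coprime.pow_left _ ((Nat.Prime.coprime_iff_not_dvd hr).2 hnd)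
      exact Nat.Coprime.dvd_of_dvd_mul_left hcop (hrr.trans (NoHom_dvd hw t))
    let ψ : ZMod r →+ ZMod (r ^ 2) := AddMonoidHom.mk'
      (fun x => ZMod.castHom hrr (ZMod (r ^ 2)) (φ x)) (by
        intro a b
        have h := hz _ (h2 a b)
        rw [map_sub, map_add, sub_eq_zero] at h
        exact h.symm)
    have hψ : ψ 1 = ZMod.castHom hrr (ZMod (r ^ 2)) (φ 1) := rfl
    have hr1 : (r : ZMod (r ^ 2)) * ψ 1 = 0 := by
      have h3 : r • (1 : ZMod r) = 0 := by
        rw [nsmul_eq_mul, mul_one, ZMod.natCast_self]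
      have h4 := map_nsmul ψ r (1 : ZMod r)
      rw [h3, map_zero, nsmul_eq_mul] at h4
      exact h4.symm
    rw [hψ, ← map_natCast (ZMod.castHom hrr (ZMod (r ^ 2))) r, ← map_mul,
      ← ZMod.natCast_zmod_val (φ 1), ← Nat.cast_mul, map_natCast,
      ZMod.natCast_eq_zero_iff] at hr1
    have hdv : r ∣ (φ 1).val := by
      rw [pow_two] at hr1
      exact Nat.dvd_of_mul_dvd_mul_left hr.pos hr1
    have h5 := (NoHom_cast hw hrw (φ 1)).2 hdv
    rw [hφ] at h5
    exact one_ne_zero h5
  -- the set of the other primes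
  set W := w.primeFactors.erase r with hWdef
  have hW : W ⊆ w.primeFactors := Finset.erase_subset _ _
  have hrmem : r ∈ w.primeFactors := Nat.mem_primeFactors.2 ⟨hr, hrw, hw0⟩
  have he1 : w.factorization r = 1 := by
    have ha : 1 ≤ w.factorization r := by
      rw [← Nat.Prime.pow_dvd_iff_le_factorization hr hw0, pow_one]; exact hrw
    have hb : ¬ 2 ≤ w.factorization r := by
      rw [← Nat.Prime.pow_dvd_iff_le_factorization hr hw0]; exact hr2
    omega
  have hlogw : Real.log w = Real.log r + ∑ q ∈ W, (w.factorization q : ℝ) * Real.log q := by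
    have h3 : (w : ℝ) = ∏ q ∈ w.primeFactors, (q : ℝ) ^ (w.factorization q) := by
      conv_lhs => rw [← Nat.prod_factorization_pow_eq_self hw0]
      rw [Nat.prod_factorization_eq_prod_primeFactors]
      push_cast
      rfl
    have h4 : ∀ q ∈ w.primeFactors, ((q : ℝ) ^ (w.factorization q)) ≠ 0 := by
      intro q hq
      exact pow_ne_zero _ (by exact_mod_cast (Nat.prime_of_mem_primeFactors hq).ne_zero)
    have h5 : Real.log w = ∑ q ∈ w.primeFactors, (w.factorization q : ℝ) * Real.log q := by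
      rw [h3, Real.log_prod h4]
      exact Finset.sum_congr rfl fun q _ => Real.log_pow _ _
    rw [h5, ← Finset.add_sum_erase _ _ hrmem, he1, Nat.cast_one, one_mul]
  have hlogD : 0 < Real.log Dmax := Real.log_pos (by exact_mod_cast hD2)
  have hbig : 100 * Real.log Dmax + Real.log r ≤ Real.log w := by
    have h3 : Real.log ((Dmax : ℝ) ^ 100 * r) ≤ Real.log w := by
      apply Real.log_le_log
      · have : (0 : ℝ) < Dmax := by exact_mod_cast (by omega : 0 < Dmax)
        have h' : (0 : ℝ) < r := by exact_mod_cast hr.pos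
        positivity
      · exact_mod_cast hDw
    have h4 : Real.log ((Dmax : ℝ) ^ 100 * r) = 100 * Real.log Dmax + Real.log r := by
      rw [Real.log_mul, Real.log_pow]
      · norm_num
      · exact pow_ne_zero _ (by exact_mod_cast (by omega : Dmax ≠ 0))
      · exact_mod_cast hr.ne_zero
    rw [h4] at h3
    exact h3
  have hS : 100 * Real.log Dmax ≤ ∑ q ∈ W, (w.factorization q : ℝ) * Real.log q := by
    linarith
  -- the two averages
  have hA := NoHom_swap hw W hW (fun x : ZMod r => φ x + 1 - φ (x + 1)) h1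
  have hB := NoHom_swap hw W hW
    (fun p : ZMod r × ZMod r => φ p.1 + φ p.2 - φ (p.1 + p.2)) (fun p => h2 p.1 p.2)
  rw [ZMod.card] at hA
  rw [Fintype.card_prod, ZMod.card] at hB
  set c1 : ℕ → ℕ := fun q =>
    (univ.filter (fun x : ZMod r => ¬ q ∣ (φ x + 1 - φ (x + 1)).val)).card with hc1
  set c2 : ℕ → ℕ := fun q => (univ.filter (fun p : ZMod r × ZMod r =>
    ¬ q ∣ (φ p.1 + φ p.2 - φ (p.1 + p.2)).val)).card with hc2
  have hrpos : (0 : ℝ) < r := by exact_mod_cast hr.pos
  have hq : ∀ q ∈ W, (1 : ℝ) ≤ 20 * (c1 q : ℝ) / r + 20 * (c2 q : ℝ) / (r * r) := by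
    intro q hqW
    obtain ⟨hqr, hqm⟩ := Finset.mem_erase.1 hqW
    have hqp := Nat.prime_of_mem_primeFactors hqm
    have hqw := Nat.dvd_of_mem_primeFactors hqm
    by_contra hcon
    rw [not_le] at hcon
    have hn1 : (0 : ℝ) ≤ 20 * (c2 q : ℝ) / (r * r) := by positivity
    have hn2 : (0 : ℝ) ≤ 20 * (c1 q : ℝ) / r := by positivity
    have hl1 : 20 * c1 q ≤ r := by
      have h3 : 20 * (c1 q : ℝ) / r < 1 := by linarith
      rw [div_lt_one hrpos] at h3
      exact_mod_cast h3.le
    have hl2 : 20 * c2 q ≤ r ^ 2 := by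
      have h3 : 20 * (c2 q : ℝ) / (r * r) < 1 := by linarith
      rw [div_lt_one (by positivity)] at h3
      have h4 : 20 * c2 q < r * r := by exact_mod_cast h3
      rw [pow_two]
      exact h4.le
    haveI : Fact q.Prime := ⟨hqp⟩
    refine blr (r := r) (q := q) (Ne.symm hqr)
      (fun x => ZMod.castHom hqw (ZMod q) (φ x)) ?_ ?_
    · refine le_trans (Nat.mul_le_mul_left _ (Finset.card_le_card ?_)) hl1
      intro x hx
      rw [Finset.mem_filter] at hx ⊢
      refine ⟨hx.1, fun hdv => hx.2 ?_⟩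
      have h3 := (NoHom_cast hw hqw _).2 hdv
      rw [map_sub, map_add, map_one, sub_eq_zero] at h3
      exact h3.symm
    · refine le_trans (Nat.mul_le_mul_left _ (Finset.card_le_card ?_)) hl2
      intro x hx
      rw [Finset.mem_filter] at hx ⊢
      refine ⟨hx.1, fun hdv => hx.2 ?_⟩
      have h3 := (NoHom_cast hw hqw _).2 hdv
      rw [map_sub, map_add, sub_eq_zero] at h3
      exact h3.symm
  have hLnn : ∀ q ∈ W, (0 : ℝ) ≤ (w.factorization q : ℝ) * Real.log q := by
    intro q hqW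
    have hqp := Nat.prime_of_mem_primeFactors (hW hqW)
    have : (1 : ℝ) ≤ q := by exact_mod_cast hqp.one_le
    exact mul_nonneg (Nat.cast_nonneg _) (Real.log_nonneg this)
  have hfin : ∑ q ∈ W, (w.factorization q : ℝ) * Real.log q ≤ 40 * Real.log Dmax := by
    calc ∑ q ∈ W, (w.factorization q : ℝ) * Real.log q
        ≤ ∑ q ∈ W, (w.factorization q : ℝ) * Real.log q *
          (20 * (c1 q : ℝ) / r + 20 * (c2 q : ℝ) / (r * r)) := by
          refine Finset.sum_le_sum fun q hqW => ?_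
          exact le_mul_of_one_le_right (hLnn q hqW) (hq q hqW)
      _ = 20 / r * ∑ q ∈ W, (w.factorization q : ℝ) * Real.log q * (c1 q : ℝ) +
          20 / (r * r) * ∑ q ∈ W, (w.factorization q : ℝ) * Real.log q * (c2 q : ℝ) := by
          rw [Finset.mul_sum, Finset.mul_sum, ← Finset.sum_add_distrib]
          refine Finset.sum_congr rfl fun q _ => ?_
          ring
      _ ≤ 20 / r * ((r : ℝ) * Real.log Dmax) +
          20 / (r * r) * (((r * r : ℕ) : ℝ) * Real.log Dmax) := by
          refine add_le_add ?_ ?_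
          · exact mul_le_mul_of_nonneg_left hA (by positivity)
          · exact mul_le_mul_of_nonneg_left hB (by positivity)
      _ = 40 * Real.log Dmax := by
          push_cast
          field_simp
          ring
  linarith

end Pool.Agent.helper41.EX
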