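import Pool.Agent.helper41.EX.Defs

/-! # EXS-Regular: regularization of the fibres modulo `d` -/

namespace Pool.Agent.helper41.EX

open Finset
open scoped Pointwise

theorem regularize {d : ℕ} (hd : 1 ≤ d) (V : Finset ℤ) (hV : V.Nonempty) :
    ∃ V' : Finset ℤ, V' ⊆ V ∧ V'.Nonempty ∧ V.card ≤ (Nat.log 2 V.card + 1) * V'.card ∧
      (V'.image (fun v : ℤ => (v : ZMod d)) - V'.image (fun v : ℤ => (v : ZMod d))).card *
        V'.card ≤ 2 * nc d V' * (V - V).card := by
  classical
  set π : ℤ → ZMod d := fun v : ℤ => (v : ZMod d) with hπ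
  set s : ℤ → ℕ := fun v => (V.filter (fun u => π u = π v)).card with hs
  have hs_pos : ∀ v ∈ V, 1 ≤ s v := by
    intro v hv
    exact Finset.card_pos.2 ⟨v, by simp [hv]⟩
  have hs_le : ∀ v, s v ≤ V.card := fun v => Finset.card_le_card (Finset.filter_subset _ _)
  have hmaps : ∀ v ∈ V, Nat.log 2 (s v) ∈ Finset.range (Nat.log 2 V.card + 1) := by
    intro v _
    rw [Finset.mem_range]
    exact Nat.lt_succ_of_le (Nat.log_mono_right (hs_le v))
  have hex : ∃ i ∈ Finset.range (Nat.log 2 V.card + 1),
      V.card ≤ (Nat.log 2 V.card + 1) * (V.filter (fun v => Nat.log 2 (s v) = i)).card := by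
    by_contra hcon
    push Not at hcon
    have h1 : V.card = ∑ i ∈ Finset.range (Nat.log 2 V.card + 1),
        (V.filter (fun v => Nat.log 2 (s v) = i)).card :=
      Finset.card_eq_sum_card_fiberwise hmaps
    have h2 : (Nat.log 2 V.card + 1) * V.card < (Nat.log 2 V.card + 1) * V.card := by
      calc (Nat.log 2 V.card + 1) * V.card
          = ∑ i ∈ Finset.range (Nat.log 2 V.card + 1),
            (Nat.log 2 V.card + 1) * (V.filter (fun v => Nat.log 2 (s v) = i)).card := by
            rw [← Finset.mul_sum, ← h1]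
        _ < ∑ i ∈ Finset.range (Nat.log 2 V.card + 1), V.card := by
            apply Finset.sum_lt_sum_of_nonempty
            · exact ⟨0, by simp⟩
            · intro i hi
              exact hcon i hi
        _ = (Nat.log 2 V.card + 1) * V.card := by simp
    exact lt_irrefl _ h2
  obtain ⟨i, -, hi⟩ := hex
  set V' := V.filter (fun v => Nat.log 2 (s v) = i) with hV'
  have hne : V'.Nonempty := by
    rw [← Finset.card_pos]
    rcases Nat.eq_zero_or_pos V'.card with h | h
    · rw [h, Nat.mul_zero] at hi
      exact absurd (Finset.card_pos.2 hV) (by omega)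
    · exact h
  have hlow : ∀ v ∈ V', 2 ^ i ≤ s v := by
    intro v hv
    rw [hV', Finset.mem_filter] at hv
    rw [← hv.2]
    exact Nat.pow_log_le_self 2 (by have := hs_pos v hv.1; omega)
  have hupp : ∀ v ∈ V', s v ≤ 2 * 2 ^ i := by
    intro v hv
    rw [hV', Finset.mem_filter] at hv
    have h := Nat.lt_pow_succ_log_self (b := 2) (by norm_num) (s v)
    rw [hv.2, pow_succ] at h
    omega
  have hfib : ∀ v ∈ V', V'.filter (fun u => π u = π v) = V.filter (fun u => π u = π v) := by
    intro v hv
    rw [hV', Finset.mem_filter] at hv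
    ext u
    simp only [hV', Finset.mem_filter]
    constructor
    · rintro ⟨⟨h1, _⟩, h3⟩
      exact ⟨h1, h3⟩
    · rintro ⟨h1, h3⟩
      refine ⟨⟨h1, ?_⟩, h3⟩
      have : s u = s v := by
        simp only [hs, h3]
      rw [this]
      exact hv.2
  refine ⟨V', Finset.filter_subset _ _, hne, hi, ?_⟩
  have hcard : V'.card ≤ 2 * 2 ^ i * (V'.image π).card := by
    apply Finset.card_le_mul_card_image
    intro a ha
    obtain ⟨v, hv, rfl⟩ := Finset.mem_image.1 ha
    rw [hfib v hv]
    exact hupp v hv
  have himg : (V' - V').image π = V'.image π - V'.image π := by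
    ext a
    simp only [Finset.mem_image, Finset.mem_sub]
    constructor
    · rintro ⟨x, ⟨u, hu, v, hv, rfl⟩, rfl⟩
      exact ⟨π u, ⟨u, hu, rfl⟩, π v, ⟨v, hv, rfl⟩, by simp [hπ]⟩
    · rintro ⟨y, ⟨u, hu, rfl⟩, z, ⟨v, hv, rfl⟩, rfl⟩
      exact ⟨u - v, ⟨u, hu, v, hv, rfl⟩, by simp [hπ]⟩
  have hdiff : 2 ^ i * ((V' - V').image π).card ≤ (V' - V').card := by
    apply Finset.mul_card_image_le_card
    intro a ha
    rw [himg] at ha
    obtain ⟨y, hy, z, hz, rfl⟩ := Finset.mem_sub.1 ha
    obtain ⟨u, hu, rfl⟩ := Finset.mem_image.1 hy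
    obtain ⟨v, hv, rfl⟩ := Finset.mem_image.1 hz
    calc 2 ^ i ≤ s u := hlow u hu
      _ = (V'.filter (fun w => π w = π u)).card := by rw [hfib u hu]
      _ = ((V'.filter (fun w => π w = π u)).image (fun w => w - v)).card := by
          rw [Finset.card_image_of_injective _ (fun a b h => by simpa using h)]
      _ ≤ _ := by
          apply Finset.card_le_card
          intro x hx
          obtain ⟨w, hw, rfl⟩ := Finset.mem_image.1 hx
          rw [Finset.mem_filter] at hw ⊢
          refine ⟨Finset.sub_mem_sub hw.1 hv, ?_⟩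
          have := hw.2
          simp only [hπ] at this ⊢
          rw [Int.cast_sub, this]
  rw [himg] at hdiff
  have hsub : (V' - V').card ≤ (V - V).card :=
    Finset.card_le_card (Finset.sub_subset_sub (Finset.filter_subset _ _)
      (Finset.filter_subset _ _))
  have hnc : nc d V' = (V'.image π).card := rfl
  rw [hnc]
  calc (V'.image π - V'.image π).card * V'.card
      ≤ (V'.image π - V'.image π).card * (2 * 2 ^ i * (V'.image π).card) :=
        Nat.mul_le_mul_left _ hcard
    _ = 2 * (V'.image π).card * (2 ^ i * (V'.image π - V'.image π).card) := by ring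
    _ ≤ 2 * (V'.image π).card * (V - V).card :=
        Nat.mul_le_mul_left _ (le_trans hdiff hsub)

end Pool.Agent.helper41.EX
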