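import Pool.Agent.helper41.EX.InnerG
import Pool.Agent.helper41.EX.NoHom

/-! # EXS-StepR: the contradiction modulo `w` -/

namespace Pool.Agent.helper41.EX

open Finset
open scoped Pointwise

variable {P : Finset ℕ} {y0 y k Δ a0 : ℕ}

/-- if `g` separates everything that `f` separates then `f` has at most as many values -/
theorem card_image_le_of_factor {α β γ : Type*} [DecidableEq β] [DecidableEq γ]
    (V : Finset α) (f : α → β) (g : α → γ)
    (h : ∀ v ∈ V, ∀ v' ∈ V, g v = g v' → f v = f v') :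
    (V.image f).card ≤ (V.image g).card := by
  classical
  rcases V.eq_empty_or_nonempty with rfl | ⟨v0, hv0⟩
  · simp
  · let F : γ → β := fun z => if hz : ∃ v ∈ V, g v = z then f hz.choose else f v0
    have hF : ∀ v ∈ V, F (g v) = f v := by
      intro v hv
      have hz : ∃ v' ∈ V, g v' = g v := ⟨v, hv, rfl⟩
      have h1 : F (g v) = f hz.choose := dif_pos hz
      rw [h1]
      exact h _ hz.choose_spec.1 _ hv hz.choose_spec.2
    have himg : V.image f ⊆ (V.image g).image F := by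
      intro b hb
      obtain ⟨v, hv, rfl⟩ := Finset.mem_image.mp hb
      exact Finset.mem_image.mpr ⟨g v, Finset.mem_image_of_mem g hv, hF v hv⟩
    exact (Finset.card_le_card himg).trans Finset.card_image_le

theorem stepR (E : Env P y0 y k Δ a0) {m c c1 w r K2 t : ℕ} (hm : 2 * m ≤ k) (hrp : r.Prime)
    (hyr : y < r) (hr : r ≤ y ^ m) (hw : 1 ≤ w) (hrw : r ∣ w) (hwy : w ≤ y ^ (2 * m))
    {V : Finset ℤ} (hV : VV P Δ (2 * m) c V) (hcop : CopTo V w) (hVc : nc w V ≤ Δ ^ c1 * r)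
    (hK21 : 1 ≤ K2) (hK2 : ∀ Y : Finset ℤ, VV P Δ m (7 * c + 7) Y → r ≤ K2 * nc r Y)
    (ht : a0 ≤ 2 ^ t) (hbig : Δ ^ (2 * (a0 * (2 * c + 7) + 1) + a0) ≤ r)
    (hnum1 : (Δ ^ (28 * c + 28) * (Δ ^ c1 * K2) ^ 2) ^ (900 * a0 * 16 ^ (t + 2)) * r ≤ w)
    (hnum2 : (Δ ^ (28 * c + 28) * (Δ ^ c1 * K2) ^ 2) ^ (9 * a0 * 16 ^ (t + 2)) < r) :
    False := by
  classical
  have : Fact r.Prime := ⟨hrp⟩
  have hΔ4 : 4 ≤ Δ := E.four_le
  have hΔ1 : 1 ≤ Δ := by omega
  have ha0 : 1 ≤ a0 := E.a0_pos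
  have hr4 : 4 ≤ r := by
    refine le_trans hΔ4 (le_trans ?_ hbig)
    calc Δ = Δ ^ 1 := (pow_one Δ).symm
      _ ≤ _ := Nat.pow_le_pow_right hΔ1 (by omega)
  set K0 := Δ ^ c1 * K2 with hK0def
  have hK01 : 1 ≤ K0 := Nat.one_le_iff_ne_zero.mpr (by positivity)
  have hK0 : ∀ Y : Finset ℤ, VV P Δ m (7 * c + 7) Y → CopTo Y w → nc w V ≤ K0 * nc w Y := by
    intro Y hY _
    calc nc w V ≤ Δ ^ c1 * r := hVc
      _ ≤ Δ ^ c1 * (K2 * nc r Y) := Nat.mul_le_mul_left _ (hK2 Y hY)
      _ ≤ Δ ^ c1 * (K2 * nc w Y) :=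
          Nat.mul_le_mul_left _ (Nat.mul_le_mul_left _ (nc_dvd hrw Y))
      _ = K0 * nc w Y := by rw [hK0def]; ring
  obtain ⟨V', Y0, X0, x0, D, u, s, hV'V, hV'd, hY0, hY0c, hncY0, hx0, hX0, hX0d, hX0c, hAG,
    hDcard, hu, huD, hcov⟩ := structS E hm hw hV hcop K0 hK01 hK0
  set π : ZMod w →+* ZMod r := ZMod.castHom hrw (ZMod r) with hπ
  set K1 := Δ ^ (10 * c + 10) with hK1def
  set K := Δ ^ (18 * c + 18) * K0 ^ 2 with hKdef
  have hK1 : 1 ≤ K1 := Nat.one_le_pow _ _ hΔ1
  have hK : 1 ≤ K := Nat.one_le_iff_ne_zero.mpr (by positivity)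
  set B0 := Δ ^ (28 * c + 28) * K0 ^ 2 with hB0def
  have hKK1 : K * K1 = B0 := by
    rw [hKdef, hK1def, hB0def]
    have : Δ ^ (28 * c + 28) = Δ ^ (18 * c + 18) * Δ ^ (10 * c + 10) := by
      rw [← pow_add]; congr 1; ring
    rw [this]; ring
  have hB01 : 1 ≤ B0 := Nat.one_le_iff_ne_zero.mpr (by positivity)
  -- the dilates
  set S : Finset (ZMod w) := X0.image (fun x : ℤ => (x0 : ZMod w) * (x : ZMod w)⁻¹) with hSdef
  have hScov : ∀ ξ ∈ S, Cov D K ξ := by
    intro ξ hξ
    obtain ⟨x, hx, rfl⟩ := Finset.mem_image.mp hξ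
    exact hcov x hx
  have hπx : ∀ x : ℤ, IsCoprime x (w : ℤ) → π ((x : ZMod w)⁻¹) = ((x : ZMod r))⁻¹ := by
    intro x hx
    have h1 : (x : ZMod w) * (x : ZMod w)⁻¹ = 1 := ZMod.coe_int_mul_inv_eq_one hx
    have h2 : (x : ZMod r) * π ((x : ZMod w)⁻¹) = 1 := by
      have := congrArg π h1
      rw [map_mul, map_intCast, map_one] at this
      exact this
    exact eq_inv_of_mul_eq_one_right h2
  have hx0r : (x0 : ZMod r) ≠ 0 := by
    have h1 : (x0 : ZMod w) * (x0 : ZMod w)⁻¹ = 1 := ZMod.coe_int_mul_inv_eq_one hx0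
    have h2 := congrArg π h1
    rw [map_mul, map_intCast, map_one] at h2
    intro h0
    rw [h0, zero_mul] at h2
    exact zero_ne_one h2
  have hSimg : (S.image π).card = nc r X0 := by
    have h1 : S.image π = (X0.image (fun v : ℤ => (v : ZMod r))).image
        (fun z => (x0 : ZMod r) * z⁻¹) := by
      rw [hSdef, Finset.image_image, Finset.image_image]
      apply Finset.image_congr
      intro x hx
      have hx' : x ∈ X0 := Finset.mem_coe.mp hx
      simp only [Function.comp]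
      rw [map_mul, map_intCast, hπx x (hX0c x hx')]
    rw [h1, Finset.card_image_of_injective]
    · rfl
    · intro a b hab
      exact inv_injective (mul_left_cancel₀ hx0r hab)
  have hgh := growth_hyp E (m := m) (c := c) (t := t) (by omega) hrp hyr hr hX0 hX0d ht hbig
  rw [← hSimg] at hgh
  have hfull := growthFull hrw D hAG hK hK1 S hScov hr4 t hgh
  rw [hKK1] at hfull
  set KK := B0 ^ (16 ^ (t + 2)) with hKKdef
  have hB0KK : B0 ≤ KK := Nat.le_self_pow (by positivity) B0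
  have hKK1' : 1 ≤ KK := le_trans hB01 hB0KK
  choose φ hφc hφ using hfull
  have hΔB0 : Δ ^ (28 * c + 28) ≤ B0 :=
    Nat.le_mul_of_pos_right _ (by positivity)
  have hK1KK : K1 ≤ KK := by
    refine le_trans ?_ (le_trans hΔB0 hB0KK)
    exact Nat.pow_le_pow_right hΔ1 (by omega)
  have hΔ2KK : Δ ^ (2 * c + 2) ≤ KK := by
    refine le_trans ?_ (le_trans hΔB0 hB0KK)
    exact Nat.pow_le_pow_right hΔ1 (by omega)
  have hK0KK : K0 ≤ KK := by
    refine le_trans ?_ hB0KK
    calc K0 ≤ K0 ^ 2 := Nat.le_self_pow (by norm_num) K0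
      _ ≤ B0 := Nat.le_mul_of_pos_left _ (by positivity)
  -- the projection of `D` is large
  have hncr : nc r Y0 ≤ (D.image π).card := by
    refine (hncY0 r hrw).trans ?_
    have hsub : (V'.image (fun v : ℤ => (v : ZMod r))).image (fun z => π u * z - π s) ⊆
        D.image π := by
      intro z hz
      obtain ⟨z1, hz1, rfl⟩ := Finset.mem_image.mp hz
      obtain ⟨v, hv, rfl⟩ := Finset.mem_image.mp hz1
      refine Finset.mem_image.mpr ⟨u * (v : ZMod w) - s, huD v hv, ?_⟩
      rw [map_sub, map_mul, map_intCast]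
    have hinj : Function.Injective (fun z : ZMod r => π u * z - π s) := by
      intro a b hab
      have hab' : π u * a = π u * b := sub_left_injective hab
      have hu' : IsUnit (π u) := hu.map π
      exact hu'.mul_left_cancel hab'
    have := Finset.card_le_card hsub
    rwa [Finset.card_image_of_injective _ hinj] at this
  have hrK2 : r ≤ K2 * (D.image π).card :=
    (hK2 Y0 hY0).trans (Nat.mul_le_mul_left _ hncr)
  have hDpos : 0 < (D.image π).card := by
    rcases Nat.eq_zero_or_pos (D.image π).card with h0 | h0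
    · rw [h0] at hrK2; omega
    · exact h0
  -- orders
  have horder : ∀ ρ : ZMod w, Cov D (KK ^ 5) ρ → π ρ = 0 → addOrderOf ρ ≤ KK ^ (9 * a0) := by
    intro ρ hρc hρ0
    have h1 := Cov.kernel π hρ0 D
    have h2 := Cov.card_le hAG hρc
    have h3 : (D.image (fun d => ρ * d)).card * (D.image π).card ≤
        KK ^ 8 * (D.image π).card := by
      calc (D.image (fun d => ρ * d)).card * (D.image π).card
          ≤ (D + D.image (fun d => ρ * d)).card := h1
        _ ≤ KK ^ 5 * K1 * D.card := h2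
        _ ≤ KK ^ 5 * K1 * (Δ ^ (2 * c + 2) * (Δ ^ c1 * (K2 * (D.image π).card))) := by
            apply Nat.mul_le_mul_left
            refine hDcard.trans (Nat.mul_le_mul_left _ ?_)
            exact hVc.trans (Nat.mul_le_mul_left _ hrK2)
        _ = KK ^ 5 * K1 * Δ ^ (2 * c + 2) * K0 * (D.image π).card := by
            rw [hK0def]; ring
        _ ≤ KK ^ 5 * KK * KK * KK * (D.image π).card := by
            apply Nat.mul_le_mul_right
            exact Nat.mul_le_mul (Nat.mul_le_mul (Nat.mul_le_mul_left _ hK1KK) hΔ2KK) hK0KK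
        _ = KK ^ 8 * (D.image π).card := by ring
    have h4 : (D.image (fun d => ρ * d)).card ≤ KK ^ 8 := Nat.le_of_mul_le_mul_right h3 hDpos
    set d := addOrderOf ρ with hddef
    have hdw : d ∣ w := by
      rw [hddef, addOrderOf_dvd_iff_nsmul_eq_zero, nsmul_eq_mul, ZMod.natCast_self, zero_mul]
    have hd1 : 1 ≤ d := Nat.pos_of_dvd_of_pos hdw hw
    have hnc : nc d V' ≤ KK ^ 8 := by
      refine le_trans ?_ h4
      have hsub : V'.image (fun v : ℤ => ρ * (u * (v : ZMod w) - s)) ⊆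
          D.image (fun d => ρ * d) := by
        intro z hz
        obtain ⟨v, hv, rfl⟩ := Finset.mem_image.mp hz
        exact Finset.mem_image.mpr ⟨u * (v : ZMod w) - s, huD v hv, rfl⟩
      refine le_trans ?_ (Finset.card_le_card hsub)
      apply card_image_le_of_factor
      intro v _ v' _ hvv
      have h5 : u * (ρ * ((v - v' : ℤ) : ZMod w)) = 0 := by
        push_cast
        linear_combination hvv
      have h6 : ρ * ((v - v' : ℤ) : ZMod w) = 0 := by
        have := (IsUnit.mul_right_eq_zero hu).mp h5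
        exact this
      have h7 : (v - v') • ρ = 0 := by
        rw [zsmul_eq_mul, mul_comm]; exact h6
      have h8 : (d : ℤ) ∣ v - v' := addOrderOf_dvd_iff_zsmul_eq_zero.mpr h7
      have h9 : ((v - v' : ℤ) : ZMod d) = 0 := (ZMod.intCast_zmod_eq_zero_iff_dvd _ _).mpr h8
      push_cast at h9
      exact sub_eq_zero.mp h9
    have hcop' : CopTo V' d := by
      intro v hv
      have := hcop v (hV'V hv)
      exact this.of_isCoprime_of_dvd_right (by exact_mod_cast hdw)
    have hdy : d ≤ y ^ (2 * m) := (Nat.le_of_dvd hw hdw).trans hwy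
    have h10 := nonconc E hm (hV'V.trans hV.sub) hV'd hd1 hdy hcop'
    calc d ≤ Δ ^ (a0 * (c + 1 + 1) + 1) * nc d V' ^ a0 := h10
      _ ≤ KK ^ a0 * (KK ^ 8) ^ a0 := by
          apply Nat.mul_le_mul
          · calc Δ ^ (a0 * (c + 1 + 1) + 1) ≤ Δ ^ ((28 * c + 28) * a0) := by
                  apply Nat.pow_le_pow_right hΔ1
                  nlinarith
              _ = (Δ ^ (28 * c + 28)) ^ a0 := by rw [pow_mul]
              _ ≤ KK ^ a0 := Nat.pow_le_pow_left (hΔB0.trans hB0KK) _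
          · exact Nat.pow_le_pow_left hnc _
      _ = KK ^ (9 * a0) := by rw [← pow_mul KK 8 a0, ← pow_add KK]; congr 1; ring
  -- the approximate section
  have hpowKK : ∀ e : ℕ, KK ^ e = B0 ^ (16 ^ (t + 2) * e) := by
    intro e; rw [hKKdef, ← pow_mul]
  refine noApproxHom (Dmax := KK ^ (9 * a0)) hw hrw φ hφ ?_ ?_ ?_ ?_ ?_
  · intro x x'
    apply horder
    · refine Cov.mono (Cov.sub hAG (Cov.add hAG (hφc x) (hφc x')) (hφc (x + x'))) ?_
      calc KK * KK * K1 * KK * K1 = KK ^ 3 * K1 ^ 2 := by ring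
        _ ≤ KK ^ 3 * KK ^ 2 := Nat.mul_le_mul_left _ (Nat.pow_le_pow_left hK1KK 2)
        _ = KK ^ 5 := by ring
    · rw [map_sub, map_add]
      have e1 : π (φ x) = x := hφ x
      have e2 : π (φ x') = x' := hφ x'
      have e3 : π (φ (x + x')) = x + x' := hφ (x + x')
      rw [e1, e2, e3, sub_self]
  · intro x
    apply horder
    · refine Cov.mono (Cov.sub hAG (Cov.add hAG (hφc x) Cov.one) (hφc (x + 1))) ?_
      calc KK * 1 * K1 * KK * K1 = KK ^ 2 * K1 ^ 2 := by ring
        _ ≤ KK ^ 2 * KK ^ 2 := Nat.mul_le_mul_left _ (Nat.pow_le_pow_left hK1KK 2)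
        _ = KK ^ 4 := by ring
        _ ≤ KK ^ 5 := Nat.pow_le_pow_right hKK1' (by norm_num)
    · rw [map_sub, map_add, map_one]
      have e1 : π (φ x) = x := hφ x
      have e3 : π (φ (x + 1)) = x + 1 := hφ (x + 1)
      rw [e1, e3, sub_self]
  · have h4 : 4 ≤ KK := by
      refine le_trans hΔ4 (le_trans ?_ (hΔB0.trans hB0KK))
      calc Δ = Δ ^ 1 := (pow_one Δ).symm
        _ ≤ _ := Nat.pow_le_pow_right hΔ1 (by omega)
    calc 2 ≤ KK := by omega
      _ ≤ KK ^ (9 * a0) := Nat.le_self_pow (by omega) KK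
  · rw [hpowKK]
    have : 16 ^ (t + 2) * (9 * a0) = 9 * a0 * 16 ^ (t + 2) := by ring
    rw [this]
    exact hnum2
  · rw [← pow_mul, hpowKK]
    have : 16 ^ (t + 2) * (9 * a0 * 100) = 900 * a0 * 16 ^ (t + 2) := by ring
    rw [this]
    exact hnum1

end Pool.Agent.helper41.EX
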