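import Pool.Agent.helper41.EX.StepW
import Pool.Agent.helper41.EX.GcdPig
import Pool.Agent.helper41.EX.ChainG
import Pool.Agent.helper41.EX.StepR

/-! # EXS-SP: no dense set of products of `k` primes has small doubling -/

namespace Pool.Agent.helper41.EX

open Finset
open scoped Pointwise

/-- constants -/
def SP_b (a0 : ℕ) : ℕ := 16 ^ (a0 + 2)

/-- constants -/
def SP_I (a0 a1 : ℕ) : ℕ := 57600 * a0 ^ 3 * SP_b a0 ^ 2 * a1

/-- constants -/
def SP_C (a0 a1 : ℕ) : ℕ := a0 * (40 * (7 ^ SP_I a0 a1 * (189 + 2)) + 50) * SP_b a0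

/-- constants -/
def SP_E (a0 a1 : ℕ) : ℕ := 2 * (a0 * (2 * (7 ^ SP_I a0 a1 * (189 + 2)) + 7) + 1) + a0

/-- constants -/
def SP_G (a0 a1 : ℕ) : ℕ :=
  900 * a0 * SP_b a0 * 804 + 1800 * a0 * SP_b a0 * (SP_C a0 a1 + 2 * a0 * SP_b a0)

/-- constants -/
def SP_M (a0 a1 : ℕ) : ℕ := 1000 * a0 * a1 * (SP_G a0 a1 + SP_E a0 a1 + 2 * a0 + 100)

theorem SP_le_of_log {a b : ℕ} (ha : 0 < a) (hb : 0 < b) (h : Real.log a ≤ Real.log b) : a ≤ b := by
  have ha' : (0 : ℝ) < a := by exact_mod_cast ha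
  have hb' : (0 : ℝ) < b := by exact_mod_cast hb
  exact_mod_cast (Real.log_le_log_iff ha' hb').1 h

theorem SP_lt_of_log {a b : ℕ} (ha : 0 < a) (hb : 0 < b) (h : Real.log a < Real.log b) : a < b := by
  have ha' : (0 : ℝ) < a := by exact_mod_cast ha
  have hb' : (0 : ℝ) < b := by exact_mod_cast hb
  exact_mod_cast (Real.log_lt_log_iff ha' hb').1 h

theorem SP_log_of_le {a b : ℕ} (ha : 0 < a) (h : a ≤ b) : Real.log a ≤ Real.log b := by
  have ha' : (0 : ℝ) < a := by exact_mod_cast ha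
  exact Real.log_le_log ha' (by exact_mod_cast h)

theorem SP_num1 {a0 a1 b I C G x τ ρ ω κ : ℝ} (ha0 : 1 ≤ a0) (ha1 : 1 ≤ a1) (hb : 1 ≤ b)
    (hI : I = 57600 * a0 ^ 3 * b ^ 2 * a1)
    (hG : G = 900 * a0 * b * 804 + 1800 * a0 * b * (C + 2 * a0 * b))
    (hτ : 0 ≤ τ)
    (hκ : I * κ ≤ I * C * x + 2 * a0 * b * (I * x + ρ))
    (hρ2 : ρ ≤ τ - τ / (2 * a1)) (hω : τ ≤ 2 * x + 2 * a0 * x + ω + τ / (16 * a1))
    (hM : (G + 2 * a0 + 2) * x ≤ τ / (8 * a1)) :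
    (756 * x + 2 * (24 * x + κ)) * (900 * a0 * b) + ρ ≤ ω := by
  have hI0 : 0 < I := by rw [hI]; positivity
  have h1 : κ ≤ (C + 2 * a0 * b) * x + 2 * a0 * b / I * ρ := by
    rw [← mul_le_mul_iff_of_pos_left hI0]
    have : I * ((C + 2 * a0 * b) * x + 2 * a0 * b / I * ρ) =
        I * C * x + 2 * a0 * b * (I * x + ρ) := by
      field_simp
      ring
    rw [this]
    exact hκ
  have h2 : 1800 * a0 * b * (2 * a0 * b / I * ρ) = ρ / (16 * a0 * a1) := by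
    rw [hI]
    field_simp
    ring
  have h3 : ρ / (16 * a0 * a1) ≤ τ / (16 * a1) := by
    have h4 : ρ ≤ τ := by
      have : 0 ≤ τ / (2 * a1) := by positivity
      linarith
    calc ρ / (16 * a0 * a1) ≤ τ / (16 * a0 * a1) := by gcongr
      _ ≤ τ / (16 * a1) := by
        apply div_le_div_of_nonneg_left hτ (by positivity)
        nlinarith
  have h5 : (0 : ℝ) ≤ 1800 * a0 * b := by positivity
  have h6 := mul_le_mul_of_nonneg_left h1 h5
  rw [mul_add, h2] at h6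
  have h7 : τ / (2 * a1) = 4 * (τ / (8 * a1)) := by field_simp; ring
  have h8 : τ / (16 * a1) = (τ / (8 * a1)) / 2 := by field_simp; ring
  have h9 : 0 ≤ τ / (8 * a1) := by positivity
  have h10 : (756 * x + 2 * (24 * x + κ)) * (900 * a0 * b) =
      900 * a0 * b * 804 * x + 1800 * a0 * b * κ := by ring
  rw [h10]
  have h11 : G * x = 900 * a0 * b * 804 * x + 1800 * a0 * b * ((C + 2 * a0 * b) * x) := by
    rw [hG]; ring
  nlinarith

theorem SP_num2 {a0 a1 b I C G x ρ κ : ℝ} (ha0 : 1 ≤ a0) (ha1 : 1 ≤ a1) (hb : 1 ≤ b)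
    (hI : I = 57600 * a0 ^ 3 * b ^ 2 * a1)
    (hG : G = 900 * a0 * b * 804 + 1800 * a0 * b * (C + 2 * a0 * b))
    (hρ : 0 < ρ)
    (hκ : I * κ ≤ I * C * x + 2 * a0 * b * (I * x + ρ))
    (hM : G * x ≤ ρ) :
    (756 * x + 2 * (24 * x + κ)) * (9 * a0 * b) < ρ := by
  have hI0 : 0 < I := by rw [hI]; positivity
  have h1 : κ ≤ (C + 2 * a0 * b) * x + 2 * a0 * b / I * ρ := by
    rw [← mul_le_mul_iff_of_pos_left hI0]
    have : I * ((C + 2 * a0 * b) * x + 2 * a0 * b / I * ρ) =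
        I * C * x + 2 * a0 * b * (I * x + ρ) := by
      field_simp
      ring
    rw [this]
    exact hκ
  have h2 : 1800 * a0 * b * (2 * a0 * b / I * ρ) = ρ / (16 * a0 * a1) := by
    rw [hI]
    field_simp
    ring
  have h3 : ρ / (16 * a0 * a1) ≤ ρ / 16 := by
    apply div_le_div_of_nonneg_left hρ.le (by positivity)
    nlinarith
  have h5 : (0 : ℝ) ≤ 1800 * a0 * b := by positivity
  have h6 := mul_le_mul_of_nonneg_left h1 h5
  rw [mul_add, h2] at h6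
  have h10 : (756 * x + 2 * (24 * x + κ)) * (9 * a0 * b) =
      (900 * a0 * b * 804 * x + 1800 * a0 * b * κ) / 100 := by ring
  rw [h10]
  have h11 : G * x = 900 * a0 * b * 804 * x + 1800 * a0 * b * ((C + 2 * a0 * b) * x) := by
    rw [hG]; ring
  nlinarith

theorem SP_rx1 {a0 a1 x τ : ℝ} (ha0 : 1 ≤ a0) (ha1 : 1 ≤ a1) (hτ : 0 ≤ τ)
    (h : 100 * x ≤ τ / (1000 * a0 * a1)) : a0 * x ≤ τ / 100000 := by
  have h2 : a0 * (100 * x) ≤ a0 * (τ / (1000 * a0 * a1)) :=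
    mul_le_mul_of_nonneg_left h (by linarith)
  have h3 : a0 * (τ / (1000 * a0 * a1)) = τ / (1000 * a1) := by field_simp
  have h4 : τ / (1000 * a1) ≤ τ / 1000 := by
    apply div_le_div_of_nonneg_left hτ (by norm_num)
    linarith
  linarith

theorem SP_rN {a0 a1 x τ i ly n : ℝ} (ha0 : 1 ≤ a0) (ha1 : 1 ≤ a1) (hτ : 0 ≤ τ) (hx : 0 ≤ x)
    (h : 100 * x ≤ τ / (1000 * a0 * a1)) (hi : τ ≤ 64 * a1 * (i * ly)) (hn : i * ly ≤ a0 * n) :
    11 * x ≤ n := by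
  have h1 : τ ≤ 64 * a1 * (a0 * n) :=
    hi.trans (mul_le_mul_of_nonneg_left hn (by linarith))
  have h2 : τ / (64 * a0 * a1) ≤ n := by
    rw [div_le_iff₀ (by positivity)]
    linarith
  have h3 : τ / (1000 * a0 * a1) ≤ τ / (64 * a0 * a1) := by
    apply div_le_div_of_nonneg_left hτ (by positivity)
    have : 0 ≤ a0 * a1 := by positivity
    linarith
  linarith

theorem SP_rdiv {a c τ : ℝ} (hc : 0 < c) (ha : 1 ≤ a) (hτ : 0 ≤ τ) : τ / (c * a) ≤ τ / c := by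
  apply div_le_div_of_nonneg_left hτ hc
  exact le_mul_of_one_le_right hc.le ha

theorem SP_ri {a1 i j : ℕ} (ha1 : 1 ≤ a1) (hj : 128 * a1 ≤ j) (hi : i = j / (32 * a1)) :
    j ≤ 64 * (a1 * i) ∧ 32 * (a1 * i) ≤ j ∧ i ≤ j := by
  have h1 : j < 32 * a1 * (j / (32 * a1) + 1) := Nat.lt_mul_div_succ j (by omega)
  rw [← hi] at h1
  have h3 : 32 * a1 * (i + 1) = 32 * (a1 * i) + 32 * a1 := by ring
  have h4 := Nat.mul_div_le j (32 * a1)
  rw [← hi] at h4
  have h5 : 32 * a1 * i = 32 * (a1 * i) := by ring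
  have h6 : i ≤ a1 * i := Nat.le_mul_of_pos_left _ ha1
  refine ⟨by omega, by omega, by omega⟩

section core2

variable {P : Finset ℕ} {y0 y k Δ a0 : ℕ}

theorem SP_lm {a b : ℕ} (ha : 0 < a) (hb : 0 < b) :
    Real.log ((a * b : ℕ) : ℝ) = Real.log a + Real.log b := by
  rw [Nat.cast_mul, Real.log_mul (by positivity) (by positivity)]

theorem SP_lp (s e : ℕ) : Real.log ((s ^ e : ℕ) : ℝ) = e * Real.log s := by
  rw [Nat.cast_pow, Real.log_pow]

theorem SP_small {a0 a1 G E x τ ρ : ℝ} (ha0 : 1 ≤ a0) (ha1 : 1 ≤ a1) (hG : 0 ≤ G) (hE : 0 ≤ E)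
    (hx : 0 ≤ x) (hτ : 0 < τ) (hA : (G + E + 2 * a0 + 100) * x ≤ τ / (1000 * a0 * a1))
    (hρ : τ ≤ a0 * (ρ + 9 * x)) :
    E * x ≤ ρ ∧ G * x ≤ ρ ∧ 0 < ρ ∧ (G + 2 * a0 + 2) * x ≤ τ / (8 * a1) ∧ a0 * 2 * x ≤ τ := by
  have hGx : 0 ≤ G * x := mul_nonneg hG hx
  have hEx : 0 ≤ E * x := mul_nonneg hE hx
  have hax : 0 ≤ a0 * x := mul_nonneg (by linarith) hx
  have h1 : τ / a0 ≤ ρ + 9 * x := by
    rw [div_le_iff₀ (by positivity)]
    linarith
  have h2 : τ / (1000 * a0 * a1) ≤ τ / a0 / 1000 := by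
    rw [div_div]
    apply div_le_div_of_nonneg_left hτ.le (by positivity)
    have : a0 * 1 ≤ a0 * a1 := mul_le_mul_of_nonneg_left ha1 (by linarith)
    linarith
  have h3 : 0 < τ / a0 := by positivity
  have h4 : τ / (1000 * a0 * a1) ≤ τ / (8 * a1) := by
    apply div_le_div_of_nonneg_left hτ.le (by positivity)
    have : 1 * a1 ≤ a0 * a1 := mul_le_mul_of_nonneg_right ha0 (by linarith)
    linarith
  have h5 : τ / (1000 * a0 * a1) ≤ τ := by
    apply div_le_self hτ.le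
    have : 1 * 1 ≤ a0 * a1 := mul_le_mul ha0 ha1 (by norm_num) (by linarith)
    linarith
  refine ⟨by linarith, by linarith, by linarith, by linarith, by linarith⟩

theorem SP_core2 (E : Env P y0 y k Δ a0) {a1 j r w : ℕ} (ha1 : 1 ≤ a1) (hy2 : 2 ≤ y)
    (hjk : 8 * (2 ^ SP_I a0 a1 * j) ≤ k) (hj1 : 1 ≤ j) {x ly τ ρ : ℝ}
    (hxd : x = Real.log Δ) (hlyd : ly = Real.log y) (hτd : τ = j * ly) (hρd : ρ = Real.log r)
    (hxA : ((SP_G a0 a1 : ℝ) + SP_E a0 a1 + 2 * a0 + 100) * x ≤ τ / (1000 * a0 * a1))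
    (hlog2 : Real.log 2 ≤ x) (hρ1 : ρ ≤ τ - τ / (2 * a1)) (hρ2 : τ ≤ a0 * (ρ + 9 * x))
    (hω : τ ≤ 2 * x + Real.log w + τ / (16 * a1))
    (hrp : r.Prime) (hyr : y < r) (hrj : r ≤ y ^ j) (hrw : r ∣ w) (hw : 1 ≤ w) (hwy : w ≤ y ^ j)
    {V : Finset ℤ} (hV : VV P Δ k 1 V) (hc : nc w V ≤ Δ ^ 24 * r) : False := by
  have ha0 := E.a0_pos
  have hΔ4 := E.four_le
  have hΔ0 : 0 < Δ := by omega
  have ha0r : (1 : ℝ) ≤ a0 := by exact_mod_cast ha0
  have ha1r : (1 : ℝ) ≤ a1 := by exact_mod_cast ha1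
  have hbn : 1 ≤ SP_b a0 := Nat.one_le_pow _ _ (by norm_num)
  have hbr : (1 : ℝ) ≤ (SP_b a0 : ℝ) := by exact_mod_cast hbn
  have hIr : ((SP_I a0 a1 : ℕ) : ℝ) = 57600 * (a0 : ℝ) ^ 3 * (SP_b a0 : ℝ) ^ 2 * a1 := by
    unfold SP_I; push_cast; ring
  have hGr : ((SP_G a0 a1 : ℕ) : ℝ) = 900 * (a0 : ℝ) * SP_b a0 * 804 +
      1800 * a0 * SP_b a0 * ((SP_C a0 a1 : ℝ) + 2 * a0 * SP_b a0) := by
    unfold SP_G; push_cast; ring
  have hI1 : 1 ≤ SP_I a0 a1 := by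
    unfold SP_I
    have : 0 < 57600 * a0 ^ 3 * SP_b a0 ^ 2 * a1 := by positivity
    omega
  have hpI : 1 ≤ 2 ^ SP_I a0 a1 := Nat.one_le_two_pow
  have hjm : j ≤ 2 ^ SP_I a0 a1 * j := Nat.le_mul_of_pos_left _ (by omega)
  have hjk2 : j ≤ k := by omega
  have hly0 : 0 < ly := by
    rw [hlyd]
    exact Real.log_pos (by exact_mod_cast hy2)
  have hx0 : 0 < x := lt_of_lt_of_le (Real.log_pos (by norm_num)) hlog2
  have hj0 : (0 : ℝ) < j := by exact_mod_cast hj1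
  have hτ0 : 0 < τ := by
    rw [hτd]
    positivity
  have hE0 : (0 : ℝ) ≤ SP_E a0 a1 := Nat.cast_nonneg _
  have hG0 : (0 : ℝ) ≤ SP_G a0 a1 := Nat.cast_nonneg _
  have hlogpow : ∀ (s e : ℕ), Real.log ((s ^ e : ℕ) : ℝ) = e * Real.log s := by
    intro s e
    rw [Nat.cast_pow, Real.log_pow]
  obtain ⟨hEρ, hGρ, hρ0, hM8, hax⟩ := SP_small ha0r ha1r hG0 hE0 hx0.le hτ0 hxA hρ2
  have hyj : y ^ j ≤ y ^ k := Nat.pow_le_pow_right (by omega) hjk2
  obtain ⟨g, i, V4, -, hg1, hgw, hgΔ, hyi, hgq, hV4, hcop, hnc⟩ :=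
    gcdPig E hV hw (hwy.trans hyj)
  obtain ⟨w', hw'⟩ := hgw
  have hwg : w / g = w' := by rw [hw']; exact Nat.mul_div_cancel_left _ (by omega)
  rw [hwg] at hnc
  have hw'0 : 0 < w' := by
    rcases Nat.eq_zero_or_pos w' with h | h
    · rw [h, mul_zero] at hw'; omega
    · exact h
  have hw'w : w' ∣ w := ⟨g, by rw [hw', mul_comm]⟩
  have hij : i ≤ j := by
    have h1 := SP_log_of_le (by positivity) hyi
    rw [hlogpow, hlogpow, ← hlyd, ← hxd] at h1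
    push_cast at h1
    have h2 : (i : ℝ) * ly ≤ j * ly := by
      rw [← hτd]
      linarith
    exact_mod_cast le_of_mul_le_mul_right h2 hly0
  have hrw' : r ∣ w' := by
    have h1 : Nat.Coprime r g := by
      rw [Nat.Prime.coprime_iff_not_dvd hrp]
      intro h
      have := hgq r hrp h
      omega
    rw [hw'] at hrw
    exact h1.dvd_of_dvd_mul_left hrw
  have hcop' : CopTo V4 w' := by
    intro v hv
    have h1 := hcop v hv
    have h2 : (w' : ℤ) ∣ (w : ℤ) := by exact_mod_cast hw'w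
    exact IsCoprime.of_isCoprime_of_dvd_right h1 h2
  obtain ⟨m, hm⟩ : ∃ m : ℕ, m = 2 ^ SP_I a0 a1 * j := ⟨_, rfl⟩
  rw [← hm] at hjk hjm
  have hm1 : 1 ≤ m := by omega
  obtain ⟨Y1, hY1, hY1c, hY1n⟩ := descend E (M := 2 * m) (k' := k - i) (c := 2 * 1 + 1)
    (by omega) (by omega) hV4 hcop'
  have hY1' : VV P Δ (2 * m) 26 Y1 := hY1
  have hncY : nc w' Y1 ≤ Δ ^ 24 * r := (hY1n w' dvd_rfl).trans (hnc.trans hc)
  obtain ⟨Y2, hY2, -, -⟩ := descend E (M := m) (k' := 2 * m) (c := 26)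
    (by omega) (by omega) hY1' hY1c
  have hY2' : VV P Δ m 189 Y2 := hY2.mono (by omega) (by norm_num)
  have hyjm : y ^ j ≤ y ^ m := Nat.pow_le_pow_right (by omega) hjm
  have hyj2m : y ^ j ≤ y ^ (2 * m) := Nat.pow_le_pow_right (by omega) (by omega)
  have hr0 : 0 < r := hrp.pos
  have ht : a0 ≤ 2 ^ a0 := Nat.lt_two_pow_self.le
  have hbig : Δ ^ SP_E a0 a1 ≤ r := by
    refine SP_le_of_log (by positivity) hr0 ?_
    rw [hlogpow, ← hxd, ← hρd]
    exact hEρ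
  obtain ⟨K2, hK21, hK2p, hK2⟩ := chainG E (j := j) (I := SP_I a0 a1) (c := 189) (r := r)
    (t := a0) hI1 hj1 (by rw [← hm]; omega) hrp hyr hrj ⟨Y2, by rw [← hm]; exact hY2'⟩ ht hbig
  rw [← hm] at hK2
  obtain ⟨κ, hκd⟩ : ∃ κ : ℝ, κ = Real.log K2 := ⟨_, rfl⟩
  have hK20 : 0 < K2 := hK21
  have hκ : (SP_I a0 a1 : ℝ) * κ ≤ SP_I a0 a1 * SP_C a0 a1 * x +
      2 * a0 * SP_b a0 * (SP_I a0 a1 * x + ρ) := by
    have h1 := SP_log_of_le (by positivity) hK2p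
    rw [SP_lm (by positivity) (by positivity), SP_lp, SP_lp, SP_lp,
      SP_lm (by positivity) hr0, SP_lp, ← hκd, ← hxd, ← hρd] at h1
    have h2 : ((SP_I a0 a1 * (a0 * (40 * (7 ^ SP_I a0 a1 * (189 + 2)) + 50) * 16 ^ (a0 + 2)) : ℕ)
        : ℝ) = SP_I a0 a1 * SP_C a0 a1 := by
      rw [← Nat.cast_mul]
      rfl
    have h3 : ((2 * a0 * 16 ^ (a0 + 2) : ℕ) : ℝ) = 2 * a0 * SP_b a0 := by
      unfold SP_b
      push_cast
      ring
    rw [h2, h3] at h1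
    have h4 : (2 * (a0 : ℝ) * SP_b a0) * ((SP_I a0 a1 : ℝ) * Real.log (2 : ℕ)) ≤
        (2 * (a0 : ℝ) * SP_b a0) * (SP_I a0 a1 * x) := by
      have : Real.log (2 : ℕ) ≤ x := by exact_mod_cast hlog2
      gcongr
    linarith
  obtain ⟨ω, hωd⟩ : ∃ ω : ℝ, ω = Real.log w' := ⟨_, rfl⟩
  have hω' : τ ≤ 2 * x + 2 * a0 * x + ω + τ / (16 * a1) := by
    have h1 : Real.log w ≤ 2 * a0 * x + ω := by
      rw [hw', SP_lm (by omega) hw'0, ← hωd]
      have h2 := SP_log_of_le (by omega) hgΔ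
      rw [hlogpow, ← hxd] at h2
      push_cast at h2
      linarith
    linarith
  refine stepR E (m := m) (c := 26) (c1 := 24) (w := w') (r := r) (K2 := K2) (t := a0)
    (by omega) hrp hyr (hrj.trans hyjm) hw'0 hrw'
    ((Nat.le_of_dvd (by omega) hw'w).trans (hwy.trans hyj2m)) hY1' hY1c hncY hK21 hK2 ht ?_ ?_ ?_
  · refine le_trans (Nat.pow_le_pow_right hΔ0 ?_) hbig
    unfold SP_E
    have h7 : 1 ≤ 7 ^ SP_I a0 a1 := Nat.one_le_pow _ _ (by norm_num)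
    have h8 : a0 * (2 * 26 + 7) ≤ a0 * (2 * (7 ^ SP_I a0 a1 * (189 + 2)) + 7) :=
      Nat.mul_le_mul le_rfl (by omega)
    omega
  · refine SP_le_of_log (by positivity) hw'0 ?_
    have := SP_num1 ha0r ha1r hbr hIr hGr hτ0.le hκ hρ1 hω' hM8
    rw [SP_lm (by positivity) hr0, SP_lp, SP_lm (by positivity) (by positivity), SP_lp, SP_lp,
      SP_lm (by positivity) hK20, SP_lp, ← hxd, ← hκd, ← hρd, ← hωd]
    have h3 : ((900 * a0 * 16 ^ (a0 + 2) : ℕ) : ℝ) = 900 * a0 * SP_b a0 := by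
      unfold SP_b
      push_cast
      ring
    rw [h3]
    push_cast
    linarith
  · refine SP_lt_of_log (by positivity) hr0 ?_
    have := SP_num2 ha0r ha1r hbr hIr hGr hρ0 hκ hGρ
    rw [SP_lp, SP_lm (by positivity) (by positivity), SP_lp, SP_lp,
      SP_lm (by positivity) hK20, SP_lp, ← hxd, ← hκd, ← hρd]
    have h3 : ((9 * a0 * 16 ^ (a0 + 2) : ℕ) : ℝ) = 9 * a0 * SP_b a0 := by
      unfold SP_b
      push_cast
      ring
    rw [h3]
    push_cast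
    linarith

end core2

section core

variable {P : Finset ℕ} {y0 y k Δ a0 : ℕ}

theorem SP_core (E : Env P y0 y k Δ a0) {a1 j : ℕ} (ha1 : 1 ≤ a1) (hy2 : 2 ≤ y)
    (hjk : 2 ^ (SP_I a0 a1 + 3) * j ≤ k) (hj : 128 * (a0 * a1) ≤ j)
    (hx : (SP_M a0 a1 : ℝ) * Real.log Δ ≤ j * Real.log y)
    (hN : Real.log (N P j) ≤ j * Real.log y - j * Real.log y / (2 * a1))
    (hR : ∀ R : ℕ, y ≤ R → R ≤ y ^ k → R ≤ Δ * ((Ioc R (4 * R)).filter Nat.Prime).card)
    {V : Finset ℤ} (hV : VV P Δ k 1 V) : False := by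
  have ha0 := E.a0_pos
  have hΔ4 := E.four_le
  have hΔ0 : 0 < Δ := by omega
  have hy0' := E.y0_pos
  -- real constants
  have ha0r : (1 : ℝ) ≤ a0 := by exact_mod_cast ha0
  have ha1r : (1 : ℝ) ≤ a1 := by exact_mod_cast ha1
  have hbn : 1 ≤ SP_b a0 := Nat.one_le_pow _ _ (by norm_num)
  have hbr : (1 : ℝ) ≤ (SP_b a0 : ℝ) := by exact_mod_cast hbn
  have hIr : ((SP_I a0 a1 : ℕ) : ℝ) = 57600 * (a0 : ℝ) ^ 3 * (SP_b a0 : ℝ) ^ 2 * a1 := by
    unfold SP_I; push_cast; ring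
  have hGr : ((SP_G a0 a1 : ℕ) : ℝ) = 900 * (a0 : ℝ) * SP_b a0 * 804 +
      1800 * a0 * SP_b a0 * ((SP_C a0 a1 : ℝ) + 2 * a0 * SP_b a0) := by
    unfold SP_G; push_cast; ring
  have hMr : ((SP_M a0 a1 : ℕ) : ℝ) = 1000 * (a0 : ℝ) * a1 *
      ((SP_G a0 a1 : ℝ) + SP_E a0 a1 + 2 * a0 + 100) := by
    unfold SP_M; push_cast; ring
  have hI1 : 1 ≤ SP_I a0 a1 := by
    unfold SP_I
    have : 0 < 57600 * a0 ^ 3 * SP_b a0 ^ 2 * a1 := by positivity
    omega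
  have h01 : a0 ≤ a0 * a1 := Nat.le_mul_of_pos_right _ ha1
  have h02 : a1 ≤ a0 * a1 := Nat.le_mul_of_pos_left _ ha0
  have hj1 : 1 ≤ j := by omega
  have hjk' : 8 * (2 ^ SP_I a0 a1 * j) ≤ k := by
    rw [pow_add] at hjk
    linarith
  have hpI : 1 ≤ 2 ^ SP_I a0 a1 := Nat.one_le_two_pow
  have hjm : j ≤ 2 ^ SP_I a0 a1 * j := Nat.le_mul_of_pos_left _ (by omega)
  have hjk2 : j ≤ k := by omega
  -- logs
  obtain ⟨x, hxd⟩ : ∃ x : ℝ, x = Real.log Δ := ⟨_, rfl⟩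
  obtain ⟨ly, hlyd⟩ : ∃ ly : ℝ, ly = Real.log y := ⟨_, rfl⟩
  obtain ⟨τ, hτd⟩ : ∃ τ : ℝ, τ = j * ly := ⟨_, rfl⟩
  have hly0 : 0 < ly := by
    rw [hlyd]
    exact Real.log_pos (by exact_mod_cast hy2)
  have hx4 : Real.log 4 ≤ x := by
    rw [hxd]
    exact_mod_cast SP_log_of_le (by norm_num : 0 < 4) hΔ4
  have hlog4 : (1 : ℝ) ≤ Real.log 4 := by
    rw [show (4 : ℝ) = 2 * 2 by norm_num, Real.log_mul (by norm_num) (by norm_num)]
    have := Real.log_two_gt_d9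
    linarith
  have hlog2 : Real.log 2 ≤ x := by
    have : Real.log 2 ≤ Real.log 4 := Real.log_le_log (by norm_num) (by norm_num)
    linarith
  have hx0 : 0 < x := by linarith
  have hjr : 128 * ((a0 : ℝ) * a1) ≤ j := by exact_mod_cast hj
  have hj0 : (0 : ℝ) < j := by exact_mod_cast hj1
  have hτ0 : 0 < τ := by
    rw [hτd]
    positivity
  have hjly : 128 * ((a0 : ℝ) * a1) * ly ≤ τ := by
    rw [hτd]
    exact mul_le_mul_of_nonneg_right hjr hly0.le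
  rw [← hxd, ← hlyd, ← hτd, hMr] at hx
  rw [← hlyd, ← hτd] at hN
  have hE0 : (0 : ℝ) ≤ SP_E a0 a1 := Nat.cast_nonneg _
  have hG0 : (0 : ℝ) ≤ SP_G a0 a1 := Nat.cast_nonneg _
  -- consequences of hx
  have hxA : ((SP_G a0 a1 : ℝ) + SP_E a0 a1 + 2 * a0 + 100) * x ≤ τ / (1000 * a0 * a1) := by
    rw [le_div_iff₀ (by positivity)]
    linarith
  have hxG : 0 ≤ (SP_G a0 a1 : ℝ) * x := mul_nonneg hG0 hx0.le
  have hxE : 0 ≤ (SP_E a0 a1 : ℝ) * x := mul_nonneg hE0 hx0.le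
  have hxa : 0 ≤ (a0 : ℝ) * x := by positivity
  have hlogpow : ∀ (s e : ℕ), Real.log ((s ^ e : ℕ) : ℝ) = e * Real.log s := by
    intro s e
    rw [Nat.cast_pow, Real.log_pow]
  have hx100 : 100 * x ≤ τ / (1000 * a0 * a1) := by linarith
  have hx1 : a0 * x ≤ τ / 100000 := SP_rx1 ha0r ha1r hτ0.le hx100
  have hx2 : x ≤ a0 * x := le_mul_of_one_le_left hx0.le ha0r
  have hly1 : a0 * ly ≤ τ / 128 := by
    have h1 : (a0 : ℝ) ≤ a0 * a1 := by exact_mod_cast h01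
    have h2 : (a0 : ℝ) * ly ≤ a0 * a1 * ly := mul_le_mul_of_nonneg_right h1 hly0.le
    linarith
  have hly2 : ly ≤ a0 * ly := le_mul_of_one_le_left hly0.le ha0r
  -- `N_j`
  have hNj0 : 0 < N P j := E.Npos hjk2
  obtain ⟨nj, hnj⟩ : ∃ nj : ℝ, nj = Real.log (N P j) := ⟨_, rfl⟩
  have hN1 : τ ≤ a0 * nj := by
    have h := SP_log_of_le (by positivity) (E.y_pow_le hjk2)
    rw [hlogpow, hlogpow, ← hlyd, ← hτd, ← hnj] at h
    exact h
  rw [← hnj] at hN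
  have hNy : N P j ≤ y ^ j := E.N_le j
  -- the parameter `i`
  obtain ⟨i, hid⟩ : ∃ i : ℕ, i = j / (32 * a1) := ⟨_, rfl⟩
  obtain ⟨hi1, hi2, hij⟩ := SP_ri ha1 (by omega) hid
  have hik : i ≤ k := hij.trans hjk2
  have hi1r : τ ≤ 64 * a1 * (i * ly) := by
    have : (j : ℝ) ≤ 64 * (a1 * i) := by exact_mod_cast hi1
    have := mul_le_mul_of_nonneg_right this hly0.le
    rw [hτd]
    linarith
  have hi2r : 32 * a1 * (i * ly) ≤ τ := by
    have : (32 : ℝ) * (a1 * i) ≤ j := by exact_mod_cast hi2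
    have := mul_le_mul_of_nonneg_right this hly0.le
    rw [hτd]
    linarith
  have hi3r : i * ly ≤ τ / (32 * a1) := by
    rw [le_div_iff₀ (by positivity)]
    linarith
  have hi4r : i * ly ≤ τ / 32 := hi3r.trans (SP_rdiv (by norm_num) ha1r hτ0.le)
  have hNi : Δ ^ (2 * 1 + 9) ≤ N P i := by
    have hNi0 : 0 < N P i := E.Npos hik
    refine SP_le_of_log (by positivity) hNi0 ?_
    have h := SP_log_of_le (by positivity) (E.y_pow_le hik)
    rw [hlogpow, hlogpow, ← hlyd] at h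
    rw [hlogpow, ← hxd]
    have h1 := SP_rN ha0r ha1r hτ0.le hx0.le hx100 hi1r h
    push_cast
    linarith
  -- the parameter `R`
  obtain ⟨R, hRd⟩ : ∃ R : ℕ, R = N P j / Δ ^ 9 := ⟨_, rfl⟩
  have hR9 : R * Δ ^ 9 ≤ N P j := by
    rw [hRd]
    exact Nat.div_mul_le_self _ _
  have hR9' : N P j < Δ ^ 9 * (R + 1) := by
    rw [hRd]
    exact Nat.lt_mul_div_succ _ (by positivity)
  have hyR : y ≤ R := by
    by_contra hcon
    have h1 : N P j ≤ Δ ^ 9 * y := by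
      refine hR9'.le.trans (Nat.mul_le_mul le_rfl (by omega))
    have h2 := SP_log_of_le hNj0 h1
    rw [Nat.cast_mul, Real.log_mul (by positivity) (by positivity), hlogpow, ← hnj, ← hxd,
      ← hlyd] at h2
    push_cast at h2
    have h3 : a0 * nj ≤ a0 * (9 * x + ly) := mul_le_mul_of_nonneg_left h2 (by linarith)
    linarith
  have hRy : R ≤ y ^ k := by
    have h1 : R ≤ R * Δ ^ 9 := Nat.le_mul_of_pos_right _ (by positivity)
    exact h1.trans (hR9.trans (hNy.trans (Nat.pow_le_pow_right (by omega) hjk2)))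
  -- the parameter `B`
  obtain ⟨B, hBd⟩ : ∃ B : ℕ, B = y0 ^ j / (2 * y ^ (2 * i)) := ⟨_, rfl⟩
  have hB : 2 * B * y ^ (2 * i) ≤ y0 ^ j := by
    have := Nat.div_mul_le_self (y0 ^ j) (2 * y ^ (2 * i))
    rw [← hBd] at this
    linarith
  have hB' : y0 ^ j < 2 * y ^ (2 * i) * (B + 1) := by
    rw [hBd]
    exact Nat.lt_mul_div_succ _ (by positivity)
  have hyy := E.yy hjk2
  have hB1 : 1 ≤ B := by
    rw [hBd, Nat.le_div_iff_mul_le (by positivity), one_mul]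
    have h1 : Δ * (2 * y ^ (2 * i)) ≤ y ^ j := by
      refine SP_le_of_log (by positivity) (by positivity) ?_
      rw [Nat.cast_mul, Real.log_mul (by positivity) (by positivity), Nat.cast_mul,
        Real.log_mul (by positivity) (by positivity), hlogpow, hlogpow, ← hxd, ← hlyd, ← hτd]
      push_cast
      linarith
    exact Nat.le_of_mul_le_mul_left (h1.trans hyy) hΔ0
  have hB2 : y0 ^ j ≤ Δ * (B * y ^ (2 * i)) := by
    have h2 : 2 * (B + 1) ≤ Δ * B := by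
      calc 2 * (B + 1) ≤ 4 * B := by omega
        _ ≤ Δ * B := Nat.mul_le_mul hΔ4 le_rfl
    have h1 := Nat.mul_le_mul_right (y ^ (2 * i)) h2
    have h3 : 2 * y ^ (2 * i) * (B + 1) = 2 * (B + 1) * y ^ (2 * i) := by ring
    have h4 : Δ * (B * y ^ (2 * i)) = Δ * B * y ^ (2 * i) := by ring
    omega
  -- the modulus
  have hR1 : 1 ≤ R := by omega
  obtain ⟨r, w, hrp, hRr, hr4, hrw, hBw, hwy, hnc⟩ := stepW E hV hj1 hjk2 hij hB1 hB hNi hR1
    (hR9) (hR R hyR hRy)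
  have hr0 : 0 < r := hrp.pos
  have hw0 : 0 < w := by omega
  have hrN : r ≤ N P j := by
    refine hr4.trans (le_trans ?_ hR9)
    rw [mul_comm]
    refine Nat.mul_le_mul le_rfl ?_
    calc 4 ≤ Δ := hΔ4
      _ = Δ ^ 1 := (pow_one _).symm
      _ ≤ Δ ^ 9 := Nat.pow_le_pow_right hΔ0 (by norm_num)
  have hNr : N P j ≤ Δ ^ 9 * r := hR9'.le.trans (Nat.mul_le_mul le_rfl hRr)
  have hc : nc w V ≤ Δ ^ 24 * r := by
    refine hnc.trans ?_
    calc Δ ^ (8 * 1 + 7) * N P j ≤ Δ ^ (8 * 1 + 7) * (Δ ^ 9 * r) := Nat.mul_le_mul le_rfl hNr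
      _ = Δ ^ 24 * r := by ring
  obtain ⟨ρ, hρd⟩ : ∃ ρ : ℝ, ρ = Real.log r := ⟨_, rfl⟩
  have hρ1 : ρ ≤ τ - τ / (2 * a1) := by
    have h1 := SP_log_of_le hr0 hrN
    rw [← hρd, ← hnj] at h1
    exact h1.trans hN
  have hρ2 : τ ≤ a0 * (ρ + 9 * x) := by
    have h1 := SP_log_of_le hNj0 hNr
    rw [SP_lm (by positivity) hr0, SP_lp, ← hxd, ← hρd, ← hnj] at h1
    refine hN1.trans (mul_le_mul_of_nonneg_left ?_ (by linarith))
    push_cast at h1
    linarith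
  have hω : τ ≤ 2 * x + Real.log w + τ / (16 * a1) := by
    have h1 : y ^ j ≤ Δ * (Δ * (w * y ^ (2 * i))) :=
      hyy.trans (Nat.mul_le_mul le_rfl (hB2.trans (Nat.mul_le_mul le_rfl
        (Nat.mul_le_mul hBw le_rfl))))
    have h2 := SP_log_of_le (by positivity) h1
    rw [SP_lp, SP_lm hΔ0 (by positivity), SP_lm hΔ0 (by positivity), SP_lm hw0 (by positivity),
      SP_lp, ← hxd, ← hlyd, ← hτd] at h2
    have h3 : τ / (16 * a1) = 2 * (τ / (32 * a1)) := by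
      field_simp
      ring
    push_cast at h2
    linarith
  exact SP_core2 E ha1 hy2 hjk' hj1 hxd hlyd hτd hρd hxA hlog2 hρ1 hρ2 hω hrp (by omega)
    (hrN.trans hNy) hrw hw0 hwy hV hc

end core

section outer

theorem SP_bin {n j m : ℕ} (h : 2 * j + m ≤ n) : n.choose m ≤ 2 ^ m * (n - j).choose m := by
  induction m with
  | zero => simp
  | succ m ih =>
    have ih := ih (by omega)
    have h1 := Nat.choose_succ_right_eq n m
    have h2 := Nat.choose_succ_right_eq (n - j) m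
    have h3 : n - m ≤ 2 * (n - j - m) := by omega
    refine Nat.le_of_mul_le_mul_right ?_ (Nat.succ_pos m)
    calc n.choose (m + 1) * (m + 1) = n.choose m * (n - m) := h1
      _ ≤ 2 ^ m * (n - j).choose m * (2 * (n - j - m)) := Nat.mul_le_mul ih h3
      _ = 2 ^ (m + 1) * ((n - j).choose m * (n - j - m)) := by ring
      _ = 2 ^ (m + 1) * ((n - j).choose (m + 1) * (m + 1)) := by rw [h2]
      _ = 2 ^ (m + 1) * (n - j).choose (m + 1) * (m + 1) := by ring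

theorem SP_bin2 {n j m k : ℕ} (hjm : j + m ≤ k) (hn : 2 * k ≤ n) :
    n.choose j * n.choose m ≤ 4 ^ k * n.choose (j + m) := by
  have h1 := SP_bin (n := n) (j := j) (m := m) (by omega)
  have h2 := Nat.choose_mul (n := n) (k := j + m) (s := j) (by omega)
  rw [Nat.add_sub_cancel_left] at h2
  have h3 : (j + m).choose j ≤ 2 ^ (j + m) := Nat.choose_le_two_pow _ _
  calc n.choose j * n.choose m ≤ n.choose j * (2 ^ m * (n - j).choose m) :=
        Nat.mul_le_mul le_rfl h1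
    _ = 2 ^ m * (n.choose j * (n - j).choose m) := by ring
    _ = 2 ^ m * (n.choose (j + m) * (j + m).choose j) := by rw [h2]
    _ ≤ 2 ^ k * (n.choose (j + m) * 2 ^ k) := by
        refine Nat.mul_le_mul (Nat.pow_le_pow_right (by norm_num) (by omega))
          (Nat.mul_le_mul le_rfl (h3.trans (Nat.pow_le_pow_right (by norm_num) hjm)))
    _ = 4 ^ k * n.choose (j + m) := by
        rw [show (4 : ℕ) = 2 * 2 by norm_num, mul_pow]
        ring

theorem SP_logN {n y j : ℕ} (hny : n ≤ y) (hj : 1 ≤ j) (hjn : j ≤ n) :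
    Real.log (n.choose j) ≤ j * Real.log y - (j * Real.log j - j) := by
  have hc : (0 : ℝ) < (n.choose j : ℝ) := by exact_mod_cast Nat.choose_pos hjn
  have hf : (0 : ℝ) < (j.factorial : ℝ) := by exact_mod_cast Nat.factorial_pos j
  have hj0 : (0 : ℝ) < j := by exact_mod_cast hj
  have hy0 : (0 : ℝ) < y := by
    have : 0 < y := by omega
    exact_mod_cast this
  have h1 : (n.choose j : ℝ) ≤ (n : ℝ) ^ j / j.factorial := Nat.choose_le_pow_div j n
  have h2 : (n : ℝ) ^ j / j.factorial ≤ (y : ℝ) ^ j / j.factorial := by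
    have : (n : ℝ) ≤ y := by exact_mod_cast hny
    gcongr
  have h3 := Real.log_le_log hc (h1.trans h2)
  rw [Real.log_div (by positivity) (by positivity), Real.log_pow] at h3
  have h4 := Real.log_le_log (by positivity) (Real.pow_div_factorial_le_exp (j : ℝ) hj0.le j)
  rw [Real.log_div (by positivity) (by positivity), Real.log_pow, Real.log_exp] at h4
  linarith

theorem SP_cheb {R : ℕ} (hR : 10 ^ 9 ≤ R) :
    (R : ℝ) ≤ ((Ioc R (4 * R)).filter Nat.Prime).card * Real.log (4 * R) := by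
  have hR0 : (0 : ℝ) < R := by
    have : 0 < R := by omega
    exact_mod_cast this
  have hn0 : (0 : ℝ) < 4 * R := by positivity
  have hRr : (10 : ℝ) ^ 9 ≤ R := by exact_mod_cast hR
  have h1 := Chebyshev.theta_ge (4 * R)
  have h2 := Chebyshev.theta_le_log4_mul_x (x := (R : ℝ)) hR0.le
  have h3 : Chebyshev.theta ((4 * R : ℕ) : ℝ) - Chebyshev.theta (R : ℝ) ≤
      ((Ioc R (4 * R)).filter Nat.Prime).card * Real.log (4 * R) := by
    have h4 : Chebyshev.theta ((4 * R : ℕ) : ℝ) = Chebyshev.theta (R : ℝ) +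
        ∑ p ∈ (Ioc R (4 * R)).filter Nat.Prime, Real.log p := by
      unfold Chebyshev.theta
      rw [Nat.floor_natCast, Nat.floor_natCast, Finset.sum_filter, Finset.sum_filter,
        Finset.sum_filter]
      exact (Finset.sum_Ioc_consecutive _ (Nat.zero_le _) (by omega)).symm
    rw [h4, add_sub_cancel_left]
    have h5 : ∀ p ∈ (Ioc R (4 * R)).filter Nat.Prime, Real.log p ≤ Real.log (4 * R) := by
      intro p hp
      rw [Finset.mem_filter, Finset.mem_Ioc] at hp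
      have hp0 : (0 : ℝ) < p := by exact_mod_cast hp.2.pos
      have : (p : ℝ) ≤ 4 * R := by exact_mod_cast hp.1.2
      exact Real.log_le_log hp0 this
    have h6 := Finset.sum_le_card_nsmul _ _ _ h5
    rwa [nsmul_eq_mul] at h6
  refine le_trans ?_ h3
  -- numerics with `u = (4 R) ^ (1/4)`
  obtain ⟨u, hu⟩ : ∃ u : ℝ, u = (4 * (R : ℝ)) ^ ((1 : ℝ) / 4) := ⟨_, rfl⟩
  have hu0 : 0 < u := by rw [hu]; positivity
  have hu4 : u ^ 4 = 4 * R := by
    rw [hu, ← Real.rpow_natCast, ← Real.rpow_mul hn0.le]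
    norm_num
  have hu100 : 100 ≤ u := by
    by_contra hcon
    push Not at hcon
    have : u ^ 4 < 100 ^ 4 := pow_lt_pow_left₀ hcon hu0.le (by norm_num)
    rw [hu4] at this
    linarith
  have hlog : Real.log (4 * R) ≤ 4 * u := by
    have := Real.log_le_rpow_div hn0.le (ε := 1 / 4) (by norm_num)
    rw [← hu] at this
    linarith
  have hlog1 : Real.log (4 * R + 1) ≤ 4 * u + 1 := by
    have h7 : Real.log (4 * R + 1) ≤ Real.log (2 * (4 * R)) :=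
      Real.log_le_log (by positivity) (by linarith)
    rw [Real.log_mul (by norm_num) (by positivity)] at h7
    have := Real.log_two_lt_d9
    linarith
  have hsq : Real.sqrt (4 * R) = u ^ 2 := by
    rw [← hu4, show u ^ 4 = (u ^ 2) ^ 2 by ring, Real.sqrt_sq (by positivity)]
  push_cast at h1
  rw [hsq] at h1
  have h8 : 2 * u ^ 2 * Real.log (4 * R) ≤ 2 * u ^ 2 * (4 * u) :=
    mul_le_mul_of_nonneg_left hlog (by positivity)
  have h9 : Real.log 4 = 2 * Real.log 2 := by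
    rw [show (4 : ℝ) = 2 ^ 2 by norm_num, Real.log_pow]
    norm_num
  rw [h9] at h2
  have h10 := Real.log_two_gt_d9
  have h11 : (R : ℝ) * 0.6931471803 ≤ R * Real.log 2 := mul_le_mul_of_nonneg_left h10.le hR0.le
  have h12 : u ^ 3 * 100 ≤ u ^ 4 := by
    rw [show u ^ 4 = u ^ 3 * u by ring]
    exact mul_le_mul_of_nonneg_left hu100 (by positivity)
  have h13 : u * 10000 ≤ u ^ 3 := by
    rw [show u ^ 3 = u * (u * u) by ring]
    refine mul_le_mul_of_nonneg_left ?_ hu0.le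
    calc (10000 : ℝ) = 100 * 100 := by norm_num
      _ ≤ u * u := mul_le_mul hu100 hu100 (by norm_num) hu0.le
  push_cast
  have h14 : 2 * u ^ 2 * (4 * u) = 8 * u ^ 3 := by ring
  linarith

end outer

section final

theorem SP_five {a b c d e y : ℕ} (h : a + b + c + d + e ≤ y) :
    a ≤ y ∧ b ≤ y ∧ c ≤ y ∧ d ≤ y ∧ e ≤ y := by omega

theorem SP_exp {z q D : ℝ} (hq : 1 ≤ q) (hz : 4 * q ^ 2 ≤ z) (hD : Real.exp (z / q) ≤ D) :
    1 + 2 * z ≤ D := by
  have hq0 : 0 < q := by linarith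
  have hz0 : 0 ≤ z := le_trans (by positivity) hz
  have h1 := Real.quadratic_le_exp_of_nonneg (x := z / q) (by positivity)
  have h2 : 2 * z ≤ (z / q) ^ 2 / 2 := by
    rw [div_pow, div_div, le_div_iff₀ (by positivity)]
    have := mul_le_mul_of_nonneg_left hz hz0
    calc 2 * z * (q ^ 2 * 2) = z * (4 * q ^ 2) := by ring
      _ ≤ z * z := this
      _ = z ^ 2 := by ring
  have h3 : 0 ≤ z / q := by positivity
  linarith

theorem SP_T {y k Q : ℕ} (hy : 1 ≤ y) :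
    (y : ℝ) ^ (1 / (Q : ℝ) * k) = Real.exp (k * Real.log y / Q) := by
  have hy0 : (0 : ℝ) < y := by exact_mod_cast hy
  rw [Real.rpow_def_of_pos hy0]
  congr 1
  ring

theorem SP_logy {y e : ℕ} (h : 4 ^ e ≤ y) : (e : ℝ) ≤ Real.log y := by
  have h1 : Real.log ((4 ^ e : ℕ) : ℝ) ≤ Real.log y := SP_log_of_le (by positivity) h
  rw [Nat.cast_pow, Real.log_pow] at h1
  have h2 : (1 : ℝ) ≤ Real.log ((4 : ℕ) : ℝ) := by
    push_cast
    rw [show (4 : ℝ) = 2 * 2 by norm_num, Real.log_mul (by norm_num) (by norm_num)]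
    have := Real.log_two_gt_d9
    linarith
  have h3 : (e : ℝ) * 1 ≤ e * Real.log ((4 : ℕ) : ℝ) :=
    mul_le_mul_of_nonneg_left h2 (Nat.cast_nonneg _)
  linarith

theorem SP_env {y0 y k Q a0 : ℕ} {P : Finset ℕ} (ha0 : 1 ≤ a0) (hQ : 2 ≤ Q)
    (hP : ∀ p ∈ P, p.Prime ∧ y0 < p ∧ p ≤ y) (hy0 : (y : ℝ) ^ (1 - 1 / (Q : ℝ)) ≤ y0)
    (hk : 1 ≤ k) (hratio : y * k ^ a0 ≤ P.card ^ a0) (hkQ : 4 * Q ^ 2 ≤ k) (hy4 : 4 ^ Q ≤ y)
    (hya : 2 ^ a0 ≤ y) : Env P y0 y k ⌈(y : ℝ) ^ (1 / (Q : ℝ) * k)⌉₊ a0 := by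
  have hQ0 : (0 : ℝ) < Q := by
    have : 0 < Q := by omega
    exact_mod_cast this
  have hQ2 : (2 : ℝ) ≤ Q := by exact_mod_cast hQ
  have hy1 : 1 ≤ y := le_trans Nat.one_le_two_pow hya
  have hyr0 : (0 : ℝ) < y := by exact_mod_cast hy1
  have hyr1 : (1 : ℝ) ≤ y := by exact_mod_cast hy1
  have hT : (y : ℝ) ^ (1 / (Q : ℝ) * k) ≤ (⌈(y : ℝ) ^ (1 / (Q : ℝ) * k)⌉₊ : ℝ) := Nat.le_ceil _
  obtain ⟨T, hTd⟩ : ∃ T : ℝ, T = (y : ℝ) ^ (1 / (Q : ℝ) * k) := ⟨_, rfl⟩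
  rw [← hTd] at hT ⊢
  have hkr : (4 : ℝ) * Q ^ 2 ≤ k := by exact_mod_cast hkQ
  have hQk : (Q : ℝ) ≤ k := by
    have h1 : (Q : ℝ) * 1 ≤ Q * (4 * Q) := mul_le_mul_of_nonneg_left (by linarith) hQ0.le
    calc (Q : ℝ) = Q * 1 := (mul_one _).symm
      _ ≤ Q * (4 * Q) := h1
      _ = 4 * Q ^ 2 := by ring
      _ ≤ k := hkr
  have hy0r : (0 : ℝ) < y0 := lt_of_lt_of_le (by positivity) hy0
  have h1Q : 1 / (Q : ℝ) ≤ 1 / 2 := one_div_le_one_div_of_le (by norm_num) hQ2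
  have hly : (Q : ℝ) ≤ Real.log y := SP_logy hy4
  have h4k : (4 : ℝ) ^ k ≤ T := by
    have h1 : ((4 : ℝ) ^ Q) ^ (1 / (Q : ℝ) * k) = (4 : ℝ) ^ k := by
      rw [← Real.rpow_natCast 4 Q, ← Real.rpow_mul (by norm_num), ← mul_assoc,
        mul_one_div_cancel hQ0.ne', one_mul, Real.rpow_natCast]
    rw [← h1, hTd]
    refine Real.rpow_le_rpow (by positivity) ?_ (by positivity)
    exact_mod_cast hy4
  have h4kn : 4 ^ k ≤ ⌈T⌉₊ := by exact_mod_cast h4k.trans hT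
  have h2k : 2 * k ≤ P.card := by
    have h1 : (2 * k) ^ a0 ≤ P.card ^ a0 := by
      rw [mul_pow]
      exact (Nat.mul_le_mul hya le_rfl).trans hratio
    exact (Nat.pow_le_pow_iff_left (by omega)).1 h1
  refine
    { prime := fun p hp => (hP p hp).1
      gt := fun p hp => (hP p hp).2.1
      le := fun p hp => (hP p hp).2.2
      y0_pos := by exact_mod_cast hy0r
      sq := ?_
      k_pos := hk
      two_k := h2k
      a0_pos := ha0
      ratio := hratio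
      y_le := ?_
      four_k := h4kn
      yy0 := ?_
      bin := ?_
      logs := ?_ }
  · have h1 : (y : ℝ) ≤ (y0 : ℝ) ^ 2 := by
      calc (y : ℝ) = (y : ℝ) ^ (1 : ℝ) := (Real.rpow_one _).symm
        _ ≤ (y : ℝ) ^ ((1 - 1 / (Q : ℝ)) * (2 : ℕ)) := by
            refine Real.rpow_le_rpow_of_exponent_le hyr1 ?_
            push_cast
            linarith
        _ = ((y : ℝ) ^ (1 - 1 / (Q : ℝ))) ^ 2 := Real.rpow_mul_natCast hyr0.le _ _
        _ ≤ (y0 : ℝ) ^ 2 := by gcongr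
    exact_mod_cast h1
  · have h1 : (y : ℝ) ≤ T := by
      rw [hTd]
      calc (y : ℝ) = (y : ℝ) ^ (1 : ℝ) := (Real.rpow_one _).symm
        _ ≤ (y : ℝ) ^ (1 / (Q : ℝ) * k) := by
            refine Real.rpow_le_rpow_of_exponent_le hyr1 ?_
            rw [one_div_mul_eq_div, le_div_iff₀ hQ0]
            linarith
    exact_mod_cast h1.trans hT
  · have h1 : (y : ℝ) ^ k ≤ T * (y0 : ℝ) ^ k := by
      calc (y : ℝ) ^ k = (y : ℝ) ^ (1 / (Q : ℝ) * k + (1 - 1 / (Q : ℝ)) * k) := by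
            rw [← Real.rpow_natCast]
            congr 1
            ring
        _ = T * ((y : ℝ) ^ (1 - 1 / (Q : ℝ))) ^ k := by
            rw [Real.rpow_add hyr0, ← hTd, Real.rpow_mul_natCast hyr0.le]
        _ ≤ T * (y0 : ℝ) ^ k := by
            have : 0 ≤ T := le_trans (by positivity) h4k
            gcongr
    have h2 : (y : ℝ) ^ k ≤ (⌈T⌉₊ : ℝ) * (y0 : ℝ) ^ k :=
      h1.trans (mul_le_mul_of_nonneg_right hT (by positivity))
    exact_mod_cast h2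
  · intro j m hjm
    exact (SP_bin2 hjm h2k).trans (Nat.mul_le_mul h4kn le_rfl)
  · have hz : 4 * (Q : ℝ) ^ 2 ≤ k * Real.log y := by
      have h1 : (k : ℝ) * 1 ≤ k * Real.log y :=
        mul_le_mul_of_nonneg_left (by linarith) (Nat.cast_nonneg _)
      linarith
    have h1 := SP_exp (z := k * Real.log y) (q := Q) (D := (⌈T⌉₊ : ℝ)) (by linarith) hz (by
      rw [← SP_T hy1, ← hTd]
      exact hT)
    have hyk0 : y ^ k ≠ 0 := (Nat.pow_pos (by omega)).ne'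
    have h2 : Real.log ((2 ^ Nat.log 2 (y ^ k) : ℕ) : ℝ) ≤ Real.log ((y ^ k : ℕ) : ℝ) :=
      SP_log_of_le (by positivity) (Nat.pow_log_le_self 2 hyk0)
    rw [Nat.cast_pow, Real.log_pow, Nat.cast_pow, Real.log_pow] at h2
    have h3 : (1 : ℝ) / 2 ≤ Real.log ((2 : ℕ) : ℝ) := by
      push_cast
      have := Real.log_two_gt_d9
      linarith
    have h4 : (Nat.log 2 (y ^ k) : ℝ) * (1 / 2) ≤ Nat.log 2 (y ^ k) * Real.log ((2 : ℕ) : ℝ) :=
      mul_le_mul_of_nonneg_left h3 (Nat.cast_nonneg _)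
    have h6 := h4.trans h2
    have h5 : ((Nat.log 2 (y ^ k) + 1 : ℕ) : ℝ) ≤ (⌈T⌉₊ : ℝ) := by
      rw [Nat.cast_add, Nat.cast_one]
      linarith
    exact_mod_cast h5

theorem SP_hR {y k Q Δ R : ℕ} (hQ : 1 ≤ Q) (hy : 10 ^ 9 ≤ y) (hk : 4 * Q ^ 2 ≤ k)
    (hΔ : Real.exp (k * Real.log y / Q) ≤ Δ) (hly : 1 ≤ Real.log y) (hyR : y ≤ R)
    (hRy : R ≤ y ^ k) : R ≤ Δ * ((Ioc R (4 * R)).filter Nat.Prime).card := by
  have h1 := SP_cheb (hy.trans hyR)
  have hkr : (4 : ℝ) * Q ^ 2 ≤ k := by exact_mod_cast hk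
  have hQr : (1 : ℝ) ≤ Q := by exact_mod_cast hQ
  have hz1 : (k : ℝ) * 1 ≤ k * Real.log y := mul_le_mul_of_nonneg_left hly (Nat.cast_nonneg _)
  have h2 := SP_exp (z := k * Real.log y) (q := Q) (D := (Δ : ℝ)) hQr (by linarith) hΔ
  have hR0 : 0 < R := by omega
  have h3 : Real.log R ≤ k * Real.log y := by
    have := SP_log_of_le hR0 hRy
    rwa [Nat.cast_pow, Real.log_pow] at this
  have hRr : (0 : ℝ) < R := by exact_mod_cast hR0
  have h4 : Real.log (4 * R) ≤ Δ := by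
    rw [Real.log_mul (by norm_num) hRr.ne', show (4 : ℝ) = 2 * 2 by norm_num,
      Real.log_mul (by norm_num) (by norm_num)]
    have := Real.log_two_lt_d9
    have h5 : (1 : ℝ) ≤ (Q : ℝ) ^ 2 := one_le_pow₀ hQr
    linarith
  have h5 : (R : ℝ) ≤ Δ * (((Ioc R (4 * R)).filter Nat.Prime).card : ℝ) := by
    rw [mul_comm]
    exact h1.trans (mul_le_mul_of_nonneg_left h4 (Nat.cast_nonneg _))
  exact_mod_cast h5

theorem SP (a0 a1 : ℕ) (ha0 : 1 ≤ a0) (ha1 : 1 ≤ a1) :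
    ∃ ε : ℝ, 0 < ε ∧ ∃ Y : ℕ, ∀ (y0 y k : ℕ) (P : Finset ℕ), Y ≤ y →
      (∀ p ∈ P, p.Prime ∧ y0 < p ∧ p ≤ y) → (y : ℝ) ^ (1 - ε) ≤ y0 → 1 ≤ k →
      y * k ^ a0 ≤ P.card ^ a0 → y ≤ k ^ a1 →
      ∀ V : Finset ℤ, V ⊆ A P k → (N P k : ℝ) ≤ (y : ℝ) ^ (ε * k) * V.card →
        (y : ℝ) ^ (ε * k) * N P k < ((V - V).card : ℝ) := by
  obtain ⟨J, hJ⟩ : ∃ J : ℕ, J = SP_I a0 a1 + 3 := ⟨_, rfl⟩
  obtain ⟨M, hM⟩ : ∃ M : ℕ, M = SP_M a0 a1 := ⟨_, rfl⟩
  obtain ⟨Q, hQ⟩ : ∃ Q : ℕ, Q = M * 2 ^ (J + 2) := ⟨_, rfl⟩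
  have hM2 : 2 ≤ M := by
    rw [hM]
    unfold SP_M
    have h1 : 1 ≤ a0 * a1 := Nat.mul_pos ha0 ha1
    calc 2 ≤ 1000 * (a0 * a1) * 100 := by omega
      _ = 1000 * a0 * a1 * 100 := by ring
      _ ≤ 1000 * a0 * a1 * (SP_G a0 a1 + SP_E a0 a1 + 2 * a0 + 100) :=
          Nat.mul_le_mul le_rfl (by omega)
  have hQ2 : 2 ≤ Q := by
    rw [hQ]
    calc 2 ≤ M := hM2
      _ ≤ M * 2 ^ (J + 2) := Nat.le_mul_of_pos_right _ (by positivity)
  have hQ0 : (0 : ℝ) < Q := by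
    have : 0 < Q := by omega
    exact_mod_cast this
  refine ⟨1 / (Q : ℝ), by positivity, (2 ^ J * (128 * (a0 * a1)) + 4 * Q ^ 2) ^ a1 + 4 ^ Q +
    2 ^ a0 + 10 ^ 9 + 4 ^ (2 * a1 * (J + 2)), ?_⟩
  intro y0 y k P hY hP hy0 hk hratio hyk V hVA hVd
  by_contra hcon
  push Not at hcon
  -- consequences of `hY`
  obtain ⟨hY1, hY2, hY3, hY4, hY5⟩ := SP_five hY
  clear hY
  have hk0 : 2 ^ J * (128 * (a0 * a1)) + 4 * Q ^ 2 ≤ k :=
    (Nat.pow_le_pow_iff_left (by omega)).1 (hY1.trans hyk)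
  have hkQ : 4 * Q ^ 2 ≤ k := by omega
  have hkJ : 2 ^ J * (128 * (a0 * a1)) ≤ k := by omega
  have hy1 : 1 ≤ y := by omega
  have hyr0 : (0 : ℝ) < y := by exact_mod_cast hy1
  have hQly : (Q : ℝ) ≤ Real.log y := SP_logy hY2
  have hQ2r : (2 : ℝ) ≤ Q := by exact_mod_cast hQ2
  have hly1 : 1 ≤ Real.log y := by linarith
  have E := SP_env ha0 hQ2 hP hy0 hk hratio hkQ hY2 hY3
  have hT : (y : ℝ) ^ (1 / (Q : ℝ) * k) ≤ (⌈(y : ℝ) ^ (1 / (Q : ℝ) * k)⌉₊ : ℝ) := Nat.le_ceil _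
  have hT' : (⌈(y : ℝ) ^ (1 / (Q : ℝ) * k)⌉₊ : ℝ) < (y : ℝ) ^ (1 / (Q : ℝ) * k) + 1 :=
    Nat.ceil_lt_add_one (by positivity)
  obtain ⟨Δ, hΔ⟩ : ∃ Δ : ℕ, Δ = ⌈(y : ℝ) ^ (1 / (Q : ℝ) * k)⌉₊ := ⟨_, rfl⟩
  rw [← hΔ] at E hT hT'
  have hΔ0 : 0 < Δ := by
    have := E.four_le
    omega
  -- `V`
  have hV : VV P Δ k 1 V := by
    refine ⟨hVA, ?_, ?_⟩
    · have h1 : (N P k : ℝ) ≤ Δ * V.card :=
        hVd.trans (mul_le_mul_of_nonneg_right hT (Nat.cast_nonneg _))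
      rw [pow_one]
      exact_mod_cast h1
    · have h1 : ((V - V).card : ℝ) ≤ Δ * N P k :=
        hcon.trans (mul_le_mul_of_nonneg_right hT (Nat.cast_nonneg _))
      rw [pow_one]
      exact_mod_cast h1
  -- `j`
  obtain ⟨j, hjd⟩ : ∃ j : ℕ, j = k / 2 ^ J := ⟨_, rfl⟩
  have hj1 : 2 ^ J * j ≤ k := by rw [hjd]; exact Nat.mul_div_le _ _
  have hj2 : k < 2 ^ J * (j + 1) := by rw [hjd]; exact Nat.lt_mul_div_succ _ (by positivity)
  have hj3 : 128 * (a0 * a1) ≤ j := by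
    rw [hjd, Nat.le_div_iff_mul_le (by positivity), mul_comm]
    exact hkJ
  have h01 : 1 ≤ a0 * a1 := Nat.mul_pos ha0 ha1
  have hj4 : 1 ≤ j := by omega
  have hj5 : k ≤ 2 ^ (J + 1) * j := by
    calc k ≤ 2 ^ J * (j + 1) := hj2.le
      _ ≤ 2 ^ J * (2 * j) := Nat.mul_le_mul le_rfl (by omega)
      _ = 2 ^ (J + 1) * j := by ring
  have hj0 : (0 : ℝ) < j := by exact_mod_cast hj4
  have hk0r : (0 : ℝ) < k := by exact_mod_cast hk
  have hj5r : (k : ℝ) ≤ 2 ^ (J + 1) * j := by exact_mod_cast hj5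
  -- the size of `Δ`
  have hx : (SP_M a0 a1 : ℝ) * Real.log Δ ≤ j * Real.log y := by
    obtain ⟨s, hs⟩ : ∃ s : ℝ, s = k * Real.log y / Q := ⟨_, rfl⟩
    have hkQr : 4 * (Q : ℝ) ^ 2 ≤ k := by exact_mod_cast hkQ
    have hs1 : 1 ≤ s := by
      rw [hs, le_div_iff₀ hQ0]
      have h1 : (k : ℝ) * 1 ≤ k * Real.log y := mul_le_mul_of_nonneg_left hly1 hk0r.le
      have h2 : (Q : ℝ) * 1 ≤ Q * Q := mul_le_mul_of_nonneg_left (by linarith) hQ0.le
      have h3 : (Q : ℝ) ^ 2 = Q * Q := by ring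
      have h4 : 0 ≤ (Q : ℝ) * Q := by positivity
      linarith
    have hlog : Real.log Δ ≤ 2 * s := by
      rw [SP_T hy1, ← hs] at hT'
      have h1 : (2 : ℝ) ≤ Real.exp s := by
        have := Real.add_one_le_exp s
        linarith
      have h2 : (Δ : ℝ) ≤ Real.exp (2 * s) := by
        rw [two_mul, Real.exp_add]
        have := mul_le_mul_of_nonneg_left h1 (by positivity : (0 : ℝ) ≤ Real.exp s)
        linarith
      calc Real.log Δ ≤ Real.log (Real.exp (2 * s)) :=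
            Real.log_le_log (by exact_mod_cast hΔ0) h2
        _ = 2 * s := Real.log_exp _
    rw [← hM]
    have hM0 : (0 : ℝ) < M := by
      have : 0 < M := by omega
      exact_mod_cast this
    calc (M : ℝ) * Real.log Δ ≤ M * (2 * s) := mul_le_mul_of_nonneg_left hlog hM0.le
      _ = k * Real.log y / 2 ^ (J + 1) := by
          rw [hs, hQ]
          push_cast
          field_simp
          ring
      _ ≤ j * Real.log y := by
          rw [div_le_iff₀ (by positivity)]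
          have := mul_le_mul_of_nonneg_right hj5r (by linarith : 0 ≤ Real.log (y : ℝ))
          linarith
  -- `log N_j`
  have hN : Real.log (N P j) ≤ j * Real.log y - j * Real.log y / (2 * a1) := by
    have hcard : P.card ≤ y := by
      have h1 : P ⊆ Finset.Icc 1 y := by
        intro p hp
        rw [Finset.mem_Icc]
        exact ⟨(hP p hp).1.one_lt.le, (hP p hp).2.2⟩
      have h2 := Finset.card_le_card h1
      rwa [Nat.card_Icc, Nat.add_sub_cancel] at h2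
    have hjc : j ≤ P.card := by
      have h1 := E.two_k
      have h2 : j ≤ 2 ^ J * j := Nat.le_mul_of_pos_left _ (by positivity)
      omega
    have h1 := SP_logN hcard hj4 hjc
    have ha1r : (1 : ℝ) ≤ a1 := by exact_mod_cast ha1
    have h2 : Real.log y ≤ a1 * Real.log k := by
      have := SP_log_of_le hy1 hyk
      rwa [Nat.cast_pow, Real.log_pow] at this
    have h3 : Real.log k ≤ (J + 1) * Real.log 2 + Real.log j := by
      have h4 := Real.log_le_log hk0r hj5r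
      rw [Real.log_mul (by positivity) hj0.ne', Real.log_pow] at h4
      push_cast at h4
      exact h4
    have h5 : (2 * (a1 : ℝ) * (J + 2)) ≤ Real.log y := by
      have := SP_logy hY5
      push_cast at this
      exact this
    have h6 : Real.log y / (2 * a1) ≤ Real.log j - 1 := by
      have h7 : Real.log y / a1 ≤ Real.log k := by
        rw [div_le_iff₀ (by positivity)]
        linarith
      have h8 : Real.log y / a1 = 2 * (Real.log y / (2 * a1)) := by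
        field_simp
      have h9 : (J : ℝ) + 2 ≤ Real.log y / (2 * a1) := by
        rw [le_div_iff₀ (by positivity)]
        linarith
      have h10 : ((J : ℝ) + 1) * Real.log 2 ≤ (J + 1) * 1 := by
        have := Real.log_two_lt_d9
        exact mul_le_mul_of_nonneg_left (by linarith) (by positivity)
      linarith
    have h11 : (j : ℝ) * (Real.log y / (2 * a1)) ≤ j * (Real.log j - 1) :=
      mul_le_mul_of_nonneg_left h6 hj0.le
    have h12 : (j : ℝ) * Real.log y / (2 * a1) = j * (Real.log y / (2 * a1)) := by ring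
    unfold N
    rw [h12]
    linarith
  refine SP_core E ha1 (by omega) (by rw [← hJ]; exact hj1) hj3 hx hN ?_ hV
  intro R hyR hRy
  refine SP_hR (Q := Q) (by omega) hY4 hkQ ?_ hly1 hyR hRy
  rw [← SP_T hy1]
  exact hT

end final

end Pool.Agent.helper41.EX
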