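import Pool.Agent.helper41.EX.Fibre
import Pool.Agent.helper41.EX.Arch

/-! # EXS-StepW: the modulus `w` and the prime `r` -/

namespace Pool.Agent.helper41.EX

open Finset
open scoped Pointwise

variable {P : Finset ℕ} {y0 y k Δ a0 : ℕ}

/-- the common cofactors of two elements -/
def StepW_Y (P : Finset ℕ) (m : ℕ) (V : Finset ℤ) (p : ℤ × ℤ) : Finset ℤ :=
  (A P m).filter (fun v => v * p.1 ∈ V ∧ v * p.2 ∈ V)

/-- the primes of a set dividing the difference -/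
def StepW_R (Q : Finset ℕ) (p : ℤ × ℤ) : Finset ℕ := Q.filter (fun r => (r : ℤ) ∣ p.1 - p.2)

theorem StepW_card_R {Q : Finset ℕ} (hQ : ∀ r ∈ Q, r.Prime) {M : ℕ} {p : ℤ × ℤ}
    (hne : p.1 ≠ p.2) (hM : (p.1 - p.2).natAbs ≤ M) : (StepW_R Q p).card ≤ Nat.log 2 M := by
  have hn : (p.1 - p.2).natAbs ≠ 0 := by
    rw [Int.natAbs_ne_zero]
    exact sub_ne_zero.2 hne
  have hsub : StepW_R Q p ⊆ (p.1 - p.2).natAbs.primeFactors := by
    intro r hr
    obtain ⟨h1, h2⟩ := Finset.mem_filter.1 hr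
    exact Nat.mem_primeFactors.2 ⟨hQ r h1, Int.natCast_dvd.1 h2, hn⟩
  have h1 : 2 ^ (p.1 - p.2).natAbs.primeFactors.card ≤ ∏ q ∈ (p.1 - p.2).natAbs.primeFactors, q :=
    Finset.pow_card_le_prod _ _ _ fun q hq => (Nat.prime_of_mem_primeFactors hq).two_le
  have h2 : ∏ q ∈ (p.1 - p.2).natAbs.primeFactors, q ≤ (p.1 - p.2).natAbs :=
    Nat.le_of_dvd (Nat.pos_of_ne_zero hn) (Nat.prod_primeFactors_dvd _)
  have hM0 : M ≠ 0 := by omega
  exact (Finset.card_le_card hsub).trans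
    (Nat.le_log_of_pow_le (by norm_num) (h1.trans (h2.trans hM)))

/-- double counting for one prime -/
theorem StepW_swap {j m r : ℕ} {V : Finset ℤ} :
    ∑ v ∈ A P m, (((fib P j V v) ×ˢ (fib P j V v)).filter
      (fun p : ℤ × ℤ => ((p.1 : ℤ) : ZMod r) = ((p.2 : ℤ) : ZMod r))).card =
    ∑ p ∈ ((A P j) ×ˢ (A P j)).filter (fun p : ℤ × ℤ => (r : ℤ) ∣ p.1 - p.2),
      (StepW_Y P m V p).card := by
  classical
  have key := Finset.sum_card_bipartiteAbove_eq_sum_card_bipartiteBelow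
    (fun (v : ℤ) (p : ℤ × ℤ) => v * p.1 ∈ V ∧ v * p.2 ∈ V) (s := A P m)
    (t := ((A P j) ×ˢ (A P j)).filter (fun p : ℤ × ℤ => (r : ℤ) ∣ p.1 - p.2))
  refine Eq.trans ?_ (key.trans (Finset.sum_congr rfl fun p _ => rfl))
  refine Finset.sum_congr rfl fun v _ => ?_
  congr 1
  ext p
  simp only [fib, Finset.bipartiteAbove, Finset.mem_filter, Finset.mem_product]
  have e : ((p.1 : ℤ) : ZMod r) = ((p.2 : ℤ) : ZMod r) ↔ (r : ℤ) ∣ p.1 - p.2 := by
    rw [← sub_eq_zero, ← Int.cast_sub, ZMod.intCast_zmod_eq_zero_iff_dvd]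
  rw [e]
  tauto

theorem StepW_lower_one {j m r R : ℕ} (hr : r.Prime) (hrR : r ≤ 4 * R) {V : Finset ℤ} :
    ∑ v ∈ A P m, (fib P j V v).card ^ 2 ≤ 4 * R *
      ∑ p ∈ ((A P j) ×ˢ (A P j)).filter (fun p : ℤ × ℤ => (r : ℤ) ∣ p.1 - p.2),
        (StepW_Y P m V p).card := by
  classical
  have : NeZero r := ⟨hr.ne_zero⟩
  rw [← StepW_swap, Finset.mul_sum]
  refine Finset.sum_le_sum fun v _ => ?_
  have h := collisions (fib P j V v) (fun u : ℤ => (u : ZMod r)) (univ : Finset (ZMod r))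
    (fun _ _ => Finset.mem_univ _)
  rw [Finset.card_univ, ZMod.card] at h
  exact h.trans (Nat.mul_le_mul_right _ hrR)

/-- the sum over all primes -/
theorem StepW_sum {j m : ℕ} {V : Finset ℤ} (Q : Finset ℕ) :
    ∑ r ∈ Q, ∑ p ∈ ((A P j) ×ˢ (A P j)).filter (fun p : ℤ × ℤ => (r : ℤ) ∣ p.1 - p.2),
      (StepW_Y P m V p).card =
    ∑ p ∈ (A P j) ×ˢ (A P j), (StepW_R Q p).card * (StepW_Y P m V p).card := by
  simp_rw [Finset.sum_filter]
  rw [Finset.sum_comm]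
  refine Finset.sum_congr rfl fun p _ => ?_
  rw [← Finset.sum_filter, Finset.sum_const, smul_eq_mul]
  rfl

theorem StepW_lower (E : Env P y0 y k Δ a0) {j m c R : ℕ} (hjm : j + m ≤ k) {V : Finset ℤ}
    (hV : V ⊆ A P (j + m)) (hd : N P (j + m) ≤ Δ ^ c * V.card) (hR1 : 1 ≤ R)
    (Q : Finset ℕ) (hQp : ∀ r ∈ Q, r.Prime) (hQR : ∀ r ∈ Q, r ≤ 4 * R)
    (hRp : R ≤ Δ * Q.card) :
    N P j ^ 2 * N P m ≤ 4 * Δ ^ (2 * c + 3) *
      ∑ p ∈ (A P j) ×ˢ (A P j), (StepW_R Q p).card * (StepW_Y P m V p).card := by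
  classical
  set S1 := ∑ p ∈ (A P j) ×ˢ (A P j), (StepW_R Q p).card * (StepW_Y P m V p).card with hS1
  have hb : 0 < N P m := E.Npos (by omega)
  have h1 : Q.card * ∑ v ∈ A P m, (fib P j V v).card ^ 2 ≤ 4 * R * S1 := by
    rw [hS1, ← StepW_sum, Finset.mul_sum Q]
    calc Q.card * ∑ v ∈ A P m, (fib P j V v).card ^ 2
        = ∑ r ∈ Q, ∑ v ∈ A P m, (fib P j V v).card ^ 2 := by
          rw [Finset.sum_const, smul_eq_mul]
      _ ≤ _ := Finset.sum_le_sum fun r hr => StepW_lower_one (hQp r hr) (hQR r hr)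
  have h2 : (edges P j m V).card ^ 2 ≤ N P m * ∑ v ∈ A P m, (fib P j V v).card ^ 2 := by
    have h := sq_card_le (A P j) (A P m) (edges P j m V) (Finset.filter_subset _ _)
    rw [card_A E.prime] at h
    refine h.trans (le_of_eq ?_)
    congr 1
    refine Finset.sum_congr rfl fun v hv => ?_
    rw [edges_filter_snd hv]
  have h3 := edges_dense E hjm hV hd
  have h4 : R * (edges P j m V).card ^ 2 ≤ R * (4 * Δ * N P m * S1) := by
    calc R * (edges P j m V).card ^ 2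
        ≤ (Δ * Q.card) * (N P m * ∑ v ∈ A P m, (fib P j V v).card ^ 2) :=
          Nat.mul_le_mul hRp h2
      _ = Δ * N P m * (Q.card * ∑ v ∈ A P m, (fib P j V v).card ^ 2) := by ring
      _ ≤ Δ * N P m * (4 * R * S1) := Nat.mul_le_mul_left _ h1
      _ = R * (4 * Δ * N P m * S1) := by ring
  have h5 : (edges P j m V).card ^ 2 ≤ 4 * Δ * N P m * S1 := Nat.le_of_mul_le_mul_left h4 hR1
  have h6 : N P m * (N P j ^ 2 * N P m) ≤ N P m * (4 * Δ ^ (2 * c + 3) * S1) := by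
    calc N P m * (N P j ^ 2 * N P m) = (N P j * N P m) ^ 2 := by ring
      _ ≤ (Δ ^ (c + 1) * (edges P j m V).card) ^ 2 := Nat.pow_le_pow_left h3 2
      _ = Δ ^ (2 * c + 2) * (edges P j m V).card ^ 2 := by ring
      _ ≤ Δ ^ (2 * c + 2) * (4 * Δ * N P m * S1) := Nat.mul_le_mul_left _ h5
      _ = N P m * (4 * Δ ^ (2 * c + 3) * S1) := by ring
  exact Nat.le_of_mul_le_mul_left h6 hb

/-- a far pair with many common cofactors -/
theorem StepW_exists (E : Env P y0 y k Δ a0) {j m i c B R : ℕ} (hjm : j + m ≤ k) {V : Finset ℤ}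
    (hV : V ⊆ A P (j + m)) (hd : N P (j + m) ≤ Δ ^ c * V.card) (hij : i ≤ j) (hB1 : 1 ≤ B)
    (hB : 2 * B * y ^ (2 * i) ≤ y0 ^ j)
    (hNi : Δ ^ (2 * c + 9) ≤ N P i) (hR1 : 1 ≤ R) (hR : R * Δ ^ (2 * c + 7) ≤ N P j)
    (hRp : R ≤ Δ * ((Ioc R (4 * R)).filter Nat.Prime).card) :
    ∃ p ∈ (A P j) ×ˢ (A P j), ∃ r : ℕ, r.Prime ∧ R < r ∧ r ≤ 4 * R ∧ (r : ℤ) ∣ p.1 - p.2 ∧
      (B : ℤ) ≤ |p.1 - p.2| ∧ N P m ≤ Δ ^ (2 * c + 6) * (StepW_Y P m V p).card := by
  classical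
  by_contra hcon
  push Not at hcon
  set Q := (Ioc R (4 * R)).filter Nat.Prime with hQ
  have hQp : ∀ r ∈ Q, r.Prime := fun r hr => (Finset.mem_filter.1 hr).2
  have hQ2 : ∀ r ∈ Q, R < r ∧ r ≤ 4 * R := fun r hr =>
    Finset.mem_Ioc.1 (Finset.mem_filter.1 hr).1
  have hΔ : 4 ≤ Δ := E.four_le
  have hΔ1 : 1 ≤ Δ := by omega
  have hj : j ≤ k := by omega
  have ha : 0 < N P j := E.Npos hj
  have hb : 0 < N P m := E.Npos (by omega)
  have hlow := StepW_lower E hjm hV hd hR1 Q hQp (fun r hr => (hQ2 r hr).2) hRp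
  set S1 := ∑ p ∈ (A P j) ×ˢ (A P j), (StepW_R Q p).card * (StepW_Y P m V p).card with hS1
  have hYle : ∀ p, (StepW_Y P m V p).card ≤ N P m := fun p => by
    rw [← card_A E.prime m]; exact Finset.card_le_card (Finset.filter_subset _ _)
  have hRle : ∀ p, (StepW_R Q p).card ≤ 3 * R := fun p => by
    refine (Finset.card_le_card (Finset.filter_subset _ _)).trans ?_
    refine (Finset.card_le_card (Finset.filter_subset _ _)).trans ?_
    rw [Nat.card_Ioc]; omega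
  have hRΔ : ∀ p ∈ (A P j) ×ˢ (A P j), p.1 ≠ p.2 → (StepW_R Q p).card ≤ Δ := by
    intro p hp hne
    obtain ⟨hp1, hp2⟩ := Finset.mem_product.1 hp
    have hu := A_le E.le hp1
    have hu' := A_le E.le hp2
    have hv := A_pos E.prime hp1
    have hv' := A_pos E.prime hp2
    have hM : (p.1 - p.2).natAbs ≤ y ^ j := by
      have : ((p.1 - p.2).natAbs : ℤ) ≤ (y : ℤ) ^ j := by
        rw [Int.natCast_natAbs, abs_le]
        constructor <;> linarith
      exact_mod_cast this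
    have hlt := Arch_lt E
    have h1 := StepW_card_R hQp hne hM
    have h2 : Nat.log 2 (y ^ j) ≤ Nat.log 2 (y ^ k) :=
      Nat.log_mono_right (Nat.pow_le_pow_right (by omega) hj)
    have h3 := E.logs
    omega
  -- pointwise bound
  have hpt : ∀ p ∈ (A P j) ×ˢ (A P j),
      Δ ^ (2 * c + 7) * ((StepW_R Q p).card * (StepW_Y P m V p).card) ≤
        (if p.1 = p.2 then 3 * R * Δ ^ (2 * c + 7) * N P m else 0) +
        (if |p.1 - p.2| < (B : ℤ) then Δ ^ (2 * c + 8) * N P m else 0) + Δ ^ 2 * N P m := by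
    intro p hp
    by_cases he : p.1 = p.2
    · rw [if_pos he]
      have : Δ ^ (2 * c + 7) * ((StepW_R Q p).card * (StepW_Y P m V p).card) ≤
          3 * R * Δ ^ (2 * c + 7) * N P m := by
        calc _ ≤ Δ ^ (2 * c + 7) * ((3 * R) * N P m) :=
              Nat.mul_le_mul_left _ (Nat.mul_le_mul (hRle p) (hYle p))
          _ = _ := by ring
      omega
    · rw [if_neg he]
      by_cases hc : |p.1 - p.2| < (B : ℤ)
      · rw [if_pos hc]
        have : Δ ^ (2 * c + 7) * ((StepW_R Q p).card * (StepW_Y P m V p).card) ≤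
            Δ ^ (2 * c + 8) * N P m := by
          calc _ ≤ Δ ^ (2 * c + 7) * (Δ * N P m) :=
                Nat.mul_le_mul_left _ (Nat.mul_le_mul (hRΔ p hp he) (hYle p))
            _ = _ := by ring
        omega
      · rw [if_neg hc]
        have : Δ ^ (2 * c + 7) * ((StepW_R Q p).card * (StepW_Y P m V p).card) ≤
            Δ ^ 2 * N P m := by
          rcases Finset.eq_empty_or_nonempty (StepW_R Q p) with h0 | ⟨r, hr⟩
          · rw [h0]; simp
          · obtain ⟨hr1, hr2⟩ := Finset.mem_filter.1 hr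
            have h1 := hcon p hp r (hQp r hr1) (hQ2 r hr1).1 (hQ2 r hr1).2 hr2 (not_lt.1 hc)
            calc Δ ^ (2 * c + 7) * ((StepW_R Q p).card * (StepW_Y P m V p).card)
                = Δ * (StepW_R Q p).card * (Δ ^ (2 * c + 6) * (StepW_Y P m V p).card) := by ring
              _ ≤ Δ * Δ * N P m := Nat.mul_le_mul (Nat.mul_le_mul_left _ (hRΔ p hp he)) h1.le
              _ = _ := by ring
        omega
  have hsum : Δ ^ (2 * c + 7) * S1 ≤
      (((A P j) ×ˢ (A P j)).filter (fun p => p.1 = p.2)).card *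
        (3 * R * Δ ^ (2 * c + 7) * N P m) +
      (((A P j) ×ˢ (A P j)).filter (fun p => |p.1 - p.2| < (B : ℤ))).card *
        (Δ ^ (2 * c + 8) * N P m) + N P j ^ 2 * (Δ ^ 2 * N P m) := by
    rw [hS1, Finset.mul_sum]
    refine (Finset.sum_le_sum hpt).trans (le_of_eq ?_)
    rw [Finset.sum_add_distrib, Finset.sum_add_distrib, ← Finset.sum_filter,
      ← Finset.sum_filter, Finset.sum_const, Finset.sum_const, Finset.sum_const, smul_eq_mul,
      smul_eq_mul, smul_eq_mul, Finset.card_product, card_A E.prime]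
    ring
  have hdiag : (((A P j) ×ˢ (A P j)).filter (fun p => p.1 = p.2)).card ≤ N P j := by
    rw [← card_A E.prime j]
    apply Finset.card_le_card_of_injOn Prod.fst
    · intro p hp
      exact Finset.mem_coe.2 (Finset.mem_product.1 (Finset.mem_filter.1 (Finset.mem_coe.1 hp)).1).1
    · intro p hp q hq h
      have h1 := (Finset.mem_filter.1 (Finset.mem_coe.1 hp)).2
      have h2 := (Finset.mem_filter.1 (Finset.mem_coe.1 hq)).2
      exact Prod.ext h (by rw [← h1, ← h2]; exact h)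
  have hclose := arch E hj hij hB
  set cl := (((A P j) ×ˢ (A P j)).filter (fun p => |p.1 - p.2| < (B : ℤ))).card with hcl
  have hclose2 : Δ ^ (2 * c + 7) * cl ≤ N P j ^ 2 := by
    have h1 : Δ ^ 2 * (Δ ^ (2 * c + 7) * cl) ≤ Δ ^ 2 * N P j ^ 2 := by
      calc Δ ^ 2 * (Δ ^ (2 * c + 7) * cl) = cl * Δ ^ (2 * c + 9) := by ring
        _ ≤ cl * N P i := Nat.mul_le_mul_left _ hNi
        _ ≤ _ := hclose
    exact Nat.le_of_mul_le_mul_left h1 (by positivity)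
  have h1 : (((A P j) ×ˢ (A P j)).filter (fun p => p.1 = p.2)).card *
      (3 * R * Δ ^ (2 * c + 7) * N P m) ≤ 3 * (N P j ^ 2 * N P m) := by
    calc _ ≤ N P j * (3 * R * Δ ^ (2 * c + 7) * N P m) := Nat.mul_le_mul_right _ hdiag
      _ = 3 * N P j * N P m * (R * Δ ^ (2 * c + 7)) := by ring
      _ ≤ 3 * N P j * N P m * N P j := Nat.mul_le_mul_left _ hR
      _ = _ := by ring
  have h2 : cl * (Δ ^ (2 * c + 8) * N P m) ≤ Δ * (N P j ^ 2 * N P m) := by
    calc cl * (Δ ^ (2 * c + 8) * N P m) = Δ * N P m * (Δ ^ (2 * c + 7) * cl) := by ring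
      _ ≤ Δ * N P m * N P j ^ 2 := Nat.mul_le_mul_left _ hclose2
      _ = _ := by ring
  have h3 : Δ ^ (2 * c + 7) * S1 ≤ (3 + Δ + Δ ^ 2) * (N P j ^ 2 * N P m) := by
    calc Δ ^ (2 * c + 7) * S1 ≤ _ := hsum
      _ ≤ 3 * (N P j ^ 2 * N P m) + Δ * (N P j ^ 2 * N P m) + N P j ^ 2 * (Δ ^ 2 * N P m) := by
          omega
      _ = _ := by ring
  have h4 : Δ ^ 4 * (N P j ^ 2 * N P m) ≤ 4 * (3 + Δ + Δ ^ 2) * (N P j ^ 2 * N P m) := by
    calc Δ ^ 4 * (N P j ^ 2 * N P m) ≤ Δ ^ 4 * (4 * Δ ^ (2 * c + 3) * S1) :=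
          Nat.mul_le_mul_left _ hlow
      _ = 4 * (Δ ^ (2 * c + 7) * S1) := by ring
      _ ≤ 4 * ((3 + Δ + Δ ^ 2) * (N P j ^ 2 * N P m)) := Nat.mul_le_mul_left _ h3
      _ = _ := by ring
  have h5 : Δ ^ 4 ≤ 4 * (3 + Δ + Δ ^ 2) :=
    Nat.le_of_mul_le_mul_right h4 (by positivity)
  have h6 : 16 * Δ ^ 2 ≤ Δ ^ 4 := by
    calc 16 * Δ ^ 2 ≤ Δ ^ 2 * Δ ^ 2 := Nat.mul_le_mul_right _ (by nlinarith)
      _ = Δ ^ 4 := by ring
  nlinarith

theorem stepW (E : Env P y0 y k Δ a0) {j i c B R : ℕ} {V : Finset ℤ} (hV : VV P Δ k c V)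
    (hj1 : 1 ≤ j) (hjk : j ≤ k) (hij : i ≤ j) (hB1 : 1 ≤ B) (hB : 2 * B * y ^ (2 * i) ≤ y0 ^ j)
    (hNi : Δ ^ (2 * c + 9) ≤ N P i) (hR1 : 1 ≤ R) (hR : R * Δ ^ (2 * c + 7) ≤ N P j)
    (hRp : R ≤ Δ * ((Ioc R (4 * R)).filter Nat.Prime).card) :
    ∃ r w : ℕ, r.Prime ∧ R < r ∧ r ≤ 4 * R ∧ r ∣ w ∧ B ≤ w ∧ w ≤ y ^ j ∧
      nc w V ≤ Δ ^ (8 * c + 7) * N P j := by
  classical
  obtain ⟨m, rfl⟩ := Nat.exists_eq_add_of_le hjk
  obtain ⟨p, hp, r, hr, hrR, hr4, hrd, hBp, hY⟩ :=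
    StepW_exists E le_rfl hV.sub hV.dense hij hB1 hB hNi hR1 hR hRp
  obtain ⟨hp1, hp2⟩ := Finset.mem_product.1 hp
  have hΔ : 4 ≤ Δ := E.four_le
  have hu := A_le E.le hp1
  have hu' := A_le E.le hp2
  have hv := A_pos E.prime hp1
  have hv' := A_pos E.prime hp2
  have hb : 0 < N P m := E.Npos (by omega)
  have hk : 0 < N P (j + m) := E.Npos le_rfl
  set w := (p.1 - p.2).natAbs with hw
  have hwZ : (w : ℤ) = |p.1 - p.2| := by rw [hw, Int.natCast_natAbs]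
  have hBw : B ≤ w := by
    have : (B : ℤ) ≤ w := by rw [hwZ]; exact hBp
    exact_mod_cast this
  have hwy : w ≤ y ^ j := by
    have : (w : ℤ) ≤ (y : ℤ) ^ j := by
      rw [hwZ, abs_le]
      constructor <;> linarith
    exact_mod_cast this
  have hsub : (StepW_Y P m V p).image (fun t => (w : ℤ) * t) ⊆ V - V := by
    intro z hz
    obtain ⟨t, ht, rfl⟩ := Finset.mem_image.1 hz
    obtain ⟨_, ht1, ht2⟩ := Finset.mem_filter.1 ht
    rw [Finset.mem_sub]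
    rcases le_total p.2 p.1 with hle | hle
    · refine ⟨t * p.1, ht1, t * p.2, ht2, ?_⟩
      rw [hwZ, abs_of_nonneg (by linarith)]
      ring
    · refine ⟨t * p.2, ht2, t * p.1, ht1, ?_⟩
      rw [hwZ, abs_of_nonpos (by linarith)]
      ring
  have h1 : nc w V * (StepW_Y P m V p).card ≤ Δ ^ (6 * c) * N P (j + m) := by
    calc nc w V * (StepW_Y P m V p).card
        ≤ ((StepW_Y P m V p).image (fun t => (w : ℤ) * t) + V).card :=
          classes_mul (by omega) _ _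
      _ ≤ (V - V + V).card := Finset.card_le_card (Finset.add_subset_add_right hsub)
      _ ≤ _ := hV.tripling hk
  have h2 : N P m * nc w V ≤ N P m * (Δ ^ (8 * c + 6) * N P j) := by
    calc N P m * nc w V ≤ Δ ^ (2 * c + 6) * (StepW_Y P m V p).card * nc w V :=
          Nat.mul_le_mul_right _ hY
      _ = Δ ^ (2 * c + 6) * (nc w V * (StepW_Y P m V p).card) := by ring
      _ ≤ Δ ^ (2 * c + 6) * (Δ ^ (6 * c) * N P (j + m)) := Nat.mul_le_mul_left _ h1
      _ ≤ Δ ^ (2 * c + 6) * (Δ ^ (6 * c) * (N P j * N P m)) :=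
          Nat.mul_le_mul_left _ (Nat.mul_le_mul_left _ (N_add_le j m))
      _ = _ := by ring
  have h3 : nc w V ≤ Δ ^ (8 * c + 6) * N P j := Nat.le_of_mul_le_mul_left h2 hb
  refine ⟨r, w, hr, hrR, hr4, Int.natCast_dvd.1 hrd, hBw, hwy, h3.trans ?_⟩
  exact Nat.mul_le_mul_right _ (Nat.pow_le_pow_right (by omega) (by omega))

end Pool.Agent.helper41.EX
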