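import Pool.Agent.helper41.EX.Fibre
import Pool.Agent.helper41.EX.Regular
import Pool.Agent.helper41.EX.CovCalc

/-! # EXS-StructS: the approximate group `D` and many dilates in `Cov` -/

namespace Pool.Agent.helper41.EX

open Finset
open scoped Pointwise

variable {P : Finset ℕ} {y0 y k Δ a0 : ℕ}

/-- abstract double counting: a vertex `x0` sharing many popular neighbours with many `x` -/
theorem star {α β : Type*} [DecidableEq α] [DecidableEq β] (X : Finset α) (Y : Finset β)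
    (r : α → β → Prop) [DecidableRel r] {n Q T : ℕ} (hX : X.card = n) (hY : Y.card = n)
    (hn : 0 < n) (hE : n * n ≤ Q * ∑ v ∈ Y, (X.filter (fun x => r x v)).card)
    (hT : 8 * Q ^ 2 ≤ T) :
    ∃ Z : Finset β, Z ⊆ Y ∧ (∀ v ∈ Z, n ≤ 2 * Q * (X.filter (fun x => r x v)).card) ∧
      ∃ x0 ∈ X, n ≤ T * (X.filter (fun x => n ≤
        T * ((Z.filter (fun v => r x0 v)) ∩ (Z.filter (fun v => r x v))).card)).card := by
  classical
  set d : β → ℕ := fun v => (X.filter (fun x => r x v)).card with hd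
  set e : ℕ := ∑ v ∈ Y, d v with he
  set Z : Finset β := Y.filter (fun v => e ≤ 2 * n * d v) with hZ
  have hZY : Z ⊆ Y := filter_subset _ _
  have hZn : Z.card ≤ n := hY ▸ card_le_card hZY
  have h1 : e ≤ 2 * ∑ v ∈ Z, d v := by
    have hs : ∑ v ∈ Z, d v + ∑ v ∈ Y.filter (fun v => ¬ e ≤ 2 * n * d v), d v = e := by
      rw [hZ, sum_filter_add_sum_filter_not]
    have h2 : n * (2 * ∑ v ∈ Y.filter (fun v => ¬ e ≤ 2 * n * d v), d v) ≤ n * e := by
      calc n * (2 * ∑ v ∈ Y.filter (fun v => ¬ e ≤ 2 * n * d v), d v)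
          = ∑ v ∈ Y.filter (fun v => ¬ e ≤ 2 * n * d v), 2 * n * d v := by
            rw [mul_sum, mul_sum]
            exact sum_congr rfl fun v _ => by ring
        _ ≤ ∑ _v ∈ Y.filter (fun v => ¬ e ≤ 2 * n * d v), e :=
            sum_le_sum fun v hv => le_of_lt (not_le.mp (mem_filter.mp hv).2)
        _ = (Y.filter (fun v => ¬ e ≤ 2 * n * d v)).card * e := by
            rw [sum_const, smul_eq_mul]
        _ ≤ n * e := Nat.mul_le_mul_right _ (hY ▸ card_le_card (filter_subset _ _))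
    have h3 := Nat.le_of_mul_le_mul_left h2 hn
    omega
  set F : α → Finset β := fun x => Z.filter (fun v => r x v) with hF
  have hFc : ∀ x x' : α, ((F x) ∩ (F x')).card =
      ∑ v ∈ Z, (if r x v then 1 else 0) * (if r x' v then 1 else 0) := by
    intro x x'
    rw [hF]
    simp only
    rw [← filter_and, card_filter]
    refine sum_congr rfl fun v _ => ?_
    by_cases h1 : r x v <;> by_cases h2 : r x' v <;> simp [h1, h2]
  have hdd : ∀ v, d v = ∑ x ∈ X, (if r x v then 1 else 0) := by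
    intro v
    rw [hd]
    simp only
    rw [card_filter]
  have h3 : ∑ v ∈ Z, d v ^ 2 = ∑ x ∈ X, ∑ x' ∈ X, ((F x) ∩ (F x')).card := by
    calc ∑ v ∈ Z, d v ^ 2 = ∑ v ∈ Z, ∑ x ∈ X, ∑ x' ∈ X,
          (if r x v then 1 else 0) * (if r x' v then 1 else 0) := by
          refine sum_congr rfl fun v _ => ?_
          rw [hdd v, sq, sum_mul_sum]
      _ = ∑ x ∈ X, ∑ x' ∈ X, ((F x) ∩ (F x')).card := by
          rw [sum_comm]
          refine sum_congr rfl fun x _ => ?_
          rw [sum_comm]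
          refine sum_congr rfl fun x' _ => ?_
          rw [hFc]
  have h2 : (∑ v ∈ Z, d v) ^ 2 ≤ Z.card * ∑ v ∈ Z, d v ^ 2 := sq_sum_le_card_mul_sum_sq
  set S : α → ℕ := fun x => ∑ x' ∈ X, ((F x) ∩ (F x')).card with hS
  have h4 : ∃ x0 ∈ X, ∑ x ∈ X, S x ≤ n * S x0 := by
    by_contra hcon
    push Not at hcon
    have hXne : X.Nonempty := card_pos.mp (hX ▸ hn)
    have h5 : ∑ x ∈ X, n * S x < ∑ _x ∈ X, ∑ x' ∈ X, S x' :=
      sum_lt_sum_of_nonempty hXne fun x hx => hcon x hx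
    rw [← mul_sum, sum_const, smul_eq_mul, hX] at h5
    exact lt_irrefl _ h5
  obtain ⟨x0, hx0, h5⟩ := h4
  refine ⟨Z, hZY, ?_, x0, hx0, ?_⟩
  · intro v hv
    have hv2 := (mem_filter.mp hv).2
    have h6 : n * n ≤ n * (2 * Q * d v) := by
      calc n * n ≤ Q * e := hE
        _ ≤ Q * (2 * n * d v) := Nat.mul_le_mul_left _ hv2
        _ = n * (2 * Q * d v) := by ring
    exact Nat.le_of_mul_le_mul_left h6 hn
  · set X0 : Finset α := X.filter (fun x => n ≤ T * ((F x0) ∩ (F x)).card) with hX0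
    have h6 : e ^ 2 ≤ 4 * n ^ 2 * S x0 := by
      calc e ^ 2 ≤ (2 * ∑ v ∈ Z, d v) ^ 2 := Nat.pow_le_pow_left h1 2
        _ = 4 * (∑ v ∈ Z, d v) ^ 2 := by ring
        _ ≤ 4 * (Z.card * ∑ v ∈ Z, d v ^ 2) := Nat.mul_le_mul_left _ h2
        _ ≤ 4 * (n * (n * S x0)) := by
            refine Nat.mul_le_mul_left _ (Nat.mul_le_mul hZn ?_)
            rw [h3]
            exact h5
        _ = 4 * n ^ 2 * S x0 := by ring
    have h7 : n ^ 2 ≤ 4 * Q ^ 2 * S x0 := by
      have h8 : n ^ 2 * n ^ 2 ≤ n ^ 2 * (4 * Q ^ 2 * S x0) := by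
        calc n ^ 2 * n ^ 2 = (n * n) ^ 2 := by ring
          _ ≤ (Q * e) ^ 2 := Nat.pow_le_pow_left hE 2
          _ = Q ^ 2 * e ^ 2 := by ring
          _ ≤ Q ^ 2 * (4 * n ^ 2 * S x0) := Nat.mul_le_mul_left _ h6
          _ = n ^ 2 * (4 * Q ^ 2 * S x0) := by ring
      exact Nat.le_of_mul_le_mul_left h8 (by positivity)
    have hs : ∑ x ∈ X0, ((F x0) ∩ (F x)).card +
        ∑ x ∈ X.filter (fun x => ¬ n ≤ T * ((F x0) ∩ (F x)).card), ((F x0) ∩ (F x)).card
          = S x0 := by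
      rw [hX0, sum_filter_add_sum_filter_not]
    have h8 : ∑ x ∈ X0, ((F x0) ∩ (F x)).card ≤ X0.card * n := by
      calc ∑ x ∈ X0, ((F x0) ∩ (F x)).card ≤ ∑ _x ∈ X0, n := by
            refine sum_le_sum fun x _ => ?_
            refine le_trans (card_le_card ?_) hZn
            exact inter_subset_left.trans (filter_subset _ _)
        _ = X0.card * n := by rw [sum_const, smul_eq_mul]
    have h9 : T * ∑ x ∈ X.filter (fun x => ¬ n ≤ T * ((F x0) ∩ (F x)).card),
        ((F x0) ∩ (F x)).card ≤ n * n := by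
      calc T * ∑ x ∈ X.filter (fun x => ¬ n ≤ T * ((F x0) ∩ (F x)).card), ((F x0) ∩ (F x)).card
          = ∑ x ∈ X.filter (fun x => ¬ n ≤ T * ((F x0) ∩ (F x)).card),
              T * ((F x0) ∩ (F x)).card := mul_sum _ _ _
        _ ≤ ∑ _x ∈ X.filter (fun x => ¬ n ≤ T * ((F x0) ∩ (F x)).card), n :=
            sum_le_sum fun x hx => le_of_lt (not_le.mp (mem_filter.mp hx).2)
        _ = (X.filter (fun x => ¬ n ≤ T * ((F x0) ∩ (F x)).card)).card * n := by
            rw [sum_const, smul_eq_mul]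
        _ ≤ n * n := Nat.mul_le_mul_right _ (hX ▸ card_le_card (filter_subset _ _))
    have h10 : n * (n + n) ≤ n * (T * X0.card + n) := by
      calc n * (n + n) = 2 * n ^ 2 := by ring
        _ ≤ 2 * (4 * Q ^ 2 * S x0) := Nat.mul_le_mul_left _ h7
        _ = 8 * Q ^ 2 * S x0 := by ring
        _ ≤ T * S x0 := Nat.mul_le_mul_right _ hT
        _ = T * ∑ x ∈ X0, ((F x0) ∩ (F x)).card +
            T * ∑ x ∈ X.filter (fun x => ¬ n ≤ T * ((F x0) ∩ (F x)).card),
              ((F x0) ∩ (F x)).card := by rw [← hs]; ring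
        _ ≤ T * (X0.card * n) + n * n := Nat.add_le_add (Nat.mul_le_mul_left _ h8) h9
        _ = n * (T * X0.card + n) := by ring
    have h11 := Nat.le_of_mul_le_mul_left h10 hn
    omega

/-- the elements of `Y` act as units -/
theorem isUnit_cast {w : ℕ} {x : ℤ} (h : IsCoprime x (w : ℤ)) : IsUnit (x : ZMod w) :=
  (ZMod.coe_int_isUnit_iff_isCoprime x w).mpr h.symm

theorem structS (E : Env P y0 y k Δ a0) {m c w : ℕ} (hm : 2 * m ≤ k) (hw : 1 ≤ w)
    {V : Finset ℤ} (hV : VV P Δ (2 * m) c V) (hcop : CopTo V w) (K0 : ℕ) (hK01 : 1 ≤ K0)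
    (hK0 : ∀ Y : Finset ℤ, VV P Δ m (7 * c + 7) Y → CopTo Y w → nc w V ≤ K0 * nc w Y) :
    ∃ (V' Y0 X0 : Finset ℤ) (x0 : ℤ) (D : Finset (ZMod w)) (u s : ZMod w),
      V' ⊆ V ∧ N P (2 * m) ≤ Δ ^ (c + 1) * V'.card ∧
      VV P Δ m (7 * c + 7) Y0 ∧ CopTo Y0 w ∧ (∀ d : ℕ, d ∣ w → nc d Y0 ≤ nc d V') ∧
      IsCoprime x0 (w : ℤ) ∧ X0 ⊆ A P m ∧ N P m ≤ Δ ^ (2 * c + 6) * X0.card ∧ CopTo X0 w ∧
      AG D (Δ ^ (10 * c + 10)) ∧ D.card ≤ Δ ^ (2 * c + 2) * nc w V ∧
      IsUnit u ∧ (∀ v ∈ V', u * (v : ZMod w) - s ∈ D) ∧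
      ∀ x ∈ X0, Cov D (Δ ^ (18 * c + 18) * K0 ^ 2) ((x0 : ZMod w) * (x : ZMod w)⁻¹) := by
  classical
  have hΔ4 : 4 ≤ Δ := E.four_le
  have hΔ1 : 1 ≤ Δ := le_trans (by norm_num) hΔ4
  have hΔ0 : 0 < Δ := hΔ1
  have hmk : m ≤ k := by omega
  have hmm : m + m ≤ k := by omega
  have hNm : 0 < N P m := E.Npos hmk
  have hN2 : 0 < N P (2 * m) := E.Npos hm
  have hcardA := card_A E.prime
  have hVne : V.Nonempty := VV.nonempty hN2 hV
  -- step 1
  obtain ⟨V', hV'V, hV'ne, hV'card, hreg⟩ := regularize hw V hVne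
  have hy1 : 1 ≤ y := by
    obtain ⟨p, hp⟩ : P.Nonempty := by
      rw [← card_pos]
      have := E.two_k
      have := E.k_pos
      omega
    exact le_trans (E.prime p hp).one_lt.le (E.le p hp)
  have hlog : Nat.log 2 V.card + 1 ≤ Δ := by
    refine le_trans (Nat.add_le_add_right (Nat.log_mono_right ?_) 1) E.logs
    calc V.card ≤ (A P (2 * m)).card := card_le_card hV.sub
      _ = N P (2 * m) := hcardA _
      _ ≤ y ^ (2 * m) := E.N_le _
      _ ≤ y ^ k := Nat.pow_le_pow_right hy1 hm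
  have hVV' : V.card ≤ Δ * V'.card := le_trans hV'card (Nat.mul_le_mul_right _ hlog)
  have hdense' : N P (2 * m) ≤ Δ ^ (c + 1) * V'.card := by
    calc N P (2 * m) ≤ Δ ^ c * V.card := hV.dense
      _ ≤ Δ ^ c * (Δ * V'.card) := Nat.mul_le_mul_left _ hVV'
      _ = Δ ^ (c + 1) * V'.card := by ring
  have hV'pos : 0 < V'.card := card_pos.mpr hV'ne
  set H : Finset (ZMod w) := V'.image (fun v : ℤ => (v : ZMod w)) with hH
  have hHnc : H.card = nc w V' := rfl
  have hHH : (H - H).card ≤ Δ ^ (2 * c + 2) * H.card := by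
    have h1 : (H - H).card * V'.card ≤ Δ ^ (2 * c + 2) * H.card * V'.card := by
      calc (H - H).card * V'.card ≤ 2 * nc w V' * (V - V).card := hreg
        _ ≤ 2 * nc w V' * (Δ ^ c * N P (2 * m)) := Nat.mul_le_mul_left _ hV.dbl
        _ ≤ 2 * nc w V' * (Δ ^ c * (Δ ^ (c + 1) * V'.card)) :=
            Nat.mul_le_mul_left _ (Nat.mul_le_mul_left _ hdense')
        _ = 2 * (Δ ^ (2 * c + 1) * nc w V' * V'.card) := by ring
        _ ≤ Δ * (Δ ^ (2 * c + 1) * nc w V' * V'.card) := Nat.mul_le_mul_right _ (by omega)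
        _ = Δ ^ (2 * c + 2) * H.card * V'.card := by rw [hHnc]; ring
    exact Nat.le_of_mul_le_mul_right h1 hV'pos
  -- step 2
  have hsub2 : V' ⊆ A P (m + m) := by
    rw [← two_mul]
    exact hV'V.trans hV.sub
  have hdense2 : N P (m + m) ≤ Δ ^ (c + 1) * V'.card := by
    rw [← two_mul]
    exact hdense'
  have hed := edges_dense E hmm hsub2 hdense2
  have hedsum : (edges P m m V').card =
      ∑ v ∈ A P m, ((A P m).filter (fun x => x * v ∈ V')).card := by
    rw [card_eq_sum_card_fiberwise (f := Prod.snd) (t := A P m)]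
    · refine sum_congr rfl fun v hv => ?_
      have h1 := edges_filter_snd (V := V') (j := m) hv
      rw [h1]
      unfold fib
      congr 1
      refine filter_congr fun x _ => ?_
      rw [mul_comm]
    · intro e he
      exact (mem_product.mp (mem_filter.mp (mem_coe.mp he)).1).2
  have hE' : N P m * N P m ≤ Δ ^ (c + 2) *
      ∑ v ∈ A P m, ((A P m).filter (fun x => x * v ∈ V')).card := by
    rw [← hedsum]
    exact hed
  have hT : 8 * (Δ ^ (c + 2)) ^ 2 ≤ Δ ^ (2 * c + 6) := by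
    calc 8 * (Δ ^ (c + 2)) ^ 2 ≤ (4 * 4) * (Δ ^ (c + 2)) ^ 2 :=
          Nat.mul_le_mul_right _ (by norm_num)
      _ ≤ (Δ * Δ) * (Δ ^ (c + 2)) ^ 2 := Nat.mul_le_mul_right _ (Nat.mul_le_mul hΔ4 hΔ4)
      _ = Δ ^ (2 * c + 6) := by ring
  obtain ⟨Z, hZA, hZdeg, x0, hx0, hX0c⟩ := star (A P m) (A P m) (fun x v => x * v ∈ V')
    (hcardA m) (hcardA m) hNm hE' hT
  set F : ℤ → Finset ℤ := fun x => Z.filter (fun v => x * v ∈ V') with hF
  set X0 : Finset ℤ := (A P m).filter (fun x => N P m ≤ Δ ^ (2 * c + 6) *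
    ((F x0) ∩ (F x)).card) with hX0
  have hX0c' : N P m ≤ Δ ^ (2 * c + 6) * X0.card := hX0c
  have hX0ne : X0.Nonempty := by
    rw [← card_pos]
    by_contra h
    have h0 : X0.card = 0 := by omega
    rw [h0] at hX0c'
    omega
  have hYne : ∀ x ∈ X0, ((F x0) ∩ (F x)).Nonempty := by
    intro x hx
    rw [← card_pos]
    by_contra h
    have h0 : ((F x0) ∩ (F x)).card = 0 := by omega
    have h1 := (mem_filter.mp hx).2
    rw [h0] at h1
    omega
  -- coprimality
  have hcopV' : ∀ v ∈ V', IsCoprime v (w : ℤ) := fun v hv => hcop v (hV'V hv)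
  have hx0cop : IsCoprime x0 (w : ℤ) := by
    obtain ⟨x1, hx1⟩ := hX0ne
    obtain ⟨v, hv⟩ := hYne x1 hx1
    have h1 := (mem_filter.mp (mem_inter.mp hv).1).2
    exact (hcopV' _ h1).of_mul_left_left
  have hX0cop : CopTo X0 w := by
    intro x hx
    obtain ⟨v, hv⟩ := hYne x hx
    have h1 := (mem_filter.mp (mem_inter.mp hv).2).2
    exact (hcopV' _ h1).of_mul_left_left
  have hYcop : ∀ x, CopTo ((F x0) ∩ (F x)) w := by
    intro x v hv
    have h1 := (mem_filter.mp (mem_inter.mp hv).1).2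
    exact (hcopV' _ h1).of_mul_left_right
  -- step 3
  have hfibd : (fib P m V' x0 - fib P m V' x0).card ≤ Δ ^ (7 * c + 7) * N P m := by
    obtain ⟨x1, hx1⟩ := hX0ne
    obtain ⟨v, hv⟩ := hYne x1 hx1
    have hv1 := mem_filter.mp (mem_inter.mp hv).1
    have hvA : v ∈ A P m := hZA hv1.1
    have h1 : N P m ≤ 4 * Δ ^ (c + 3) * nc x0.toNat V' := by
      have h2 := hZdeg v hv1.1
      have h3 : ((A P m).filter (fun x => x * v ∈ V')).card = (fib P m V' v).card := by
        unfold fib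
        congr 1
        refine filter_congr fun x _ => ?_
        rw [mul_comm]
      rw [h3] at h2
      have h4 := nc_ge_of_neighbour E hmm hsub2 hx0 hvA hv1.2
      calc N P m ≤ 2 * Δ ^ (c + 2) * (fib P m V' v).card := h2
        _ ≤ 2 * Δ ^ (c + 2) * (2 * Δ * nc x0.toNat V') := Nat.mul_le_mul_left _ h4
        _ = 4 * Δ ^ (c + 3) * nc x0.toNat V' := by ring
    have h5 := fib_sub_fib (m := m) E.prime (V := V') hx0
    have h6 : (V' - V' + V').card ≤ Δ ^ (6 * c + 3) * (N P m * N P m) := by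
      have h7 : (V' - V').card ≤ Δ ^ (2 * c + 1) * V'.card := by
        calc (V' - V').card ≤ (V - V).card := card_le_card (sub_subset_sub hV'V hV'V)
          _ ≤ Δ ^ c * N P (2 * m) := hV.dbl
          _ ≤ Δ ^ c * (Δ ^ (c + 1) * V'.card) := Nat.mul_le_mul_left _ hdense'
          _ = Δ ^ (2 * c + 1) * V'.card := by ring
      have h8 : (V' - V' + V').card * V'.card ^ 2 ≤ Δ ^ (6 * c + 3) * V'.card * V'.card ^ 2 := by
        calc (V' - V' + V').card * V'.card ^ 2 ≤ (V' - V').card ^ 3 := plun V'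
          _ ≤ (Δ ^ (2 * c + 1) * V'.card) ^ 3 := Nat.pow_le_pow_left h7 3
          _ = Δ ^ (6 * c + 3) * V'.card * V'.card ^ 2 := by ring
      have h9 := Nat.le_of_mul_le_mul_right h8 (by positivity)
      refine le_trans h9 (Nat.mul_le_mul_left _ ?_)
      calc V'.card ≤ (A P (m + m)).card := card_le_card hsub2
        _ = N P (m + m) := hcardA _
        _ ≤ N P m * N P m := N_add_le m m
    have h10 : (fib P m V' x0 - fib P m V' x0).card * N P m ≤
        Δ ^ (7 * c + 7) * N P m * N P m := by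
      calc (fib P m V' x0 - fib P m V' x0).card * N P m
          ≤ (fib P m V' x0 - fib P m V' x0).card * (4 * Δ ^ (c + 3) * nc x0.toNat V') :=
            Nat.mul_le_mul_left _ h1
        _ = 4 * Δ ^ (c + 3) * (nc x0.toNat V' * (fib P m V' x0 - fib P m V' x0).card) := by
            ring
        _ ≤ 4 * Δ ^ (c + 3) * (Δ ^ (6 * c + 3) * (N P m * N P m)) :=
            Nat.mul_le_mul_left _ (le_trans h5 h6)
        _ = 4 * (Δ ^ (7 * c + 6) * N P m * N P m) := by ring
        _ ≤ Δ * (Δ ^ (7 * c + 6) * N P m * N P m) := Nat.mul_le_mul_right _ hΔ4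
        _ = Δ ^ (7 * c + 7) * N P m * N P m := by ring
    exact Nat.le_of_mul_le_mul_right h10 hNm
  have hFfib : ∀ x, (F x) ⊆ fib P m V' x := by
    intro x v hv
    have h1 := mem_filter.mp hv
    exact mem_filter.mpr ⟨hZA h1.1, h1.2⟩
  have hYVV : ∀ x ∈ X0, VV P Δ m (7 * c + 7) ((F x0) ∩ (F x)) := by
    intro x hx
    refine ⟨?_, ?_, ?_⟩
    · exact (inter_subset_left.trans (filter_subset _ _)).trans hZA
    · refine le_trans (mem_filter.mp hx).2 (Nat.mul_le_mul_right _ ?_)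
      exact Nat.pow_le_pow_right hΔ0 (by omega)
    · refine le_trans (card_le_card ?_) hfibd
      have h1 : (F x0) ∩ (F x) ⊆ fib P m V' x0 := inter_subset_left.trans (hFfib x0)
      exact sub_subset_sub h1 h1
  -- step 4
  have hu0 : IsUnit (x0 : ZMod w) := isUnit_cast hx0cop
  set u : ZMod w := (x0 : ZMod w)⁻¹ with hu
  have hux : (x0 : ZMod w) * u = 1 := ZMod.mul_inv_of_unit _ hu0
  have huu : IsUnit u := IsUnit.of_mul_eq_one (x0 : ZMod w) (by rw [mul_comm]; exact hux)
  set G : Finset (ZMod w) := H.image (fun h => u * h) with hG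
  have hinj : Function.Injective (fun h : ZMod w => u * h) := huu.mul_right_injective
  have hGcard : G.card = H.card := card_image_of_injective _ hinj
  have hGG : (G - G).card = (H - H).card := by
    have h1 : G - G = (H - H).image (fun h => u * h) := by
      ext z
      simp only [hG, mem_sub, mem_image]
      constructor
      · rintro ⟨_, ⟨a, ha, rfl⟩, _, ⟨b, hb, rfl⟩, rfl⟩
        exact ⟨a - b, ⟨a, ha, b, hb, rfl⟩, by ring⟩
      · rintro ⟨_, ⟨a, ha, b, hb, rfl⟩, rfl⟩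
        exact ⟨u * a, ⟨a, ha, rfl⟩, u * b, ⟨b, hb, rfl⟩, by ring⟩
    rw [h1]
    exact card_image_of_injective _ hinj
  have hGne : G.Nonempty := (hV'ne.image _).image _
  have hGle : (G - G).card ≤ Δ ^ (2 * c + 2) * G.card := by
    rw [hGG, hGcard]
    exact hHH
  have hAG : AG (G - G) (Δ ^ (10 * c + 10)) := by
    have h1 := AG_of_sub hGne hGle
    have h2 : (Δ ^ (2 * c + 2)) ^ 5 = Δ ^ (10 * c + 10) := by ring
    rw [h2] at h1
    exact h1
  have hncV : nc w V' ≤ nc w V := nc_mono hV'V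
  have hDcard : (G - G).card ≤ Δ ^ (2 * c + 2) * nc w V := by
    refine le_trans hGle (Nat.mul_le_mul_left _ ?_)
    rw [hGcard, hHnc]
    exact hncV
  have hmemG : ∀ v ∈ V', u * (v : ZMod w) ∈ G := fun v hv =>
    mem_image_of_mem _ (mem_image_of_mem _ hv)
  have hGne2 := hGne
  obtain ⟨s, hs⟩ := hGne2
  obtain ⟨x1, hx1⟩ := hX0ne
  refine ⟨V', (F x0) ∩ (F x1), X0, x0, G - G, u, s, hV'V, hdense', hYVV x1 hx1, hYcop x1, ?_,
    hx0cop, filter_subset _ _, hX0c', hX0cop, hAG, hDcard, huu, ?_, ?_⟩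
  · intro d hd
    have hx0d : IsCoprime x0 (d : ℤ) := by
      refine hx0cop.of_isCoprime_of_dvd_right ?_
      exact_mod_cast hd
    rw [← nc_image_mul hx0d]
    refine nc_mono ?_
    intro z hz
    obtain ⟨v, hv, rfl⟩ := mem_image.mp hz
    exact (mem_filter.mp (mem_inter.mp hv).1).2
  · intro v hv
    exact sub_mem_sub (hmemG v hv) hs
  · intro x hx
    set ξ : ZMod w := (x0 : ZMod w) * (x : ZMod w)⁻¹ with hξ
    have hxu : (x : ZMod w) * (x : ZMod w)⁻¹ = 1 :=
      ZMod.mul_inv_of_unit _ (isUnit_cast (hX0cop x hx))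
    set Yx : Finset ℤ := (F x0) ∩ (F x) with hYx
    set B : Finset (ZMod w) := Yx.image (fun v : ℤ => (v : ZMod w)) with hB
    have hBnc : B.card = nc w Yx := rfl
    have hBpos : 0 < B.card := card_pos.mpr ((hYne x hx).image _)
    have hBG : B ⊆ G := by
      intro z hz
      obtain ⟨v, hv, rfl⟩ := mem_image.mp hz
      have h1 := (mem_filter.mp (mem_inter.mp hv).1).2
      have h2 := hmemG _ h1
      have h3 : u * ((x0 * v : ℤ) : ZMod w) = (v : ZMod w) := by
        push_cast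
        rw [← mul_assoc, mul_comm u, hux, one_mul]
      rw [h3] at h2
      exact h2
    have hBξ : B ⊆ G.image (fun g => ξ * g) := by
      intro z hz
      obtain ⟨v, hv, rfl⟩ := mem_image.mp hz
      have h1 := (mem_filter.mp (mem_inter.mp hv).2).2
      refine mem_image.mpr ⟨_, hmemG _ h1, ?_⟩
      push_cast
      calc ξ * (u * ((x : ZMod w) * (v : ZMod w)))
          = ((x0 : ZMod w) * u) * ((x : ZMod w) * (x : ZMod w)⁻¹) * (v : ZMod w) := by
            rw [hξ]; ring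
        _ = (v : ZMod w) := by rw [hux, hxu]; ring
    have hξG : (G.image (fun g => ξ * g) - G.image (fun g => ξ * g)).card ≤ (G - G).card := by
      have h1 : G.image (fun g => ξ * g) - G.image (fun g => ξ * g) ⊆
          (G - G).image (fun g => ξ * g) := by
        intro z hz
        obtain ⟨a, ha, b, hb, rfl⟩ := mem_sub.mp hz
        obtain ⟨a', ha', rfl⟩ := mem_image.mp ha
        obtain ⟨b', hb', rfl⟩ := mem_image.mp hb
        exact mem_image.mpr ⟨a' - b', sub_mem_sub ha' hb', by ring⟩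
      exact le_trans (card_le_card h1) card_image_le
    have htri := ruzsa_triangle_inequality_sub_sub_sub G B (G.image (fun g => ξ * g))
    have hGK : G.card ≤ K0 * B.card := by
      rw [hGcard, hHnc, hBnc]
      exact le_trans hncV (hK0 _ (hYVV x hx) (hYcop x))
    have hmain : (G - G.image (fun g => ξ * g)).card ≤ (Δ ^ (4 * c + 4) * K0) * G.card := by
      have h1 : (G - G.image (fun g => ξ * g)).card * B.card ≤
          (Δ ^ (4 * c + 4) * K0) * G.card * B.card := by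
        calc (G - G.image (fun g => ξ * g)).card * B.card
            ≤ (G - B).card * (G.image (fun g => ξ * g) - B).card := htri
          _ ≤ (G - G).card * (G.image (fun g => ξ * g) - G.image (fun g => ξ * g)).card :=
              Nat.mul_le_mul (card_le_card (sub_subset_sub_left hBG))
                (card_le_card (sub_subset_sub_left hBξ))
          _ ≤ (G - G).card * (G - G).card := Nat.mul_le_mul_left _ hξG
          _ ≤ (Δ ^ (2 * c + 2) * G.card) * (Δ ^ (2 * c + 2) * G.card) :=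
              Nat.mul_le_mul hGle hGle
          _ = Δ ^ (4 * c + 4) * G.card * G.card := by ring
          _ ≤ Δ ^ (4 * c + 4) * G.card * (K0 * B.card) := Nat.mul_le_mul_left _ hGK
          _ = (Δ ^ (4 * c + 4) * K0) * G.card * B.card := by ring
      exact Nat.le_of_mul_le_mul_right h1 hBpos
    have h2 := Cov_of_sub hGne hAG hmain
    have h3 : (Δ ^ (4 * c + 4) * K0) ^ 2 * Δ ^ (10 * c + 10) =
        Δ ^ (18 * c + 18) * K0 ^ 2 := by ring
    rw [h3] at h2
    exact h2

end Pool.Agent.helper41.EX
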